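import Mathlib

/-!
A generic version of the Nash-Williams accept/reject argument, over the tree `List ℕ`.
-/

namespace Pool.Agent.V11243.NamesNW

open Stream'

/-- strict end-extension -/
def Lt (v w : List ℕ) : Prop := v <+: w ∧ v.length < w.length

def Le (B A : List ℕ → List ℕ → Prop) : Prop := ∀ η u, B η u → ∃ v, v <+: u ∧ A η v

def Nm (A : List ℕ → List ℕ → Prop) : Prop := ∀ η v, A η v → η <+: v

def Dn (A : List ℕ → List ℕ → Prop) (z : List ℕ) : Prop :=
  ∀ w, z <+: w → ∃ η v, A η v ∧ w <+: η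

/-- infinite `A`-chains above `z` -/
def Ch (A : List ℕ → List ℕ → Prop) (z : List ℕ) (c : Stream' (List ℕ)) : Prop :=
  z <+: c 0 ∧ ∀ k, ∃ v, A (c k) v ∧ Lt v (c (k+1))

def Acc (O : Set (Stream' (List ℕ))) (s : List (List ℕ)) (z : List ℕ)
    (A : List ℕ → List ℕ → Prop) : Prop :=
  ∀ c, Ch A z c → (s ++ₛ c) ∈ O

def Rej (O : Set (Stream' (List ℕ))) (s : List (List ℕ)) (z : List ℕ)
    (A : List ℕ → List ℕ → Prop) : Prop :=
  ∀ z', z <+: z' → ∀ B, Nm B → Le B A → Dn B z' → ¬ Acc O s z' B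

theorem Le.refl (A) : Le A A := fun _ u h => ⟨u, List.prefix_rfl, h⟩

theorem Le.trans {A B C} (h1 : Le A B) (h2 : Le B C) : Le A C := by
  intro η u h
  obtain ⟨v, hv, hB⟩ := h1 η u h
  obtain ⟨w, hw, hC⟩ := h2 η v hB
  exact ⟨w, hw.trans hv, hC⟩

theorem Ch.mono {A B} (hle : Le B A) {z z' : List ℕ} (hz : z <+: z') {c} (hc : Ch B z' c) :
    Ch A z c := by
  refine ⟨hz.trans hc.1, fun k => ?_⟩
  obtain ⟨u, hu, hlt⟩ := hc.2 k
  obtain ⟨v, hv, hA⟩ := hle _ _ hu
  exact ⟨v, hA, hv.trans hlt.1, lt_of_le_of_lt hv.length_le hlt.2⟩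

theorem Acc.mono {O s A B} {z z' : List ℕ} (h : Acc O s z A) (hle : Le B A) (hz : z <+: z') :
    Acc O s z' B := fun c hc => h c (hc.mono hle hz)

theorem Rej.mono {O s A B} {z z' : List ℕ} (h : Rej O s z A) (hle : Le B A) (hz : z <+: z') :
    Rej O s z' B := fun z'' hz'' C hN hC hD => h z'' (hz.trans hz'') C hN (hC.trans hle) hD

/-- elements of a chain are above the base -/
theorem Ch.above {A} (hN : Nm A) {z : List ℕ} {c} (hc : Ch A z c) (k : ℕ) : z <+: c k := by
  induction k with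
  | zero => exact hc.1
  | succ k ih =>
    obtain ⟨v, hv, hlt⟩ := hc.2 k
    exact ih.trans ((hN _ _ hv).trans hlt.1)

theorem decide_one {A} (hN : Nm A) (hD : Dn A []) (O : Set (Stream' (List ℕ)))
    (s : List (List ℕ)) (z : List ℕ) :
    ∃ B z', Le B A ∧ Nm B ∧ Dn B [] ∧ z <+: z' ∧ (Acc O s z' B ∨ Rej O s z' B) := by
  classical
  by_cases hR : Rej O s z A
  · exact ⟨A, z, Le.refl A, hN, hD, List.prefix_rfl, Or.inr hR⟩
  · unfold Rej at hR
    push Not at hR
    obtain ⟨z', hz', B0, hN0, hle0, hD0, hacc⟩ := hR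
    refine ⟨fun η v => if z' <+: η then B0 η v else A η v, z', ?_, ?_, ?_, hz', Or.inl ?_⟩
    · intro η u h
      by_cases hp : z' <+: η
      · simp only [hp, if_true] at h
        exact hle0 _ _ h
      · simp only [hp, if_false] at h
        exact ⟨u, List.prefix_rfl, h⟩
    · intro η v h
      by_cases hp : z' <+: η
      · simp only [hp, if_true] at h
        exact hN0 _ _ h
      · simp only [hp, if_false] at h
        exact hN _ _ h
    · intro w _
      by_cases h1 : z' <+: w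
      · obtain ⟨η, v, hB, hw⟩ := hD0 w h1
        refine ⟨η, v, ?_, hw⟩
        simp only [h1.trans hw, if_true]
        exact hB
      · by_cases h2 : w <+: z'
        · obtain ⟨η, v, hB, hw⟩ := hD0 z' List.prefix_rfl
          refine ⟨η, v, ?_, h2.trans hw⟩
          simp only [hw, if_true]
          exact hB
        · obtain ⟨η, v, hA, hw⟩ := hD w (List.nil_prefix)
          refine ⟨η, v, ?_, hw⟩
          have : ¬ z' <+: η := by
            intro h3
            rcases List.prefix_or_prefix_of_prefix h3 hw with h | h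
            · exact h1 h
            · exact h2 h
          simp only [this, if_false]
          exact hA
    · intro c hc
      have hN' : Nm (fun η v => if z' <+: η then B0 η v else A η v) := by
        intro η v h
        by_cases hp : z' <+: η
        · simp only [hp, if_true] at h
          exact hN0 _ _ h
        · simp only [hp, if_false] at h
          exact hN _ _ h
      apply hacc
      refine ⟨hc.1, fun k => ?_⟩
      obtain ⟨v, hv, hlt⟩ := hc.2 k
      have := hc.above hN' k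
      simp only [this, if_true] at hv
      exact ⟨v, hv, hlt⟩

theorem decide_all {Q : Type*} [Countable Q] [Nonempty Q] (O : Q → Set (Stream' (List ℕ))) :
    ∃ A, Nm A ∧ Dn A [] ∧ ∀ q s z, ∃ z', z <+: z' ∧ (Acc (O q) s z' A ∨ Rej (O q) s z' A) := by
  classical
  obtain ⟨f, hf⟩ := exists_surjective_nat (Q × List (List ℕ) × List ℕ)
  obtain ⟨w, hw⟩ := exists_surjective_nat (List ℕ)
  let T := {A : List ℕ → List ℕ → Prop // Nm A ∧ Dn A []}
  have hstep : ∀ (k : ℕ) (A : T), ∃ B : T, ∃ z', Le B.1 A.1 ∧ (f k).2.2 <+: z' ∧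
      (Acc (O (f k).1) (f k).2.1 z' B.1 ∨ Rej (O (f k).1) (f k).2.1 z' B.1) := by
    intro k A
    obtain ⟨B, z', h1, h2, h3, h4, h5⟩ := decide_one A.2.1 A.2.2 (O (f k).1) (f k).2.1 (f k).2.2
    exact ⟨⟨B, h2, h3⟩, z', h1, h4, h5⟩
  choose stp zz hle hzz hdec using hstep
  let A0 : T := ⟨fun η v => η <+: v, fun η v h => h, fun w _ => ⟨w, w, List.prefix_rfl, List.prefix_rfl⟩⟩
  let AA : ℕ → T := fun k => Nat.rec A0 (fun k A => stp k A) k
  have hAA : ∀ k, AA (k+1) = stp k (AA k) := fun k => rfl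
  have hmono : ∀ k l, k ≤ l → Le (AA l).1 (AA k).1 := by
    intro k l hkl
    induction hkl with
    | refl => exact Le.refl _
    | step h ih => exact (hle _ _).trans ih
  have hpick : ∀ k : ℕ, ∃ p : List ℕ × List ℕ, (AA k).1 p.1 p.2 ∧ w k <+: p.1 := by
    intro k
    obtain ⟨η, v, h1, h2⟩ := (AA k).2.2 (w k) List.nil_prefix
    exact ⟨(η, v), h1, h2⟩
  choose pk hpk1 hpk2 using hpick
  let A : List ℕ → List ℕ → Prop := fun η v => ∃ k, η = (pk k).1 ∧ v = (pk k).2
  have hNA : Nm A := by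
    rintro η v ⟨k, rfl, rfl⟩
    exact (AA k).2.1 _ _ (hpk1 k)
  have hDA : Dn A [] := by
    intro u _
    obtain ⟨k, rfl⟩ := hw u
    exact ⟨(pk k).1, (pk k).2, ⟨k, rfl, rfl⟩, hpk2 k⟩
  refine ⟨A, hNA, hDA, ?_⟩
  intro q s z
  obtain ⟨l, hl⟩ := hf (q, s, z)
  have hd := hdec l (AA l)
  have hz0 := hzz l (AA l)
  rw [← hAA] at hd
  rw [hl] at hd hz0
  simp only at hd hz0
  set z0 := zz l (AA l) with hz0def
  let N : ℕ := ∑ k ∈ Finset.range (l+1), (pk k).1.length + 1
  let z1 : List ℕ := z0 ++ List.replicate N 0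
  have hz1 : z0 <+: z1 := List.prefix_append _ _
  have key : ∀ η v, A η v → z1 <+: η → ∃ v', v' <+: v ∧ (AA (l+1)).1 η v' := by
    rintro η v ⟨k, rfl, rfl⟩ hη
    have hk : l + 1 ≤ k := by
      by_contra hcon
      have h1 : (pk k).1.length ≤ ∑ k ∈ Finset.range (l+1), (pk k).1.length :=
        Finset.single_le_sum (f := fun k => (pk k).1.length) (fun _ _ => Nat.zero_le _)
          (Finset.mem_range.2 (by omega))
      have h2 := hη.length_le
      simp only [z1, List.length_append, List.length_replicate, N] at h2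
      omega
    exact hmono _ _ hk _ _ (hpk1 k)
  have keyc : ∀ c, Ch A z1 c → Ch (AA (l+1)).1 z0 c := by
    intro c hc
    refine ⟨hz1.trans hc.1, fun k => ?_⟩
    obtain ⟨v, hv, hlt⟩ := hc.2 k
    obtain ⟨v', hv', hA'⟩ := key _ _ hv (hc.above hNA k)
    exact ⟨v', hA', hv'.trans hlt.1, lt_of_le_of_lt hv'.length_le hlt.2⟩
  refine ⟨z1, hz0.trans hz1, ?_⟩
  rcases hd with hd | hd
  · left
    intro c hc
    exact hd c (keyc c hc)
  · right
    intro z' hz' B hNB hBA hDB hacc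
    apply hd z' (hz1.trans hz') (fun η u => B η u ∧ z' <+: η)
    · exact fun η v h => hNB _ _ h.1
    · intro η u h
      obtain ⟨v, hv, hA⟩ := hBA _ _ h.1
      obtain ⟨v', hv', hA'⟩ := key _ _ hA (hz'.trans h.2)
      exact ⟨v', hv'.trans hv, hA'⟩
    · intro u hu
      obtain ⟨η, v, hB, hη⟩ := hDB u hu
      exact ⟨η, v, ⟨hB, hu.trans hη⟩, hη⟩
    · intro c hc
      exact hacc c (hc.mono (fun η u h => ⟨u, List.prefix_rfl, h.1⟩) List.prefix_rfl)

theorem rej_of_dense {O s A} {z : List ℕ} (hN : Nm A)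
    (h : ∀ w, z <+: w → ∃ w', w <+: w' ∧ Rej O s w' A) : Rej O s z A := by
  intro z' hz' B hNB hBA hDB hacc
  obtain ⟨w', hw', hR⟩ := h z' hz'
  refine hR w' List.prefix_rfl B hNB hBA ?_ (hacc.mono (Le.refl B) hw')
  intro u hu
  exact hDB u (hw'.trans hu)

theorem step {Q : Type*} {O : Q → Set (Stream' (List ℕ))} {A} (hN : Nm A) (hD : Dn A [])
    (hdec : ∀ q s z, ∃ z', z <+: z' ∧ (Acc (O q) s z' A ∨ Rej (O q) s z' A))
    {q : Q} {s : List (List ℕ)} {z : List ℕ} (hR : Rej (O q) s z A) :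
    ∀ z', z <+: z' → ∃ z'', z' <+: z'' ∧ ∀ η v, A η v → z'' <+: η →
      Rej (O q) (s ++ [η]) v A := by
  intro z' hz'
  by_contra hcon
  push Not at hcon
  -- every string above z' has an η above whose extension is somewhere accepted
  have h1 : ∀ z'', z' <+: z'' → ∃ η v u, A η v ∧ z'' <+: η ∧ v <+: u ∧
      Acc (O q) (s ++ [η]) u A := by
    intro z'' hz''
    obtain ⟨η, v, hA, hη, hnR⟩ := hcon z'' hz''
    by_contra h2
    push Not at h2
    apply hnR
    apply rej_of_dense hN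
    intro w hw
    obtain ⟨w', hw', hd⟩ := hdec q (s ++ [η]) w
    rcases hd with hd | hd
    · exact absurd hd (h2 η v w' hA hη (hw.trans hw'))
    · exact ⟨w', hw', hd⟩
  refine hR z' hz' (fun η u => ∃ v, v <+: u ∧ A η v ∧ Acc (O q) (s ++ [η]) u A) ?_ ?_ ?_ ?_
  · rintro η u ⟨v, hv, hA, _⟩
    exact (hN _ _ hA).trans hv
  · rintro η u ⟨v, hv, hA, _⟩
    exact ⟨v, hv, hA⟩
  · intro w hw
    obtain ⟨η, v, u, hA, hη, hu, hacc⟩ := h1 w hw
    exact ⟨η, u, ⟨v, hu, hA, hacc⟩, hη⟩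
  · intro c hc
    obtain ⟨u, ⟨v, hv, hA, hacc⟩, hlt⟩ := hc.2 0
    have h3 : Ch A u (Stream'.tail c) := by
      refine ⟨hlt.1, fun k => ?_⟩
      obtain ⟨u', ⟨v', hv', hA', _⟩, hlt'⟩ := hc.2 (k+1)
      exact ⟨v', hA', hv'.trans hlt'.1, lt_of_le_of_lt hv'.length_le hlt'.2⟩
    have h4 := hacc _ h3
    have h5 : (s ++ [c 0]) ++ₛ Stream'.tail c = s ++ₛ c := by
      rw [append_append_stream]
      congr 1
      exact append_stream_head_tail c
    rwa [h5] at h4

end Pool.Agent.V11243.NamesNW
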