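import Mathlib
import Pool.Agent.V11243.NamesNW

/-!
A sufficiently generic `X : ℕ → ℕ` such that the set
`AX X = {⟨i, (X ↾ n)[i := 0]⟩ : i < n}` defeats every finite list of continuous operators.
-/

namespace Pool.Agent.V11243.GenericX

open Pool.Agent.V11243.NamesNW

/-- `(X ↾ n)[i := 0]`, as a list in reversed order. -/
def blk (X : ℕ → ℕ) (i : ℕ) : ℕ → List ℕ
  | 0 => []
  | n + 1 => (if n = i then 0 else X n) :: blk X i n

def AX (X : ℕ → ℕ) : Set ℕ := {e | ∃ i n, i < n ∧ e = Nat.pair i (Encodable.encode (blk X i n))}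

/-- `e` gives the value `y` at `i`. -/
def Dec (i y e : ℕ) : Prop :=
  ∃ i' σ, e = Nat.pair i' (Encodable.encode (σ : List ℕ)) ∧ i' ≠ i ∧ σ.reverse[i]? = some y

theorem blk_length (X : ℕ → ℕ) (i n : ℕ) : (blk X i n).length = n := by
  induction n with
  | zero => rfl
  | succ n ih => simp [blk, ih]

theorem blk_reverse_get (X : ℕ → ℕ) (i n m : ℕ) (h : m < n) :
    (blk X i n).reverse[m]? = some (if m = i then 0 else X m) := by
  induction n with
  | zero => omega
  | succ n ih =>
    rw [blk, List.reverse_cons]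
    by_cases hm : m < n
    · rw [List.getElem?_append_left (by simpa [blk_length] using hm)]
      exact ih hm
    · have hmn : m = n := by omega
      subst hmn
      rw [List.getElem?_append_right (by simp [blk_length])]
      simp [blk_length]

theorem dec_of_mem {X : ℕ → ℕ} {i y e : ℕ} (he : e ∈ AX X) (hd : Dec i y e) : y = X i := by
  obtain ⟨j, n, hjn, rfl⟩ := he
  obtain ⟨i', σ, h1, h2, h3⟩ := hd
  rw [Nat.pair_eq_pair] at h1
  obtain ⟨rfl, h1⟩ := h1
  have h1 := Encodable.encode_injective h1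
  subst h1
  have hlt : i < n := by
    by_contra hcon
    rw [List.getElem?_eq_none (by simp [blk_length]; omega)] at h3
    exact absurd h3 (by simp)
  rw [blk_reverse_get _ _ _ _ hlt] at h3
  have : i ≠ j := fun h => h2 h.symm
  simp only [this, if_false] at h3
  exact (Option.some.inj h3).symm

theorem dec_mk (X : ℕ → ℕ) {i j n : ℕ} (hne : j ≠ i) (hi : i < n) :
    Dec i (X i) (Nat.pair j (Encodable.encode (blk X j n))) := by
  refine ⟨j, _, rfl, hne, ?_⟩
  rw [blk_reverse_get _ _ _ _ hi]
  have : i ≠ j := fun h => hne h.symm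
  simp [this]

/-- The element of label `|p|` given by a tail. -/
def ee (p : List ℕ) (η : List ℕ) : ℕ :=
  Nat.pair p.length (Encodable.encode (p ++ 0 :: η).reverse)

theorem encode_append_ge (l l' : List ℕ) : Encodable.encode l' + l.length ≤
    Encodable.encode (l ++ l') := by
  induction l with
  | nil => simp
  | cons a l ih =>
    rw [List.cons_append, Encodable.encode_list_cons, List.length_cons]
    have := Nat.right_le_pair (Encodable.encode a) (Encodable.encode (l ++ l'))
    omega

theorem ee_lt {p η η' : List ℕ} (h : Lt η η') : ee p η < ee p η' := by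
  obtain ⟨⟨r, rfl⟩, hl⟩ := h
  unfold ee
  apply Nat.pair_lt_pair_right
  have h1 : (p ++ 0 :: (η ++ r)).reverse = r.reverse ++ (p ++ 0 :: η).reverse := by
    simp
  rw [h1]
  have h2 := encode_append_ge r.reverse (p ++ 0 :: η).reverse
  rw [List.length_reverse] at h2
  rw [List.length_append] at hl
  omega

theorem ee_le {p η η' : List ℕ} (h : η <+: η') : ee p η ≤ ee p η' := by
  rcases lt_or_eq_of_le h.length_le with hl | hl
  · exact (ee_lt ⟨h, hl⟩).le
  · rw [h.eq_of_length hl]

def pre (X : ℕ → ℕ) (n : ℕ) : List ℕ := (List.range n).map X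

theorem pre_length (X : ℕ → ℕ) (n : ℕ) : (pre X n).length = n := by simp [pre]

theorem blk_eq (X : ℕ → ℕ) (i n : ℕ) : blk X i n = ((pre X n).set i 0).reverse := by
  induction n with
  | zero => simp [blk, pre]
  | succ n ih =>
    rw [blk, ih]
    unfold pre
    rw [List.range_succ, List.map_append, List.map_singleton]
    by_cases h : n = i
    · subst h
      rw [List.set_append_right _ _ (by simp)]
      rw [List.set_eq_of_length_le (by simp)]
      simp
    · simp only [h, if_false]
      by_cases h2 : i < n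
      · rw [List.set_append_left _ _ (by simpa using h2)]
        simp
      · have h3 : n < i := by omega
        rw [List.set_eq_of_length_le (by simp; omega)]
        rw [List.set_eq_of_length_le (by simp; omega)]
        simp

theorem ee_mem {X : ℕ → ℕ} {p η : List ℕ} {x n : ℕ} (h : pre X n = p ++ x :: η) :
    ee p η ∈ AX X := by
  have hn : n = p.length + 1 + η.length := by
    have := congrArg List.length h
    rw [pre_length] at this
    simp at this
    omega
  refine ⟨p.length, n, by omega, ?_⟩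
  rw [blk_eq, h]
  unfold ee
  congr 2
  rw [List.set_append_right _ _ le_rfl]
  simp

theorem pre_prefix {X : ℕ → ℕ} {n m : ℕ} (h : n ≤ m) : pre X n <+: pre X m := by
  unfold pre
  apply List.IsPrefix.map
  refine ⟨(List.range (m - n)).map (n + ·), ?_⟩
  rw [← List.range_add]
  congr 1
  omega

theorem pre_of_prefix {X : ℕ → ℕ} {l : List ℕ} {m : ℕ} (h : l <+: pre X m) :
    pre X l.length = l := by
  have hle : l.length ≤ m := by simpa [pre_length] using h.length_le
  have h1 := pre_prefix (X := X) hle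
  rcases List.prefix_or_prefix_of_prefix h h1 with h2 | h2
  · exact (h2.eq_of_length (by simp [pre_length])).symm
  · exact h2.eq_of_length (by simp [pre_length])

/-- Rasiowa–Sikorski for `List ℕ`. -/
theorem rasiowa {ι : Type*} [Countable ι] [Nonempty ι] (D : ι → Set (List ℕ))
    (hD : ∀ i Y, ∃ Y', Y <+: Y' ∧ Y' ∈ D i) :
    ∃ X : ℕ → ℕ, ∀ i, ∃ n, pre X n ∈ D i := by
  classical
  obtain ⟨f, hf⟩ := exists_surjective_nat ι
  choose g hg1 hg2 using fun (k : ℕ) (Y : List ℕ) => hD (f k) Y
  let S : ℕ → List ℕ := fun k => Nat.rec [] (fun k Y => g k Y ++ [0]) k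
  have hS : ∀ k, S (k+1) = g k (S k) ++ [0] := fun k => rfl
  have hpre1 : ∀ k, S k <+: S (k+1) := fun k => by
    rw [hS]; exact (hg1 k _).trans (List.prefix_append _ _)
  have hpre : ∀ k l, k ≤ l → S k <+: S l := by
    intro k l hkl
    induction hkl with
    | refl => exact List.prefix_rfl
    | step h ih => exact ih.trans (hpre1 _)
  have hlen : ∀ k, k ≤ (S k).length := by
    intro k
    induction k with
    | zero => exact Nat.zero_le _
    | succ k ih =>
      rw [hS, List.length_append]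
      have := (hg1 k (S k)).length_le
      simp
      omega
  let X : ℕ → ℕ := fun n => (S (n+1)).getD n 0
  have hX : ∀ k, pre X (S k).length = S k := by
    intro k
    apply List.ext_getElem (by simp [pre_length])
    intro m h1 h2
    simp only [pre, List.getElem_map, List.getElem_range]
    have h3 : m < (S (m+1)).length := by have := hlen (m+1); omega
    show (S (m+1)).getD m 0 = _
    rw [List.getD_eq_getElem _ _ h3]
    rcases le_total k (m+1) with h | h
    · exact ((hpre _ _ h).getElem h2).symm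
    · exact (hpre _ _ h).getElem h3
  refine ⟨X, fun i => ?_⟩
  obtain ⟨k, rfl⟩ := hf i
  have h1 : g k (S k) <+: S (k+1) := by rw [hS]; exact List.prefix_append _ _
  rw [← hX (k+1)] at h1
  refine ⟨(g k (S k)).length, ?_⟩
  rw [pre_of_prefix h1]
  exact hg2 k (S k)

section Main

variable {Op : Type*} (Out : Op → Set ℕ → Set ℕ)

/-- streams along which the operator `φ` outputs an element giving value `y` at `|p|` -/
def OO (p : List ℕ) (q : Op × ℕ) : Set (Stream' (List ℕ)) :=
  {c | ∃ e, Dec p.length q.2 e ∧ e ∈ Out q.1 (Set.range fun k => ee p (c k))}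

variable [Countable Op] [Nonempty Op]

theorem names_exist (p : List ℕ) : ∃ A, Nm A ∧ Dn A [] ∧ ∀ (q : Op × ℕ) s z, ∃ z', z <+: z' ∧
    (Acc (OO Out p q) s z' A ∨ Rej (OO Out p q) s z' A) :=
  decide_all (OO Out p)

noncomputable def nam (p : List ℕ) : List ℕ → List ℕ → Prop := Classical.choose (names_exist Out p)

theorem nam_nm (p : List ℕ) : Nm (nam Out p) := (Classical.choose_spec (names_exist Out p)).1

theorem nam_dn (p : List ℕ) : Dn (nam Out p) [] := (Classical.choose_spec (names_exist Out p)).2.1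

theorem nam_dec (p : List ℕ) : ∀ (q : Op × ℕ) s z, ∃ z', z <+: z' ∧
    (Acc (OO Out p q) s z' (nam Out p) ∨ Rej (OO Out p q) s z' (nam Out p)) :=
  (Classical.choose_spec (names_exist Out p)).2.2

def Contra (p τ : List ℕ) (φ : Op) : Prop :=
  ∃ y y', y ≠ y' ∧ Acc (OO Out p (φ, y)) [] τ (nam Out p) ∧ Acc (OO Out p (φ, y')) [] τ (nam Out p)

def Good (t : List Op) (p : List ℕ) (x : ℕ) (τ : List ℕ) : Prop :=
  ∀ φ ∈ t, Contra Out p τ φ ∨ Rej (OO Out p (φ, x)) [] τ (nam Out p)

theorem dec_list (p : List ℕ) (L : List (Op × ℕ)) : ∃ τ, ∀ q ∈ L,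
    (Acc (OO Out p q) [] τ (nam Out p) ∨ Rej (OO Out p q) [] τ (nam Out p)) := by
  induction L with
  | nil => exact ⟨[], by simp⟩
  | cons q L ih =>
    obtain ⟨τ, hτ⟩ := ih
    obtain ⟨τ', h1, h2⟩ := nam_dec Out p q [] τ
    refine ⟨τ', ?_⟩
    intro q' hq'
    rcases List.mem_cons.1 hq' with rfl | hq'
    · exact h2
    · rcases hτ q' hq' with h | h
      · exact Or.inl (h.mono (Le.refl _) h1)
      · exact Or.inr (h.mono (Le.refl _) h1)

theorem good_exists (t : List Op) (p : List ℕ) : ∃ x τ, Good Out t p x τ := by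
  classical
  let L : List (Op × ℕ) := t.product (List.range (t.length + 1))
  obtain ⟨τ, hτ⟩ := dec_list Out p L
  by_contra hcon
  push Not at hcon
  have h1 : ∀ x : Fin (t.length + 1), ∃ j : Fin t.length,
      ¬ Contra Out p τ (t.get j) ∧ Acc (OO Out p (t.get j, (x : ℕ))) [] τ (nam Out p) := by
    intro x
    have h2 := hcon x τ
    unfold Good at h2
    push Not at h2
    obtain ⟨φ, hφ, h3, h4⟩ := h2
    obtain ⟨j, rfl⟩ := List.get_of_mem hφ
    refine ⟨j, h3, ?_⟩
    have h5 : (t.get j, (x : ℕ)) ∈ L := by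
      simp only [L, List.product, List.mem_flatMap, List.mem_map, List.mem_range]
      exact ⟨_, hφ, x, x.2, rfl⟩
    rcases hτ _ h5 with h | h
    · exact h
    · exact absurd h h4
  choose j hj1 hj2 using h1
  obtain ⟨x, x', hne, heq⟩ := Fintype.exists_ne_map_eq_of_card_lt j (by simp)
  apply hj1 x
  refine ⟨x, x', fun h => hne (Fin.ext h), hj2 x, ?_⟩
  rw [heq]
  exact hj2 x'

def Hyp (p : List ℕ) (x : ℕ) (τ : List ℕ) (L : List (List (List ℕ))) (t : List Op) : Prop :=
  ∀ φ ∈ t, ∀ s ∈ L, Rej (OO Out p (φ, x)) s τ (nam Out p)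

theorem step_list (p : List ℕ) (x : ℕ) (τ : List ℕ) (L : List (Op × List (List ℕ)))
    (h : ∀ q ∈ L, Rej (OO Out p (q.1, x)) q.2 τ (nam Out p)) (τ' : List ℕ) (hτ' : τ <+: τ') :
    ∃ z, τ' <+: z ∧ ∀ η v, nam Out p η v → z <+: η → ∀ q ∈ L,
      Rej (OO Out p (q.1, x)) (q.2 ++ [η]) v (nam Out p) := by
  induction L with
  | nil => exact ⟨τ', List.prefix_rfl, by simp⟩
  | cons q L ih =>
    obtain ⟨z, hz, h1⟩ := ih (fun q' hq' => h q' (List.mem_cons_of_mem _ hq'))
    obtain ⟨z', hz', h2⟩ := step (nam_nm Out p) (nam_dn Out p) (nam_dec Out p)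
      (h q List.mem_cons_self) z (hτ'.trans hz)
    refine ⟨z', hz.trans hz', ?_⟩
    intro η v hA hη q' hq'
    rcases List.mem_cons.1 hq' with rfl | hq'
    · exact h2 η v hA hη
    · exact h1 η v hA (hz'.trans hη) q' hq'

theorem next_exists {p : List ℕ} {x : ℕ} {τ : List ℕ} {L : List (List (List ℕ))} {t : List Op}
    (h : Hyp Out p x τ L t) (τ' : List ℕ) (hτ' : τ <+: τ') :
    ∃ η v, nam Out p η v ∧ Lt τ' η ∧ ∀ φ ∈ t, ∀ s ∈ L,
      Rej (OO Out p (φ, x)) (s ++ [η]) v (nam Out p) := by
  obtain ⟨z, hz, h1⟩ := step_list Out p x τ (t.product L) (by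
    rintro ⟨φ, s⟩ hq
    have := List.pair_mem_product.1 hq
    exact h φ this.1 s this.2) τ' hτ'
  obtain ⟨η, v, hA, hη⟩ := nam_dn Out p (z ++ [0]) List.nil_prefix
  refine ⟨η, v, hA, ⟨?_, ?_⟩, ?_⟩
  · exact hz.trans ((List.prefix_append _ _).trans hη)
  · have h2 := hη.length_le
    have h3 := hz.length_le
    simp at h2
    omega
  · intro φ hφ s hs
    exact h1 η v hA ((List.prefix_append _ _).trans hη) (φ, s) (List.pair_mem_product.2 ⟨hφ, hs⟩)

/-- the dense sets -/
def DD : (List Op × ℕ) ⊕ (List ℕ × ℕ × List ℕ × List (List (List ℕ)) × List Op) →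
    Set (List ℕ)
  | Sum.inl (t, N) => {Y | ∃ p x τ, Y = p ++ x :: τ ∧ N ≤ p.length ∧ Good Out t p x τ}
  | Sum.inr (p, x, τ, L, t) => {Y | ¬ Hyp Out p x τ L t ∨
      ((p ++ x :: τ).length ≤ Y.length ∧ ¬ (p ++ x :: τ) <+: Y) ∨
      ∃ η v, nam Out p η v ∧ Lt τ η ∧ (p ++ x :: v) <+: Y ∧ ∀ φ ∈ t, ∀ s ∈ L,
        Rej (OO Out p (φ, x)) (s ++ [η]) v (nam Out p)}

theorem DD_dense (i) (Y : List ℕ) : ∃ Y', Y <+: Y' ∧ Y' ∈ DD Out i := by
  rcases i with ⟨t, N⟩ | ⟨p, x, τ, L, t⟩
  · obtain ⟨x, τ, h⟩ := good_exists Out t (Y ++ List.replicate N 0)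
    refine ⟨(Y ++ List.replicate N 0) ++ x :: τ, ?_, _, x, τ, rfl, by simp, h⟩
    exact (List.prefix_append _ _).trans (List.prefix_append _ _)
  · by_cases hH : Hyp Out p x τ L t
    swap
    · exact ⟨Y, List.prefix_rfl, Or.inl hH⟩
    have key : ∀ τ', τ <+: τ' → Y <+: p ++ x :: τ' →
        ∃ Y', Y <+: Y' ∧ Y' ∈ DD Out (Sum.inr (p, x, τ, L, t)) := by
      intro τ' hτ' hY
      obtain ⟨η, v, hA, hlt, h1⟩ := next_exists Out hH τ' hτ'
      refine ⟨p ++ x :: v, ?_, Or.inr (Or.inr ⟨η, v, hA,
        ⟨hτ'.trans hlt.1, lt_of_le_of_lt hτ'.length_le hlt.2⟩, List.prefix_rfl, h1⟩)⟩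
      refine hY.trans ?_
      have h2 : τ' <+: v := hlt.1.trans (nam_nm Out p _ _ hA)
      obtain ⟨r, rfl⟩ := h2
      exact ⟨r, by simp⟩
    by_cases h1 : (p ++ x :: τ) <+: Y
    · obtain ⟨r, rfl⟩ := h1
      apply key (τ ++ r) (List.prefix_append _ _)
      simp
    · by_cases h2 : Y <+: (p ++ x :: τ)
      · exact key τ List.prefix_rfl h2
      · refine ⟨Y ++ List.replicate (p ++ x :: τ).length 0, List.prefix_append _ _,
          Or.inr (Or.inl ⟨by simp, ?_⟩)⟩
        intro h3
        rcases List.prefix_or_prefix_of_prefix h3 (List.prefix_append Y _) with h | h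
        · exact h1 h
        · exact h2 h

theorem extract {X : ℕ → ℕ} (hX : ∀ i, ∃ n, pre X n ∈ DD Out i) {p : List ℕ} {x : ℕ}
    {τ : List ℕ} {n : ℕ} (hn : pre X n = p ++ x :: τ) {t : List Op}
    (hR : ∀ φ ∈ t, Rej (OO Out p (φ, x)) [] τ (nam Out p)) :
    ∃ η v : ℕ → List ℕ, (∀ k, nam Out p (η k) (v (k+1))) ∧ (∀ k, Lt (v k) (η k)) ∧ v 0 = τ ∧
      (∀ k, ∃ n, pre X n = p ++ x :: v k) ∧ ∀ κ : ℕ → ℕ, StrictMono κ → ∀ r, ∀ φ ∈ t,
        Rej (OO Out p (φ, x)) (Stream'.take r ((fun k => η (κ k)) : Stream' (List ℕ)))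
          (v (κ r)) (nam Out p) := by
  classical
  let St := {S : List (List (List ℕ)) × List ℕ // Hyp Out p x S.2 S.1 t ∧
    ∃ n, pre X n = p ++ x :: S.2}
  have hstep : ∀ S : St, ∃ (η : List ℕ) (S' : St), nam Out p η S'.1.2 ∧ Lt S.1.2 η ∧
      S'.1.1 = S.1.1 ++ S.1.1.map (· ++ [η]) := by
    rintro ⟨⟨L, v⟩, hH, m, hm⟩
    simp only at hH hm
    obtain ⟨n', hn'⟩ := hX (Sum.inr (p, x, v, L, t))
    rcases hn' with h | ⟨h1, h2⟩ | ⟨η, v', hA, hlt, hpre, h3⟩
    · exact absurd hH h
    · exfalso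
      apply h2
      rw [← hm]
      apply pre_prefix
      rw [← hm, pre_length, pre_length] at h1
      exact h1
    · refine ⟨η, ⟨⟨L ++ L.map (· ++ [η]), v'⟩, ?_, _, pre_of_prefix hpre⟩, hA, hlt, rfl⟩
      intro φ hφ s hs
      simp only at hs ⊢
      rcases List.mem_append.1 hs with hs | hs
      · exact (hH φ hφ s hs).mono (Le.refl _) (hlt.1.trans (nam_nm Out p _ _ hA))
      · obtain ⟨s', hs', rfl⟩ := List.mem_map.1 hs
        exact h3 φ hφ s' hs'
  choose nη nS h1 h2 h3 using hstep
  let S0 : St := ⟨⟨[[]], τ⟩, by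
    intro φ hφ s hs
    simp only [List.mem_singleton] at hs
    subst hs
    exact hR φ hφ, n, hn⟩
  let S : ℕ → St := fun k => Nat.rec S0 (fun _ S => nS S) k
  have hS : ∀ k, S (k+1) = nS (S k) := fun k => rfl
  have hmono : ∀ k l, k ≤ l → ∀ s ∈ (S k).1.1, s ∈ (S l).1.1 := by
    intro k l hkl
    induction hkl with
    | refl => exact fun s hs => hs
    | step h ih =>
      intro s hs
      rw [Nat.succ_eq_add_one, hS, h3]
      exact List.mem_append_left _ (ih s hs)
  refine ⟨fun k => nη (S k), fun k => (S k).1.2, fun k => h1 (S k), fun k => h2 (S k), rfl,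
    fun k => (S k).2.2, ?_⟩
  intro κ hκ r φ hφ
  let c : Stream' (List ℕ) := fun k => nη (S (κ k))
  have hmem : ∀ r, Stream'.take r c ∈ (S (κ r)).1.1 := by
    intro r
    induction r with
    | zero =>
      rw [Stream'.take_zero]
      exact hmono 0 _ (Nat.zero_le _) [] (by simp [S, S0])
    | succ r ih =>
      rw [Stream'.take_succ']
      apply hmono (κ r + 1) _ (hκ (Nat.lt_succ_self r))
      rw [hS, h3]
      apply List.mem_append_right
      rw [List.mem_map]
      exact ⟨_, ih, rfl⟩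
  exact (S (κ r)).2.1 φ hφ _ (hmem r)

theorem main_thm (hcont : ∀ φ C e, e ∈ Out φ C → ∃ u : ℕ, ∀ C' : Set ℕ,
      (∀ k < u, (k ∈ C' ↔ k ∈ C)) → e ∈ Out φ C') :
    ∃ X : ℕ → ℕ, ∀ (t : List Op) (N : ℕ), ∃ i, N ≤ i ∧ ∃ R : Set ℕ, R ⊆ AX X ∧ R.Infinite ∧
      (∀ e ∈ R, (Nat.unpair e).1 = i) ∧
      ∀ φ ∈ t, ∀ C : Set ℕ, C ⊆ R → C.Infinite →
        (∃ y y', y ≠ y' ∧ (∃ e ∈ Out φ C, Dec i y e) ∧ (∃ e ∈ Out φ C, Dec i y' e)) ∨
        ¬ ∃ e ∈ Out φ C, Dec i (X i) e := by
  classical
  obtain ⟨X, hX⟩ := rasiowa (DD Out) (DD_dense Out)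
  refine ⟨X, fun t N => ?_⟩
  obtain ⟨n, p, x, τ, hn, hNp, hG⟩ := hX (Sum.inl (t, N))
  have hx : x = X p.length := by
    have h1 : (pre X n)[p.length]? = some x := by rw [hn]; simp
    have hlt : p.length < n := by
      have := congrArg List.length hn
      rw [pre_length] at this
      simp at this
      omega
    unfold pre at h1
    rw [List.getElem?_map, List.getElem?_range hlt] at h1
    exact (Option.some.inj h1).symm
  obtain ⟨η, v, hA, hlt, hv0, hv, hR⟩ := extract Out hX hn (t := t.filter (fun φ => ¬ Contra Out p τ φ))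
    (by
      intro φ hφ
      rw [List.mem_filter] at hφ
      rcases hG φ hφ.1 with h | h
      · simp [h] at hφ
      · exact h)
  have hηlt : ∀ k, Lt (η k) (η (k+1)) := by
    intro k
    have h1 := nam_nm Out p _ _ (hA k)
    exact ⟨h1.trans (hlt (k+1)).1, lt_of_le_of_lt h1.length_le (hlt (k+1)).2⟩
  have hemono : StrictMono (fun k => ee p (η k)) := strictMono_nat_of_lt_succ fun k => ee_lt (hηlt k)
  refine ⟨p.length, hNp, Set.range (fun k => ee p (η k)), ?_, Set.infinite_range_of_injective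
    hemono.injective, ?_, ?_⟩
  · rintro e ⟨k, rfl⟩
    obtain ⟨m, hm⟩ := hv (k+1)
    have h1 : (p ++ x :: η k) <+: pre X m := by
      rw [hm]
      obtain ⟨r, hr⟩ := nam_nm Out p _ _ (hA k)
      exact ⟨r, by rw [← hr]; simp⟩
    exact ee_mem (pre_of_prefix h1)
  · rintro e ⟨k, rfl⟩
    simp [ee]
  · intro φ hφ C hC hCinf
    let K : Set ℕ := {k | ee p (η k) ∈ C}
    have hCK : C = (fun k => ee p (η k)) '' K := by
      ext e
      constructor
      · intro he
        obtain ⟨k, rfl⟩ := hC he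
        exact ⟨k, he, rfl⟩
      · rintro ⟨k, hk, rfl⟩
        exact hk
    have hK : K.Infinite := by
      intro hfin
      apply hCinf
      rw [hCK]
      exact hfin.image _
    let κ : ℕ → ℕ := Nat.nth (· ∈ K)
    have hκ : StrictMono κ := Nat.nth_strictMono hK
    have hκr : Set.range κ = K := Nat.range_nth_of_infinite hK
    let c : Stream' (List ℕ) := fun k => η (κ k)
    have hCc : C = Set.range (fun k => ee p (c k)) := by
      rw [hCK, ← hκr, ← Set.range_comp]
      rfl
    -- `v` is increasing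
    have hvmono : ∀ a b, a ≤ b → v a <+: v b := by
      intro a b hab
      induction hab with
      | refl => exact List.prefix_rfl
      | step h ih => exact ih.trans ((hlt _).1.trans (nam_nm Out p _ _ (hA _)))
    have hchain : Ch (nam Out p) τ c := by
      refine ⟨?_, fun k => ⟨v (κ k + 1), hA _, ?_⟩⟩
      · rw [← hv0]
        exact (hvmono 0 (κ 0) (Nat.zero_le _)).trans (hlt _).1
      · have h1 : κ k + 1 ≤ κ (k+1) := hκ (Nat.lt_succ_self k)
        exact ⟨(hvmono _ _ h1).trans (hlt _).1,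
          lt_of_le_of_lt (hvmono _ _ h1).length_le (hlt _).2⟩
    by_cases hcon : Contra Out p τ φ
    · left
      obtain ⟨y, y', hne, h1, h2⟩ := hcon
      refine ⟨y, y', hne, ?_, ?_⟩
      · obtain ⟨e, he1, he2⟩ := h1 c hchain
        rw [Stream'.nil_append_stream] at he2
        refine ⟨e, ?_, he1⟩
        rw [hCc]
        exact he2
      · obtain ⟨e, he1, he2⟩ := h2 c hchain
        rw [Stream'.nil_append_stream] at he2
        refine ⟨e, ?_, he1⟩
        rw [hCc]
        exact he2
    · right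
      rintro ⟨e, he1, he2⟩
      rw [← hx] at he2
      obtain ⟨u, hu⟩ := hcont φ C e he1
      have hce : ∀ k, k ≤ ee p (c k) := fun k => (hemono.comp hκ).le_apply
      have hrej := hR κ hκ u φ (List.mem_filter.2 ⟨hφ, by simpa using hcon⟩)
      apply hrej (c u) (hlt (κ u)).1 (nam Out p) (nam_nm Out p) (Le.refl _)
        (fun w _ => nam_dn Out p w List.nil_prefix)
      intro c' hc'
      refine ⟨e, he2, ?_⟩
      apply hu
      intro k hk
      rw [hCc]
      have hc'ge : ∀ l, u ≤ ee p (c' l) := fun l =>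
        (hce u).trans (ee_le (hc'.above (nam_nm Out p) l))
      have hcge : ∀ l, u ≤ l → u ≤ ee p (c l) := fun l hl => hl.trans (hce l)
      constructor
      · rintro ⟨l, hl⟩
        by_cases hlu : l < u
        · refine ⟨l, ?_⟩
          rw [← hl]
          simp only
          congr 1
          have : (Stream'.take u c ++ₛ c').get l = (Stream'.take u c)[l]'(by simpa using hlu) :=
            Stream'.get_append_left _ _ _ _
          rw [Stream'.take_get] at this
          exact this.symm
        · exfalso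
          have h1 : (Stream'.take u c ++ₛ c') l = c' (l - u) := by
            have h2 := Stream'.get_append_right (l - u) (Stream'.take u c) c'
            rw [Stream'.length_take] at h2
            have h3 : u + (l - u) = l := by omega
            rw [h3] at h2
            exact h2
          simp only at hl
          rw [h1] at hl
          have := hc'ge (l - u)
          omega
      · rintro ⟨l, hl⟩
        have hlu : l < u := by
          by_contra h
          have := hcge l (not_lt.1 h)
          simp only at hl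
          omega
        refine ⟨l, ?_⟩
        rw [← hl]
        simp only
        congr 1
        have : (Stream'.take u c ++ₛ c').get l = (Stream'.take u c)[l]'(by simpa using hlu) :=
          Stream'.get_append_left _ _ _ _
        rw [Stream'.take_get] at this
        exact this

end Main

end Pool.Agent.V11243.GenericX
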