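import Mathlib
import Pool.Agent.V11243.GenericX

/-!
Oracle computability facts about `AX X`.
-/

namespace Pool.Agent.V11243.OracleX

open Pool.Agent.V11243.GenericX

/-- if `S ⊆ AX X` is infinite then it has elements carrying arbitrarily long blocks -/
theorem exists_long {X : ℕ → ℕ} {S : Set ℕ} (hS : S ⊆ AX X) (hinf : S.Infinite) (m : ℕ) :
    ∃ i n, i < n ∧ m < n ∧ Nat.pair i (Encodable.encode (blk X i n)) ∈ S := by
  by_contra hcon
  push Not at hcon
  apply hinf
  have h1 : S ⊆ (fun q : ℕ × ℕ => Nat.pair q.1 (Encodable.encode (blk X q.1 q.2))) ''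
      ((Finset.range (m+1) ×ˢ Finset.range (m+1) : Finset (ℕ × ℕ)) : Set (ℕ × ℕ)) := by
    intro e he
    obtain ⟨i, n, hin, rfl⟩ := hS he
    have : n ≤ m := by
      by_contra h
      exact hcon i n hin (not_le.1 h) he
    refine ⟨(i, n), ?_, rfl⟩
    simp
    omega
  exact ((Finset.finite_toSet _).image _).subset h1

/-- for all but one `m`, an infinite `C ⊆ AX X` has an element giving the value `X m`. -/
theorem exists_dec {X : ℕ → ℕ} {C : Set ℕ} (hC : C ⊆ AX X) (hinf : C.Infinite) :
    ∃ m0, ∀ m, m ≠ m0 → ∃ e ∈ C, Dec m (X m) e := by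
  classical
  obtain ⟨m0, hm0⟩ : ∃ m0, ∀ m, m ≠ m0 → {e ∈ C | (Nat.unpair e).1 ≠ m}.Infinite := by
    by_cases h : ∃ m0, {e ∈ C | (Nat.unpair e).1 ≠ m0}.Finite
    · obtain ⟨m0, hm0⟩ := h
      refine ⟨m0, fun m hm => ?_⟩
      have h1 : {e ∈ C | (Nat.unpair e).1 = m0}.Infinite := by
        intro h2
        apply hinf
        apply (hm0.union h2).subset
        intro e he
        by_cases h3 : (Nat.unpair e).1 = m0
        · exact Or.inr ⟨he, h3⟩
        · exact Or.inl ⟨he, h3⟩
      apply h1.mono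
      rintro e ⟨he, h3⟩
      exact ⟨he, by rw [h3]; exact fun h => hm h.symm⟩
    · push Not at h
      exact ⟨0, fun m _ => h m⟩
  refine ⟨m0, fun m hm => ?_⟩
  obtain ⟨i, n, _, hmn, hmem⟩ := exists_long (fun e he => hC he.1) (hm0 m hm) m
  refine ⟨_, hmem.1, dec_mk X ?_ hmn⟩
  have := hmem.2
  simpa using this

/-- the list coded by the second component -/
def lst (e : ℕ) : List ℕ := ((Encodable.decode (α := List ℕ) (Nat.unpair e).2).getD [])

theorem lst_pair (i : ℕ) (σ : List ℕ) : lst (Nat.pair i (Encodable.encode σ)) = σ := by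
  simp [lst]

theorem primrec_lst : Primrec lst :=
  Primrec.option_getD.comp (Primrec.decode.comp (Primrec.snd.comp Primrec.unpair)) (Primrec.const [])

/-- search test -/
def tst (m0 : ℕ) (q : ℕ) : ℕ :=
  let c := (Nat.unpair q).1
  let m := (Nat.unpair (Nat.unpair q).2).1
  let e := (Nat.unpair (Nat.unpair q).2).2
  if m = m0 ∨ (c = 1 ∧ (Nat.unpair e).1 ≠ m ∧ m < (lst e).length) then 0 else 1

theorem primrec_tst (m0 : ℕ) : Primrec (tst m0) := by
  unfold tst
  have hc : Primrec fun q : ℕ => (Nat.unpair q).1 := Primrec.fst.comp Primrec.unpair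
  have hr : Primrec fun q : ℕ => (Nat.unpair q).2 := Primrec.snd.comp Primrec.unpair
  have hm : Primrec fun q : ℕ => (Nat.unpair (Nat.unpair q).2).1 := hc.comp hr
  have he : Primrec fun q : ℕ => (Nat.unpair (Nat.unpair q).2).2 := hr.comp hr
  apply Primrec.ite
  · apply PrimrecPred.or
    · exact Primrec.eq.comp hm (Primrec.const m0)
    · apply PrimrecPred.and
      · exact Primrec.eq.comp hc (Primrec.const 1)
      · apply PrimrecPred.and
        · exact (Primrec.eq.comp (hc.comp he) hm).not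
        · exact Primrec.nat_lt.comp hm (Primrec.list_length.comp (primrec_lst.comp he))
  · exact Primrec.const 0
  · exact Primrec.const 1

def vl (m0 c0 : ℕ) (q : ℕ) : ℕ :=
  if (Nat.unpair q).1 = m0 then c0 else (lst (Nat.unpair q).2).reverse.getD (Nat.unpair q).1 0

theorem primrec_vl (m0 c0 : ℕ) : Primrec (vl m0 c0) := by
  unfold vl
  have hc : Primrec fun q : ℕ => (Nat.unpair q).1 := Primrec.fst.comp Primrec.unpair
  have hr : Primrec fun q : ℕ => (Nat.unpair q).2 := Primrec.snd.comp Primrec.unpair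
  apply Primrec.ite
  · exact Primrec.eq.comp hc (Primrec.const m0)
  · exact Primrec.const c0
  · exact (Primrec.list_getD 0).comp (Primrec.list_reverse.comp (primrec_lst.comp hr)) hc

/-- characteristic function -/
noncomputable def chi (C : Set ℕ) : ℕ → ℕ := Set.indicator C (fun _ => 1)

theorem chi_eq_one {C : Set ℕ} {n : ℕ} : chi C n = 1 ↔ n ∈ C := by
  classical
  unfold chi
  rw [Set.indicator_apply]
  split_ifs with h <;> simp [h]

theorem chi_of_mem {C : Set ℕ} {n : ℕ} (h : n ∈ C) : chi C n = 1 := chi_eq_one.2 h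

theorem chi_of_not_mem {C : Set ℕ} {n : ℕ} (h : n ∉ C) : chi C n = 0 := by
  classical
  unfold chi
  rw [Set.indicator_apply, if_neg h]

theorem primrec_rec {O : Set (ℕ →. ℕ)} {f : ℕ → ℕ} (hf : Primrec f) :
    Nat.RecursiveIn O (fun n => Part.some (f n)) :=
  Nat.Primrec.recursiveIn (Primrec.nat_iff.1 hf)

theorem rec_pair_id {O : Set (ℕ →. ℕ)} {f : ℕ → Part ℕ} (hf : Nat.RecursiveIn O f) :
    Nat.RecursiveIn O (fun n => (f n).map (Nat.pair n)) := by
  refine (Nat.RecursiveIn.pair (primrec_rec Primrec.id) hf).of_eq fun n => ?_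
  simp [Seq.seq]

theorem rec_map {O : Set (ℕ →. ℕ)} {f : ℕ → Part ℕ} (hf : Nat.RecursiveIn O f) {g : ℕ → ℕ}
    (hg : Primrec g) : Nat.RecursiveIn O (fun n => (f n).map g) := by
  refine (Nat.RecursiveIn.comp (primrec_rec hg) hf).of_eq fun n => ?_
  show Part.bind (f n) (fun n => Part.some (g n)) = _
  exact Part.bind_some_eq_map g (f n)

theorem rec_comp {O : Set (ℕ →. ℕ)} {f : ℕ → ℕ} (hf : Nat.RecursiveIn O (f : ℕ →. ℕ)) {g : ℕ → ℕ}
    (hg : Primrec g) : Nat.RecursiveIn O (fun n => Part.some (f (g n))) := by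
  refine (Nat.RecursiveIn.comp hf (primrec_rec hg)).of_eq fun n => ?_
  exact Part.bind_some (g n) _

theorem X_le {X : ℕ → ℕ} {C : Set ℕ} (hC : C ⊆ AX X) (hinf : C.Infinite) :
    Nat.RecursiveIn {(chi C : ℕ →. ℕ)} (X : ℕ →. ℕ) := by
  classical
  obtain ⟨m0, hm0⟩ := exists_dec hC hinf
  set O : Set (ℕ →. ℕ) := {(chi C : ℕ →. ℕ)}
  have h1 : Nat.RecursiveIn O (fun p => Part.some (chi C (Nat.unpair p).2)) :=
    rec_comp (Nat.RecursiveIn.oracle (O := O) (chi C : ℕ →. ℕ) (Set.mem_singleton _))
      (Primrec.snd.comp Primrec.unpair)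
  have h2 : Nat.RecursiveIn O (fun p => Part.some (tst m0 (Nat.pair (chi C (Nat.unpair p).2) p))) := by
    refine (Nat.RecursiveIn.comp (primrec_rec (primrec_tst m0))
      (Nat.RecursiveIn.pair h1 (primrec_rec Primrec.id))).of_eq fun n => ?_
    simp [Seq.seq]
  have h3 := Nat.RecursiveIn.rfind h2
  have h4 := rec_map (rec_pair_id h3) (primrec_vl m0 (X m0))
  refine h4.of_eq_tot fun m => ?_
  -- the search
  have hex : ∃ e, tst m0 (Nat.pair (chi C e) (Nat.pair m e)) = 0 := by
    by_cases hm : m = m0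
    · exact ⟨0, by simp [tst, hm]⟩
    · obtain ⟨e, heC, i', σ, rfl, hne, hget⟩ := hm0 m hm
      refine ⟨Nat.pair i' (Encodable.encode σ), ?_⟩
      unfold tst
      simp only [Nat.unpair_pair]
      rw [if_pos]
      right
      refine ⟨chi_of_mem heC, hne, ?_⟩
      rw [lst_pair]
      have := (List.getElem?_eq_some_iff.1 hget).1
      simpa using this
  have hfind := Nat.find_spec hex
  set e0 := Nat.find hex with he0
  have hr : e0 ∈ Nat.rfind (fun n => (fun m => decide (m = 0)) <$>
      (Part.some (tst m0 (Nat.pair (chi C (Nat.unpair (Nat.pair m n)).2) (Nat.pair m n))) : Part ℕ)) := by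
    refine Nat.mem_rfind.2 ⟨?_, ?_⟩
    · simp [hfind]
    · intro k hk
      have := Nat.find_min hex hk
      simp [this]
  have hval : vl m0 (X m0) (Nat.pair m e0) = X m := by
    unfold vl
    simp only [Nat.unpair_pair]
    by_cases hm : m = m0
    · rw [if_pos hm, hm]
    · rw [if_neg hm]
      unfold tst at hfind
      simp only [Nat.unpair_pair] at hfind
      have h5 : (m = m0 ∨ chi C e0 = 1 ∧ (Nat.unpair e0).1 ≠ m ∧ m < (lst e0).length) := by
        by_contra hcon
        rw [if_neg hcon] at hfind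
        exact one_ne_zero hfind
      rcases h5 with h5 | ⟨h5, h6, h7⟩
      · exact absurd h5 hm
      · have heC := chi_eq_one.1 h5
        obtain ⟨i, n, hin, he⟩ := hC heC
        rw [he, lst_pair] at h7 ⊢
        rw [he] at h6
        simp only [Nat.unpair_pair] at h6
        rw [blk_length] at h7
        rw [List.getD_eq_getElem?_getD, blk_reverse_get _ _ _ _ h7]
        have : m ≠ i := fun h => h6 h.symm
        simp [this]
  rw [← hval]
  exact Part.mem_map _ (Part.mem_map _ hr)

theorem AX_le (X : ℕ → ℕ) : Nat.RecursiveIn {(X : ℕ →. ℕ)} (chi (AX X) : ℕ →. ℕ) := by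
  classical
  set O : Set (ℕ →. ℕ) := {(X : ℕ →. ℕ)}
  have hc : Primrec fun q : ℕ => (Nat.unpair q).1 := Primrec.fst.comp Primrec.unpair
  have hr : Primrec fun q : ℕ => (Nat.unpair q).2 := Primrec.snd.comp Primrec.unpair
  -- `X` of the middle component
  have h1 : Nat.RecursiveIn O (fun q => Part.some (X (Nat.unpair (Nat.unpair q).2).1)) :=
    rec_comp (Nat.RecursiveIn.oracle (O := O) (X : ℕ →. ℕ) (Set.mem_singleton _)) (hc.comp hr)
  let H : ℕ → ℕ := fun r =>
    Nat.succ (Nat.pair (if (Nat.unpair (Nat.unpair (Nat.unpair r).2).2).1 =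
      (Nat.unpair (Nat.unpair r).2).1 then 0 else (Nat.unpair r).1)
      (Nat.unpair (Nat.unpair (Nat.unpair r).2).2).2)
  have hH : Primrec H := by
    apply Primrec.succ.comp
    apply Primrec₂.natPair.comp
    · apply Primrec.ite
      · exact Primrec.eq.comp (hc.comp (hr.comp hr)) (hc.comp hr)
      · exact Primrec.const 0
      · exact hc
    · exact hr.comp (hr.comp hr)
  have h2 : Nat.RecursiveIn O (fun q => Part.some (H (Nat.pair (X (Nat.unpair (Nat.unpair q).2).1) q))) := by
    refine (Nat.RecursiveIn.comp (primrec_rec hH)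
      (Nat.RecursiveIn.pair h1 (primrec_rec Primrec.id))).of_eq fun n => ?_
    simp [Seq.seq]
  have h3 := Nat.RecursiveIn.prec (Nat.RecursiveIn.zero (O := O)) h2
  have h4 : Nat.RecursiveIn O (fun p => Part.some
      (Encodable.encode (blk X (Nat.unpair p).1 (Nat.unpair p).2))) := by
    refine h3.of_eq fun p => ?_
    simp only
    generalize (Nat.unpair p).1 = a
    induction (Nat.unpair p).2 with
    | zero => simp [blk]; rfl
    | succ n ih =>
      simp only
      rw [ih]
      simp only [Part.bind_eq_bind, Part.bind_some, H, Nat.unpair_pair, blk,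
        Encodable.encode_list_cons, Encodable.encode_nat]
  have h5 : Nat.RecursiveIn O (fun e => Part.some
      (Encodable.encode (blk X (Nat.unpair e).1 (lst e).length))) := by
    refine (Nat.RecursiveIn.comp h4 (primrec_rec (f := fun e => Nat.pair (Nat.unpair e).1
      (lst e).length) (Primrec₂.natPair.comp hc (Primrec.list_length.comp primrec_lst)))).of_eq
      fun n => ?_
    simp
  let U : ℕ → ℕ := fun r => if (Nat.unpair (Nat.unpair r).2).1 < (lst (Nat.unpair r).2).length ∧
    Nat.pair (Nat.unpair (Nat.unpair r).2).1 (Nat.unpair r).1 = (Nat.unpair r).2 then 1 else 0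
  have hU : Primrec U := by
    apply Primrec.ite
    · apply PrimrecPred.and
      · exact Primrec.nat_lt.comp (hc.comp hr) (Primrec.list_length.comp (primrec_lst.comp hr))
      · exact Primrec.eq.comp (Primrec₂.natPair.comp (hc.comp hr) hc) hr
    · exact Primrec.const 1
    · exact Primrec.const 0
  refine (Nat.RecursiveIn.comp (primrec_rec hU)
      (Nat.RecursiveIn.pair h5 (primrec_rec Primrec.id))).of_eq fun e => ?_
  simp only [Seq.seq, Part.map_eq_map, Part.map_some, Part.bind_some, Part.bind_eq_bind, id]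
  show Part.some _ = Part.some _
  congr 1
  simp only [U, Nat.unpair_pair]
  by_cases he : e ∈ AX X
  · rw [chi_of_mem he, if_pos]
    obtain ⟨i, n, hin, rfl⟩ := he
    simp only [Nat.unpair_pair, lst_pair, blk_length]
    exact ⟨hin, trivial⟩
  · rw [chi_of_not_mem he, if_neg]
    rintro ⟨h6, h7⟩
    exact he ⟨_, _, h6, h7.symm⟩

theorem AX_infinite (X : ℕ → ℕ) : (AX X).Infinite := by
  have h : Function.Injective (fun n : ℕ => Nat.pair 0 (Encodable.encode (blk X 0 (n+1)))) := by
    intro n m hnm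
    simp only at hnm
    rw [Nat.pair_eq_pair] at hnm
    have := congrArg List.length (Encodable.encode_injective hnm.2)
    rw [blk_length, blk_length] at this
    omega
  refine (Set.infinite_range_of_injective h).mono ?_
  rintro e ⟨n, rfl⟩
  exact ⟨0, n+1, Nat.succ_pos n, rfl⟩

theorem AX_introreducible (X : ℕ → ℕ) {C : Set ℕ} (hC : C ⊆ AX X) (hinf : C.Infinite) :
    TuringReducible (chi (AX X) : ℕ →. ℕ) (chi C : ℕ →. ℕ) := by
  have h1 : TuringReducible (X : ℕ →. ℕ) (chi C : ℕ →. ℕ) := RecursiveIn.iff_nat.2 (X_le hC hinf)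
  have h2 : TuringReducible (chi (AX X) : ℕ →. ℕ) (X : ℕ →. ℕ) := RecursiveIn.iff_nat.2 (AX_le X)
  exact h2.trans h1

end Pool.Agent.V11243.OracleX
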