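import Mathlib
import Pool.Agent.V11243.OracleX

/-!
Turing operators (oracle programs) and the use principle.
-/

namespace Pool.Agent.V11243.TOp

/-- Programs for oracle Turing machines (Turing operators).  The constructors are exactly the
clauses of Mathlib's `Nat.RecursiveIn`. -/
inductive TuringOp : Type
  | zero | succ | left | right | oracle
  | pair (f g : TuringOp)
  | comp (f g : TuringOp)
  | prec (f g : TuringOp)
  | rfind (f : TuringOp)

/-- `Φ.eval o` is the partial function computed by the Turing operator `Φ` with the (total)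
oracle `o : ℕ → ℕ`.  Each clause is the corresponding clause of Mathlib's `Nat.RecursiveIn`. -/
def TuringOp.eval (o : ℕ → ℕ) : TuringOp → (ℕ → Part ℕ)
  | .zero => fun _ => Part.some 0
  | .succ => fun n => Part.some (n + 1)
  | .left => fun n => Part.some (Nat.unpair n).1
  | .right => fun n => Part.some (Nat.unpair n).2
  | .oracle => fun n => Part.some (o n)
  | .pair f g => fun n => Nat.pair <$> TuringOp.eval o f n <*> TuringOp.eval o g n
  | .comp f g => fun n => TuringOp.eval o g n >>= TuringOp.eval o f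
  | .prec f g => fun p =>
      Nat.rec (TuringOp.eval o f (Nat.unpair p).1)
        (fun y IH => do
          let i ← IH
          TuringOp.eval o g (Nat.pair (Nat.unpair p).1 (Nat.pair y i))) (Nat.unpair p).2
  | .rfind f => fun a =>
      Nat.rfind fun n => (fun m => decide (m = 0)) <$> TuringOp.eval o f (Nat.pair a n)

/-- Adequacy: the functions computed by a Turing operator with oracle `o` are exactly those
recursive in `o` in the sense of Mathlib. -/
theorem recursiveIn_iff (o : ℕ → ℕ) (f : ℕ → Part ℕ) :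
    Nat.RecursiveIn {(o : ℕ →. ℕ)} f ↔ ∃ Φ : TuringOp, Φ.eval o = f := by
  constructor
  · intro h
    induction h with
    | zero => exact ⟨.zero, rfl⟩
    | succ => exact ⟨.succ, rfl⟩
    | left => exact ⟨.left, rfl⟩
    | right => exact ⟨.right, rfl⟩
    | oracle g hg =>
      rw [Set.mem_singleton_iff] at hg
      subst hg
      exact ⟨.oracle, rfl⟩
    | pair _ _ ih1 ih2 =>
      obtain ⟨f, rfl⟩ := ih1
      obtain ⟨g, rfl⟩ := ih2
      exact ⟨.pair f g, rfl⟩
    | comp _ _ ih1 ih2 =>
      obtain ⟨f, rfl⟩ := ih1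
      obtain ⟨g, rfl⟩ := ih2
      exact ⟨.comp f g, rfl⟩
    | prec _ _ ih1 ih2 =>
      obtain ⟨f, rfl⟩ := ih1
      obtain ⟨g, rfl⟩ := ih2
      exact ⟨.prec f g, rfl⟩
    | rfind _ ih1 =>
      obtain ⟨f, rfl⟩ := ih1
      exact ⟨.rfind f, rfl⟩
  · rintro ⟨Φ, rfl⟩
    induction Φ with
    | zero => exact .zero
    | succ => exact .succ
    | left => exact .left
    | right => exact .right
    | oracle => exact .oracle _ (Set.mem_singleton _)
    | pair f g ih1 ih2 => exact .pair ih1 ih2
    | comp f g ih1 ih2 => exact .comp ih1 ih2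
    | prec f g ih1 ih2 => exact .prec ih1 ih2
    | rfind f ih => exact .rfind ih

/-- an injection of operators into `ℕ` -/
def TuringOp.code : TuringOp → ℕ
  | .zero => Nat.pair 0 0
  | .succ => Nat.pair 1 0
  | .left => Nat.pair 2 0
  | .right => Nat.pair 3 0
  | .oracle => Nat.pair 4 0
  | .pair f g => Nat.pair 5 (Nat.pair f.code g.code)
  | .comp f g => Nat.pair 6 (Nat.pair f.code g.code)
  | .prec f g => Nat.pair 7 (Nat.pair f.code g.code)
  | .rfind f => Nat.pair 8 f.code

theorem code_injective : Function.Injective TuringOp.code := by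
  intro a
  induction a with
  | zero => intro b h; cases b <;> simp_all [TuringOp.code, Nat.pair_eq_pair]
  | succ => intro b h; cases b <;> simp_all [TuringOp.code, Nat.pair_eq_pair]
  | left => intro b h; cases b <;> simp_all [TuringOp.code, Nat.pair_eq_pair]
  | right => intro b h; cases b <;> simp_all [TuringOp.code, Nat.pair_eq_pair]
  | oracle => intro b h; cases b <;> simp_all [TuringOp.code, Nat.pair_eq_pair]
  | pair f g ih1 ih2 =>
    intro b h
    cases b <;> simp [TuringOp.code, Nat.pair_eq_pair] at h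
    rw [ih1 h.1, ih2 h.2]
  | comp f g ih1 ih2 =>
    intro b h
    cases b <;> simp [TuringOp.code, Nat.pair_eq_pair] at h
    rw [ih1 h.1, ih2 h.2]
  | prec f g ih1 ih2 =>
    intro b h
    cases b <;> simp [TuringOp.code, Nat.pair_eq_pair] at h
    rw [ih1 h.1, ih2 h.2]
  | rfind f ih =>
    intro b h
    cases b <;> simp [TuringOp.code, Nat.pair_eq_pair] at h
    rw [ih h]

instance : Countable TuringOp := code_injective.countable

instance : Nonempty TuringOp := ⟨.zero⟩

/-- two oracles agree below `u` -/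
def Agree (u : ℕ) (o o' : ℕ → ℕ) : Prop := ∀ k < u, o' k = o k

theorem Agree.mono {u u' : ℕ} (h : u ≤ u') {o o' : ℕ → ℕ} (ha : Agree u' o o') : Agree u o o' :=
  fun k hk => ha k (lt_of_lt_of_le hk h)

theorem use (o : ℕ → ℕ) (Φ : TuringOp) : ∀ n m, m ∈ Φ.eval o n →
    ∃ u, ∀ o', Agree u o o' → m ∈ Φ.eval o' n := by
  induction Φ with
  | zero => exact fun n m h => ⟨0, fun o' _ => h⟩
  | succ => exact fun n m h => ⟨0, fun o' _ => h⟩
  | left => exact fun n m h => ⟨0, fun o' _ => h⟩
  | right => exact fun n m h => ⟨0, fun o' _ => h⟩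
  | oracle =>
    intro n m h
    refine ⟨n + 1, fun o' ho' => ?_⟩
    simp only [TuringOp.eval] at h ⊢
    rw [ho' n (Nat.lt_succ_self n)]
    exact h
  | pair f g ih1 ih2 =>
    intro n m h
    simp only [TuringOp.eval, Seq.seq, Part.map_eq_map, Part.bind_eq_bind, Part.mem_bind_iff,
      Part.mem_map_iff] at h ⊢
    obtain ⟨F, ⟨a, ha, rfl⟩, b, hb, rfl⟩ := h
    obtain ⟨u1, h1⟩ := ih1 n a ha
    obtain ⟨u2, h2⟩ := ih2 n b hb
    refine ⟨max u1 u2, fun o' ho' => ?_⟩
    exact ⟨_, ⟨a, h1 o' (ho'.mono (le_max_left _ _)), rfl⟩, b,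
      h2 o' (ho'.mono (le_max_right _ _)), rfl⟩
  | comp f g ih1 ih2 =>
    intro n m h
    simp only [TuringOp.eval, Part.bind_eq_bind, Part.mem_bind_iff] at h ⊢
    obtain ⟨a, ha, hb⟩ := h
    obtain ⟨u1, h1⟩ := ih2 n a ha
    obtain ⟨u2, h2⟩ := ih1 a m hb
    refine ⟨max u1 u2, fun o' ho' => ?_⟩
    exact ⟨a, h1 o' (ho'.mono (le_max_left _ _)), h2 o' (ho'.mono (le_max_right _ _))⟩
  | prec f g ih1 ih2 =>
    intro n m h
    simp only [TuringOp.eval] at h ⊢
    generalize (Nat.unpair n).1 = a at h ⊢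
    generalize (Nat.unpair n).2 = k at h ⊢
    induction k generalizing m with
    | zero => exact ih1 a m h
    | succ k ih =>
      simp only [Part.bind_eq_bind, Part.mem_bind_iff] at h ⊢
      obtain ⟨i, hi, hm⟩ := h
      obtain ⟨u1, h1⟩ := ih i hi
      obtain ⟨u2, h2⟩ := ih2 _ m hm
      refine ⟨max u1 u2, fun o' ho' => ?_⟩
      exact ⟨i, h1 o' (ho'.mono (le_max_left _ _)), h2 o' (ho'.mono (le_max_right _ _))⟩
  | rfind f ih =>
    intro n m h
    simp only [TuringOp.eval] at h ⊢
    have h' := Nat.mem_rfind.1 h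
    obtain ⟨h1, h2⟩ := h'
    simp only [Part.map_eq_map, Part.mem_map_iff, decide_eq_true_eq, decide_eq_false_iff_not] at h1 h2
    obtain ⟨a, ha, ha0⟩ := h1
    obtain ⟨u1, hu1⟩ := ih _ a ha
    have h3 : ∀ k : Fin m, ∃ u, ∀ o', Agree u o o' → ∃ b, b ∈ f.eval o' (Nat.pair n k) ∧ ¬ b = 0 := by
      intro k
      obtain ⟨b, hb, hb0⟩ := h2 k.2
      obtain ⟨u, hu⟩ := ih _ b hb
      exact ⟨u, fun o' ho' => ⟨b, hu o' ho', hb0⟩⟩
    choose uu huu using h3
    refine ⟨max u1 (Finset.univ.sup uu), fun o' ho' => ?_⟩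
    refine Nat.mem_rfind.2 ⟨?_, ?_⟩
    · simp only [Part.map_eq_map, Part.mem_map_iff, decide_eq_true_eq]
      exact ⟨a, hu1 o' (ho'.mono (le_max_left _ _)), ha0⟩
    · intro k hk
      simp only [Part.map_eq_map, Part.mem_map_iff, decide_eq_false_iff_not]
      exact huu ⟨k, hk⟩ o' (ho'.mono ((Finset.le_sup (f := uu) (Finset.mem_univ (⟨k, hk⟩ : Fin m))).trans
        (le_max_right _ _)))

end Pool.Agent.V11243.TOp
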