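import Mathlib
import Pool.Agent.V11251.DW.Oag

/-!
# Divisible ordered abelian groups: quantifier elimination with constants in a subgroup
-/

set_option autoImplicit false
set_option linter.unusedVariables false
set_option linter.unusedSectionVars false

open FirstOrder Pool.Agent.V11251.DW

universe u

namespace Pool.Agent.V11243.OagQE

variable {G : Type u} [AddCommGroup G] [LinearOrder G] [IsOrderedAddMonoid G]
variable {ι : Type} [Fintype ι]

/-- predicates determined by the signs of finitely many affine forms with constants in `H` -/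
def SDH (H : AddSubgroup G) (P : (ι → G) → Prop) : Prop :=
  ∃ Fs : Set (Form G ι), Fs.Finite ∧ (∀ f ∈ Fs, f.2 ∈ H) ∧
    ∀ v v', (∀ f ∈ Fs, SS (ev f v) (ev f v')) → (P v ↔ P v')

variable {H : AddSubgroup G}

theorem SDH.congr {P Q : (ι → G) → Prop} (h : SDH H P) (hPQ : ∀ v, P v ↔ Q v) : SDH H Q := by
  obtain ⟨Fs, hfin, hH, hF⟩ := h
  exact ⟨Fs, hfin, hH, fun v v' hv => by rw [← hPQ, ← hPQ]; exact hF v v' hv⟩

theorem SDH.false : SDH H (fun _ : ι → G => False) :=
  ⟨∅, Set.finite_empty, fun _ h => h.elim, fun _ _ _ => Iff.rfl⟩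

theorem SDH.imp {P Q : (ι → G) → Prop} (hP : SDH H P) (hQ : SDH H Q) :
    SDH H (fun v => P v → Q v) := by
  obtain ⟨Fs, hfin, hH, hF⟩ := hP
  obtain ⟨Fs', hfin', hH', hF'⟩ := hQ
  exact ⟨Fs ∪ Fs', hfin.union hfin', fun f hf => hf.elim (hH f) (hH' f), fun v v' hv => imp_congr
    (hF v v' fun f hf => hv f (Or.inl hf)) (hF' v v' fun f hf => hv f (Or.inr hf))⟩

theorem SDH.not {P : (ι → G) → Prop} (hP : SDH H P) : SDH H (fun v => ¬ P v) := hP.imp SDH.false

theorem SDH.pos (f : Form G ι) (hf : f.2 ∈ H) : SDH H (fun v => 0 < ev f v) :=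
  ⟨{f}, Set.finite_singleton f, fun g hg => by rw [Set.mem_singleton_iff.1 hg]; exact hf,
    fun v v' hv => (hv f rfl).2⟩

theorem SDH.eqz (f : Form G ι) (hf : f.2 ∈ H) : SDH H (fun v => ev f v = 0) :=
  ⟨{f}, Set.finite_singleton f, fun g hg => by rw [Set.mem_singleton_iff.1 hg]; exact hf,
    fun v v' hv => (hv f rfl).eq_zero⟩

variable (hdiv : ∀ n : ℤ, n ≠ 0 → ∀ g : G, ∃ h : G, n • h = g)

include hdiv in
theorem SDH.ex [Nontrivial G] {P : (ι → G) → G → Prop}
    (h : SDH H (fun w : Option ι → G => P (fun i => w (some i)) (w none))) :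
    SDH H (fun v => ∃ y, P v y) := by
  classical
  haveI := denselyOrdered_of_div hdiv
  obtain ⟨Fs, hfin, hH, hF⟩ := h
  let cr : Form G (Option ι) → Form G (Option ι) → Form G ι := fun f g =>
    ((g.1 none) • (rest f).1 + (-(f.1 none)) • (rest g).1,
      (g.1 none) • (rest f).2 + (-(f.1 none)) • (rest g).2)
  have hcr : ∀ f g v, ev (cr f g) v = g.1 none • ev (rest f) v - f.1 none • ev (rest g) v := by
    intro f g v
    have h1 := ev_add ((g.1 none) • (rest f).1, (g.1 none) • (rest f).2)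
      ((-(f.1 none)) • (rest g).1, (-(f.1 none)) • (rest g).2) v
    rw [ev_zsmul, ev_zsmul] at h1
    rw [sub_eq_add_neg, ← neg_smul]
    exact h1
  refine ⟨rest '' Fs ∪ (fun p : Form G (Option ι) × Form G (Option ι) => cr p.1 p.2) '' (Fs ×ˢ Fs),
    (hfin.image _).union ((hfin.prod hfin).image _), ?_, ?_⟩
  · rintro f (⟨g, hg, rfl⟩ | ⟨⟨g, g'⟩, ⟨hg, hg'⟩, rfl⟩)
    · exact hH g hg
    · exact H.add_mem (H.zsmul_mem (hH g hg) _) (H.zsmul_mem (hH g' hg') _)
  have key : ∀ v v', (∀ f ∈ rest '' Fs ∪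
      (fun p : Form G (Option ι) × Form G (Option ι) => cr p.1 p.2) '' (Fs ×ˢ Fs),
      SS (ev f v) (ev f v')) → (∃ y, P v y) → ∃ y, P v' y := by
    intro v v' hv ⟨y, hy⟩
    let S := {f : Form G (Option ι) // f ∈ Fs ∧ f.1 none ≠ 0}
    haveI : Finite S := (hfin.subset (fun f hf => hf.1 : {f | f ∈ Fs ∧ f.1 none ≠ 0} ⊆ Fs)).to_subtype
    have hroot : ∀ (w : ι → G) (f : S), ∃ r, (f.1.1 none) • r = - ev (rest f.1) w :=
      fun w f => hdiv _ f.2.2 _
    choose r hr using hroot v
    choose r' hr' using hroot v'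
    have hord : ∀ f g : S, r f < r g ↔ r' f < r' g := by
      intro f g
      have hnn : f.1.1 none * g.1.1 none ≠ 0 := mul_ne_zero f.2.2 g.2.2
      have e1 : (f.1.1 none * g.1.1 none) • (r f - r g) = - ev (cr f.1 g.1) v := by
        rw [hcr, smul_sub, mul_comm, mul_smul, hr, mul_comm, mul_smul, hr, smul_neg, smul_neg]
        abel
      have e2 : (f.1.1 none * g.1.1 none) • (r' f - r' g) = - ev (cr f.1 g.1) v' := by
        rw [hcr, smul_sub, mul_comm, mul_smul, hr', mul_comm, mul_smul, hr', smul_neg, smul_neg]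
        abel
      have h3 : SS (ev (cr f.1 g.1) v) (ev (cr f.1 g.1) v') :=
        hv _ (Or.inr ⟨(f.1, g.1), ⟨f.2.1, g.2.1⟩, rfl⟩)
      have h4 : SS (- ev (cr f.1 g.1) v) (- ev (cr f.1 g.1) v') := by
        unfold SS at h3 ⊢
        simp only [Left.neg_neg_iff, Left.neg_pos_iff]
        exact ⟨h3.2, h3.1⟩
      rw [← e1, ← e2, ss_zsmul hnn] at h4
      have h5 := h4.1
      rw [sub_neg, sub_neg] at h5
      exact h5
    obtain ⟨y', hy'⟩ := exists_match r r' hord y
    refine ⟨y', ?_⟩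
    have := (hF (fun o => o.elim y v) (fun o => o.elim y' v') ?_).1 hy
    · exact this
    · intro f hf
      rw [ev_rest, ev_rest]
      by_cases hn : f.1 none = 0
      · rw [hn, zero_smul, zero_smul, zero_add, zero_add]
        exact hv _ (Or.inl ⟨f, hf, rfl⟩)
      · let f' : S := ⟨f, hf, hn⟩
        have e1 : f.1 none • y + ev (rest f) v = f.1 none • (y - r f') := by
          rw [smul_sub, hr f']
          abel
        have e2 : f.1 none • y' + ev (rest f) v' = f.1 none • (y' - r' f') := by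
          rw [smul_sub, hr' f']
          abel
        rw [e1, e2, ss_zsmul hn]
        unfold SS
        rw [sub_neg, sub_neg, sub_pos, sub_pos]
        exact hy' f'
  exact fun v v' hv => ⟨key v v' hv, key v' v fun f hf => (hv f hf).symm⟩

include hdiv in
theorem SDH.all [Nontrivial G] {P : (ι → G) → G → Prop}
    (h : SDH H (fun w : Option ι → G => P (fun i => w (some i)) (w none))) :
    SDH H (fun v => ∀ y, P v y) := by
  have := (SDH.ex hdiv (P := fun v y => ¬ P v y) h.not).not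
  exact this.congr fun v => by push Not; rfl

theorem term_formH {β : Type*} {m : ℕ} (t : Log.Term (β ⊕ Fin m)) (p : β → Form G ι)
    (q : Fin m → Form G ι) (hp : ∀ b, (p b).2 ∈ H) (hq : ∀ i, (q i).2 ∈ H) :
    ∃ f : Form G ι, f.2 ∈ H ∧ ∀ v : ι → G,
      t.realize (Sum.elim (fun b => ev (p b) v) (fun i => ev (q i) v)) = ev f v := by
  induction t with
  | var x =>
    rcases x with b | i
    · exact ⟨p b, hp b, fun v => rfl⟩
    · exact ⟨q i, hq i, fun v => rfl⟩
  | func f ts ih =>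
    cases f with
    | zero => exact ⟨(0, 0), H.zero_mem, fun v => (ev_const 0 v).symm⟩
    | neg =>
      obtain ⟨g, hgH, hg⟩ := ih 0
      refine ⟨(-g.1, -g.2), H.neg_mem hgH, fun v => ?_⟩
      rw [ev_neg, ← hg v]
      rfl
    | add =>
      obtain ⟨g, hgH, hg⟩ := ih 0
      obtain ⟨g', hgH', hg'⟩ := ih 1
      refine ⟨(g.1 + g'.1, g.2 + g'.2), H.add_mem hgH hgH', fun v => ?_⟩
      rw [ev_add, ← hg v, ← hg' v]
      rfl

include hdiv in
theorem formula_sdH [Nontrivial G] {β : Type*} {m : ℕ} (ψ : Log.BoundedFormula β m) :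
    ∀ (ι : Type) [Fintype ι] (p : β → Form G ι) (q : Fin m → Form G ι),
      (∀ b, (p b).2 ∈ H) → (∀ i, (q i).2 ∈ H) →
      SDH H (fun v : ι → G => ψ.Realize (fun b => ev (p b) v) (fun i => ev (q i) v)) := by
  induction ψ with
  | falsum => intro ι _ p q _ _; exact SDH.false
  | equal t₁ t₂ =>
    intro ι _ p q hp hq
    obtain ⟨f₁, hH₁, h₁⟩ := term_formH t₁ p q hp hq
    obtain ⟨f₂, hH₂, h₂⟩ := term_formH t₂ p q hp hq
    refine (SDH.eqz (f₁.1 + -f₂.1, f₁.2 + -f₂.2) (H.add_mem hH₁ (H.neg_mem hH₂))).congr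
      fun v => ?_
    have e := ev_add f₁ (-f₂.1, -f₂.2) v
    rw [ev_neg] at e
    simp only at e
    rw [e, ← h₁ v, ← h₂ v, ← sub_eq_add_neg, sub_eq_zero]
    rfl
  | rel R ts =>
    intro ι _ p q hp hq
    cases R with
    | lt =>
      obtain ⟨f₁, hH₁, h₁⟩ := term_formH (ts 0) p q hp hq
      obtain ⟨f₂, hH₂, h₂⟩ := term_formH (ts 1) p q hp hq
      refine (SDH.pos (f₂.1 + -f₁.1, f₂.2 + -f₁.2) (H.add_mem hH₂ (H.neg_mem hH₁))).congr
        fun v => ?_
      have e := ev_add f₂ (-f₁.1, -f₁.2) v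
      rw [ev_neg] at e
      simp only at e
      rw [e, ← h₁ v, ← h₂ v, ← sub_eq_add_neg, sub_pos]
      rfl
  | imp φ ψ h₁ h₂ =>
    intro ι _ p q hp hq
    exact (h₁ ι p q hp hq).imp (h₂ ι p q hp hq)
  | @all n φ h =>
    intro ι _ p q hp hq
    classical
    have h1 := h (Option ι) (fun b => wk (p b))
      (Fin.snoc (fun i => wk (q i)) ((Pi.single none 1, 0) : Form G (Option ι)))
      (fun b => hp b) (fun i => by
        refine Fin.lastCases ?_ (fun j => ?_) i
        · rw [Fin.snoc_last]; exact H.zero_mem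
        · rw [Fin.snoc_castSucc]; exact hq j)
    refine SDH.all hdiv (P := fun v y => φ.Realize (fun b => ev (p b) v)
      (Fin.snoc (fun i => ev (q i) v) y)) (h1.congr fun w => ?_)
    have e0 : w = fun o => o.elim (w none) (fun i => w (some i)) := by
      funext o
      rcases o with _ | i <;> rfl
    have e1 : (fun b => ev (wk (p b)) w) = fun b => ev (p b) (fun i => w (some i)) := by
      funext b
      conv_lhs => rw [e0]
      rw [ev_wk]
    have e2 : (fun i => ev ((Fin.snoc (fun i => wk (q i))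
        ((Pi.single none 1, 0) : Form G (Option ι)) : Fin (n + 1) → Form G (Option ι)) i) w) =
        (Fin.snoc (fun i => ev (q i) (fun i => w (some i))) (w none) : Fin (n + 1) → G) := by
      funext i
      refine Fin.lastCases ?_ (fun j => ?_) i
      · rw [Fin.snoc_last, Fin.snoc_last, ev_var]
      · rw [Fin.snoc_castSucc, Fin.snoc_castSucc]
        conv_lhs => rw [e0]
        rw [ev_wk]
    rw [e1, e2]

end Pool.Agent.V11243.OagQE
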