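import Mathlib
import Pool.Agent.V11243.OagQE

/-!
# The models of the theory of the ordered group of rationals
-/

set_option autoImplicit false
set_option linter.unusedVariables false
set_option linter.unusedSectionVars false

open FirstOrder FirstOrder.Language Pool.Agent.V11251.DW Pool.Agent.V11243.OagQE

namespace Pool.Agent.V11243.OagModels

/-- The complete theory of the ordered group of rationals. -/
def T0 : Log.Theory := Log.completeTheory ℚ

/-- the empty assignment -/
abbrev em {N : Type} : Empty → N := fun e => e.elim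

theorem transfer {N : Type} [Log.Structure N] (h : N ⊨ T0) {n : ℕ}
    (φ : Log.BoundedFormula Empty n) (hQ : ∀ xs : Fin n → ℚ, φ.Realize em xs) :
    ∀ xs : Fin n → N, φ.Realize em xs := by
  have h1 : φ.alls ∈ T0 := by
    show ℚ ⊨ φ.alls
    refine BoundedFormula.realize_alls.2 fun xs => ?_
    exact (iff_of_eq (congrArg (fun v => φ.Realize v xs) (Subsingleton.elim em _))).1 (hQ xs)
  have h2 := h.realize_of_mem _ h1
  intro xs
  have := BoundedFormula.realize_alls.1 h2 xs
  exact (iff_of_eq (congrArg (fun v => φ.Realize v xs) (Subsingleton.elim _ em))).1 this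

/-- variable -/
abbrev vr {n : ℕ} (i : Fin n) : Log.Term (Empty ⊕ Fin n) := Term.var (Sum.inr i)
/-- sum of terms -/
abbrev ad {α : Type} (s t : Log.Term α) : Log.Term α := Functions.apply₂ GFun.add s t
/-- negative of a term -/
abbrev ng {α : Type} (s : Log.Term α) : Log.Term α := Functions.apply₁ GFun.neg s
/-- zero term -/
abbrev zr {α : Type} : Log.Term α := Term.func (L := Log) (l := 0) GFun.zero default
/-- atomic formula `s < t` -/
abbrev ltf {n : ℕ} (s t : Log.Term (Empty ⊕ Fin n)) : Log.BoundedFormula Empty n :=
  Relations.boundedFormula₂ GRel.lt s t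

section
variable {N : Type} [S : Log.Structure N]

theorem q_add (x y : ℚ) : Structure.funMap (L := Log) GFun.add ![x, y] = x + y := rfl
theorem q_neg (x : ℚ) : Structure.funMap (L := Log) GFun.neg ![x] = -x := rfl
theorem q_zero (v : Fin 0 → ℚ) : Structure.funMap (L := Log) GFun.zero v = (0 : ℚ) := rfl
theorem q_lt (x y : ℚ) : Structure.RelMap (L := Log) GRel.lt ![x, y] ↔ x < y := Iff.rfl

/-- addition of a structure -/
def sadd (x y : N) : N := Structure.funMap (L := Log) GFun.add ![x, y]
/-- negation of a structure -/
def sneg (x : N) : N := Structure.funMap (L := Log) GFun.neg ![x]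
/-- zero of a structure -/
def szero (N : Type) [Log.Structure N] : N := Structure.funMap (L := Log) GFun.zero default
/-- order of a structure -/
def slt (x y : N) : Prop := Structure.RelMap (L := Log) GRel.lt ![x, y]

theorem real_ad {α : Type} (s t : Log.Term α) (v : α → N) :
    (ad s t).realize v = sadd (s.realize v) (t.realize v) :=
  Term.realize_functions_apply₂

theorem real_ng {α : Type} (s : Log.Term α) (v : α → N) :
    (ng s).realize v = sneg (s.realize v) :=
  Term.realize_functions_apply₁

theorem real_zr {α : Type} (v : α → N) : (zr : Log.Term α).realize v = szero N := by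
  exact congrArg (Structure.funMap (L := Log) (M := N) (n := 0) GFun.zero)
    (Subsingleton.elim _ _)

theorem real_ltf {n : ℕ} (s t : Log.Term (Empty ⊕ Fin n)) (xs : Fin n → N) :
    (ltf s t).Realize em xs ↔
      slt (s.realize (Sum.elim em xs)) (t.realize (Sum.elim em xs)) :=
  BoundedFormula.realize_rel₂

theorem real_eq {n : ℕ} (s t : Log.Term (Empty ⊕ Fin n)) (xs : Fin n → N) :
    (s =' t).Realize em xs ↔
      s.realize (Sum.elim em xs) = t.realize (Sum.elim em xs) :=
  BoundedFormula.realize_bdEqual s t

theorem real_vr {n : ℕ} (i : Fin n) (xs : Fin n → N) :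
    (vr i).realize (Sum.elim em xs) = xs i := rfl

end

section

theorem s_add_q (x y : ℚ) : sadd x y = x + y := rfl
theorem s_neg_q (x : ℚ) : sneg x = -x := rfl
theorem s_zero_q : szero ℚ = 0 := rfl
theorem s_lt_q (x y : ℚ) : slt x y ↔ x < y := Iff.rfl

variable {N : Type} [S : Log.Structure N] (h : N ⊨ T0)

include h

theorem s_assoc (x y z : N) : sadd (sadd x y) z = sadd x (sadd y z) := by
  have := transfer h (n := 3) (ad (ad (vr 0) (vr 1)) (vr 2) =' ad (vr 0) (ad (vr 1) (vr 2))) (by
    intro xs
    rw [real_eq]; simp only [real_ad, real_vr, s_add_q]; ring) ![x, y, z]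
  rw [real_eq] at this
  simp only [real_ad, real_vr] at this
  exact this

theorem s_comm (x y : N) : sadd x y = sadd y x := by
  have := transfer h (n := 2) (ad (vr 0) (vr 1) =' ad (vr 1) (vr 0)) (by
    intro xs
    rw [real_eq]; simp only [real_ad, real_vr, s_add_q]; ring) ![x, y]
  rw [real_eq] at this
  simp only [real_ad, real_vr] at this
  exact this

theorem s_zadd (x : N) : sadd (szero N) x = x := by
  have := transfer h (n := 1) (ad zr (vr 0) =' (vr 0)) (by
    intro xs
    rw [real_eq]; simp only [real_ad, real_vr, real_zr, s_add_q, s_zero_q]; ring) ![x]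
  rw [real_eq] at this
  simp only [real_ad, real_vr, real_zr] at this
  exact this

theorem s_nadd (x : N) : sadd (sneg x) x = szero N := by
  have := transfer h (n := 1) (ad (ng (vr 0)) (vr 0) =' zr) (by
    intro xs
    rw [real_eq]; simp only [real_ad, real_vr, real_zr, real_ng, s_add_q, s_zero_q, s_neg_q]; ring)
    ![x]
  rw [real_eq] at this
  simp only [real_ad, real_vr, real_zr, real_ng] at this
  exact this

theorem s_irrefl (x : N) : ¬ slt x x := by
  have := transfer h (n := 1) (∼ (ltf (vr 0) (vr 0))) (by
    intro xs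
    rw [BoundedFormula.realize_not, real_ltf]; simp only [real_vr, s_lt_q]; exact lt_irrefl _)
    ![x]
  rw [BoundedFormula.realize_not, real_ltf] at this
  exact this

theorem s_trans (x y z : N) (h1 : slt x y) (h2 : slt y z) : slt x z := by
  have := transfer h (n := 3)
    ((ltf (vr 0) (vr 1)).imp ((ltf (vr 1) (vr 2)).imp (ltf (vr 0) (vr 2)))) (by
    intro xs
    rw [BoundedFormula.realize_imp, BoundedFormula.realize_imp, real_ltf, real_ltf, real_ltf]
    simp only [real_vr, s_lt_q]; exact lt_trans) ![x, y, z]
  rw [BoundedFormula.realize_imp, BoundedFormula.realize_imp, real_ltf, real_ltf, real_ltf] at this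
  exact this h1 h2

theorem s_tri (x y : N) : slt x y ∨ x = y ∨ slt y x := by
  have := transfer h (n := 2)
    ((∼ (ltf (vr 0) (vr 1))).imp ((∼ (vr 0 =' vr 1)).imp (ltf (vr 1) (vr 0)))) (by
    intro xs
    rw [BoundedFormula.realize_imp, BoundedFormula.realize_imp, BoundedFormula.realize_not,
      BoundedFormula.realize_not, real_ltf, real_ltf, real_eq]
    simp only [real_vr, s_lt_q]
    intro h1 h2
    exact lt_of_le_of_ne (not_lt.1 h1) (Ne.symm h2)) ![x, y]
  rw [BoundedFormula.realize_imp, BoundedFormula.realize_imp, BoundedFormula.realize_not,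
      BoundedFormula.realize_not, real_ltf, real_ltf, real_eq] at this
  by_cases h1 : slt x y
  · exact Or.inl h1
  · by_cases h2 : x = y
    · exact Or.inr (Or.inl h2)
    · exact Or.inr (Or.inr (this h1 h2))

theorem s_mono (x y z : N) (h1 : slt x y) : slt (sadd z x) (sadd z y) := by
  have := transfer h (n := 3)
    ((ltf (vr 0) (vr 1)).imp (ltf (ad (vr 2) (vr 0)) (ad (vr 2) (vr 1)))) (by
    intro xs
    rw [BoundedFormula.realize_imp, real_ltf, real_ltf]
    simp only [real_vr, s_lt_q, real_ad, s_add_q]
    intro h2
    linarith) ![x, y, z]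
  rw [BoundedFormula.realize_imp, real_ltf, real_ltf] at this
  have h2 := this h1
  simp only [real_ad, real_vr] at h2
  exact h2

theorem s_nontriv : ∃ x : N, x ≠ szero N := by
  have := transfer h (n := 0) (∃' (∼ (vr 0 =' zr))) (by
    intro xs
    rw [BoundedFormula.realize_ex]
    refine ⟨1, ?_⟩
    rw [BoundedFormula.realize_not, real_eq, real_zr, s_zero_q, real_vr]
    intro h0
    have h1 : (Fin.snoc xs (1 : ℚ) : Fin (0 + 1) → ℚ) (Fin.last 0) = 1 :=
      Fin.snoc_last (α := fun _ => ℚ) _ _
    exact one_ne_zero (h1.symm.trans h0)) default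
  rw [BoundedFormula.realize_ex] at this
  obtain ⟨a, ha⟩ := this
  rw [BoundedFormula.realize_not, real_eq, real_zr] at ha
  exact ⟨_, ha⟩

end

/-- `n` times a term -/
def nTerm {α : Type} (t : Log.Term α) : ℕ → Log.Term α
  | 0 => zr
  | n + 1 => ad (nTerm t n) t

/-- multiples in a structure -/
def snsmul {N : Type} [Log.Structure N] (x : N) : ℕ → N
  | 0 => szero N
  | n + 1 => sadd (snsmul x n) x

theorem realize_nTerm {N : Type} [Log.Structure N] {α : Type} (t : Log.Term α)
    (n : ℕ) (v : α → N) : (nTerm t n).realize v = snsmul (t.realize v) n := by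
  induction n with
  | zero => rw [nTerm, real_zr]; rfl
  | succ n ih => rw [nTerm, real_ad, ih]; rfl

theorem snsmul_q (x : ℚ) (n : ℕ) : snsmul x n = n * x := by
  induction n with
  | zero => rw [snsmul, s_zero_q]; simp
  | succ n ih => rw [snsmul, ih, s_add_q]; push_cast; ring

theorem exists_oag (N : Type) [S : Log.Structure N] (h : N ⊨ T0) :
    ∃ (_ : AddCommGroup N) (_ : LinearOrder N), S = oagStr N ∧ IsOrderedAddMonoid N ∧
      Nontrivial N ∧ (∀ n : ℤ, n ≠ 0 → ∀ g : N, ∃ h, n • h = g) := by
  classical
  letI iA : Add N := ⟨sadd⟩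
  letI iZ : Zero N := ⟨szero N⟩
  letI iN : Neg N := ⟨sneg⟩
  let A : AddCommGroup N :=
    { AddGroup.ofLeftAxioms (s_assoc h) (s_zadd h) (s_nadd h) with
      add_comm := s_comm h }
  have hsto : IsStrictTotalOrder N (slt : N → N → Prop) :=
    { irrefl := s_irrefl h
      trans := s_trans h
      trichotomous := fun a b h1 h2 => by
        rcases s_tri h a b with h3 | h3 | h3
        · exact absurd h3 h1
        · exact h3
        · exact absurd h3 h2 }
  let O : LinearOrder N := linearOrderOfSTO slt
  have hS : S = @oagStr N A O := by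
    apply Language.Structure.ext
    · funext n f v
      cases f with
      | zero =>
        show _ = szero N
        unfold szero
        congr 1
        exact Subsingleton.elim _ _
      | neg =>
        show _ = sneg (v 0)
        unfold sneg
        congr 1
        funext i
        fin_cases i
        rfl
      | add =>
        show _ = sadd (v 0) (v 1)
        unfold sadd
        congr 1
        funext i
        fin_cases i <;> rfl
    · funext n R v
      cases R with
      | lt =>
        show _ = slt (v 0) (v 1)
        unfold slt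
        congr 1
        funext i
        fin_cases i <;> rfl
  have hmono : ∀ x y z : N, x < y → z + x < z + y := fun x y z => s_mono h x y z
  refine ⟨A, O, hS, ?_, ?_, ?_⟩
  · constructor
    · intro a b hab c
      rcases hab.lt_or_eq with h1 | h1
      · rw [add_comm a c, add_comm b c]; exact (hmono _ _ c h1).le
      · rw [h1]
    · intro a b hab c
      rcases hab.lt_or_eq with h1 | h1
      · exact (hmono _ _ c h1).le
      · rw [h1]
  · obtain ⟨x, hx⟩ := s_nontriv h
    exact ⟨x, 0, hx⟩
  · have hN : ∀ n : ℕ, n ≠ 0 → ∀ g : N, ∃ h, n • h = g := by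
      intro n hn g
      have := transfer h (n := 1) (∃' (nTerm (vr 1) n =' vr 0)) (by
        intro xs
        rw [BoundedFormula.realize_ex]
        refine ⟨xs 0 / n, ?_⟩
        rw [real_eq, realize_nTerm, real_vr, real_vr, snsmul_q]
        have : (n : ℚ) ≠ 0 := by exact_mod_cast hn
        show (n : ℚ) * (xs 0 / n) = xs 0
        field_simp) (fun _ => g)
      rw [BoundedFormula.realize_ex] at this
      obtain ⟨a, ha⟩ := this
      rw [real_eq, realize_nTerm, real_vr, real_vr] at ha
      have hs : ∀ (x : N) (k : ℕ), snsmul x k = k • x := by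
        intro x k
        induction k with
        | zero => rw [zero_smul]; rfl
        | succ k ih => rw [succ_nsmul, ← ih]; rfl
      rw [hs] at ha
      exact ⟨_, ha⟩
    intro n hn g
    rcases Int.natAbs_eq n with h1 | h1
    · obtain ⟨x, hx⟩ := hN n.natAbs (by omega) g
      refine ⟨x, ?_⟩
      rw [h1, natCast_zsmul, hx]
    · obtain ⟨x, hx⟩ := hN n.natAbs (by omega) (-g)
      refine ⟨x, ?_⟩
      rw [h1, neg_smul, natCast_zsmul, hx, neg_neg]

end Pool.Agent.V11243.OagModels
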