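import Mathlib

/-!
Subspaces of products that fill all countable subproducts, and paracompactness.
-/

namespace Pool.Agent.V11243.FillPara

open Set Topology Filter

section Chain

variable {I : Type*} {X : I → Type*} [∀ i, TopologicalSpace (X i)]

theorem box_of_nhds {y : ∀ i, X i} {N : Set (∀ i, X i)} (h : N ∈ 𝓝 y) :
    ∃ (F : Finset I) (U : ∀ i, Set (X i)), (∀ i, U i ∈ 𝓝 (y i)) ∧ Set.pi (F : Set I) U ⊆ N := by
  rw [nhds_pi, Filter.mem_pi'] at h
  obtain ⟨F, U, h1, h2⟩ := h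
  exact ⟨F, U, h1, h2⟩

/-- The chain argument. -/
theorem chain {ι : Type*} (D : Set (∀ i, X i))
    (hfill : ∀ J : Set I, J.Countable → ∀ x : (∀ i, X i), ∃ d ∈ D, ∀ j ∈ J, d j = x j)
    (V : ι → Set (∀ i, X i)) (hcov : ∀ d ∈ D, ∃ t, d ∈ V t)
    (hlf : ∀ d ∈ D, ∃ N ∈ 𝓝 d, {t | (V t ∩ N).Nonempty}.Finite)
    (Good : Set ι → Finset I → (∀ i, X i) → Prop)
    (h0 : ∃ J y, Good ∅ J y)
    (hD : ∀ T J y, Good T J y → y ∈ D)
    (hN : ∀ T J y, Good T J y → ∃ N ∈ 𝓝 y, ∀ t ∈ T, V t ∩ N = ∅)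
    (hext : ∀ T J y, Good T J y → ∀ (T' : Set ι) (_ : T'.Finite) (J' : Finset I),
      ∃ (T'' : Set ι) (J'' : Finset I) (y' : ∀ i, X i), T ∪ T' ⊆ T'' ∧
        ((J : Set I) ∪ (J' : Set I)) ⊆ (J'' : Set I) ∧ Good T'' J'' y' ∧
        ∀ j ∈ J, y' j = y j) : False := by
  classical
  let St := {σ : Set ι × Finset I × (∀ i, X i) // Good σ.1 σ.2.1 σ.2.2}
  -- neighbourhoods
  have hB : ∀ σ : St, ∃ (F : Finset I) (U : ∀ i, Set (X i)), (∀ i, U i ∈ 𝓝 (σ.1.2.2 i)) ∧
      {t | (V t ∩ Set.pi (F : Set I) U).Nonempty}.Finite ∧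
      ∀ t ∈ σ.1.1, V t ∩ Set.pi (F : Set I) U = ∅ := by
    rintro ⟨⟨T, J, y⟩, hG⟩
    obtain ⟨N1, hN1, hfin⟩ := hlf y (hD _ _ _ hG)
    obtain ⟨N2, hN2, hdis⟩ := hN _ _ _ hG
    obtain ⟨F, U, hU, hsub⟩ := box_of_nhds (Filter.inter_mem hN1 hN2)
    refine ⟨F, U, hU, ?_, ?_⟩
    · apply hfin.subset
      rintro t ⟨z, hz1, hz2⟩
      exact ⟨z, hz1, (hsub hz2).1⟩
    · intro t ht
      have := hdis t ht
      rw [Set.eq_empty_iff_forall_notMem] at this ⊢
      rintro z ⟨hz1, hz2⟩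
      exact this z ⟨hz1, (hsub hz2).2⟩
  choose F U hU hfin hdis using hB
  have hnext : ∀ σ : St, ∃ σ' : St, σ.1.1 ⊆ σ'.1.1 ∧
      {t | (V t ∩ Set.pi (F σ : Set I) (U σ)).Nonempty} ⊆ σ'.1.1 ∧
      (σ.1.2.1 : Set I) ⊆ σ'.1.2.1 ∧ (F σ : Set I) ⊆ σ'.1.2.1 ∧
      ∀ j ∈ σ.1.2.1, σ'.1.2.2 j = σ.1.2.2 j := by
    intro σ
    obtain ⟨T'', J'', y', h1, h2, h3, h4⟩ := hext _ _ _ σ.2 _ (hfin σ) (F σ)
    exact ⟨⟨⟨T'', J'', y'⟩, h3⟩, (Set.subset_union_left).trans h1,
      (Set.subset_union_right).trans h1, (Set.subset_union_left).trans h2,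
      (Set.subset_union_right).trans h2, h4⟩
  choose nx hn1 hn2 hn3 hn4 hn5 using hnext
  obtain ⟨J0, y0, hG0⟩ := h0
  let s : ℕ → St := fun n => Nat.rec ⟨⟨∅, J0, y0⟩, hG0⟩ (fun _ σ => nx σ) n
  have hs : ∀ n, s (n+1) = nx (s n) := fun n => rfl
  have hT : ∀ n m, n ≤ m → (s n).1.1 ⊆ (s m).1.1 := by
    intro n m hnm
    induction hnm with
    | refl => exact subset_rfl
    | step h ih => exact ih.trans (hn1 _)
  have hJ : ∀ n m, n ≤ m → ((s n).1.2.1 : Set I) ⊆ (s m).1.2.1 := by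
    intro n m hnm
    induction hnm with
    | refl => exact subset_rfl
    | step h ih => exact ih.trans (hn3 _)
  have hy : ∀ n m, n ≤ m → ∀ j ∈ (s n).1.2.1, (s m).1.2.2 j = (s n).1.2.2 j := by
    intro n m hnm
    induction hnm with
    | refl => exact fun j _ => rfl
    | @step m h ih =>
      intro j hj
      rw [← ih j hj]
      exact hn5 (s m) j (hJ _ _ h hj)
  -- the limit point
  let x : ∀ i, X i := fun i => if h : ∃ n, i ∈ (s n).1.2.1 then (s (Nat.find h)).1.2.2 i else y0 i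
  have hx : ∀ n, ∀ i ∈ (s n).1.2.1, x i = (s n).1.2.2 i := by
    intro n i hi
    have h : ∃ n, i ∈ (s n).1.2.1 := ⟨n, hi⟩
    simp only [x, dif_pos h]
    exact (hy _ _ (Nat.find_min' h hi) i (Nat.find_spec h)).symm
  obtain ⟨d, hd, hdx⟩ := hfill (⋃ n, ((s n).1.2.1 : Set I))
    (Set.countable_iUnion fun n => (Finset.countable_toSet _)) x
  obtain ⟨N, hNd, hNfin⟩ := hlf d hd
  obtain ⟨F0, U0, hU0, hsub0⟩ := box_of_nhds hNd
  -- large n
  have hn0 : ∃ n0, ∀ j ∈ F0, j ∈ (⋃ n, ((s n).1.2.1 : Set I)) → j ∈ (s n0).1.2.1 := by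
    have : ∀ j : I, ∃ n, j ∈ (⋃ n, ((s n).1.2.1 : Set I)) → j ∈ (s n).1.2.1 := by
      intro j
      by_cases h : j ∈ (⋃ n, ((s n).1.2.1 : Set I))
      · obtain ⟨n, hn⟩ := Set.mem_iUnion.1 h
        exact ⟨n, fun _ => hn⟩
      · exact ⟨0, fun h' => absurd h' h⟩
    choose f hf using this
    refine ⟨F0.sup f, fun j hj h => ?_⟩
    exact hJ _ _ (Finset.le_sup (f := f) hj) (hf j h)
  obtain ⟨n0, hn0⟩ := hn0
  let W : ℕ → Set (∀ i, X i) := fun n => Set.pi (F (s n) : Set I) (U (s n))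
  have huniq : ∀ t n m, (V t ∩ W n).Nonempty → (V t ∩ W m).Nonempty → n = m := by
    have key : ∀ t n m, n < m → (V t ∩ W n).Nonempty → ¬ (V t ∩ W m).Nonempty := by
      intro t n m hnm h1 h2
      have h3 : t ∈ (s (n+1)).1.1 := hn2 (s n) h1
      have h4 : t ∈ (s m).1.1 := hT _ _ hnm h3
      have := hdis (s m) t h4
      rw [this] at h2
      exact Set.not_nonempty_empty h2
    intro t n m h1 h2
    rcases lt_trichotomy n m with h | h | h
    · exact absurd h2 (key t n m h h1)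
    · exact h
    · exact absurd h1 (key t m n h h2)
  have hbad : {n | ∃ t ∈ {t | (V t ∩ N).Nonempty}, (V t ∩ W n).Nonempty}.Finite := by
    have : {n | ∃ t ∈ {t | (V t ∩ N).Nonempty}, (V t ∩ W n).Nonempty} =
        ⋃ t ∈ {t | (V t ∩ N).Nonempty}, {n | (V t ∩ W n).Nonempty} := by
      ext n
      simp
    rw [this]
    apply hNfin.biUnion
    intro t _
    apply Set.Subsingleton.finite
    intro n hn m hm
    exact huniq t n m hn hm
  obtain ⟨n, hn, hnb⟩ : ∃ n, n0 ≤ n ∧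
      n ∉ {n | ∃ t ∈ {t | (V t ∩ N).Nonempty}, (V t ∩ W n).Nonempty} := by
    have h1 : (Set.Ici n0).Infinite := Set.Ici_infinite n0
    obtain ⟨n, hn1, hn2⟩ := (h1.sdiff hbad).nonempty
    exact ⟨n, hn1, hn2⟩
  -- the common point
  obtain ⟨z, hz, hzx⟩ := hfill ((F0 : Set I) ∪ (F (s n) : Set I))
    (Set.Countable.union (Finset.countable_toSet _) (Finset.countable_toSet _))
    (fun j => if j ∈ F0 then d j else (s n).1.2.2 j)
  have hz1 : z ∈ N := by
    apply hsub0
    intro j hj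
    rw [hzx j (Or.inl hj)]
    simp only [Finset.mem_coe] at hj
    rw [if_pos hj]
    exact mem_of_mem_nhds (hU0 j)
  have hz2 : z ∈ W n := by
    intro j hj
    have hjJ : j ∈ (s (n+1)).1.2.1 := hn4 (s n) hj
    rw [hzx j (Or.inr hj)]
    by_cases hjF : j ∈ F0
    · rw [if_pos hjF]
      have h1 : j ∈ (s n).1.2.1 := hJ _ _ hn (hn0 j hjF (Set.mem_iUnion.2 ⟨n + 1, hjJ⟩))
      rw [hdx j (Set.mem_iUnion.2 ⟨n + 1, hjJ⟩), hx n j h1]
      exact mem_of_mem_nhds (hU (s n) j)
    · rw [if_neg hjF]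
      exact mem_of_mem_nhds (hU (s n) j)
  obtain ⟨t, ht⟩ := hcov z hz
  exact hnb ⟨t, ⟨z, ht, hz1⟩, ⟨z, ht, hz2⟩⟩

end Chain

/-- `D` fills all countable subproducts of `∏ X_i`: `π_J(D) = ∏_{j ∈ J} X_j` for all countable
`J`. -/
def FillsCountable {I : Type*} {X : I → Type*} (D : Set (∀ i, X i)) : Prop :=
  ∀ J : Set I, J.Countable → ∀ y : (∀ j : J, X j), ∃ d ∈ D, ∀ j : J, d j = y j

theorem FillsCountable.fill {I : Type*} {X : I → Type*} {D : Set (∀ i, X i)}
    (h : FillsCountable D) (J : Set I) (hJ : J.Countable) (x : ∀ i, X i) :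
    ∃ d ∈ D, ∀ j ∈ J, d j = x j := by
  obtain ⟨d, hd, h1⟩ := h J hJ (fun j => x j)
  exact ⟨d, hd, fun j hj => h1 ⟨j, hj⟩⟩

section Main

variable {I : Type*} {X : I → Type*} [∀ i, TopologicalSpace (X i)]

/-- density -/
theorem exists_mem_box {D : Set (∀ i, X i)} (hD : FillsCountable D) (x : ∀ i, X i) (F : Finset I) :
    ∃ d ∈ D, ∀ j ∈ F, d j = x j := hD.fill F (Finset.countable_toSet F) x

theorem regular_factor {D : Set (∀ i, X i)} (hD : FillsCountable D) [RegularSpace D]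
    (hne : D.Nonempty) (i : I) : RegularSpace (X i) := by
  classical
  obtain ⟨e0, he0⟩ := hne
  refine RegularSpace.of_exists_mem_nhds_isClosed_subset ?_
  intro a O hO
  obtain ⟨d, hd, hda⟩ := exists_mem_box hD (Function.update e0 i a) {i}
  have hdi : d i = a := by
    have := hda i (Finset.mem_singleton_self i)
    simpa using this
  -- neighbourhood of `d` in `D`
  have h1 : {e : D | e.1 i ∈ O} ∈ 𝓝 (⟨d, hd⟩ : D) := by
    have hc : Continuous (fun e : D => e.1 i) := (continuous_apply i).comp continuous_subtype_val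
    apply hc.continuousAt.preimage_mem_nhds
    simp only [hdi]
    exact hO
  obtain ⟨K, hK, hKc, hKsub⟩ := exists_mem_nhds_isClosed_subset h1
  obtain ⟨N, hN, hNK⟩ := mem_nhds_subtype D ⟨d, hd⟩ K |>.1 hK
  obtain ⟨F, U, hU, hsub⟩ := box_of_nhds hN
  refine ⟨closure (U i), ?_, isClosed_closure, ?_⟩
  · rw [← hdi]
    exact Filter.mem_of_superset (hU i) subset_closure
  · intro b hb
    obtain ⟨e, he, heF⟩ := exists_mem_box hD (Function.update d i b) (insert i F)
    have hei : e i = b := by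
      have := heF i (Finset.mem_insert_self i F)
      simpa using this
    have hecl : (⟨e, he⟩ : D) ∈ closure K := by
      rw [mem_closure_iff_nhds]
      intro N' hN'
      obtain ⟨N2, hN2, hN2K⟩ := mem_nhds_subtype D ⟨e, he⟩ N' |>.1 hN'
      obtain ⟨F', U', hU', hsub'⟩ := box_of_nhds hN2
      -- choose a point
      have hbi : (U' i ∩ U i).Nonempty := by
        have h3 : U' i ∈ 𝓝 b := by rw [← hei]; exact hU' i
        exact mem_closure_iff_nhds.1 hb _ h3
      obtain ⟨c, hc1, hc2⟩ := hbi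
      obtain ⟨z, hz, hzF⟩ := exists_mem_box hD
        (Function.update (fun j => if j ∈ F then d j else e j) i c) (F ∪ F')
      refine ⟨⟨z, hz⟩, ?_, ?_⟩
      · apply hN2K
        apply hsub'
        intro j hj
        show z j ∈ U' j
        rw [hzF j (Finset.mem_union_right _ hj)]
        by_cases hji : j = i
        · subst hji
          rw [Function.update_self]
          exact hc1
        · rw [Function.update_of_ne hji]
          by_cases hjF : j ∈ F
          · simp only [hjF, if_true]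
            have h4 : e j = d j := by
              have := heF j (Finset.mem_insert_of_mem hjF)
              rwa [Function.update_of_ne hji] at this
            rw [← h4]
            exact mem_of_mem_nhds (hU' j)
          · simp only [hjF, if_false]
            exact mem_of_mem_nhds (hU' j)
      · apply hNK
        apply hsub
        intro j hj
        show z j ∈ U j
        rw [hzF j (Finset.mem_union_left _ hj)]
        by_cases hji : j = i
        · subst hji
          rw [Function.update_self]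
          exact hc2
        · rw [Function.update_of_ne hji]
          simp only [Finset.mem_coe] at hj
          simp only [hj, if_true]
          exact mem_of_mem_nhds (hU j)
    rw [hKc.closure_eq] at hecl
    have := hKsub hecl
    simp only [Set.mem_setOf_eq] at this
    rwa [hei] at this

/-- **Key lemma.** If `D` fills all countable subproducts and is paracompact Hausdorff, every point
of the product is topologically indistinguishable from a point of `D`. -/
theorem inseparable_of_paracompact {D : Set (∀ i, X i)} (hD : FillsCountable D)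
    [T2Space D] [ParacompactSpace D] (hne : D.Nonempty) (x : ∀ i, X i) :
    ∃ d ∈ D, Inseparable x d := by
  classical
  by_contra hcon
  push Not at hcon
  haveI : ∀ i, RegularSpace (X i) := fun i => regular_factor hD hne i
  -- separate x from each point of D
  have hsep : ∀ d : D, ∃ W : Set (∀ i, X i), IsOpen W ∧ d.1 ∈ W ∧ x ∉ closure W := by
    intro d
    have h1 : Disjoint (𝓝 x) (𝓝 d.1) := disjoint_nhds_nhds_iff_not_inseparable.2 (hcon d d.2)
    obtain ⟨A, hA, B, hB, hAB⟩ := Filter.disjoint_iff.1 h1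
    obtain ⟨W, hWB, hWo, hdW⟩ := mem_nhds_iff.1 hB
    refine ⟨W, hWo, hdW, ?_⟩
    intro hx
    obtain ⟨z, hz1, hz2⟩ := mem_closure_iff_nhds.1 hx A hA
    exact Set.disjoint_left.1 hAB hz1 (hWB hz2)
  choose W hWo hdW hxW using hsep
  obtain ⟨v, hvo, hvc, hvlf, hvs⟩ := precise_refinement (X := D)
    (fun d : D => Subtype.val ⁻¹' (W d)) (fun d => (hWo d).preimage continuous_subtype_val)
    (Set.eq_univ_of_forall fun d => Set.mem_iUnion.2 ⟨d, hdW d⟩)
  let V : D → Set (∀ i, X i) := fun t => Subtype.val '' (v t)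
  have hxV : ∀ t, x ∉ closure (V t) := by
    intro t hx
    apply hxW t
    refine closure_mono ?_ hx
    rintro z ⟨z', hz', rfl⟩
    exact hvs t hz'
  have hbox : ∀ t, ∃ (F : Finset I) (U : ∀ i, Set (X i)), (∀ i, U i ∈ 𝓝 (x i)) ∧
      Set.pi (F : Set I) U ∩ V t = ∅ := by
    intro t
    have h1 : (closure (V t))ᶜ ∈ 𝓝 x := isClosed_closure.isOpen_compl.mem_nhds (hxV t)
    obtain ⟨F, U, hU, hsub⟩ := box_of_nhds h1
    refine ⟨F, U, hU, ?_⟩
    rw [Set.eq_empty_iff_forall_notMem]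
    rintro z ⟨hz1, hz2⟩
    exact hsub hz1 (subset_closure hz2)
  choose G UU hUU hGV using hbox
  refine chain D (fun J hJ y => hD.fill J hJ y) V ?_ ?_
    (fun T J y => T.Finite ∧ y ∈ D ∧ (∀ j ∈ J, y j = x j) ∧ ∀ t ∈ T, G t ⊆ J) ?_ ?_ ?_ ?_
  · intro d hd
    have := Set.mem_iUnion.1 ((Set.ext_iff.1 hvc ⟨d, hd⟩).2 (Set.mem_univ _))
    obtain ⟨t, ht⟩ := this
    exact ⟨t, ⟨d, hd⟩, ht, rfl⟩
  · intro d hd
    obtain ⟨N, hN, hfin⟩ := hvlf ⟨d, hd⟩
    obtain ⟨N', hN', hsub⟩ := mem_nhds_subtype D ⟨d, hd⟩ N |>.1 hN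
    refine ⟨N', hN', hfin.subset ?_⟩
    rintro t ⟨z, ⟨z', hz', rfl⟩, hz2⟩
    exact ⟨z', hz', hsub hz2⟩
  · obtain ⟨d, hd⟩ := hne
    exact ⟨∅, d, Set.finite_empty, hd, by simp, by simp⟩
  · rintro T J y ⟨_, h, _⟩
    exact h
  · rintro T J y ⟨hTf, hyD, hyx, hTJ⟩
    refine ⟨⋂ t ∈ T, Set.pi (G t : Set I) (UU t), ?_, ?_⟩
    · rw [Filter.biInter_mem hTf]
      intro t ht
      apply set_pi_mem_nhds (Finset.finite_toSet _)
      intro i hi
      rw [hyx i (hTJ t ht hi)]
      exact hUU t i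
    · intro t ht
      rw [Set.eq_empty_iff_forall_notMem]
      rintro z ⟨hz1, hz2⟩
      have h3 : z ∈ Set.pi (G t : Set I) (UU t) := Set.mem_iInter₂.1 hz2 t ht
      have := hGV t
      rw [Set.eq_empty_iff_forall_notMem] at this
      exact this z ⟨h3, hz1⟩
  · rintro T J y ⟨hTf, hyD, hyx, hTJ⟩ T' hT' J'
    let J'' : Finset I := J ∪ J' ∪ (hTf.union hT').toFinset.biUnion G
    obtain ⟨y', hy', hy'x⟩ := exists_mem_box hD x J''
    refine ⟨T ∪ T', J'', y', subset_rfl, ?_, ⟨hTf.union hT', hy', hy'x, ?_⟩, ?_⟩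
    · intro j hj
      simp only [J'', Finset.coe_union, Set.mem_union]
      left
      exact hj
    · intro t ht j hj
      simp only [J'', Finset.mem_union, Finset.mem_biUnion]
      right
      exact ⟨t, by simpa using ht, hj⟩
    · intro j hj
      rw [hyx j hj]
      apply hy'x
      simp only [J'', Finset.mem_union]
      left; left
      exact hj

end Main

end Pool.Agent.V11243.FillPara
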