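import Mathlib

/-!
# Rigidity of ultrafilters on `ℕ`: if `f` maps `u` to `u` then `f` is the identity on a set in `u`
-/

set_option autoImplicit false

namespace Pool.Agent.V11243.Rigid

theorem no_wf {R : ℕ → ℕ → Prop} (wf : WellFounded R) (f : ℕ → ℕ) (u : Ultrafilter ℕ)
    (hu : u.map f = u) {E : Set ℕ} (hE : E ∈ u) (h : ∀ x ∈ E, R (f x) x) : False := by
  classical
  let c : ℕ → Bool := wf.fix (fun x ih => if hx : x ∈ E then !(ih (f x) (h x hx)) else true)
  have hc : ∀ x ∈ E, c x = !(c (f x)) := by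
    intro x hx
    have := wf.fix_eq (C := fun _ => Bool)
      (fun x ih => if hx : x ∈ E then !(ih (f x) (h x hx)) else true) x
    rw [dif_pos hx] at this
    exact this
  have key : ∀ v : Bool, {x | x ∈ E ∧ c x = v} ∉ u := by
    intro v hS
    have h2 : f ⁻¹' {x | x ∈ E ∧ c x = v} ∈ u := by
      rw [← Ultrafilter.mem_map, hu]
      exact hS
    obtain ⟨x, hx1, hx2⟩ := u.nonempty_of_mem (Filter.inter_mem hS h2)
    have h3 := hc x hx1.1
    have h4 : c (f x) = v := hx2.2
    rw [hx1.2, h4] at h3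
    cases v <;> simp at h3
  have h1 : {x | x ∈ E ∧ c x = true} ∪ {x | x ∈ E ∧ c x = false} ∈ u := by
    refine Filter.mem_of_superset hE ?_
    intro x hx
    cases hcx : c x
    · exact Or.inr ⟨hx, hcx⟩
    · exact Or.inl ⟨hx, hcx⟩
  rcases Ultrafilter.union_mem_iff.1 h1 with h2 | h2
  · exact key _ h2
  · exact key _ h2

/-- For every `f` there is a partition of `ℕ` into consecutive finite intervals such that `f` maps no
point beyond the next interval. -/
theorem exists_blocks (f : ℕ → ℕ) : ∃ (b m : ℕ → ℕ), StrictMono m ∧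
    (∀ x, m (b x) ≤ x) ∧ (∀ x, x < m (b x + 1)) ∧ Monotone b ∧ ∀ x, b (f x) ≤ b x + 1 := by
  let m : ℕ → ℕ := fun i => Nat.rec 0 (fun _ k => (∑ y ∈ Finset.range (k + 1), f y) + k + 1) i
  have m1 : ∀ i, m (i + 1) = (∑ y ∈ Finset.range (m i + 1), f y) + m i + 1 := fun i => rfl
  have mmono : StrictMono m := strictMono_nat_of_lt_succ fun i => by
    rw [m1]
    omega
  have mf : ∀ i y, y ≤ m i → f y < m (i + 1) := by
    intro i y hy
    rw [m1]
    have : f y ≤ ∑ y ∈ Finset.range (m i + 1), f y :=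
      Finset.single_le_sum (f := f) (fun _ _ => Nat.zero_le _)
        (Finset.mem_range.2 (Nat.lt_succ_of_le hy))
    omega
  have hex : ∀ x : ℕ, ∃ i, m i ≤ x ∧ x < m (i + 1) := by
    intro x
    induction x with
    | zero => exact ⟨0, le_rfl, lt_of_le_of_lt (Nat.zero_le _) (mmono (Nat.lt_succ_self 0))⟩
    | succ x ih =>
      obtain ⟨i, h1, h2⟩ := ih
      by_cases h : x + 1 < m (i + 1)
      · exact ⟨i, by omega, h⟩
      · exact ⟨i + 1, by omega, lt_of_le_of_lt (by omega) (mmono (Nat.lt_succ_self (i + 1)))⟩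
  choose b hb1 hb2 using hex
  have bmono : Monotone b := by
    intro x y hxy
    by_contra hc
    have h1 : b y + 1 ≤ b x := by omega
    have h2 := mmono.monotone h1
    have h3 := hb1 x
    have h4 := hb2 y
    omega
  refine ⟨b, m, mmono, hb1, hb2, bmono, fun x => ?_⟩
  by_contra hc
  have h1 : b x + 2 ≤ b (f x) := by omega
  have h2 := mmono.monotone h1
  have h3 := hb1 (f x)
  have h4 := mf (b x + 1) x (hb2 x).le
  have h5 : b x + 1 + 1 = b x + 2 := rfl
  rw [h5] at h4
  omega

/-- **Rigidity.** -/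
theorem rigid (u : Ultrafilter ℕ) (f : ℕ → ℕ) (hu : u.map f = u) : ∀ᶠ x in u, f x = x := by
  by_contra hcon
  rw [← Ultrafilter.eventually_not] at hcon
  have h1 : {x | f x < x} ∪ {x | x < f x} ∈ u := by
    refine Filter.mem_of_superset hcon ?_
    intro x hx
    exact lt_or_gt_of_ne hx
  rcases Ultrafilter.union_mem_iff.1 h1 with h2 | h2
  · exact no_wf (wellFounded_lt (α := ℕ)) f u hu h2 fun x hx => hx
  · obtain ⟨b, m, hm, hb1, hb2, hbm, hbf⟩ := exists_blocks f
    have h3 : {x | x < f x ∧ b (f x) = b x} ∪ {x | x < f x ∧ b (f x) = b x + 1} ∈ u := by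
      refine Filter.mem_of_superset h2 ?_
      intro x hx
      have hx' : x < f x := hx
      have h4 := hbm hx'.le
      have h5 := hbf x
      rcases Nat.lt_or_ge (b x) (b (f x)) with h6 | h6
      · exact Or.inr ⟨hx', by omega⟩
      · exact Or.inl ⟨hx', by omega⟩
    rcases Ultrafilter.union_mem_iff.1 h3 with h4 | h4
    · refine no_wf (R := InvImage (· < ·) (fun x => m (b x + 1) - x))
        (InvImage.wf _ wellFounded_lt) f u hu h4 ?_
      rintro x ⟨hx1, hx2⟩
      show m (b (f x) + 1) - f x < m (b x + 1) - x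
      have h5 := hb2 (f x)
      rw [hx2] at h5 ⊢
      omega
    · have key : ∀ v : ℕ, {x | (x < f x ∧ b (f x) = b x + 1) ∧ b x % 2 = v} ∉ u := by
        intro v hS
        have h5 : f ⁻¹' {x | (x < f x ∧ b (f x) = b x + 1) ∧ b x % 2 = v} ∈ u := by
          rw [← Ultrafilter.mem_map, hu]
          exact hS
        obtain ⟨x, hx1, hx2⟩ := u.nonempty_of_mem (Filter.inter_mem hS h5)
        have h6 : b (f x) % 2 = v := hx2.2
        have h7 := hx1.1.2
        have h8 := hx1.2
        omega
      have h5 : {x | (x < f x ∧ b (f x) = b x + 1) ∧ b x % 2 = 0} ∪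
          {x | (x < f x ∧ b (f x) = b x + 1) ∧ b x % 2 = 1} ∈ u := by
        refine Filter.mem_of_superset h4 ?_
        intro x hx
        rcases Nat.mod_two_eq_zero_or_one (b x) with h6 | h6
        · exact Or.inl ⟨hx, h6⟩
        · exact Or.inr ⟨hx, h6⟩
      rcases Ultrafilter.union_mem_iff.1 h5 with h6 | h6
      · exact key _ h6
      · exact key _ h6

end Pool.Agent.V11243.Rigid
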