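import Mathlib
import Pool.Agent.V11243.OracleX

/-!
Enumeration operators, and the set `AX X` is enumeration reducible to each of its infinite subsets.
-/

namespace Pool.Agent.V11243.EOp

open Pool.Agent.V11243.GenericX Pool.Agent.V11243.OracleX

/-- The finite set with canonical index `u`. -/
def D (u : ℕ) : Set ℕ := {k | u.testBit k = true}

/-- For a set `W` of (coded) pairs, `W(X) = {n : ∃ u, D_u ⊆ X ∧ ⟨u,n⟩ ∈ W}`. -/
def app (W : Set ℕ) (X : Set ℕ) : Set ℕ := {n | ∃ u, D u ⊆ X ∧ Nat.pair u n ∈ W}

/-- Enumeration operators: computably enumerable sets of pairs `⟨u,n⟩`. -/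
def EnumOp : Type := {W : Set ℕ // REPred (fun n => n ∈ W)}

theorem exists_index (F : Finset ℕ) : ∃ u, D u = (F : Set ℕ) := by
  classical
  induction F using Finset.induction with
  | empty => exact ⟨0, by ext k; simp [D]⟩
  | insert a F ha ih =>
    obtain ⟨u, hu⟩ := ih
    refine ⟨u ||| 2 ^ a, ?_⟩
    ext k
    have h1 : u.testBit k = true ↔ k ∈ F := by
      have : k ∈ D u ↔ k ∈ (F : Set ℕ) := by rw [hu]
      simpa [D] using this
    simp only [D, Set.mem_ofPred_eq, Nat.testBit_or, Bool.or_eq_true, h1, Nat.testBit_two_pow,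
      decide_eq_true_eq, Finset.coe_insert, Set.mem_insert_iff, Finset.mem_coe]
    constructor
    · rintro (h | h)
      · exact Or.inr h
      · exact Or.inl h.symm
    · rintro (h | h)
      · exact Or.inr h.symm
      · exact Or.inl h

theorem lt_of_mem_D {u k : ℕ} (h : k ∈ D u) : k < u :=
  lt_of_lt_of_le Nat.lt_two_pow_self (Nat.ge_two_pow_of_testBit h)

theorem cont (W : Set ℕ) (C : Set ℕ) (e : ℕ) (he : e ∈ app W C) :
    ∃ b : ℕ, ∀ C' : Set ℕ, (∀ k < b, (k ∈ C' ↔ k ∈ C)) → e ∈ app W C' := by
  obtain ⟨u, hu, hW⟩ := he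
  exact ⟨u, fun C' hC' => ⟨u, fun k hk => (hC' k (lt_of_mem_D hk)).2 (hu hk), hW⟩⟩

instance : Countable EnumOp := by
  have h : ∀ W : EnumOp, ∃ c : Nat.Partrec.Code, ∀ n, (c.eval n).Dom ↔ n ∈ W.1 := by
    rintro ⟨W, hW⟩
    have h1 : Nat.Partrec (fun n => Part.bind (Encodable.decode (α := ℕ) n : Part ℕ)
      fun a => (Part.assert (a ∈ W) fun _ => Part.some ()).map Encodable.encode) := hW
    obtain ⟨c, hc⟩ := Nat.Partrec.Code.exists_code.1 h1
    refine ⟨c, fun n => ?_⟩
    rw [hc]
    simp only [Encodable.decode_nat, Part.coe_some, Part.bind_some]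
    exact ⟨fun ⟨h, _⟩ => h, fun h => ⟨h, trivial⟩⟩
  choose f hf using h
  apply Function.Injective.countable (f := f)
  intro W W' hWW
  apply Subtype.ext
  ext n
  rw [← hf, ← hf, hWW]

instance : Nonempty EnumOp := ⟨⟨∅, by
  have : ComputablePred (fun n : ℕ => n ∈ (∅ : Set ℕ)) :=
    ⟨fun _ => isFalse (fun h => h), (Computable.const false).of_eq (fun n => by simp)⟩
  exact this.to_re⟩⟩

theorem primrec_pow : Primrec₂ (fun a b : ℕ => a ^ b) := Primrec₂.unpaired'.1 Nat.Primrec.pow

theorem primrec_testBit : PrimrecRel (fun k u : ℕ => u.testBit k = true) := by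
  have h : PrimrecRel (fun k u : ℕ => u / 2 ^ k % 2 = 1) := by
    apply Primrec.eq.comp
    · exact Primrec.nat_mod.comp (Primrec.nat_div.comp Primrec.snd
        (primrec_pow.comp (Primrec.const 2) Primrec.fst)) (Primrec.const 2)
    · exact Primrec.const 1
  refine h.of_eq fun k u => ?_
  rw [Nat.testBit_eq_decide_div_mod_eq]
  simp

/-- agreement test at `m` between the list coded by `e'` and the one coded by `e`. -/
def okv (e' m e : ℕ) : Prop := (Nat.unpair e').1 ≠ m ∧ m < (lst e').length ∧
  (lst e').reverse.getD m 0 = (lst e).reverse.getD m 0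

def PW (m0 c0 : ℕ) (q : ℕ) : Prop :=
  Nat.pair (Nat.unpair (Nat.unpair q).2).1 (Encodable.encode (lst (Nat.unpair q).2)) =
    (Nat.unpair q).2 ∧
  (Nat.unpair (Nat.unpair q).2).1 < (lst (Nat.unpair q).2).length ∧
  (lst (Nat.unpair q).2).reverse.getD (Nat.unpair (Nat.unpair q).2).1 0 = 0 ∧
  ∀ m < (lst (Nat.unpair q).2).length, (m = (Nat.unpair (Nat.unpair q).2).1 ∨
    (m = m0 ∧ (lst (Nat.unpair q).2).reverse.getD m 0 = c0) ∨
    ∃ e' < (Nat.unpair q).1, (Nat.unpair q).1.testBit e' = true ∧ okv e' m (Nat.unpair q).2)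

theorem primrec_PW (m0 c0 : ℕ) : PrimrecPred (PW m0 c0) := by
  have hc : Primrec fun q : ℕ => (Nat.unpair q).1 := Primrec.fst.comp Primrec.unpair
  have hr : Primrec fun q : ℕ => (Nat.unpair q).2 := Primrec.snd.comp Primrec.unpair
  have hl : Primrec fun q : ℕ => (lst (Nat.unpair q).2) := primrec_lst.comp hr
  have hlr : Primrec fun q : ℕ => (lst (Nat.unpair q).2).reverse := Primrec.list_reverse.comp hl
  unfold PW
  refine PrimrecPred.and (Primrec.eq.comp (Primrec₂.natPair.comp (hc.comp hr)
    (Primrec.encode.comp hl)) hr) ?_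
  refine PrimrecPred.and (Primrec.nat_lt.comp (hc.comp hr) (Primrec.list_length.comp hl)) ?_
  refine PrimrecPred.and (Primrec.eq.comp ((Primrec.list_getD 0).comp hlr (hc.comp hr))
    (Primrec.const 0)) ?_
  have hR : PrimrecRel (fun (m q : ℕ) => (m = (Nat.unpair (Nat.unpair q).2).1 ∨
    (m = m0 ∧ (lst (Nat.unpair q).2).reverse.getD m 0 = c0) ∨
    ∃ e' < (Nat.unpair q).1, (Nat.unpair q).1.testBit e' = true ∧ okv e' m (Nat.unpair q).2)) := by
    apply PrimrecPred.or
    · exact Primrec.eq.comp Primrec.fst ((hc.comp hr).comp Primrec.snd)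
    · apply PrimrecPred.or
      · apply PrimrecPred.and
        · exact Primrec.eq.comp Primrec.fst (Primrec.const m0)
        · exact Primrec.eq.comp ((Primrec.list_getD 0).comp (hlr.comp Primrec.snd) Primrec.fst)
            (Primrec.const c0)
      · have hS : PrimrecRel (fun (e' : ℕ) (p : ℕ × ℕ) =>
            (Nat.unpair p.2).1.testBit e' = true ∧ okv e' p.1 (Nat.unpair p.2).2) := by
          apply PrimrecPred.and
          · exact primrec_testBit.comp Primrec.fst (hc.comp (Primrec.snd.comp Primrec.snd))
          · unfold okv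
            have he' : Primrec fun (x : ℕ × ℕ × ℕ) => x.1 := Primrec.fst
            have hm : Primrec fun (x : ℕ × ℕ × ℕ) => x.2.1 := Primrec.fst.comp Primrec.snd
            have hq : Primrec fun (x : ℕ × ℕ × ℕ) => x.2.2 := Primrec.snd.comp Primrec.snd
            refine PrimrecPred.and (Primrec.eq.comp (hc.comp he') hm).not ?_
            refine PrimrecPred.and (Primrec.nat_lt.comp hm
              (Primrec.list_length.comp (primrec_lst.comp he'))) ?_
            exact Primrec.eq.comp ((Primrec.list_getD 0).comp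
              (Primrec.list_reverse.comp (primrec_lst.comp he')) hm)
              ((Primrec.list_getD 0).comp (hlr.comp hq) hm)
        have hT : PrimrecRel (fun (n : ℕ) (p : ℕ × ℕ) => ∃ e' < n,
            ((Nat.unpair p.2).1.testBit e' = true ∧ okv e' p.1 (Nat.unpair p.2).2)) :=
          (hS.exists_mem_list.comp (Primrec.list_range.comp Primrec.fst) Primrec.snd).of_eq
            (by simp)
        exact hT.comp (hc.comp Primrec.snd) Primrec.id
  exact hR.forall_lt.comp (Primrec.list_length.comp hl) Primrec.id

theorem AX_e_le {X : ℕ → ℕ} {C : Set ℕ} (hC : C ⊆ AX X) (hinf : C.Infinite) :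
    ∃ W : EnumOp, app W.1 C = AX X := by
  classical
  obtain ⟨m0, hm0⟩ := exists_dec hC hinf
  refine ⟨⟨{q | PW m0 (X m0) q}, (primrec_PW m0 (X m0)).computablePred.to_re⟩, ?_⟩
  ext e
  constructor
  · rintro ⟨u, hu, hW⟩
    rw [Set.mem_ofPred_eq] at hW
    unfold PW at hW
    simp only [Nat.unpair_pair] at hW
    obtain ⟨h1, h2, h3, h4⟩ := hW
    refine ⟨(Nat.unpair e).1, (lst e).length, h2, ?_⟩
    -- the coded list is the right block
    have h5 : (lst e).reverse = (blk X (Nat.unpair e).1 (lst e).length).reverse := by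
      apply List.ext_getElem?
      intro m
      by_cases hm : m < (lst e).length
      · rw [blk_reverse_get _ _ _ _ hm]
        have h6 : (lst e).reverse[m]? = some ((lst e).reverse.getD m 0) := by
          rw [List.getD_eq_getElem _ _ (by simpa using hm), List.getElem?_eq_getElem]
        rw [h6]
        congr 1
        by_cases hmi : m = (Nat.unpair e).1
        · rw [if_pos hmi, hmi]
          exact h3
        · rw [if_neg hmi]
          rcases h4 m hm with h | ⟨h, h'⟩ | ⟨e', _, he'u, h7, h8, h9⟩
          · exact absurd h hmi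
          · rw [h'] ; rw [h]
          · rw [← h9]
            obtain ⟨i', n', hin', rfl⟩ := hC (hu he'u)
            rw [lst_pair, blk_length] at h8
            rw [Nat.unpair_pair] at h7
            simp only at h7
            rw [lst_pair, List.getD_eq_getElem?_getD, blk_reverse_get _ _ _ _ h8]
            have : m ≠ i' := fun h => h7 h.symm
            simp [this]
      · rw [List.getElem?_eq_none (by simpa using hm),
          List.getElem?_eq_none (by simpa [blk_length] using hm)]
    rw [← List.reverse_injective h5]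
    exact h1.symm
  · rintro ⟨i, n, hin, rfl⟩
    have hw : ∀ m, ∃ e', m ≠ m0 → e' ∈ C ∧ Dec m (X m) e' := by
      intro m
      by_cases h : m = m0
      · exact ⟨0, fun h' => absurd h h'⟩
      · obtain ⟨e', h1, h2⟩ := hm0 m h
        exact ⟨e', fun _ => ⟨h1, h2⟩⟩
    choose g hg using hw
    obtain ⟨u, hu⟩ := exists_index (((Finset.range n).filter (· ≠ m0)).image g)
    refine ⟨u, ?_, ?_⟩
    · rw [hu]
      intro k hk
      simp only [Finset.coe_image, Set.mem_image, Finset.mem_coe, Finset.mem_filter] at hk
      obtain ⟨m, ⟨_, hm⟩, rfl⟩ := hk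
      exact (hg m hm).1
    · rw [Set.mem_ofPred_eq]
      unfold PW
      simp only [Nat.unpair_pair, lst_pair, blk_length]
      refine ⟨trivial, hin, ?_, ?_⟩
      · rw [List.getD_eq_getElem?_getD, blk_reverse_get _ _ _ _ hin]
        simp
      · intro m hm
        by_cases hmi : m = i
        · exact Or.inl hmi
        · by_cases hmm : m = m0
          · right; left
            refine ⟨hmm, ?_⟩
            rw [List.getD_eq_getElem?_getD, blk_reverse_get _ _ _ _ hm]
            simp only [Option.getD_some]
            rw [if_neg hmi, hmm]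
          · right; right
            have h1 : g m ∈ D u := by
              rw [hu]
              simp only [Finset.coe_image, Set.mem_image, Finset.mem_coe, Finset.mem_filter,
                Finset.mem_range]
              exact ⟨m, ⟨hm, hmm⟩, rfl⟩
            refine ⟨g m, lt_of_mem_D h1, h1, ?_⟩
            obtain ⟨i', σ, he', hne, hget⟩ := (hg m hmm).2
            unfold okv
            rw [he', lst_pair, lst_pair]
            simp only [Nat.unpair_pair]
            refine ⟨hne, ?_, ?_⟩
            · have := (List.getElem?_eq_some_iff.1 hget).1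
              simpa using this
            · rw [List.getD_eq_getElem?_getD, hget, List.getD_eq_getElem?_getD,
                blk_reverse_get _ _ _ _ hm]
              simp [hmi]

end Pool.Agent.V11243.EOp
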