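import Pool.Agent.V11243.Om
import Pool.Agent.Helper539.AuerWalk

/-!
# An Aronszajn line
-/

set_option autoImplicit false

open Set Cardinal Ordinal

namespace Pool.Agent.V11243.ALine

/-- An Aronszajn line: an uncountable linear order without a strictly increasing or strictly
decreasing sequence of length `ω₁`, all of whose suborders which embed into the real line are
countable. -/
structure IsAronszajnLine (A : Type) [LinearOrder A] : Prop where
  uncountable : ¬ (Set.univ : Set A).Countable
  no_inc : ¬ ∃ f : Om → A, StrictMono f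
  no_dec : ¬ ∃ f : Om → A, StrictAnti f
  real : ∀ S : Set A, (∃ f : A → ℝ, StrictMonoOn f S) → S.Countable

/-- the coherent injections -/
theorem exists_e : ∃ e : Om → Om → ℕ, (∀ a, Set.InjOn (e a) (Iio a)) ∧
      ∀ d : Om, (Set.range fun a : {a : Om // d ≤ a} =>
        (fun ξ : Iio d => e a.1 ξ.1)).Countable :=
  Pool.Agent.Helper539.Auer.exists_coherent_injections Om.countable_Iio

noncomputable def e : Om → Om → ℕ := exists_e.choose

theorem e_inj (a : Om) : Set.InjOn (e a) (Iio a) := exists_e.choose_spec.1 a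

theorem e_count (d : Om) : (Set.range fun a : {a : Om // d ≤ a} =>
        (fun ξ : Iio d => e a.1 ξ.1)).Countable := exists_e.choose_spec.2 d

open Classical in
/-- the functions of the line -/
noncomputable def E (a ξ : Om) : ℕ := if ξ < a then e a ξ + 1 else 0

theorem E_zero_iff {a ξ : Om} : E a ξ = 0 ↔ a ≤ ξ := by
  unfold E
  split_ifs with h
  · simp [h]
  · simp [not_lt.1 h]

theorem E_inj {a ξ η : Om} (h1 : ξ < a) (h2 : η < a) (h : E a ξ = E a η) : ξ = η := by
  unfold E at h
  rw [if_pos h1, if_pos h2] at h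
  exact e_inj a h1 h2 (by omega)

/-- the line -/
abbrev A : Type := {g : Lex (Om → ℕ) // ∃ a : Om, g = toLex (E a)}

noncomputable instance : LinearOrder A := inferInstance

/-- the index of a point of the line -/
noncomputable def idx (x : A) : Om := x.2.choose

theorem idx_spec (x : A) : x.1 = toLex (E (idx x)) := x.2.choose_spec

theorem idx_inj {x y : A} (h : idx x = idx y) : x = y := by
  apply Subtype.ext
  rw [idx_spec x, idx_spec y, h]

/-- the restriction below `d` -/
noncomputable def res (d : Om) (x : A) : Lex (Iio d → ℕ) := toLex fun ξ => E (idx x) ξ.1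

theorem res_eq_iff {d : Om} {x y : A} :
    res d x = res d y ↔ ∀ ξ < d, E (idx x) ξ = E (idx y) ξ := by
  constructor
  · intro h ξ hξ
    exact congrFun (toLex.injective h) ⟨ξ, hξ⟩
  · intro h
    unfold res
    congr 1
    funext ξ
    exact h ξ.1 ξ.2

theorem lt_iff {x y : A} :
    x < y ↔ ∃ i, (∀ j < i, E (idx x) j = E (idx y) j) ∧ E (idx x) i < E (idx y) i := by
  have h : x < y ↔ x.1 < y.1 := Iff.rfl
  rw [h, idx_spec x, idx_spec y]
  exact Iff.rfl

theorem res_lt_iff {d : Om} {x y : A} : res d x < res d y ↔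
    ∃ i : Iio d, (∀ j < i, E (idx x) j.1 = E (idx y) j.1) ∧ E (idx x) i.1 < E (idx y) i.1 :=
  Iff.rfl

theorem res_mono (d : Om) : Monotone (res d) := by
  intro x y hxy
  rcases hxy.lt_or_eq with h | h
  · obtain ⟨i, h1, h2⟩ := lt_iff.1 h
    by_cases hi : i < d
    · refine le_of_lt (res_lt_iff.2 ⟨⟨i, hi⟩, fun j hj => h1 j.1 hj, h2⟩)
    · refine le_of_eq (res_eq_iff.2 fun ξ hξ => h1 ξ (lt_of_lt_of_le hξ (not_lt.1 hi)))
  · rw [h]

theorem res_count (d : Om) : (Set.range (res d)).Countable := by
  have h1 : ((fun g : Iio d → ℕ => (toLex fun ξ => g ξ + 1 : Lex (Iio d → ℕ))) ''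
      (Set.range fun a : {a : Om // d ≤ a} => (fun ξ : Iio d => e a.1 ξ.1))).Countable :=
    (e_count d).image _
  have h2 : ((fun a : Om => (toLex fun ξ => E a ξ.1 : Lex (Iio d → ℕ))) '' Iio d).Countable :=
    (Om.countable_Iio d).image _
  refine (h1.union h2).mono ?_
  rintro _ ⟨x, rfl⟩
  rcases le_or_gt d (idx x) with h | h
  · left
    refine ⟨_, ⟨⟨idx x, h⟩, rfl⟩, ?_⟩
    funext ξ
    show e (idx x) ξ.1 + 1 = E (idx x) ξ.1
    unfold E
    rw [if_pos (lt_of_lt_of_le ξ.2 h)]
  · right
    exact ⟨idx x, h, rfl⟩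

/-- There is no injective sequence of length `ω₁` all of whose restrictions stabilize. -/
theorem no_stable (f : Om → A) (hf : Function.Injective f)
    (hc : ∀ d, ∃ c, {α | res d (f α) ≠ c}.Countable) : False := by
  choose c hc using hc
  have hnx : ∀ ξ : Om, ∃ α : Om, ξ < α := by
    intro ξ
    obtain ⟨α, hα⟩ := Om.exists_gt_of_countable (Set.countable_singleton ξ)
    exact ⟨α, hα ξ rfl⟩
  choose nx hnx using hnx
  let y : Om → ℕ := fun ξ => (c (nx ξ)) ⟨ξ, hnx ξ⟩
  have hy : Function.Injective y := by
    intro ξ η hξη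
    have hcount : ({α | res (nx ξ) (f α) ≠ c (nx ξ)} ∪
        {α | res (nx η) (f α) ≠ c (nx η)} ∪
        {α | idx (f α) ≤ max ξ η}).Countable := by
      refine ((hc _).union (hc _)).union ?_
      have : Set.InjOn (fun α => idx (f α)) {α | idx (f α) ≤ max ξ η} :=
        fun α _ β _ h => hf (idx_inj h)
      exact Set.countable_of_injective_of_countable_image this
        ((Om.countable_Iic (max ξ η)).mono (by rintro _ ⟨α, hα, rfl⟩; exact hα))
    obtain ⟨α, hα⟩ := Om.exists_notMem_of_countable hcount
    simp only [Set.mem_union, Set.mem_ofPred_eq, not_or, not_not, not_le] at hα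
    obtain ⟨⟨h1, h2⟩, h3⟩ := hα
    have e1 : y ξ = E (idx (f α)) ξ := by
      show c (nx ξ) _ = _
      rw [← h1]
      rfl
    have e2 : y η = E (idx (f α)) η := by
      show c (nx η) _ = _
      rw [← h2]
      rfl
    rw [e1, e2] at hξη
    exact E_inj ((le_max_left _ _).trans_lt h3) ((le_max_right _ _).trans_lt h3) hξη
  have : Countable Om := hy.countable
  exact Om.not_countable Set.countable_univ

theorem no_seq_of_countable {K : Type*} [LinearOrder K] {S : Set K} (hS : S.Countable) :
    ¬ ∃ f : Om → S, StrictMono f := by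
  rintro ⟨f, hf⟩
  have : Countable S := hS.to_subtype
  have : Countable Om := hf.injective.countable
  exact Om.not_countable Set.countable_univ

theorem stable_of_mono (f : Om → A) (hf : Monotone f) (d : Om) :
    ∃ c, {α | res d (f α) ≠ c}.Countable := by
  obtain ⟨c, hc⟩ := Om.eventually_const (no_seq_of_countable (res_count d))
    (fun α => ⟨res d (f α), f α, rfl⟩) (fun α β h => res_mono d (hf h))
  refine ⟨c.1, hc.mono ?_⟩
  intro α hα heq
  exact hα (congrArg Subtype.val heq)

theorem stable_of_anti (f : Om → A) (hf : Antitone f) (d : Om) :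
    ∃ c, {α | res d (f α) ≠ c}.Countable := by
  have hno : ¬ ∃ g : Om → (Set.range (res d))ᵒᵈ, StrictMono g := by
    rintro ⟨g, hg⟩
    have : Countable (Set.range (res d)) := (res_count d).to_subtype
    have : Countable (Set.range (res d))ᵒᵈ := this
    have : Countable Om := hg.injective.countable
    exact Om.not_countable Set.countable_univ
  obtain ⟨c, hc⟩ := Om.eventually_const hno
    (fun α => OrderDual.toDual ⟨res d (f α), f α, rfl⟩) (fun α β h => res_mono d (hf h))
  refine ⟨(OrderDual.ofDual c).1, hc.mono ?_⟩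
  intro α hα heq
  exact hα (congrArg (fun x => (OrderDual.ofDual x).1) heq)

theorem real_countable (S : Set A) (f : A → ℝ) (hf : StrictMonoOn f S) : S.Countable := by
  obtain ⟨D', hD'c, hD'd⟩ := TopologicalSpace.exists_countable_dense (f '' S)
  -- a countable subset `D` of `S` which meets all intervals which contain a point of `S`
  have hch : ∀ r : f '' S, ∃ x ∈ S, f x = r.1 := fun r => r.2
  choose g hg1 hg2 using hch
  have hD : ∀ x ∈ S, ∀ y ∈ S, ∀ z ∈ S, x < y → y < z → ∃ d ∈ g '' D', x < d ∧ d < z := by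
    intro x hx y hy z hz hxy hyz
    have hopen : IsOpen {r : f '' S | f x < r.1 ∧ r.1 < f z} :=
      (isOpen_lt continuous_const continuous_subtype_val).inter
        (isOpen_lt continuous_subtype_val continuous_const)
    obtain ⟨r, hr1, hr2⟩ := hD'd.inter_open_nonempty _ hopen
      ⟨⟨f y, y, hy, rfl⟩, hf hx hy hxy, hf hy hz hyz⟩
    refine ⟨g r, ⟨r, hr2, rfl⟩, ?_, ?_⟩
    · rw [← hf.lt_iff_lt hx (hg1 r), hg2]
      exact hr1.1
    · rw [← hf.lt_iff_lt (hg1 r) hz, hg2]
      exact hr1.2
  obtain ⟨δ, hδ⟩ := Om.exists_gt_of_countable ((hD'c.image g).image idx)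
  -- the fibres of the restriction have at most two points
  have hfib : ∀ c, {x ∈ S | res δ x = c}.Countable := by
    intro c
    by_contra hunc
    have h2 : ¬ {x ∈ S | res δ x = c}.Finite := fun h => hunc h.countable
    obtain ⟨t, ht1, ht2⟩ := Set.Infinite.exists_subset_card_eq h2 3
    obtain ⟨x, y, z, hxy, hyz, ht⟩ : ∃ x y z, x < y ∧ y < z ∧ ({x, y, z} : Set A) ⊆ t := by
      have h3 : 2 < t.card := by omega
      let o := t.orderEmbOfFin ht2
      refine ⟨o 0, o 1, o 2, by simp [o], by simp [o], ?_⟩
      intro w hw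
      simp only [Set.mem_insert_iff, Set.mem_singleton_iff] at hw
      rcases hw with rfl | rfl | rfl
      · exact Finset.orderEmbOfFin_mem t ht2 _
      · exact Finset.orderEmbOfFin_mem t ht2 _
      · exact Finset.orderEmbOfFin_mem t ht2 _
    have hx := ht1 (ht (by simp : x ∈ ({x, y, z} : Set A)))
    have hy := ht1 (ht (by simp : y ∈ ({x, y, z} : Set A)))
    have hz := ht1 (ht (by simp : z ∈ ({x, y, z} : Set A)))
    obtain ⟨d, hd, h3, h4⟩ := hD x hx.1 y hy.1 z hz.1 hxy hyz
    have h5 : res δ d = res δ x := by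
      refine le_antisymm ?_ (res_mono δ h3.le)
      rw [hx.2, ← hz.2]
      exact res_mono δ h4.le
    have h6 : idx d < δ := hδ _ ⟨d, hd, rfl⟩
    rw [res_eq_iff] at h5
    have h7 : E (idx x) (idx d) = 0 := by
      rw [← h5 _ h6, E_zero_iff]
    rw [E_zero_iff] at h7
    have h8 : E (idx d) (idx x) = 0 := by
      rw [h5 _ (lt_of_le_of_lt h7 h6), E_zero_iff]
    rw [E_zero_iff] at h8
    exact absurd (idx_inj (le_antisymm h7 h8)) h3.ne
  have hcov : S ⊆ ⋃ c ∈ Set.range (res δ), {x ∈ S | res δ x = c} := by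
    intro x hx
    exact Set.mem_biUnion ⟨x, rfl⟩ ⟨hx, rfl⟩
  exact ((res_count δ).biUnion fun c _ => hfib c).mono hcov

theorem isAronszajnLine_A : IsAronszajnLine A where
  uncountable := by
    intro h
    have hinj : Function.Injective (fun a : Om => (⟨toLex (E a), a, rfl⟩ : A)) := by
      intro a b hab
      have h1 : E a = E b := toLex.injective (congrArg Subtype.val hab)
      have h2 : E b a = 0 := by rw [← h1, E_zero_iff]
      have h3 : E a b = 0 := by rw [h1, E_zero_iff]
      rw [E_zero_iff] at h2 h3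
      exact le_antisymm h3 h2
    have : Countable A := Set.countable_univ_iff.1 h
    have : Countable Om := hinj.countable
    exact Om.not_countable Set.countable_univ
  no_inc := by
    rintro ⟨f, hf⟩
    exact no_stable f hf.injective fun d => stable_of_mono f hf.monotone d
  no_dec := by
    rintro ⟨f, hf⟩
    exact no_stable f hf.injective fun d => stable_of_anti f hf.antitone d
  real := by
    rintro S ⟨f, hf⟩
    exact real_countable S f hf

end Pool.Agent.V11243.ALine
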