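import Mathlib

/-!
Under CH: p-points avoiding a given family of continuum many ultrafilters, and the number of
ultrafilters Tukey below a p-point.
-/

namespace Pool.Agent.V11243.CHPoint

open Set Filter Cardinal

/-- `U` is a p-point (no nonprincipality included). -/
def PPoint (U : Ultrafilter ℕ) : Prop :=
  ∀ A : ℕ → Set ℕ, (∀ n, A n ∈ U) → ∃ B ∈ U, ∀ n, (B \ A n).Finite

/-- nonprincipal -/
def NP (U : Ultrafilter ℕ) : Prop := ∀ n : ℕ, {n} ∉ U

section Tower

variable {Ω : Type} [LinearOrder Ω]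

/-- A countable tower of infinite sets has an infinite pseudo-intersection. -/
theorem pseudo (I : Set Ω) (hI : I.Countable) (A : Ω → Set ℕ) (hinf : ∀ i ∈ I, (A i).Infinite)
    (htow : ∀ i ∈ I, ∀ j ∈ I, j < i → (A i \ A j).Finite) :
    ∃ P : Set ℕ, P.Infinite ∧ ∀ i ∈ I, (P \ A i).Finite := by
  classical
  rcases I.eq_empty_or_nonempty with h | h
  · exact ⟨Set.univ, Set.infinite_univ, by simp [h]⟩
  obtain ⟨f, hf⟩ := hI.exists_eq_range h
  have hfI : ∀ n, f n ∈ I := fun n => hf ▸ mem_range_self n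
  -- finite intersections are infinite
  have hfin : ∀ n, (⋂ k ∈ Finset.range (n + 1), A (f k)).Infinite := by
    intro n
    -- the largest index
    obtain ⟨m, hm, hmax⟩ := Finset.exists_max_image (Finset.range (n + 1)) f
      ⟨0, Finset.mem_range.2 (Nat.succ_pos _)⟩
    have h1 : (A (f m) \ ⋂ k ∈ Finset.range (n + 1), A (f k)).Finite := by
      have h2 : A (f m) \ ⋂ k ∈ Finset.range (n + 1), A (f k) ⊆
          ⋃ k ∈ Finset.range (n + 1), (A (f m) \ A (f k)) := by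
        rintro x ⟨hx1, hx2⟩
        simp only [mem_iInter, not_forall] at hx2
        obtain ⟨k, hk, hxk⟩ := hx2
        exact mem_iUnion₂.2 ⟨k, hk, hx1, hxk⟩
      refine Set.Finite.subset ?_ h2
      apply Set.Finite.biUnion (Finset.finite_toSet _)
      intro k hk
      rcases (hmax k hk).lt_or_eq with h3 | h3
      · exact htow _ (hfI m) _ (hfI k) h3
      · rw [h3]
        simp
    intro h3
    apply hinf _ (hfI m)
    exact (h1.union h3).subset fun x hx => by
      by_cases h4 : x ∈ ⋂ k ∈ Finset.range (n + 1), A (f k)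
      · exact Or.inr h4
      · exact Or.inl ⟨hx, h4⟩
  -- choose a strictly increasing sequence
  have hex : ∀ n N : ℕ, ∃ x, N < x ∧ x ∈ ⋂ k ∈ Finset.range (n + 1), A (f k) := by
    intro n N
    obtain ⟨x, hx1, hx2⟩ := (hfin n).exists_gt N
    exact ⟨x, hx2, hx1⟩
  choose g hg1 hg2 using hex
  let s : ℕ → ℕ := fun n => Nat.rec (g 0 0) (fun n y => g (n + 1) y) n
  have hs : ∀ n, s (n + 1) = g (n + 1) (s n) := fun _ => rfl
  have hmono : StrictMono s := strictMono_nat_of_lt_succ fun n => by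
    rw [hs]; exact hg1 _ _
  have hmem : ∀ n, s n ∈ ⋂ k ∈ Finset.range (n + 1), A (f k) := by
    intro n
    cases n with
    | zero => exact hg2 0 0
    | succ n => rw [hs]; exact hg2 _ _
  refine ⟨Set.range s, Set.infinite_range_of_injective hmono.injective, ?_⟩
  intro i hi
  rw [hf] at hi
  obtain ⟨k, rfl⟩ := hi
  have : Set.range s \ A (f k) ⊆ s '' (Finset.range k : Set ℕ) := by
    rintro _ ⟨⟨n, rfl⟩, hn⟩
    refine ⟨n, ?_, rfl⟩
    simp only [Finset.coe_range, Set.mem_Iio]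
    by_contra h4
    apply hn
    exact mem_iInter₂.1 (hmem n) k (Finset.mem_range.2 (by omega))
  exact ((Finset.finite_toSet _).image _).subset this

/-- An infinite set splits into two infinite sets. -/
theorem split {P : Set ℕ} (hP : P.Infinite) :
    ∃ Q ⊆ P, Q.Infinite ∧ (P \ Q).Infinite := by
  classical
  have hPi : Infinite P := hP.to_subtype
  let e : ℕ ≃o P := Nat.Subtype.orderIsoOfNat P
  have he : Function.Injective fun n : ℕ => ((e n : P) : ℕ) :=
    fun a b h => e.injective (Subtype.ext h)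
  refine ⟨Set.range fun n : ℕ => ((e (2 * n) : P) : ℕ), ?_, ?_, ?_⟩
  · rintro _ ⟨n, rfl⟩
    exact (e (2 * n)).2
  · apply Set.infinite_range_of_injective
    intro a b h
    have := he h
    omega
  · apply (Set.infinite_range_of_injective (f := fun n : ℕ => ((e (2 * n + 1) : P) : ℕ)) ?_).mono
    · rintro _ ⟨n, rfl⟩
      refine ⟨(e (2 * n + 1)).2, ?_⟩
      rintro ⟨k, hk⟩
      have := he hk
      omega
    · intro a b h
      have := he h
      omega

/-- one step -/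
theorem step (I : Set Ω) (hI : I.Countable) (A : Ω → Set ℕ) (hinf : ∀ i ∈ I, (A i).Infinite)
    (htow : ∀ i ∈ I, ∀ j ∈ I, j < i → (A i \ A j).Finite) (E : Set ℕ) (W : Ultrafilter ℕ) :
    ∃ Q : Set ℕ, Q.Infinite ∧ (∀ i ∈ I, (Q \ A i).Finite) ∧ (Q ⊆ E ∨ Disjoint Q E) ∧ Q ∉ W := by
  obtain ⟨P, hP, hPA⟩ := pseudo I hI A hinf htow
  obtain ⟨P', hP'P, hP', hP'E⟩ : ∃ P' ⊆ P, P'.Infinite ∧ (P' ⊆ E ∨ Disjoint P' E) := by
    by_cases h : (P ∩ E).Infinite
    · exact ⟨P ∩ E, inter_subset_left, h, Or.inl inter_subset_right⟩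
    · refine ⟨P \ E, sdiff_subset, ?_, Or.inr disjoint_sdiff_left⟩
      rw [Set.not_infinite] at h
      intro h2
      apply hP
      rw [← Set.inter_union_sdiff P E]
      exact h.union h2
  obtain ⟨Q, hQ, hQ1, hQ2⟩ := split hP'
  have key : ∀ R ⊆ P', R.Infinite → R ∉ W → ∃ Q : Set ℕ, Q.Infinite ∧
      (∀ i ∈ I, (Q \ A i).Finite) ∧ (Q ⊆ E ∨ Disjoint Q E) ∧ Q ∉ W := by
    intro R hR hRi hRW
    refine ⟨R, hRi, fun i hi => (hPA i hi).subset (sdiff_subset_sdiff_left (hR.trans hP'P)), ?_,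
      hRW⟩
    rcases hP'E with h | h
    · exact Or.inl (hR.trans h)
    · exact Or.inr (h.mono_left hR)
  by_cases h : Q ∈ W
  · apply key (P' \ Q) sdiff_subset hQ2
    intro h2
    have := W.inter_sets h h2
    rw [Set.inter_sdiff_self] at this
    exact W.empty_notMem this
  · exact key Q hQ hQ1 h

variable [WellFoundedLT Ω]

/-- goodness of the choice at stage `i` -/
def GoodAt (e : Ω → Set ℕ) (𝒲 : Ω → Ultrafilter ℕ) (i : Ω) (prev : ∀ j, j < i → Set ℕ)
    (Q : Set ℕ) : Prop :=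
  Q.Infinite ∧ (∀ j (h : j < i), (Q \ prev j h).Finite) ∧ (Q ⊆ e i ∨ Disjoint Q (e i)) ∧
    Q ∉ 𝒲 i

open Classical in
/-- the tower -/
noncomputable def tower (e : Ω → Set ℕ) (𝒲 : Ω → Ultrafilter ℕ) : Ω → Set ℕ :=
  WellFounded.fix (wellFounded_lt (α := Ω)) fun i prev =>
    if h : ∃ Q, GoodAt e 𝒲 i prev Q then h.choose else Set.univ

theorem tower_good (hc : ∀ i : Ω, (Set.Iio i).Countable) (e : Ω → Set ℕ)
    (𝒲 : Ω → Ultrafilter ℕ) (i : Ω) :
    GoodAt e 𝒲 i (fun j _ => tower e 𝒲 j) (tower e 𝒲 i) := by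
  classical
  induction i using WellFoundedLT.induction with
  | ind i ih =>
    have hex : ∃ Q, GoodAt e 𝒲 i (fun j _ => tower e 𝒲 j) Q := by
      obtain ⟨Q, h1, h2, h3, h4⟩ := step (Set.Iio i) (hc i) (tower e 𝒲)
        (fun j hj => (ih j hj).1) (fun j hj k _ hkj => (ih j hj).2.1 k hkj) (e i) (𝒲 i)
      exact ⟨Q, h1, h2, h3, h4⟩
    have heq : tower e 𝒲 i = hex.choose := by
      conv_lhs => unfold tower
      rw [WellFounded.fix_eq]
      exact dif_pos hex
    rw [heq]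
    exact hex.choose_spec

/-- **p-points avoiding a family.** -/
theorem exists_ppoint_aux [Uncountable Ω] (hc : ∀ i : Ω, (Set.Iio i).Countable) (e : Ω → Set ℕ)
    (he : Function.Surjective e) (𝒲 : Ω → Ultrafilter ℕ) :
    ∃ W : Ultrafilter ℕ, NP W ∧ PPoint W ∧ ∀ i, W ≠ 𝒲 i := by
  classical
  have hg := tower_good hc e 𝒲
  set A := tower e 𝒲 with hA
  have hbd : ∀ f : ℕ → Ω, ∃ k : Ω, ∀ n, f n < k := by
    intro f
    by_contra hcon
    push Not at hcon
    have h1 : (Set.univ : Set Ω) ⊆ ⋃ n, Set.Iic (f n) := by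
      intro k _
      obtain ⟨n, hn⟩ := hcon k
      exact mem_iUnion.2 ⟨n, hn⟩
    have h2 : (⋃ n, Set.Iic (f n)).Countable := by
      apply Set.countable_iUnion
      intro n
      rw [← Set.Iio_insert]
      exact (hc _).insert _
    have h3 := h2.mono h1
    rw [Set.countable_univ_iff] at h3
    exact not_countable (α := Ω) h3
  have hne : Nonempty Ω := inferInstance
  have hle : ∀ {i j : Ω}, j ≤ i → (A i \ A j).Finite := by
    intro i j h
    rcases h.lt_or_eq with h | h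
    · exact (hg i).2.1 j h
    · rw [h]; simp
  let F : Filter ℕ :=
    { sets := {X | ∃ i, (A i \ X).Finite}
      univ_sets := by
        obtain ⟨i⟩ := hne
        exact ⟨i, by simp⟩
      sets_of_superset := by
        rintro X Y ⟨i, hi⟩ hXY
        exact ⟨i, hi.subset (sdiff_subset_sdiff_right hXY)⟩
      inter_sets := by
        rintro X Y ⟨i, hi⟩ ⟨j, hj⟩
        refine ⟨max i j, ?_⟩
        have h1 := hle (le_max_left i j)
        have h2 := hle (le_max_right i j)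
        refine ((h1.union hi).union (h2.union hj)).subset ?_
        rintro x ⟨hx1, hx2⟩
        by_cases h3 : x ∈ X
        · right
          have h4 : x ∉ Y := fun h4 => hx2 ⟨h3, h4⟩
          by_cases h5 : x ∈ A j
          · exact Or.inr ⟨h5, h4⟩
          · exact Or.inl ⟨hx1, h5⟩
        · left
          by_cases h5 : x ∈ A i
          · exact Or.inr ⟨h5, h3⟩
          · exact Or.inl ⟨hx1, h5⟩ }
  have hF : ∀ s, sᶜ ∉ F ↔ s ∈ F := by
    intro s
    obtain ⟨i, rfl⟩ := he s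
    constructor
    · intro h
      refine ⟨i, ?_⟩
      rcases (hg i).2.2.1 with h1 | h1
      · rw [Set.sdiff_eq_empty.2 h1]
        exact Set.finite_empty
      · exfalso
        apply h
        refine ⟨i, ?_⟩
        rw [Set.sdiff_eq_empty.2 (Set.subset_compl_iff_disjoint_right.2 h1)]
        exact Set.finite_empty
    · intro h1 h2
      obtain ⟨j, hj⟩ := F.inter_sets h1 h2
      rw [Set.inter_compl_self, Set.sdiff_empty] at hj
      exact (hg j).1 hj
  let W : Ultrafilter ℕ := Ultrafilter.ofComplNotMemIff F hF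
  have hW : ∀ X, X ∈ W ↔ ∃ i, (A i \ X).Finite := fun X => Iff.rfl
  refine ⟨W, ?_, ?_, ?_⟩
  · intro n hn
    obtain ⟨i, hi⟩ := (hW _).1 hn
    apply (hg i).1
    exact (hi.union (Set.finite_singleton n)).subset fun x hx => by
      by_cases h : x ∈ ({n} : Set ℕ)
      · exact Or.inr h
      · exact Or.inl ⟨hx, h⟩
  · intro B hB
    choose f hf using fun n => (hW _).1 (hB n)
    obtain ⟨k, hk⟩ := hbd f
    refine ⟨A k, (hW _).2 ⟨k, by simp⟩, fun n => ?_⟩
    refine ((hle (hk n).le).union (hf n)).subset ?_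
    rintro x ⟨hx1, hx2⟩
    by_cases h5 : x ∈ A (f n)
    · exact Or.inr ⟨h5, hx2⟩
    · exact Or.inl ⟨hx1, h5⟩
  · intro i hi
    apply (hg i).2.2.2
    rw [← hi]
    exact (hW _).2 ⟨i, by simp⟩

end Tower

/-- Under CH: for any family of ultrafilters indexed by the reals there is a nonprincipal p-point
not in the family. -/
theorem exists_ppoint (hCH : continuum.{0} = aleph 1) (𝒲 : Set ℕ → Ultrafilter ℕ) :
    ∃ W : Ultrafilter ℕ, NP W ∧ PPoint W ∧ ∀ E, W ≠ 𝒲 E := by
  let Ω : Type := (aleph.{0} 1).ord.ToType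
  have hcard : #Ω = aleph 1 := by simp [Ω]
  have hc : ∀ i : Ω, (Set.Iio i).Countable := by
    intro i
    have h1 : #(Set.Iio i) < #Ω := mk_Iio_lt i (by simp [Ω])
    rw [hcard] at h1
    rw [← Cardinal.le_aleph0_iff_set_countable]
    rw [← Order.lt_succ_iff, Cardinal.succ_aleph0]
    exact h1
  have : Uncountable Ω := by
    rw [← aleph0_lt_mk_iff, hcard]
    exact aleph0_lt_aleph_one
  have hR : #Ω = #(Set ℕ) := by
    rw [hcard, mk_set, mk_nat, ← hCH]
    rfl
  obtain ⟨e⟩ := Cardinal.eq.1 hR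
  obtain ⟨W, h1, h2, h3⟩ := exists_ppoint_aux hc e e.surjective (fun i => 𝒲 (e i))
  refine ⟨W, h1, h2, fun E => ?_⟩
  have := h3 (e.symm E)
  rwa [e.apply_symm_apply] at this

/-- Tukey reducibility `P ≤_T Q` of two relations: a map sends unbounded sets to unbounded
sets. -/
def TukeyLE {P Q : Type} (r : P → P → Prop) (s : Q → Q → Prop) : Prop :=
  ∃ f : P → Q, ∀ A : Set P, (¬ ∃ b, ∀ a ∈ A, r a b) → ¬ ∃ b, ∀ a ∈ A, s (f a) b

/-- `(U, ⊇)`: `B` is above `A` if `B ⊆ A` -/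
def incl (U : Ultrafilter ℕ) (A B : {X : Set ℕ // X ∈ U}) : Prop := B.1 ⊆ A.1

/-- `(U, ⊇*)`: `B` is above `A` if `B \ A` is finite -/
def almost (U : Ultrafilter ℕ) (A B : {X : Set ℕ // X ∈ U}) : Prop := (B.1 \ A.1).Finite

section Count

open Classical in
/-- `X ∩ n` -/
noncomputable def cut (X : Set ℕ) (n : ℕ) : Finset ℕ := (Finset.range n).filter (· ∈ X)

theorem mem_cut {X : Set ℕ} {n x : ℕ} : x ∈ cut X n ↔ x < n ∧ x ∈ X := by
  unfold cut
  simp

/-- the family generated by `V` and the code `Q` -/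
def gen (V : Ultrafilter ℕ) (Q : Set (ℕ × ℕ × Finset ℕ)) : Set (Set ℕ) :=
  {B | ∃ X ∈ V, ∀ k ∉ B, ∃ n, (k, n, cut X n) ∈ Q}

/-- Every ultrafilter Tukey below a p-point `V` is generated by `V` and a code. -/
theorem exists_code {V W : Ultrafilter ℕ} (hV : PPoint V) (h : TukeyLE (incl W) (incl V)) :
    ∃ Q, ∀ B, B ∈ W ↔ B ∈ gen V Q := by
  classical
  obtain ⟨φ, hφ⟩ := h
  -- the monotone map
  let g : Set ℕ → Set ℕ := fun A => {k | ∀ (B : Set ℕ) (hB : B ∈ W), A ⊆ (φ ⟨B, hB⟩).1 → k ∈ B}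
  have gmono : ∀ {A A' : Set ℕ}, A ⊆ A' → g A ⊆ g A' := by
    intro A A' hAA k hk B hB h2
    exact hk B hB (hAA.trans h2)
  have gmem : ∀ A ∈ V, g A ∈ W := by
    intro A hA
    by_contra hcon
    apply hφ {B | A ⊆ (φ B).1}
    · rintro ⟨C, hC⟩
      apply hcon
      refine W.sets_of_superset C.2 ?_
      intro k hk B hB h2
      exact hC ⟨B, hB⟩ h2 hk
    · exact ⟨⟨A, hA⟩, fun B hB => hB⟩
  have gcof : ∀ (B : Set ℕ) (hB : B ∈ W), g (φ ⟨B, hB⟩).1 ⊆ B := by
    intro B hB k hk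
    exact hk B hB subset_rfl
  -- the finite information
  let R : ℕ → Finset ℕ → Prop := fun k s => ∃ A ∈ V, k ∉ g ((s : Set ℕ) ∪ A)
  have hA0 : ∀ (k : ℕ) (s : Finset ℕ), ∃ A ∈ V, R k s → k ∉ g ((s : Set ℕ) ∪ A) := by
    intro k s
    by_cases h : R k s
    · obtain ⟨A, hA, h2⟩ := h
      exact ⟨A, hA, fun _ => h2⟩
    · exact ⟨Set.univ, Filter.univ_mem, fun h2 => absurd h2 h⟩
  choose A0 hA0V hA0R using hA0
  obtain ⟨A, hAV, hA⟩ := hV (fun n => A0 ((Denumerable.eqv (ℕ × Finset ℕ)).symm n).1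
    ((Denumerable.eqv (ℕ × Finset ℕ)).symm n).2) (fun n => hA0V _ _)
  have hA' : ∀ k s, (A \ A0 k s).Finite := by
    intro k s
    have := hA (Denumerable.eqv (ℕ × Finset ℕ) (k, s))
    simpa using this
  -- the function N
  have hN : ∀ m : ℕ, ∃ N, m < N ∧ ∀ k ≤ m, ∀ s ∈ (Finset.range m).powerset,
      ∀ x ∈ A \ A0 k s, x < N := by
    intro m
    have hfin : (⋃ k ∈ Finset.range (m + 1), ⋃ s ∈ (Finset.range m).powerset,
        (A \ A0 k s)).Finite := by
      apply Set.Finite.biUnion (Finset.finite_toSet _)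
      intro k _
      apply Set.Finite.biUnion (Finset.finite_toSet _)
      intro s _
      exact hA' k s
    obtain ⟨N, hN⟩ := hfin.bddAbove
    refine ⟨max N m + 1, by omega, ?_⟩
    intro k hk s hs x hx
    have : x ≤ N := hN (mem_iUnion₂.2 ⟨k, Finset.mem_range.2 (by omega),
      mem_iUnion₂.2 ⟨s, hs, hx⟩⟩)
    omega
  choose N hN1 hN2 using hN
  -- the sequence
  let n : ℕ → ℕ := fun i => Nat.rec 0 (fun _ y => N y) i
  have hn : ∀ i, n (i + 1) = N (n i) := fun _ => rfl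
  have hnm : StrictMono n := strictMono_nat_of_lt_succ fun i => by rw [hn]; exact hN1 _
  have hnge : ∀ i, i ≤ n i := hnm.id_le
  -- the thin set
  obtain ⟨A', hA'V, hA'A, ν, hν⟩ : ∃ A' ∈ V, A' ⊆ A ∧ ∃ ν : ℕ → ℕ, ∀ k, k ≤ ν k ∧
      ∀ x ∈ A', ν k ≤ x → N (ν k) ≤ x := by
    let E : Set ℕ := {x | ∃ i, n (2 * i) ≤ x ∧ x < n (2 * i + 1)}
    by_cases hE : E ∈ V
    · refine ⟨A ∩ E, V.inter_sets hAV hE, inter_subset_left, fun k => n (2 * k + 1), ?_⟩
      intro k
      refine ⟨(by omega : k ≤ 2 * k + 1).trans (hnge _), ?_⟩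
      rintro x ⟨_, i, hi1, hi2⟩ hx
      show N (n (2 * k + 1)) ≤ x
      have hx' : n (2 * k + 1) ≤ x := hx
      have h0 : n (2 * k + 1 + 1) = N (n (2 * k + 1)) := rfl
      by_contra hcon
      push Not at hcon
      rcases le_or_gt i k with h1 | h1
      · have : n (2 * i + 1) ≤ n (2 * k + 1) := hnm.monotone (show 2 * i + 1 ≤ 2 * k + 1 by omega)
        omega
      · have : n (2 * k + 1 + 1) ≤ n (2 * i) :=
          hnm.monotone (show 2 * k + 1 + 1 ≤ 2 * i by omega)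
        omega
    · have hE' : Eᶜ ∈ V := Ultrafilter.compl_mem_iff_notMem.2 hE
      refine ⟨A ∩ Eᶜ, V.inter_sets hAV hE', inter_subset_left, fun k => n (2 * k), ?_⟩
      intro k
      refine ⟨(by omega : k ≤ 2 * k).trans (hnge _), ?_⟩
      rintro x ⟨_, hx2⟩ hx
      show N (n (2 * k)) ≤ x
      by_contra hcon
      push Not at hcon
      exact hx2 ⟨k, hx, hcon⟩
  -- key equivalence
  have key : ∀ X ∈ V, X ⊆ A' → ∀ k, (k ∉ g X ↔ R k (cut X (ν k))) := by
    intro X hX hXA k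
    constructor
    · intro hk
      refine ⟨X, hX, ?_⟩
      have : ((cut X (ν k) : Finset ℕ) : Set ℕ) ∪ X = X := by
        apply Set.union_eq_self_of_subset_left
        intro x hx
        exact (mem_cut.1 hx).2
      rwa [this]
    · intro hR hk
      apply hA0R k (cut X (ν k)) hR
      apply gmono _ hk
      intro x hx
      by_cases hxn : x < ν k
      · exact Or.inl (mem_cut.2 ⟨hxn, hx⟩)
      · right
        by_contra hcon
        have h1 := hN2 (ν k) k (hν k).1 (cut X (ν k)) (by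
          rw [Finset.mem_powerset]
          intro y hy
          exact Finset.mem_range.2 (mem_cut.1 hy).1) x ⟨hA'A (hXA hx), hcon⟩
        have h2 := (hν k).2 x (hXA hx) (not_lt.1 hxn)
        omega
  refine ⟨{p | p.2.1 = ν p.1 ∧ R p.1 (p.2.2.filter (· ∈ A'))}, ?_⟩
  have hcut : ∀ X k, (cut X k).filter (· ∈ A') = cut (X ∩ A') k := by
    intro X k
    ext x
    simp only [Finset.mem_filter, mem_cut, Set.mem_inter_iff]
    tauto
  intro B
  constructor
  · intro hB
    refine ⟨(φ ⟨B, hB⟩).1, (φ ⟨B, hB⟩).2, ?_⟩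
    intro k hk
    refine ⟨ν k, rfl, ?_⟩
    show R k ((cut (φ ⟨B, hB⟩).1 (ν k)).filter (· ∈ A'))
    rw [hcut]
    rw [← key _ (V.inter_sets (φ ⟨B, hB⟩).2 hA'V) inter_subset_right]
    intro h2
    exact hk (gcof B hB (gmono inter_subset_left h2))
  · rintro ⟨X, hX, hXB⟩
    have hXV := V.inter_sets hX hA'V
    refine W.sets_of_superset (gmem _ hXV) ?_
    intro k hk
    by_contra hkB
    obtain ⟨m, hm1, hm2⟩ := hXB k hkB
    simp only at hm1 hm2
    subst hm1
    rw [hcut, ← key _ hXV inter_subset_right] at hm2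
    exact hm2 hk

/-- A p-point has at most continuum many ultrafilters Tukey below it. -/
theorem exists_enum {V : Ultrafilter ℕ} (hV : PPoint V) :
    ∃ 𝒲 : Set ℕ → Ultrafilter ℕ, ∀ W, TukeyLE (incl W) (incl V) → ∃ E, 𝒲 E = W := by
  classical
  let e : ℕ × ℕ × Finset ℕ ≃ ℕ := Denumerable.eqv _
  let c : Set ℕ → Set (ℕ × ℕ × Finset ℕ) := fun E => {p | e p ∈ E}
  refine ⟨fun E => if h : ∃ W : Ultrafilter ℕ, ∀ B, B ∈ W ↔ B ∈ gen V (c E) then h.choose else V,
    ?_⟩
  intro W hW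
  obtain ⟨Q, hQ⟩ := exists_code hV hW
  refine ⟨e '' Q, ?_⟩
  have hcQ : c (e '' Q) = Q := by
    ext p
    show e p ∈ e '' Q ↔ p ∈ Q
    exact e.injective.mem_set_image
  have hex : ∃ W : Ultrafilter ℕ, ∀ B, B ∈ W ↔ B ∈ gen V (c (e '' Q)) := ⟨W, by rwa [hcQ]⟩
  simp only [dif_pos hex]
  apply Ultrafilter.ext
  intro B
  rw [hex.choose_spec B, hQ B, hcQ]

end Count

/-- Under CH there are nonprincipal p-points `V`, `W` with `W` not Tukey below `V`. -/
theorem exists_pair (hCH : continuum.{0} = aleph 1) :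
    ∃ V W : Ultrafilter ℕ, NP V ∧ PPoint V ∧ NP W ∧ PPoint W ∧ ¬ TukeyLE (incl W) (incl V) := by
  obtain ⟨V, hV1, hV2, _⟩ := exists_ppoint hCH (fun _ => pure 0)
  obtain ⟨𝒲, h𝒲⟩ := exists_enum hV2
  obtain ⟨W, hW1, hW2, hW3⟩ := exists_ppoint hCH 𝒲
  refine ⟨V, W, hV1, hV2, hW1, hW2, fun h => ?_⟩
  obtain ⟨E, hE⟩ := h𝒲 W h
  exact hW3 E hE.symm

end Pool.Agent.V11243.CHPoint
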