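import Mathlib

/-!
# Elementary facts on `ω₁`
-/

set_option autoImplicit false

open Set Cardinal Ordinal

namespace Pool.Agent.V11243

/-- The well-ordered set `ω₁`. -/
abbrev Om : Type := (Ordinal.omega.{0} 1).ToType

namespace Om

theorem mk_Om : #Om = ℵ_ 1 := by
  simp [Om]

theorem countable_Iio (x : Om) : (Set.Iio x).Countable := by
  have h1 : ∀ o : Ordinal.{0}, (ℵ_ 1).ord = o → ∀ x : o.ToType, #(Set.Iio x) < ℵ_ 1 := by
    rintro _ rfl x
    simpa using Cardinal.mk_Iio_lt x
  have h2 := h1 _ (Cardinal.ord_aleph 1) x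
  rw [← Cardinal.succ_aleph0, Order.lt_succ_iff] at h2
  exact Cardinal.le_aleph0_iff_set_countable.1 h2

theorem countable_Iic (x : Om) : (Set.Iic x).Countable := by
  rw [← Set.Iio_union_right]
  exact (countable_Iio x).union (Set.countable_singleton x)

theorem not_countable : ¬ (Set.univ : Set Om).Countable := by
  intro h
  have h2 : #Om ≤ ℵ₀ := by
    rw [← Cardinal.mk_univ]
    exact Cardinal.le_aleph0_iff_set_countable.2 h
  rw [mk_Om] at h2
  exact absurd h2 (not_le.2 Cardinal.aleph0_lt_aleph_one)

theorem exists_gt_of_countable {S : Set Om} (hS : S.Countable) : ∃ α : Om, ∀ x ∈ S, x < α := by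
  by_contra hcon
  push Not at hcon
  apply not_countable
  have : (Set.univ : Set Om) ⊆ ⋃ x ∈ S, Set.Iic x := by
    intro α _
    obtain ⟨x, hx, hle⟩ := hcon α
    exact Set.mem_biUnion hx hle
  exact (hS.biUnion fun x _ => countable_Iic x).mono this

theorem exists_notMem_of_countable {S : Set Om} (hS : S.Countable) : ∃ α : Om, α ∉ S := by
  by_contra hcon
  push Not at hcon
  exact not_countable (hS.mono fun x _ => hcon x)

theorem type_Om : Ordinal.type (α := Om) (· < ·) = Ordinal.omega 1 := by
  simp [Om]

/-- An uncountable subset of `ω₁` contains a copy of `ω₁`. -/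
theorem exists_strictMono_of_uncountable {T : Set Om} (h0 : ¬ T.Countable) :
    ∃ f : Om → T, StrictMono f := by
  have h1 : ℵ₀ < #T := by
    rw [← not_le, Cardinal.le_aleph0_iff_set_countable]
    exact h0
  have h2 : Ordinal.omega.{0} 1 ≤ Ordinal.type (α := T) (· < ·) := by
    refine (Cardinal.ord_aleph 1).symm.le.trans ?_
    rw [Cardinal.ord_le, Ordinal.card_type, ← Cardinal.succ_aleph0, Order.succ_le_iff]
    exact h1
  have h3 : Ordinal.type (α := Om) (· < ·) ≤ Ordinal.type (α := T) (· < ·) := by
    rw [type_Om]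
    exact h2
  obtain ⟨f⟩ := Ordinal.type_le_iff.1 h3
  exact ⟨f, fun a b h => f.map_rel_iff.2 h⟩

/-- A monotone map from `ω₁` into a linear order without a copy of `ω₁` is constant up to
countably many exceptions. -/
theorem eventually_const {K : Type*} [LinearOrder K] (hK : ¬ ∃ f : Om → K, StrictMono f)
    (g : Om → K) (hg : Monotone g) : ∃ c, {α | g α ≠ c}.Countable := by
  classical
  have h1 : ∃ c, ¬ {α | g α = c}.Countable := by
    by_contra hcon
    push Not at hcon
    apply hK
    set T : Set Om := {a | ∀ b < a, g b < g a} with hT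
    have h0 : ¬ T.Countable := by
      intro hc
      have h1 : (univ : Set Om) ⊆ ⋃ t ∈ T, {a | g a = g t} := by
        intro a _
        obtain ⟨m, hm, hmin⟩ := WellFounded.has_min (wellFounded_lt (α := Om)) {b | g b = g a}
          ⟨a, rfl⟩
        have hmT : m ∈ T := by
          intro b hb
          exact lt_of_le_of_ne (hg hb.le) fun h => hmin b (h.trans hm) hb
        exact mem_biUnion hmT hm.symm
      exact not_countable ((hc.biUnion fun t _ => hcon (g t)).mono h1)
    obtain ⟨f, hf⟩ := exists_strictMono_of_uncountable h0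
    exact ⟨fun a => g (f a).1, fun a b h => (f b).2 _ (hf h)⟩
  obtain ⟨c, hc⟩ := h1
  refine ⟨c, ?_⟩
  have hne : ∃ α0, g α0 = c := by
    by_contra h
    push Not at h
    apply hc
    convert Set.countable_empty
    ext α
    simp [h α]
  obtain ⟨α0, hα0⟩ := hne
  refine (countable_Iio α0).mono ?_
  intro α hα
  by_contra hlt
  have hle : α0 ≤ α := not_lt.1 hlt
  apply hα
  refine le_antisymm ?_ (hα0 ▸ hg hle)
  by_contra hgt
  have hgt' : c < g α := not_le.1 hgt
  apply hc
  refine (countable_Iic α).mono ?_
  intro β hβ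
  by_contra hβα
  have h2 : α ≤ β := (not_le.1 hβα).le
  have h3 := hg h2
  rw [(hβ : g β = c)] at h3
  exact absurd hgt' (not_lt.2 h3)

end Om

end Pool.Agent.V11243
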