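import Mathlib

/-!
# Two ultrafilters none of which is a limit of nonprincipal images of the other
-/

set_option autoImplicit false

open Set Filter Cardinal

namespace Pool.Agent.V11243.RKPair

/-- rows and columns of the matrix -/
abbrev Row : Type := ℕ → Bool

/-- the underlying countable set of the matrix -/
abbrev S : Type := Σ k : ℕ, ((Fin k → Bool) → (Fin k → Bool))

noncomputable instance : Encodable S := Encodable.ofCountable S

/-- restriction to `k` -/
def rs (k : ℕ) (X : Row) : Fin k → Bool := fun i => X i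

/-- the matrix on `S` -/
def A0 (X Y : Row) : Set S := {p | p.2 (rs p.1 X) = rs p.1 Y}

/-- the matrix on `ℕ` -/
noncomputable def A (X Y : Row) : Set ℕ := Encodable.encode '' A0 X Y

theorem rs_ne {X Y : Row} (h : X ≠ Y) : ∃ k, ∀ m, k ≤ m → rs m X ≠ rs m Y := by
  obtain ⟨i, hi⟩ := Function.ne_iff.1 h
  refine ⟨i + 1, fun m hm heq => hi ?_⟩
  exact congrFun heq ⟨i, by omega⟩

theorem A_disj (X : Row) {Y Y' : Row} (h : Y ≠ Y') : (A X Y ∩ A X Y').Finite := by
  have h1 : (A0 X Y ∩ A0 X Y').Finite := by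
    obtain ⟨k, hk⟩ := rs_ne h
    have h2 : (⋃ m ∈ Set.Iio k, Set.range (fun f : (Fin m → Bool) → (Fin m → Bool) =>
        (⟨m, f⟩ : S))).Finite :=
      (Set.finite_Iio k).biUnion fun m _ => Set.finite_range _
    refine h2.subset ?_
    rintro ⟨m, f⟩ ⟨hf, hf'⟩
    have hm : m < k := by
      by_contra hc
      exact hk m (not_lt.1 hc) (Eq.trans (Eq.symm hf) hf')
    exact Set.mem_biUnion (show m ∈ Set.Iio k from hm) ⟨f, rfl⟩
  unfold A
  rw [← Set.image_inter Encodable.encode_injective]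
  exact h1.image _

/-- a condition: the intersection of the entries `x i` of the rows `i ∈ R` -/
noncomputable def Cd (R : Finset Row) (x : Row → Row) : Set ℕ := ⋂ i ∈ R, A i (x i)

theorem mem_Cd {R : Finset Row} {x : Row → Row} {n : ℕ} : n ∈ Cd R x ↔ ∀ i ∈ R, n ∈ A i (x i) := by
  simp [Cd]

theorem Cd_infinite (R : Finset Row) (x : Row → Row) : (Cd R x).Infinite := by
  classical
  have hk : ∃ k, ∀ m, k ≤ m → ∀ X ∈ R, ∀ Y ∈ R, X ≠ Y → rs m X ≠ rs m Y := by
    have h1 : ∀ p : Row × Row, ∃ k, p.1 ≠ p.2 → ∀ m, k ≤ m → rs m p.1 ≠ rs m p.2 := by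
      intro p
      by_cases hp : p.1 = p.2
      · exact ⟨0, fun h => absurd hp h⟩
      · obtain ⟨k, hk⟩ := rs_ne hp
        exact ⟨k, fun _ => hk⟩
    choose k hk using h1
    refine ⟨(R ×ˢ R).sup k, fun m hm X hX Y hY hXY => hk (X, Y) hXY m ?_⟩
    exact (Finset.le_sup (f := k) (Finset.mem_product.2 ⟨hX, hY⟩)).trans hm
  obtain ⟨k, hk⟩ := hk
  -- for all large `m` there is a point with first coordinate `m`
  have hex : ∀ m, k ≤ m → ∃ f : (Fin m → Bool) → (Fin m → Bool),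
      ∀ X ∈ R, (⟨m, f⟩ : S) ∈ A0 X (x X) := by
    intro m hm
    refine ⟨fun z => if h : ∃ X ∈ R, rs m X = z then rs m (x h.choose) else z, fun X hX => ?_⟩
    have h : ∃ X' ∈ R, rs m X' = rs m X := ⟨X, hX, rfl⟩
    show (if h : ∃ X' ∈ R, rs m X' = rs m X then rs m (x h.choose) else rs m X) = rs m (x X)
    rw [dif_pos h]
    have h2 := h.choose_spec
    have h3 : h.choose = X := by
      by_contra hne
      exact hk m hm _ h2.1 X hX hne h2.2
    rw [h3]
  choose! f hf using hex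
  have hinj : Function.Injective (fun j : ℕ => Encodable.encode (⟨k + j, f (k + j)⟩ : S)) := by
    intro i j hij
    have h1 := Encodable.encode_injective hij
    have h2 : k + i = k + j := congrArg Sigma.fst h1
    omega
  refine (Set.infinite_range_of_injective hinj).mono ?_
  rintro _ ⟨j, rfl⟩
  rw [mem_Cd]
  intro X hX
  exact ⟨_, hf (k + j) (Nat.le_add_right k j) X hX, rfl⟩

/-- The rows outside `U` are independent modulo the filter `F`. -/
def Ind (F : Filter ℕ) (U : Set Row) : Prop :=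
  ∀ R : Finset Row, (∀ i ∈ R, i ∉ U) → ∀ x : Row → Row, (F ⊓ 𝓟 (Cd R x)).NeBot

theorem ind_cofinite : Ind cofinite ∅ := by
  intro R _ x
  rw [Filter.cofinite_inf_principal_neBot_iff]
  exact Cd_infinite R x

theorem Ind.mono {F : Filter ℕ} {U V : Set Row} (h : Ind F U) (hUV : U ⊆ V) : Ind F V :=
  fun R hR x => h R (fun i hi hU => hR i hi (hUV hU)) x

theorem ind_iInf {ι : Type*} [Nonempty ι] {F : ι → Filter ℕ} {U : Set Row}
    (hd : Directed (· ≥ ·) F) (h : ∀ i, Ind (F i) U) : Ind (⨅ i, F i) U := by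
  intro R hR x
  rw [iInf_inf]
  have hd' : Directed (· ≥ ·) (fun i => F i ⊓ 𝓟 (Cd R x)) := by
    intro i j
    obtain ⟨k, h1, h2⟩ := hd i j
    exact ⟨k, inf_le_inf_right _ h1, inf_le_inf_right _ h2⟩
  exact Filter.iInf_neBot_of_directed' hd' (fun i => h i R hR x)

/-- A maximal extension. -/
theorem exists_maximal {F : Filter ℕ} {U : Set Row} (hF : Ind F U) :
    ∃ G ≤ F, Ind G U ∧ ∀ X : Set ℕ, X ∉ G → ∃ (R : Finset Row) (x : Row → Row),
      (∀ i ∈ R, i ∉ U) ∧ G ⊓ 𝓟 (Cd R x) ≤ 𝓟 Xᶜ := by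
  obtain ⟨G, hFG, hG⟩ := zorn_le_nonempty₀ (α := (Filter ℕ)ᵒᵈ)
    {G | Ind (OrderDual.ofDual G) U} (by
      intro c hc hchain y hy
      have : Nonempty c := ⟨⟨y, hy⟩⟩
      refine ⟨OrderDual.toDual (⨅ i : c, OrderDual.ofDual i.1), ?_, ?_⟩
      · refine ind_iInf ?_ fun i => hc i.2
        intro i j
        rcases hchain.total i.2 j.2 with h | h
        · exact ⟨j, h, le_rfl⟩
        · exact ⟨i, le_rfl, h⟩
      · intro z hz
        exact iInf_le (fun i : c => OrderDual.ofDual i.1) ⟨z, hz⟩) (OrderDual.toDual F) hF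
  refine ⟨OrderDual.ofDual G, hFG, hG.prop, fun X hX => ?_⟩
  by_contra hcon
  push Not at hcon
  have h1 : Ind (OrderDual.ofDual G ⊓ 𝓟 X) U := by
    intro R hR x
    have h2 := hcon R x hR
    rw [Filter.neBot_iff]
    intro h3
    apply h2
    rw [inf_right_comm] at h3
    exact Filter.le_principal_iff.2 (Filter.inf_principal_eq_bot.1 h3)
  have h3 : G ≤ OrderDual.toDual (OrderDual.ofDual G ⊓ 𝓟 X) := by
    show OrderDual.ofDual G ⊓ 𝓟 X ≤ OrderDual.ofDual G
    exact inf_le_left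
  have h2 : OrderDual.ofDual G ≤ OrderDual.ofDual G ⊓ 𝓟 X := hG.le_of_ge h1 h3
  exact hX (h2 (Filter.mem_inf_of_right (Filter.mem_principal_self X)))

theorem Cd_union {R R' : Finset Row} {x x' : Row → Row} [DecidableEq Row]
    (h : ∀ i ∈ R, i ∈ R' → x i = x' i) :
    Cd (R ∪ R') (fun i => if i ∈ R then x i else x' i) = Cd R x ∩ Cd R' x' := by
  ext n
  simp only [mem_Cd, Set.mem_inter_iff, Finset.mem_union]
  constructor
  · intro hn
    refine ⟨fun i hi => ?_, fun i hi => ?_⟩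
    · have := hn i (Or.inl hi)
      rwa [if_pos hi] at this
    · have := hn i (Or.inr hi)
      by_cases hiR : i ∈ R
      · rw [if_pos hiR, h i hiR hi] at this
        exact this
      · rwa [if_neg hiR] at this
  · rintro ⟨h1, h2⟩ i hi
    by_cases hiR : i ∈ R
    · rw [if_pos hiR]
      exact h1 i hiR
    · rw [if_neg hiR]
      exact h2 i (hi.resolve_left hiR)

/-- Conditions which are below a positive set. -/
theorem exists_below {G : Filter ℕ} {U : Set Row} (hcof : G ≤ cofinite) (hG : Ind G U)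
    (hmax : ∀ X : Set ℕ, X ∉ G → ∃ (R : Finset Row) (x : Row → Row),
      (∀ i ∈ R, i ∉ U) ∧ G ⊓ 𝓟 (Cd R x) ≤ 𝓟 Xᶜ)
    (R0 : Finset Row) (x0 : Row → Row) (hR0 : ∀ i ∈ R0, i ∉ U) (X : Set ℕ)
    (hX : (G ⊓ 𝓟 (Cd R0 x0) ⊓ 𝓟 X).NeBot) :
    ∃ (R : Finset Row) (x : Row → Row), R0 ⊆ R ∧ (∀ i ∈ R0, x i = x0 i) ∧ (∀ i ∈ R, i ∉ U) ∧
      G ⊓ 𝓟 (Cd R x) ≤ 𝓟 X := by
  classical
  have h1 : (Cd R0 x0 ∩ X)ᶜ ∉ G := by
    intro h
    rw [← Filter.inf_principal_eq_bot, ← Filter.inf_principal, ← inf_assoc] at h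
    exact hX.ne h
  obtain ⟨R, x, hR, h2⟩ := hmax _ h1
  rw [compl_compl] at h2
  have hagree : ∀ i ∈ R0, i ∈ R → x0 i = x i := by
    intro i hi hiR
    by_contra hne
    have h3 : G ⊓ 𝓟 (Cd R x) = ⊥ := by
      have h4 : G ⊓ 𝓟 (Cd R x) ≤ 𝓟 (A i (x0 i) ∩ A i (x i)) := by
        rw [← Filter.inf_principal]
        refine le_inf (h2.trans (Filter.principal_mono.2 ?_)) (inf_le_right.trans
          (Filter.principal_mono.2 ?_))
        · rintro n ⟨hn, -⟩
          exact mem_Cd.1 hn i hi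
        · intro n hn
          exact mem_Cd.1 hn i hiR
      have h5 : G ⊓ 𝓟 (Cd R x) ≤ cofinite := inf_le_left.trans hcof
      have h6 : (A i (x0 i) ∩ A i (x i))ᶜ ∈ G ⊓ 𝓟 (Cd R x) :=
        h5 ((A_disj i hne).compl_mem_cofinite)
      have h7 : A i (x0 i) ∩ A i (x i) ∈ G ⊓ 𝓟 (Cd R x) := Filter.le_principal_iff.1 h4
      rw [← Filter.empty_mem_iff_bot]
      have := Filter.inter_mem h7 h6
      rwa [Set.inter_compl_self] at this
    exact (hG R hR x).ne h3
  refine ⟨R0 ∪ R, fun i => if i ∈ R0 then x0 i else x i, Finset.subset_union_left,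
    fun i hi => if_pos hi, ?_, ?_⟩
  · intro i hi
    rcases Finset.mem_union.1 hi with hi | hi
    · exact hR0 i hi
    · exact hR i hi
  · rw [Cd_union hagree, ← Filter.inf_principal, ← inf_assoc, inf_right_comm]
    exact inf_le_left.trans (h2.trans (Filter.principal_mono.2 Set.inter_subset_right))

/-- The requirement for the sequence `g` of functions: some `B ∈ F` is avoided by the images of `G`
under the functions `g n`, unless these images are principal. -/
def Task (g : ℕ → ℕ → ℕ) (F G : Filter ℕ) : Prop :=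
  ∃ B ∈ F, ∀ n, (∃ k, {m | g n m = k} ∈ G) ∨ {m | g n m ∉ B} ∈ G

theorem Task.mono {g : ℕ → ℕ → ℕ} {F G F' G' : Filter ℕ} (h : Task g F G) (hF : F' ≤ F)
    (hG : G' ≤ G) : Task g F' G' := by
  obtain ⟨B, hB, h⟩ := h
  refine ⟨B, hF hB, fun n => ?_⟩
  rcases h n with ⟨k, hk⟩ | h
  · exact Or.inl ⟨k, hG hk⟩
  · exact Or.inr (hG h)

theorem not_countable_row : ¬ (Set.univ : Set Row).Countable := by
  intro h
  have h2 : #Row ≤ ℵ₀ := by
    rw [← Cardinal.mk_univ]
    exact Cardinal.le_aleph0_iff_set_countable.2 h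
  have h3 : #Row = 2 ^ ℵ₀ := by simp
  rw [h3] at h2
  exact absurd h2 (not_le.2 (Cardinal.cantor _))

/-- **One task.** -/
theorem one_task {F G : Filter ℕ} {U : Set Row} (hGc : G ≤ cofinite)
    (hF : Ind F U) (hG : Ind G U) (hU : ∃ i, i ∉ U) (g : ℕ → ℕ → ℕ) :
    ∃ F' ≤ F, ∃ G' ≤ G, ∃ N : Set Row, N.Countable ∧ Ind F' (U ∪ N) ∧ Ind G' (U ∪ N) ∧
      Task g F' G' := by
  classical
  obtain ⟨G1, hG1G, hG1, hmax⟩ := exists_maximal hG
  have hG1c := hG1G.trans hGc
  obtain ⟨i0, hi0⟩ := hU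
  -- the sequence of conditions
  let St : Type := {s : Finset Row × (Row → Row) // ∀ i ∈ s.1, i ∉ U}
  have hstep : ∀ (n : ℕ) (s : St), ∃ (s' : St) (b : Row), s.1.1 ⊆ s'.1.1 ∧
      (∀ i ∈ s.1.1, s'.1.2 i = s.1.2 i) ∧
      ((∃ k, G1 ⊓ 𝓟 (Cd s'.1.1 s'.1.2) ≤ 𝓟 {m | g n m = k}) ∨
        ∀ c, c ≠ b → G1 ⊓ 𝓟 (Cd s'.1.1 s'.1.2) ≤ 𝓟 {m | g n m ∉ A i0 c}) := by
    intro n s
    by_cases h1 : ∃ k, (G1 ⊓ 𝓟 (Cd s.1.1 s.1.2) ⊓ 𝓟 {m | g n m = k}).NeBot
    · obtain ⟨k, hk⟩ := h1
      obtain ⟨R, x, h2, h3, h4, h5⟩ := exists_below hG1c hG1 hmax s.1.1 s.1.2 s.2 _ hk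
      exact ⟨⟨(R, x), h4⟩, i0, h2, h3, Or.inl ⟨k, h5⟩⟩
    · have hnull : ∀ k, {m | g n m ≠ k} ∈ G1 ⊓ 𝓟 (Cd s.1.1 s.1.2) := by
        intro k
        have h2 : ¬ (G1 ⊓ 𝓟 (Cd s.1.1 s.1.2) ⊓ 𝓟 {m | g n m = k}).NeBot := fun h => h1 ⟨k, h⟩
        rw [Filter.not_neBot, Filter.inf_principal_eq_bot] at h2
        exact h2
      have hfin : ∀ T : Set ℕ, T.Finite → {m | g n m ∉ T} ∈ G1 ⊓ 𝓟 (Cd s.1.1 s.1.2) := by
        intro T hT
        have h2 : (⋂ k ∈ T, {m | g n m ≠ k}) ∈ G1 ⊓ 𝓟 (Cd s.1.1 s.1.2) :=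
          (Filter.biInter_mem hT).2 fun k _ => hnull k
        refine Filter.mem_of_superset h2 ?_
        intro m hm hmT
        simp only [Set.mem_iInter] at hm
        exact hm _ hmT rfl
      by_cases h2 : ∃ c, (G1 ⊓ 𝓟 (Cd s.1.1 s.1.2) ⊓ 𝓟 {m | g n m ∈ A i0 c}).NeBot
      · obtain ⟨b, hb⟩ := h2
        obtain ⟨R, x, h3, h4, h5, h6⟩ := exists_below hG1c hG1 hmax s.1.1 s.1.2 s.2 _ hb
        refine ⟨⟨(R, x), h5⟩, b, h3, h4, Or.inr fun c hc => ?_⟩
        have hsub : Cd R x ⊆ Cd s.1.1 s.1.2 := by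
          intro m hm
          rw [mem_Cd] at hm ⊢
          intro i hi
          rw [← h4 i hi]
          exact hm i (h3 hi)
        have h7 : {m | g n m ∉ A i0 c ∩ A i0 b} ∈ G1 ⊓ 𝓟 (Cd R x) :=
          inf_le_inf_left _ (Filter.principal_mono.2 hsub) (hfin _ (A_disj i0 hc))
        rw [Filter.le_principal_iff] at h6 ⊢
        filter_upwards [h6, h7] with m hm1 hm2 hm3
        exact hm2 ⟨hm3, hm1⟩
      · refine ⟨s, i0, subset_rfl, fun _ _ => rfl, Or.inr fun c _ => ?_⟩
        have h3 : ¬ (G1 ⊓ 𝓟 (Cd s.1.1 s.1.2) ⊓ 𝓟 {m | g n m ∈ A i0 c}).NeBot :=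
          fun h => h2 ⟨c, h⟩
        rw [Filter.not_neBot, Filter.inf_principal_eq_bot] at h3
        exact Filter.le_principal_iff.2 h3
  choose nx b hn1 hn2 hn3 using hstep
  let st : ℕ → St := fun n => Nat.rec ⟨(∅, id), by simp⟩ (fun n s => nx n s) n
  have stR : ∀ n, (st n).1.1 ⊆ (st (n + 1)).1.1 := fun n => hn1 n (st n)
  have stx : ∀ n, ∀ i ∈ (st n).1.1, (st (n + 1)).1.2 i = (st n).1.2 i := fun n => hn2 n (st n)
  have stC : ∀ n, Cd (st (n + 1)).1.1 (st (n + 1)).1.2 ⊆ Cd (st n).1.1 (st n).1.2 := by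
    intro n m hm
    rw [mem_Cd] at hm ⊢
    intro i hi
    rw [← stx n i hi]
    exact hm i (stR n hi)
  have hanti : Antitone fun n => G1 ⊓ 𝓟 (Cd (st n).1.1 (st n).1.2) :=
    antitone_nat_of_succ_le fun n => inf_le_inf_left _ (Filter.principal_mono.2 (stC n))
  obtain ⟨c, hc⟩ : ∃ c, c ∉ Set.range (fun n => b n (st n)) := by
    by_contra hcon
    push Not at hcon
    exact not_countable_row ((Set.countable_range _).mono fun x _ => hcon x)
  refine ⟨F ⊓ 𝓟 (A i0 c), inf_le_left, ⨅ n, G1 ⊓ 𝓟 (Cd (st n).1.1 (st n).1.2),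
    (iInf_le _ 0).trans (inf_le_left.trans hG1G), {i0} ∪ ⋃ n, ↑(st n).1.1, ?_, ?_, ?_, ?_⟩
  · exact (Set.countable_singleton _).union
      (Set.countable_iUnion fun n => (st n).1.1.countable_toSet)
  · intro R hR x
    have hi0R : i0 ∉ R := fun h => hR i0 h (Or.inr (Or.inl rfl))
    have h1 := hF (insert i0 R) (by
      intro i hi
      rcases Finset.mem_insert.1 hi with rfl | hi
      · exact hi0
      · exact fun hU => hR i hi (Or.inl hU)) (Function.update x i0 c)
    have h2 : Cd (insert i0 R) (Function.update x i0 c) = A i0 c ∩ Cd R x := by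
      ext m
      simp only [mem_Cd, Set.mem_inter_iff, Finset.mem_insert]
      constructor
      · intro h
        refine ⟨?_, fun i hi => ?_⟩
        · have := h i0 (Or.inl rfl)
          rwa [Function.update_self] at this
        · have := h i (Or.inr hi)
          rwa [Function.update_of_ne (show i ≠ i0 from fun he => hi0R (he ▸ hi))] at this
      · rintro ⟨h3, h4⟩ i (rfl | hi)
        · rwa [Function.update_self]
        · rw [Function.update_of_ne (show i ≠ i0 from fun he => hi0R (he ▸ hi))]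
          exact h4 i hi
    rw [h2, ← Filter.inf_principal, ← inf_assoc] at h1
    exact h1
  · refine ind_iInf ?_ fun n => ?_
    · intro i j
      exact ⟨max i j, hanti (le_max_left _ _), hanti (le_max_right _ _)⟩
    · intro R hR x
      have hdisj : ∀ i ∈ (st n).1.1, i ∈ R → (st n).1.2 i = x i := by
        intro i hi hiR
        exact absurd (Or.inr (Or.inr (Set.mem_iUnion.2 ⟨n, hi⟩))) (hR i hiR)
      have h1 := hG1 ((st n).1.1 ∪ R) (by
        intro i hi
        rcases Finset.mem_union.1 hi with hi | hi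
        · exact (st n).2 i hi
        · exact fun hU => hR i hi (Or.inl hU)) (fun i => if i ∈ (st n).1.1 then (st n).1.2 i else x i)
      rw [Cd_union hdisj, ← Filter.inf_principal, ← inf_assoc] at h1
      exact h1
  · refine ⟨A i0 c, Filter.mem_inf_of_right (Filter.mem_principal_self _), fun n => ?_⟩
    have hle : (⨅ n, G1 ⊓ 𝓟 (Cd (st n).1.1 (st n).1.2)) ≤
        G1 ⊓ 𝓟 (Cd (st (n + 1)).1.1 (st (n + 1)).1.2) := iInf_le _ (n + 1)
    rcases hn3 n (st n) with ⟨k, hk⟩ | h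
    · exact Or.inl ⟨k, Filter.le_principal_iff.1 (hle.trans hk)⟩
    · exact Or.inr (Filter.le_principal_iff.1 (hle.trans (h c fun he => hc ⟨n, he.symm⟩)))

/-- Both directions of a task. -/
theorem two_tasks {F G : Filter ℕ} {U : Set Row} (hFc : F ≤ cofinite) (hGc : G ≤ cofinite)
    (hF : Ind F U) (hG : Ind G U) (hU : #U < #Row) (g : ℕ → ℕ → ℕ) :
    ∃ F' ≤ F, ∃ G' ≤ G, ∃ N : Set Row, N.Countable ∧ Ind F' (U ∪ N) ∧ Ind G' (U ∪ N) ∧
      Task g F' G' ∧ Task g G' F' := by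
  have huncount : ℵ₀ < #Row := by
    have h3 : #Row = 2 ^ ℵ₀ := by simp
    rw [h3]
    exact Cardinal.cantor _
  have hex : ∀ V : Set Row, #V < #Row → ∃ i, i ∉ V := by
    intro V hV
    by_contra hcon
    push Not at hcon
    have : V = Set.univ := Set.eq_univ_of_forall hcon
    rw [this, Cardinal.mk_univ] at hV
    exact lt_irrefl _ hV
  obtain ⟨F1, hF1, G1, hG1, N1, hN1, hi1, hi2, ht1⟩ := one_task hGc hF hG (hex U hU) g
  have hU1 : #↑(U ∪ N1) < #Row := by
    refine (Cardinal.mk_union_le _ _).trans_lt ?_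
    refine Cardinal.add_lt_of_lt huncount.le hU ?_
    exact (Cardinal.le_aleph0_iff_set_countable.2 hN1).trans_lt huncount
  obtain ⟨G2, hG2, F2, hF2, N2, hN2, hi3, hi4, ht2⟩ := one_task (hF1.trans hFc) hi2 hi1
    (hex _ hU1) g
  refine ⟨F2, hF2.trans hF1, G2, hG2.trans hG1, N1 ∪ N2, hN1.union hN2, ?_, ?_, ?_, ht2⟩
  · rw [← Set.union_assoc]
    exact hi4
  · rw [← Set.union_assoc]
    exact hi3
  · exact ht1.mono hF2 hG2

/-- the index set of the construction -/
abbrev W : Type := (#Row).ord.ToType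

structure St where
  F : Filter ℕ
  G : Filter ℕ
  N : Set Row

/-- the limit of the previous stages -/
noncomputable def lim (α : W) (f : (β : W) → β < α → St) : St where
  F := cofinite ⊓ ⨅ β : {β // β < α}, (f β.1 β.2).F
  G := cofinite ⊓ ⨅ β : {β // β < α}, (f β.1 β.2).G
  N := ⋃ β : {β // β < α}, (f β.1 β.2).N

/-- the properties of the next stage -/
def Next (g : ℕ → ℕ → ℕ) (s t : St) : Prop :=
  t.F ≤ s.F ∧ t.G ≤ s.G ∧ t.N.Countable ∧ Ind t.F (s.N ∪ t.N) ∧ Ind t.G (s.N ∪ t.N) ∧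
    Task g t.F t.G ∧ Task g t.G t.F

open Classical in
/-- the next stage -/
noncomputable def next (g : ℕ → ℕ → ℕ) (s : St) : St :=
  if h : ∃ t, Next g s t then h.choose else s

theorem next_spec {g : ℕ → ℕ → ℕ} {s : St} (h : ∃ t, Next g s t) : Next g s (next g s) := by
  unfold next
  rw [dif_pos h]
  exact h.choose_spec

/-- the stages -/
noncomputable def stage (g : W → ℕ → ℕ → ℕ) : W → St :=
  WellFounded.fix (wellFounded_lt (α := W)) fun α f => next (g α) (lim α f)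

theorem stage_eq (g : W → ℕ → ℕ → ℕ) (α : W) :
    stage g α = next (g α) (lim α fun β _ => stage g β) :=
  WellFounded.fix_eq _ _ _

theorem stage_next (g : W → ℕ → ℕ → ℕ) (α : W) :
    Next (g α) (lim α fun β _ => stage g β) (stage g α) := by
  induction α using WellFoundedLT.induction with
  | ind α ih =>
    have hF1 : ∀ β < α, (stage g β).F ≤ cofinite := fun β hβ => (ih β hβ).1.trans inf_le_left
    have hG1 : ∀ β < α, (stage g β).G ≤ cofinite := fun β hβ => (ih β hβ).2.1.trans inf_le_left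
    have hF2 : ∀ β < α, ∀ γ < β, (stage g β).F ≤ (stage g γ).F := fun β hβ γ hγ =>
      (ih β hβ).1.trans (inf_le_right.trans (iInf_le (fun γ : {γ // γ < β} => (stage g γ.1).F)
        ⟨γ, hγ⟩))
    have hG2 : ∀ β < α, ∀ γ < β, (stage g β).G ≤ (stage g γ).G := fun β hβ γ hγ =>
      (ih β hβ).2.1.trans (inf_le_right.trans (iInf_le (fun γ : {γ // γ < β} => (stage g γ.1).G)
        ⟨γ, hγ⟩))
    set s := lim α fun β _ => stage g β with hs
    have hsF : s.F ≤ cofinite := inf_le_left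
    have hsG : s.G ≤ cofinite := inf_le_left
    have hsub : ∀ β < α, (lim β fun γ _ => stage g γ).N ∪ (stage g β).N ⊆ s.N := by
      intro β hβ
      refine Set.union_subset ?_ (Set.subset_iUnion (fun β : {β // β < α} => (stage g β.1).N)
        ⟨β, hβ⟩)
      refine Set.iUnion_subset fun γ => ?_
      exact Set.subset_iUnion (fun β : {β // β < α} => (stage g β.1).N) ⟨γ.1, γ.2.trans hβ⟩
    have hindF : Ind s.F s.N := by
      by_cases hne : Nonempty {β // β < α}
      · have h1 : s.F = ⨅ β : {β // β < α}, (stage g β.1).F := by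
          refine inf_eq_right.2 ?_
          obtain ⟨β⟩ := hne
          exact (iInf_le _ β).trans (hF1 β.1 β.2)
        rw [h1]
        refine ind_iInf ?_ fun β => (ih β.1 β.2).2.2.2.1.mono (hsub β.1 β.2)
        intro β γ
        rcases lt_trichotomy β.1 γ.1 with h | h | h
        · exact ⟨γ, hF2 γ.1 γ.2 β.1 h, le_rfl⟩
        · obtain rfl : β = γ := Subtype.ext h
          exact ⟨β, le_rfl, le_rfl⟩
        · exact ⟨β, le_rfl, hF2 β.1 β.2 γ.1 h⟩
      · have : IsEmpty {β // β < α} := not_nonempty_iff.1 hne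
        have h1 : s.F = cofinite := by
          show cofinite ⊓ ⨅ β : {β // β < α}, (stage g β.1).F = cofinite
          rw [iInf_of_empty]
          exact inf_top_eq _
        rw [h1]
        exact ind_cofinite.mono (Set.empty_subset _)
    have hindG : Ind s.G s.N := by
      by_cases hne : Nonempty {β // β < α}
      · have h1 : s.G = ⨅ β : {β // β < α}, (stage g β.1).G := by
          refine inf_eq_right.2 ?_
          obtain ⟨β⟩ := hne
          exact (iInf_le _ β).trans (hG1 β.1 β.2)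
        rw [h1]
        refine ind_iInf ?_ fun β => (ih β.1 β.2).2.2.2.2.1.mono (hsub β.1 β.2)
        intro β γ
        rcases lt_trichotomy β.1 γ.1 with h | h | h
        · exact ⟨γ, hG2 γ.1 γ.2 β.1 h, le_rfl⟩
        · obtain rfl : β = γ := Subtype.ext h
          exact ⟨β, le_rfl, le_rfl⟩
        · exact ⟨β, le_rfl, hG2 β.1 β.2 γ.1 h⟩
      · have : IsEmpty {β // β < α} := not_nonempty_iff.1 hne
        have h1 : s.G = cofinite := by
          show cofinite ⊓ ⨅ β : {β // β < α}, (stage g β.1).G = cofinite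
          rw [iInf_of_empty]
          exact inf_top_eq _
        rw [h1]
        exact ind_cofinite.mono (Set.empty_subset _)
    have hcard : #s.N < #Row := by
      have h0 : #{β // β < α} < #Row := by
        have := Cardinal.mk_Iio_toType_ord_lt α
        exact this
      have huncount : ℵ₀ < #Row := by
        have h3 : #Row = 2 ^ ℵ₀ := by simp
        rw [h3]
        exact Cardinal.cantor _
      refine (Cardinal.mk_iUnion_le _).trans_lt ?_
      refine lt_of_le_of_lt (mul_le_mul' le_rfl (ciSup_le' fun β =>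
        Cardinal.le_aleph0_iff_set_countable.2 (ih β.1 β.2).2.2.1)) ?_
      exact Cardinal.mul_lt_of_lt huncount.le h0 huncount
    obtain ⟨F', hF', G', hG', N, hN, hi1, hi2, ht1, ht2⟩ :=
      two_tasks hsF hsG hindF hindG hcard (g α)
    rw [stage_eq]
    exact next_spec ⟨⟨F', G', N⟩, hF', hG', hN, hi1, hi2, ht1, ht2⟩

theorem exists_enum : ∃ g : W → ℕ → ℕ → ℕ, Function.Surjective g := by
  have h1 : #W = #(ℕ → ℕ → ℕ) := by
    rw [Cardinal.mk_ord_toType]
    simp
  obtain ⟨e⟩ := Cardinal.eq.1 h1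
  exact ⟨e, e.surjective⟩

/-- **Theorem.** There are two nonprincipal ultrafilters `u`, `v` on `ℕ` such that `u` is not in the
closure of any countable set of nonprincipal images of `v`, and conversely. -/
theorem exists_pair : ∃ u v : Ultrafilter ℕ, (u : Filter ℕ) ≤ cofinite ∧ (v : Filter ℕ) ≤ cofinite ∧
    (∀ g : ℕ → ℕ → ℕ, Task g u v) ∧ ∀ g : ℕ → ℕ → ℕ, Task g v u := by
  obtain ⟨g, hg⟩ := exists_enum
  have hst := stage_next g
  have hne : Nonempty W := by
    rw [Ordinal.nonempty_toType_iff]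
    intro h0
    rw [Cardinal.ord_eq_zero] at h0
    exact Cardinal.mk_ne_zero Row h0
  have hF2 : ∀ β, ∀ γ < β, (stage g β).F ≤ (stage g γ).F := fun β γ hγ =>
    (hst β).1.trans (inf_le_right.trans (iInf_le (fun γ : {γ // γ < β} => (stage g γ.1).F)
      ⟨γ, hγ⟩))
  have hG2 : ∀ β, ∀ γ < β, (stage g β).G ≤ (stage g γ).G := fun β γ hγ =>
    (hst β).2.1.trans (inf_le_right.trans (iInf_le (fun γ : {γ // γ < β} => (stage g γ.1).G)
      ⟨γ, hγ⟩))
  have hFne : (⨅ β, (stage g β).F).NeBot := by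
    refine Filter.iInf_neBot_of_directed' ?_ fun β => ?_
    · intro β γ
      rcases lt_trichotomy β γ with h | h | h
      · exact ⟨γ, hF2 γ β h, le_rfl⟩
      · subst h
        exact ⟨β, le_rfl, le_rfl⟩
      · exact ⟨β, le_rfl, hF2 β γ h⟩
    · exact ((hst β).2.2.2.1 ∅ (by simp) id).mono inf_le_left
  have hGne : (⨅ β, (stage g β).G).NeBot := by
    refine Filter.iInf_neBot_of_directed' ?_ fun β => ?_
    · intro β γ
      rcases lt_trichotomy β γ with h | h | h
      · exact ⟨γ, hG2 γ β h, le_rfl⟩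
      · subst h
        exact ⟨β, le_rfl, le_rfl⟩
      · exact ⟨β, le_rfl, hG2 β γ h⟩
    · exact ((hst β).2.2.2.2.1 ∅ (by simp) id).mono inf_le_left
  have hu : ∀ β, ((Ultrafilter.of (⨅ β, (stage g β).F) : Ultrafilter ℕ) : Filter ℕ) ≤
      (stage g β).F := fun β => (Ultrafilter.of_le _).trans (iInf_le _ β)
  have hv : ∀ β, ((Ultrafilter.of (⨅ β, (stage g β).G) : Ultrafilter ℕ) : Filter ℕ) ≤
      (stage g β).G := fun β => (Ultrafilter.of_le _).trans (iInf_le _ β)
  obtain ⟨β0⟩ := hne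
  refine ⟨Ultrafilter.of (⨅ β, (stage g β).F), Ultrafilter.of (⨅ β, (stage g β).G),
    (hu β0).trans ((hst β0).1.trans inf_le_left), (hv β0).trans ((hst β0).2.1.trans inf_le_left),
    fun f => ?_, fun f => ?_⟩
  · obtain ⟨β, rfl⟩ := hg f
    exact (hst β).2.2.2.2.2.1.mono (hu β) (hv β)
  · obtain ⟨β, rfl⟩ := hg f
    exact (hst β).2.2.2.2.2.2.mono (hv β) (hu β)

end Pool.Agent.V11243.RKPair
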