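import Pool.Agent.Y128.WD.Sharp

/-!
# One colouring for many trees

A version for families of at most `2 ^ ℵ₀` trees of the theorem on weak diamonds and
uniformizations along trees proved in `Pool.Agent.Y128.WD.Main`.
-/

set_option autoImplicit false

open Set Function

namespace Pool.Agent.V11243.TreeWD

open Pool.Agent.Y128.WD

variable {κ : Cardinal.{0}}

theorem mk_prod_fun_le (hκ : Cardinal.aleph0 ≤ κ) {I K V : Type} (hI : Cardinal.mk I ≤ 2 ^ κ)
    (hK : Cardinal.mk K = κ) (hV : Cardinal.mk V ≤ 2 ^ κ) :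
    Cardinal.mk (I × (K → Option V)) ≤ 2 ^ κ := by
  have h4 : Cardinal.aleph0.{0} ≤ 2 ^ κ := hκ.trans (Cardinal.cantor _).le
  rw [Cardinal.mk_prod, Cardinal.lift_id, Cardinal.lift_id]
  exact (mul_le_mul' hI (mk_fun_le hκ hK hV)).trans (Cardinal.mul_eq_self h4).le

/-- **Family version.** Let `T i`, `i : I`, be at most `2 ^ κ` trees with levels of size at most `κ`
and let `D i` be decoding rules. If the weak diamond holds for `E` then there is one colouring `g`
such that for all `i`, every tall `S ⊆ T i` and every `φ`, which decodes `g` correctly on `S` at the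
heights in `E` outside a nonstationary set, the minimal nodes outside `S` have stationarily many
heights in `E`. -/
theorem family (hκ : Cardinal.aleph0 ≤ κ) {E : Set (W κ)}
    (hE : WeakDiamond κ E) {I : Type} (hI : Cardinal.mk I ≤ 2 ^ κ) (T : I → Type)
    [∀ i, PartialOrder (T i)] [∀ i, IsTree (T i)] (hT : ∀ i, LevelsLE κ (T i)) (V : Type)
    (hV : Cardinal.mk V ≤ 2 ^ κ) (D : ∀ i, (s : T i) → ({u : T i // u < s} → V) → Bool) :
    ∃ g : W κ → Bool, ∀ (i : I) (S : Set (T i)) (φ : T i → V), IsTall κ S →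
      ¬ IsStationary {δ : W κ | δ ∈ E ∧ ∃ s ∈ S, ht s = δ.1 ∧ D i s (fun u => φ u.1) ≠ g δ} →
      IsStationary {δ : W κ | δ ∈ E ∧ ∃ a, (a ∉ S ∧ ∀ u < a, u ∈ S) ∧ ht a = δ.1} := by
  classical
  have := noMaxOrder hκ
  have := nonempty_W hκ
  obtain ⟨K, hK⟩ : ∃ K : Type, Cardinal.mk K = κ := ⟨κ.out, Cardinal.mk_out κ⟩
  by_cases hne : ∃ i : I, Nonempty (T i)
  swap
  · refine ⟨fun _ => true, fun i S φ hS => ?_⟩
    exfalso
    obtain ⟨t, -, -⟩ := hS.tall (Classical.arbitrary _)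
    exact hne ⟨i, ⟨t⟩⟩
  obtain ⟨i0, t0⟩ := hne
  by_cases hVne : Nonempty V
  swap
  · refine ⟨fun _ => true, fun i S φ hS => ?_⟩
    exfalso
    obtain ⟨t, -, -⟩ := hS.tall (Classical.arbitrary _)
    exact hVne ⟨φ t⟩
  obtain ⟨v0⟩ := hVne
  have hlev : ∀ (i : I) (α : Ordinal.{0}), Nonempty ({t : T i // ht t = α} ↪ K) := fun i α => by
    rw [← Cardinal.le_def, hK]
    exact hT i α
  let e : ∀ (i : I) (α : Ordinal.{0}), {t : T i // ht t = α} ↪ K := fun i α => (hlev i α).some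
  let code : ∀ i, T i → K := fun i t => e i (ht t) ⟨t, rfl⟩
  have hcode : ∀ (i : I) (t t' : T i), ht t = ht t' → code i t = code i t' → t = t' := by
    intro i t t' h1 h2
    have h3 : ∀ (α : Ordinal.{0}) (h : ht t' = α), e i (ht t') ⟨t', rfl⟩ = e i α ⟨t', h⟩ := by
      rintro _ rfl
      rfl
    have h4 : e i (ht t) ⟨t, rfl⟩ = e i (ht t) ⟨t', h1.symm⟩ := by
      rw [← h3 (ht t) h1.symm]
      exact h2
    exact congrArg Subtype.val ((e i (ht t)).injective h4)
  let idx : (δ : W κ) → ({β : W κ // β < δ} → I × (K → Option V)) → I := fun δ H =>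
    if h : Nonempty {β : W κ // β < δ} then (H h.some).1 else i0
  let G : (δ : W κ) → ({β : W κ // β < δ} → I × (K → Option V)) → ∀ i, T i → Option V :=
    fun δ H i t =>
      if h : ht t < δ.1 then (H ⟨⟨ht t, lt_trans h δ.2⟩, h⟩).2 (code i t) else none
  let good : (δ : W κ) → ({β : W κ // β < δ} → I × (K → Option V)) → ∀ i, T i → Prop :=
    fun δ H i s => ht s = δ.1 ∧ ∀ u < s, (G δ H i u).isSome = true
  let F : (δ : W κ) → ({β : W κ // β < δ} → I × (K → Option V)) → Bool := fun δ H =>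
    if hx : ∃ s, good δ H (idx δ H) s then
      !D (idx δ H) hx.choose (fun u => (G δ H (idx δ H) u.1).getD v0) else true
  obtain ⟨g, hg⟩ := hE (I × (K → Option V)) (mk_prod_fun_le hκ hI hK hV) F
  refine ⟨g, fun i S φ hS hbad => ?_⟩
  rw [not_isStationary_iff] at hbad
  obtain ⟨C0, hC0, hdisj⟩ := hbad
  let h : W κ → I × (K → Option V) := fun β => (i, fun k =>
    if hh : ∃ t : T i, t ∈ S ∧ ht t = β.1 ∧ code i t = k then some (φ hh.choose) else none)
  have hG : ∀ (δ : W κ) (t : T i), ht t < δ.1 →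
      G δ (fun β => h β.1) i t = if t ∈ S then some (φ t) else none := by
    intro δ t ht1
    show (if h' : ht t < δ.1 then (h ⟨ht t, lt_trans h' δ.2⟩).2 (code i t) else none) = _
    rw [dif_pos ht1]
    show (if hh : ∃ t' : T i, t' ∈ S ∧ ht t' = ht t ∧ code i t' = code i t then
      some (φ hh.choose) else none) = _
    by_cases htS : t ∈ S
    · have hh : ∃ t' : T i, t' ∈ S ∧ ht t' = ht t ∧ code i t' = code i t := ⟨t, htS, rfl, rfl⟩
      rw [dif_pos hh, if_pos htS]
      have h5 := hh.choose_spec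
      rw [hcode i _ _ h5.2.1 h5.2.2]
    · have hh : ¬ ∃ t' : T i, t' ∈ S ∧ ht t' = ht t ∧ code i t' = code i t := by
        rintro ⟨t', h1, h2, h3⟩
        exact htS (hcode i _ _ h2 h3 ▸ h1)
      rw [dif_neg hh, if_neg htS]
  intro C hC
  obtain ⟨β0, -⟩ : ∃ β0 : W κ, True := ⟨Classical.arbitrary _, trivial⟩
  obtain ⟨δ, ⟨hδE, hδg⟩, hδC⟩ := hg h ((hC.inter (aleph0_lt_cof hκ).ne' hC0).inter
    (aleph0_lt_cof hκ).ne' (isClub_Ioi hκ β0))
  refine ⟨δ, ⟨hδE, ?_⟩, hδC.1.1⟩
  have hidx : idx δ (fun β => h β.1) = i := by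
    have hn : Nonempty {β : W κ // β < δ} := ⟨⟨β0, hδC.2⟩⟩
    show (if h' : Nonempty {β : W κ // β < δ} then (h (h'.some).1).1 else i0) = i
    rw [dif_pos hn]
  have hFval : F δ (fun β => h β.1) =
      if hx : ∃ s, good δ (fun β => h β.1) i s then
        !D i hx.choose (fun u => (G δ (fun β => h β.1) i u.1).getD v0) else true := by
    show (if hx : ∃ s, good δ (fun β => h β.1) (idx δ (fun β => h β.1)) s then
      !D (idx δ (fun β => h β.1)) hx.choose
        (fun u => (G δ (fun β => h β.1) (idx δ (fun β => h β.1)) u.1).getD v0) else true) = _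
    rw [hidx]
  have hex : ∃ s, good δ (fun β => h β.1) i s := by
    obtain ⟨t, htS, hδt⟩ := hS.tall δ
    obtain ⟨s, hst, hs⟩ := exists_ht_le hδt
    refine ⟨s, hs, fun u hu => ?_⟩
    rw [hG δ u (hs ▸ ht_lt hu), if_pos (hS.lower t htS u (hu.le.trans hst))]
    rfl
  rw [dif_pos hex] at hFval
  have hp : good δ (fun β => h β.1) i hex.choose := hex.choose_spec
  obtain ⟨p, hpdef⟩ : ∃ p, p = hex.choose := ⟨_, rfl⟩
  rw [← hpdef] at hp hFval
  have hpS : ∀ u < p, u ∈ S := by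
    intro u hu
    have h6 := hp.2 u hu
    rw [hG δ u (hp.1 ▸ ht_lt hu)] at h6
    by_contra hc
    rw [if_neg hc] at h6
    simp at h6
  refine ⟨p, ⟨fun hpS' => ?_, hpS⟩, hp.1⟩
  have h7 : ¬ (δ ∈ E ∧ ∃ s ∈ S, ht s = δ.1 ∧ D i s (fun u => φ u.1) ≠ g δ) := fun hc =>
    (Set.disjoint_left.1 hdisj) hc hδC.1.2
  have h8 : D i p (fun u => φ u.1) = g δ := by
    by_contra hc
    exact h7 ⟨hδE, p, hpS', hp.1, hc⟩
  have h9 : F δ (fun β => h β.1) = !D i p (fun u => φ u.1) := by
    rw [hFval]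
    have : (fun u : {u : T i // u < p} => (G δ (fun β => h β.1) i u.1).getD v0) =
        fun u => φ u.1 := by
      funext u
      rw [hG δ u.1 (hp.1 ▸ ht_lt u.2), if_pos (hpS u.1 u.2)]
      rfl
    rw [this]
  rw [h9, h8] at hδg
  cases h10 : g δ <;> simp [h10] at hδg

end Pool.Agent.V11243.TreeWD
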