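import Pool.Agent.V11243.WUniv

/-! More machines on Baire space. -/

namespace Pool.Agent.V11243.WUniv

open Pool.Agent.H190R3.Wei

/-- the shifted sequence -/
def sh (k : ℕ) (u : ℕ → ℕ) : ℕ → ℕ := fun n => u (k + n)

/-- the word without its first `k` letters -/
def dp (k : ℕ) (σ : List ℕ) : List ℕ := (List.range (σ.length - k)).map (fun i => σ.getD (k + i) 0)

theorem dp_init (u : ℕ → ℕ) (k m : ℕ) : dp k (init u m) = init (sh k u) (m - k) := by
  unfold dp
  rw [length_init]
  unfold init
  apply List.map_congr_left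
  intro i hi
  have := init_getD u m (k + i) 0 (by have := List.mem_range.1 hi; omega)
  unfold init at this
  rw [this]; rfl

theorem dp_mono (k : ℕ) {a b : List ℕ} (h : a <+: b) : dp k a <+: dp k b := by
  refine builder_mono (ℓ := fun σ => σ.length - k) (e := fun σ i => σ.getD (k + i) 0) ?_ ?_ a b h
  · intro a b h; have := h.length_le; omega
  · intro a b h i hi; exact getD_of_isPrefix h _ _ (by omega)

theorem primrec_dp : Primrec₂ dp := by
  refine Primrec.list_map (Primrec.list_range.comp ?_) ?_
  · exact Primrec.nat_sub.comp (Primrec.list_length.comp Primrec.snd) Primrec.fst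
  · exact (Primrec.list_getD 0).comp (Primrec.snd.comp Primrec.fst)
      (Primrec.nat_add.comp (Primrec.fst.comp Primrec.fst) Primrec.snd)

theorem isMachine_dp (k : ℕ) : IsMachine (dp k) :=
  ⟨(primrec_dp.comp (Primrec.const k) Primrec.id).to_comp, fun _ _ h => dp_mono k h⟩

theorem maps_dp (k : ℕ) (u : ℕ → ℕ) : Maps (dp k) u (sh k u) :=
  ⟨fun m => by rw [dp_init, length_init], fun n => ⟨n + k, by rw [dp_init, length_init]; omega⟩⟩

/-- drop as many letters as the first letter says, and `c` more -/
def dpH (c : ℕ) (σ : List ℕ) : List ℕ := dp (σ.getD 0 0 + c) σ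

theorem isMachine_dpH (c : ℕ) : IsMachine (dpH c) := by
  refine ⟨?_, fun a b h => ?_⟩
  · exact (primrec_dp.comp (Primrec.nat_add.comp ((Primrec.list_getD 0).comp Primrec.id
      (Primrec.const 0)) (Primrec.const c)) Primrec.id).to_comp
  · cases a with
    | nil => exact ⟨dpH c b, by simp [dpH, dp]⟩
    | cons x l =>
      have h0 : (x :: l).getD 0 0 = b.getD 0 0 := getD_of_isPrefix h 0 0 (by simp)
      unfold dpH
      rw [← h0]
      exact dp_mono _ h

theorem maps_dpH (c : ℕ) (u : ℕ → ℕ) : Maps (dpH c) u (sh (u 0 + c) u) := by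
  have key : ∀ m, 0 < m → dpH c (init u m) = init (sh (u 0 + c) u) (m - (u 0 + c)) := by
    intro m hm
    unfold dpH
    rw [init_getD u m 0 0 hm, dp_init]
  refine ⟨fun m => ?_, fun n => ⟨n + (u 0 + c) + 1, ?_⟩⟩
  · rcases Nat.eq_zero_or_pos m with rfl | hm
    · simp [dpH, dp, init]
    · rw [key m hm, length_init]
  · rw [key _ (by omega), length_init]; omega

/-- the first letter of `α`, followed by `β` -/
def consM (α β : List ℕ → List ℕ) (σ : List ℕ) : List ℕ :=
  if (α σ).length = 0 then [] else (α σ).getD 0 0 :: β σ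

theorem isMachine_consM {α β : List ℕ → List ℕ} (hα : IsMachine α) (hβ : IsMachine β) :
    IsMachine (consM α β) := by
  refine ⟨?_, fun a b h => ?_⟩
  · have hc : Computable (fun σ : List ℕ => decide ((α σ).length = 0)) :=
      (PrimrecPred.decide (Primrec.eq (α := ℕ)) |>.to_comp).comp
        ((Primrec.list_length.to_comp.comp hα.comp).pair (Computable.const 0))
    have h1 : Computable (fun σ : List ℕ => (α σ).getD 0 0) :=
      ((Primrec.list_getD 0).to_comp).comp hα.comp (Computable.const 0)
    have h2 : Computable (fun σ : List ℕ => (α σ).getD 0 0 :: β σ) :=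
      (Primrec.list_cons.to_comp).comp h1 hβ.comp
    refine (Computable.cond hc (Computable.const ([] : List ℕ)) h2).of_eq ?_
    intro σ
    unfold consM
    by_cases h : (α σ).length = 0 <;> simp [h]
  · have h1 := hα.mono _ _ h
    unfold consM
    by_cases h2 : (α a).length = 0
    · rw [if_pos h2]; exact List.nil_prefix
    · have h3 : (α b).length ≠ 0 := by have := h1.length_le; omega
      rw [if_neg h2, if_neg h3, getD_of_isPrefix h1 0 0 (by omega)]
      obtain ⟨t, ht⟩ := hβ.mono _ _ h
      exact ⟨t, by simp [ht]⟩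

theorem maps_consM {α β : List ℕ → List ℕ} (hα : IsMachine α) (hβ : IsMachine β) {x y : ℕ → ℕ}
    {d m : ℕ} (hm : 0 < (α (init x m)).length) (hd : (α (init x m)).getD 0 0 = d)
    (h : Maps β x y) : Maps (consM α β) x (tag d y) := by
  have key : ∀ n, 0 < (α (init x n)).length → (α (init x n)).getD 0 0 = d := by
    intro n hn
    rcases le_total n m with hnm | hnm
    · rw [getD_of_isPrefix (hα.mono _ _ (init_prefix_iff_le (x := x) hnm)) 0 0 hn, hd]
    · rw [← getD_of_isPrefix (hα.mono _ _ (init_prefix_iff_le (x := x) hnm)) 0 0 hm, hd]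
  refine ⟨fun n => ?_, fun n => ?_⟩
  · unfold consM
    split_ifs with h1
    · rfl
    · rw [key n (by omega), List.length_cons, init_tag, ← h.1 n]
  · obtain ⟨k, hk⟩ := h.2 n
    refine ⟨max k m, ?_⟩
    have h1 := (hα.mono _ _ (init_prefix_iff_le (x := x) (le_max_right k m))).length_le
    have h2 := (hβ.mono _ _ (init_prefix_iff_le (x := x) (le_max_left k m))).length_le
    unfold consM
    rw [if_neg (by omega), List.length_cons]
    omega

/-- the word with the single letter `f σ`, as soon as `σ` has `j` letters -/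
def alp (j : ℕ) (f : List ℕ → ℕ) (σ : List ℕ) : List ℕ := if j ≤ σ.length then [f σ] else []

theorem isMachine_alp {j : ℕ} {f : List ℕ → ℕ} (hf : Primrec f)
    (hs : ∀ a b, a <+: b → j ≤ a.length → f a = f b) : IsMachine (alp j f) := by
  refine ⟨Primrec.to_comp ?_, fun a b h => ?_⟩
  · refine Primrec.ite ?_ ?_ (Primrec.const _)
    · exact Primrec.nat_le.comp (Primrec.const j) Primrec.list_length
    · exact Primrec.list_cons.comp hf (Primrec.const [])
  · unfold alp
    split_ifs with h1 h2
    · rw [hs a b h h1]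
    · exact absurd (h1.trans h.length_le) h2
    · exact List.nil_prefix
    · exact List.prefix_rfl

theorem maps_cons_alp {j : ℕ} {f : List ℕ → ℕ} (hf : Primrec f)
    (hs : ∀ a b, a <+: b → j ≤ a.length → f a = f b) {β : List ℕ → List ℕ} (hβ : IsMachine β)
    {x y : ℕ → ℕ} (h : Maps β x y) : Maps (consM (alp j f) β) x (tag (f (init x j)) y) := by
  refine maps_consM (isMachine_alp hf hs) hβ (m := j) ?_ ?_ h
  · simp [alp]
  · simp [alp]

/-- `k` zeros followed by `y` -/
def wz : ℕ → (ℕ → ℕ) → ℕ → ℕ
  | 0, y => y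
  | k + 1, y => tag 0 (wz k y)

theorem wz_lt {k : ℕ} {y : ℕ → ℕ} {n : ℕ} (h : n < k) : wz k y n = 0 := by
  induction k generalizing n with
  | zero => omega
  | succ k ih =>
    show tag 0 (wz k y) n = 0
    unfold tag
    split_ifs with h0
    · rfl
    · exact ih (by omega)

theorem wz_inj {k k' c c' : ℕ} {y y' : ℕ → ℕ}
    (h : wz k (tag (c + 1) y) = wz k' (tag (c' + 1) y')) : k = k' ∧ c = c' ∧ y = y' := by
  induction k generalizing k' with
  | zero =>
    cases k' with
    | zero =>
      have h0 := congrFun h 0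
      refine ⟨rfl, ?_, ?_⟩
      · simp only [wz, tag, if_true] at h0; omega
      · funext n
        have := congrFun h (n + 1)
        simpa [wz, tag] using this
    | succ k' =>
      exfalso
      have h0 := congrFun h 0
      simp [wz, tag] at h0
  | succ k ih =>
    cases k' with
    | zero =>
      exfalso
      have h0 := congrFun h 0
      simp [wz, tag] at h0
    | succ k' =>
      have h1 : wz k (tag (c + 1) y) = wz k' (tag (c' + 1) y') := by
        funext n
        have := congrFun h (n + 1)
        simpa [wz, tag] using this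
      obtain ⟨h2, h3, h4⟩ := ih h1
      exact ⟨by rw [h2], h3, h4⟩

/-- the machine that puts `k` zeros in front of `α` -/
def wzM : ℕ → (List ℕ → List ℕ) → List ℕ → List ℕ
  | 0, α => α
  | k + 1, α => fun σ => 0 :: wzM k α σ

theorem isMachine_wzM {α : List ℕ → List ℕ} (hα : IsMachine α) (k : ℕ) : IsMachine (wzM k α) := by
  induction k with
  | zero => exact hα
  | succ k ih => exact isMachine_cons 0 ih

theorem maps_wzM {α : List ℕ → List ℕ} {x y : ℕ → ℕ} (h : Maps α x y) (k : ℕ) :
    Maps (wzM k α) x (wz k y) := by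
  induction k with
  | zero => exact h
  | succ k ih => exact maps_cons 0 ih

/-- the first letter becomes `0` or the second letter plus one -/
def thf (σ : List ℕ) : ℕ := if σ.getD 0 0 = 0 then 0 else σ.getD 1 0 + 1

theorem primrec_thf : Primrec thf := by
  refine Primrec.ite ?_ (Primrec.const 0) ?_
  · exact Primrec.eq.comp ((Primrec.list_getD 0).comp Primrec.id (Primrec.const 0))
      (Primrec.const 0)
  · exact Primrec.succ.comp ((Primrec.list_getD 0).comp Primrec.id (Primrec.const 1))

theorem thf_stable (a b : List ℕ) (h : a <+: b) (h2 : 2 ≤ a.length) : thf a = thf b := by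
  unfold thf
  rw [getD_of_isPrefix h 0 0 (by omega), getD_of_isPrefix h 1 0 (by omega)]

/-- `v` itself if it starts with `0`, else `v` with first value replaced by `v 1 + 1` -/
def th (v : ℕ → ℕ) : ℕ → ℕ := tag (if v 0 = 0 then 0 else v 1 + 1) (sh 1 v)

def thM : List ℕ → List ℕ := consM (alp 2 thf) (dp 1)

theorem isMachine_thM : IsMachine thM :=
  isMachine_consM (isMachine_alp primrec_thf thf_stable) (isMachine_dp 1)

theorem maps_thM (v : ℕ → ℕ) : Maps thM v (th v) := by
  have := maps_cons_alp primrec_thf thf_stable (isMachine_dp 1) (maps_dp 1 v)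
  have e : thf (init v 2) = if v 0 = 0 then 0 else v 1 + 1 := by
    unfold thf
    rw [init_getD v 2 0 0 (by omega), init_getD v 2 1 0 (by omega)]
  rw [e] at this
  exact this

/-- the machine `y ↦ (y i + 1) y` -/
def hdM (i : ℕ) : List ℕ → List ℕ := consM (alp (i + 1) (fun σ => σ.getD i 0 + 1)) (fun σ => σ)

theorem hd_prim (i : ℕ) : Primrec (fun σ : List ℕ => σ.getD i 0 + 1) :=
  Primrec.succ.comp ((Primrec.list_getD 0).comp Primrec.id (Primrec.const i))

theorem hd_stable (i : ℕ) (a b : List ℕ) (h : a <+: b) (h2 : i + 1 ≤ a.length) :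
    a.getD i 0 + 1 = b.getD i 0 + 1 := by
  rw [getD_of_isPrefix h i 0 (by omega)]

theorem isMachine_hdM (i : ℕ) : IsMachine (hdM i) :=
  isMachine_consM (isMachine_alp (hd_prim i) (hd_stable i)) isMachine_id

theorem maps_hdM (i : ℕ) (y : ℕ → ℕ) : Maps (hdM i) y (tag (y i + 1) y) := by
  have := maps_cons_alp (hd_prim i) (hd_stable i) isMachine_id (maps_id y)
  rw [init_getD y (i + 1) i 0 (by omega)] at this
  exact this

/-- the pair of instances made from `y` -/
def P (k : ℕ) (y : ℕ → ℕ) : ℕ → ℕ := pair (wz k (tag (y 0 + 1) y)) (wz k (tag (y 1 + 1) y))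

def PM (k : ℕ) (σ : List ℕ) : List ℕ := pr (wzM k (hdM 0) σ) (wzM k (hdM 1) σ)

theorem isMachine_PM (k : ℕ) : IsMachine (PM k) :=
  (isMachine_wzM (isMachine_hdM 0) k).pr (isMachine_wzM (isMachine_hdM 1) k)

theorem maps_PM (k : ℕ) (y : ℕ → ℕ) : Maps (PM k) y (P k y) :=
  Maps.pr (isMachine_wzM (isMachine_hdM 0) k) (isMachine_wzM (isMachine_hdM 1) k)
    (maps_wzM (maps_hdM 0 y) k) (maps_wzM (maps_hdM 1 y) k)

/-- number of leading zeros -/
def lz (σ : List ℕ) : ℕ := σ.findIdx (fun n => decide (n ≠ 0))

theorem primrec_lz : Primrec lz := by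
  refine Primrec.list_findIdx Primrec.id ?_
  exact ((PrimrecPred.decide (Primrec.eq.comp Primrec.snd (Primrec.const 0)).not) :
    Primrec₂ (fun (_ : List ℕ) (n : ℕ) => decide (¬ n = 0)))

theorem lz_eq_of_prefix {a b : List ℕ} (h : a <+: b) (hl : lz a < a.length) : lz b = lz a := by
  obtain ⟨t, rfl⟩ := h
  unfold lz at *
  rw [List.findIdx_append]
  rw [if_pos hl]

theorem lz_wz {k c : ℕ} {y : ℕ → ℕ} {m : ℕ} (hm : k < m) :
    lz (init (wz k (tag (c + 1) y)) m) = k := by
  induction k generalizing m with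
  | zero =>
    obtain ⟨m, rfl⟩ : ∃ m', m = m' + 1 := ⟨m - 1, by omega⟩
    show lz (init (tag (c + 1) y) (m + 1)) = 0
    rw [init_tag]
    simp [lz, List.findIdx_cons]
  | succ k ih =>
    obtain ⟨m, rfl⟩ : ∃ m', m = m' + 1 := ⟨m - 1, by omega⟩
    show lz (init (tag 0 (wz k (tag (c + 1) y))) (m + 1)) = k + 1
    rw [init_tag]
    have := ih (m := m) (by omega)
    unfold lz at this ⊢
    rw [List.findIdx_cons]
    simp only [ne_eq, not_true_eq_false, decide_false, cond_false]
    simp only [ne_eq] at this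
    rw [this]

end Pool.Agent.V11243.WUniv
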