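import Pool.Agent.V11243.WProb

/-! The main argument: if the meet of the jumps reduces to the totalization of a problem below the
meet, then the two problems are comparable. -/

namespace Pool.Agent.V11243.WUniv

open Pool.Agent.H190R3.Wei

theorem run_zero {S : Type} (h : List ℕ → ℕ → S → S) (s : S) (y : ℕ → ℕ) :
    run h s (init y 0) = s := rfl

theorem run_succ {S : Type} (h : List ℕ → ℕ → S → S) (s : S) (y : ℕ → ℕ) (n : ℕ) :
    run h s (init y (n + 1)) = h (init y n) n (run h s (init y n)) := by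
  have h1 := run_aux h s (init_prefix_iff_le (x := y) (Nat.le_succ n)) n (by simp)
  have h2 : run h s (init y (n + 1)) = h (tk (init y (n + 1)) n) n
      (Nat.rec s (fun t c => h (tk (init y (n + 1)) t) t c) n) := by
    unfold run
    rw [length_init]
  rw [h2, h1, tk_init y (Nat.le_succ n)]
  congr 1
  unfold run
  rw [length_init]

theorem computable_run {h : List ℕ → ℕ → List ℕ → List ℕ}
    (hh : Computable (fun q : List ℕ × ℕ × List ℕ => h q.1 q.2.1 q.2.2)) (s : List ℕ) :
    Computable (run h s) := by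
  have h2 : Computable₂ (fun (σ : List ℕ) (r : ℕ × List ℕ) => h (tk σ r.1) r.1 r.2) := by
    have := hh.comp ((primrec_tk.to_comp.comp Computable.fst
      (Computable.fst.comp Computable.snd)).pair (Computable.snd (α := List ℕ) (β := ℕ × List ℕ)))
    exact this
  exact Computable.nat_rec (σ := List ℕ) (f := fun σ : List ℕ => σ.length) (g := fun _ => s)
    (Primrec.list_length.to_comp) (Computable.const s) h2

/-- the answer found by `Ψ` at stage `t`, if there is one -/
def good (Ψ : List ℕ → List ℕ) (k : ℕ) (τ : List ℕ) (t : ℕ) : List ℕ :=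
  if 2 ≤ (Ψ (pr (PM k τ) ((Encodable.decode (α := List ℕ) t.unpair.1).getD []))).length ∧
    (Ψ (pr (PM k τ) ((Encodable.decode (α := List ℕ) t.unpair.1).getD []))).getD 0 1 = 0 then
    [(Ψ (pr (PM k τ) ((Encodable.decode (α := List ℕ) t.unpair.1).getD []))).getD 1 0 + 1] else []

/-- one step of the search -/
def SRs (Ψ : List ℕ → List ℕ) (k : ℕ) (τ : List ℕ) (t : ℕ) (cur : List ℕ) : List ℕ :=
  if cur.length = 0 then good Ψ k τ t else cur

/-- search for an answer -/
def SR (Ψ : List ℕ → List ℕ) (k : ℕ) : List ℕ → List ℕ := run (SRs Ψ k) []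

theorem computable_good {Ψ : List ℕ → List ℕ} (hΨ : Computable Ψ) (k : ℕ) :
    Computable (fun q : List ℕ × ℕ => good Ψ k q.1 q.2) := by
  have h0 : Computable (fun q : List ℕ × ℕ =>
      Ψ (pr (PM k q.1) ((Encodable.decode (α := List ℕ) q.2.unpair.1).getD []))) := by
    refine hΨ.comp (primrec_pr.to_comp.comp ((isMachine_PM k).comp.comp Computable.fst) ?_)
    exact Computable.option_getD (Computable.decode.comp (Computable.fst.comp
      (Primrec.unpair.to_comp.comp Computable.snd))) (Computable.const [])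
  have h1 : Primrec (fun v : List ℕ => if 2 ≤ v.length ∧ v.getD 0 1 = 0 then [v.getD 1 0 + 1]
      else []) := by
    refine Primrec.ite ?_ ?_ (Primrec.const _)
    · exact (Primrec.nat_le.comp (Primrec.const 2) Primrec.list_length).and
        (Primrec.eq.comp ((Primrec.list_getD 1).comp Primrec.id (Primrec.const 0))
          (Primrec.const 0))
    · exact Primrec.list_cons.comp (Primrec.succ.comp
        ((Primrec.list_getD 0).comp Primrec.id (Primrec.const 1))) (Primrec.const [])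
  exact h1.to_comp.comp h0

attribute [local irreducible] good in
theorem computable_SRs {Ψ : List ℕ → List ℕ} (hΨ : Computable Ψ) (k : ℕ) :
    Computable (fun q : List ℕ × ℕ × List ℕ => SRs Ψ k q.1 q.2.1 q.2.2) := by
  have hpair : Computable (fun q : List ℕ × ℕ × List ℕ => (q.1, q.2.1)) :=
    Computable.fst.pair (Computable.fst.comp Computable.snd)
  have hg : Computable (fun q : List ℕ × ℕ × List ℕ => good Ψ k q.1 q.2.1) :=
    Computable.comp (f := fun q : List ℕ × ℕ => good Ψ k q.1 q.2) (computable_good hΨ k) hpair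
  have h0 : Primrec (fun c : List ℕ => decide (c.length = 0)) :=
    PrimrecPred.decide (Primrec.eq.comp Primrec.list_length (Primrec.const 0))
  have h1 : Computable (fun q : List ℕ × ℕ × List ℕ => q.2.2) :=
    Computable.snd.comp Computable.snd
  have hc : Computable (fun q : List ℕ × ℕ × List ℕ => decide (q.2.2.length = 0)) :=
    h0.to_comp.comp h1
  refine (Computable.cond hc hg h1).of_eq ?_
  intro q
  unfold SRs
  by_cases h : q.2.2.length = 0
  · rw [if_pos h, decide_eq_true h, cond_true]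
  · rw [if_neg h, decide_eq_false h, cond_false]

theorem SRs_mono (Ψ : List ℕ → List ℕ) (k : ℕ) (τ : List ℕ) (t : ℕ) (c : List ℕ) :
    c <+: SRs Ψ k τ t c := by
  unfold SRs
  split_ifs with h
  · rw [List.eq_nil_of_length_eq_zero h]; exact List.nil_prefix
  · exact List.prefix_rfl

theorem isMachine_SR {Ψ : List ℕ → List ℕ} (hΨ : IsMachine Ψ) (k : ℕ) : IsMachine (SR Ψ k) :=
  ⟨computable_run (computable_SRs hΨ.comp k) [], fun _ _ h =>
    run_mono (R := fun a b => a <+: b) (fun _ => List.prefix_rfl)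
      (fun _ _ _ h1 h2 => h1.trans h2) (SRs_mono Ψ k) h⟩

theorem SR_succ (Ψ : List ℕ → List ℕ) (k : ℕ) (y : ℕ → ℕ) (n : ℕ) : SR Ψ k (init y (n + 1)) =
    if (SR Ψ k (init y n)).length = 0 then good Ψ k (init y n) n else SR Ψ k (init y n) :=
  run_succ _ _ y n

theorem SR_found {Ψ : List ℕ → List ℕ} {k : ℕ} {y : ℕ → ℕ} {n : ℕ}
    (h : 0 < (SR Ψ k (init y n)).length) :
    ∃ t, 0 < (good Ψ k (init y t) t).length ∧ SR Ψ k (init y n) = good Ψ k (init y t) t := by
  induction n with
  | zero => exact absurd h (by simp [SR, run_zero])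
  | succ n ih =>
    rw [SR_succ] at h ⊢
    split_ifs at h ⊢ with h1
    · exact ⟨n, h, rfl⟩
    · exact ih h

/-- what a successful search says -/
theorem good_spec {Ψ : List ℕ → List ℕ} {k : ℕ} {y : ℕ → ℕ} {t : ℕ}
    (h : 0 < (good Ψ k (init y t) t).length) : ∃ r : ℕ → ℕ, ∀ v, Maps Ψ (pair (P k y) r) v →
    v 0 = 0 ∧ (good Ψ k (init y t) t).getD 0 0 = v 1 + 1 := by
  have hp := maps_PM k y
  refine ⟨fun n => ((Encodable.decode (α := List ℕ) t.unpair.1).getD []).getD n 0, fun v hv => ?_⟩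
  set ρ := (Encodable.decode (α := List ℕ) t.unpair.1).getD [] with hρ
  have hρ' : ρ = init (fun n => ρ.getD n 0) ρ.length := by
    unfold init
    apply List.ext_getElem
    · simp
    · intro i h1 h2
      simp [List.getD, List.getElem?_eq_getElem h1]
  have hΨ : Ψ (pr (PM k (init y t)) ρ) =
      init v (Ψ (pr (PM k (init y t)) ρ)).length := by
    have e : pr (PM k (init y t)) ρ = init (pair (P k y) (fun n => ρ.getD n 0))
        (2 * min (PM k (init y t)).length ρ.length) := by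
      conv_lhs => rw [hp.1 t, hρ']
      exact pr_init _ _ _ _
    rw [e]
    exact hv.1 _
  unfold good at h ⊢
  rw [← hρ] at h ⊢
  split_ifs at h ⊢ with h1
  · rw [hΨ, length_init, init_getD _ _ _ _ (by omega)] at h1
    refine ⟨h1.2, ?_⟩
    rw [hΨ, init_getD _ _ _ _ (by omega)]
    simp
  · simp at h

theorem SR_complete {Ψ : List ℕ → List ℕ} (hΨ : IsMachine Ψ) {k : ℕ} {y r v : ℕ → ℕ}
    (hv : Maps Ψ (pair (P k y) r) v) (h0 : v 0 = 0) : ∃ n, 0 < (SR Ψ k (init y n)).length := by
  have hp := maps_PM k y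
  obtain ⟨m, hm⟩ := hv.2 2
  obtain ⟨t0, ht0⟩ := hp.2 m
  set t := Nat.pair (Encodable.encode (init r m)) t0 with ht
  have htt : t0 ≤ t := Nat.right_le_pair _ _
  have hlen : m ≤ (PM k (init y t)).length :=
    ht0.trans ((isMachine_PM k).mono _ _ (init_prefix_iff_le htt)).length_le
  by_cases hs : 0 < (SR Ψ k (init y t)).length
  · exact ⟨t, hs⟩
  refine ⟨t + 1, ?_⟩
  rw [SR_succ, if_pos (by omega)]
  have e : pr (PM k (init y t)) (init r m) = init (pair (P k y) r) (2 * m) := by
    rw [hp.1 t, pr_init, Nat.min_eq_right hlen]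
  have h2 : 2 ≤ (Ψ (init (pair (P k y) r) (2 * m))).length :=
    hm.trans (hΨ.mono _ _ (init_prefix_iff_le (by omega))).length_le
  have h3 : (Ψ (init (pair (P k y) r) (2 * m))).getD 0 1 = 0 := by
    rw [hv.1, init_getD _ _ _ _ (by omega), h0]
  unfold good
  rw [ht, Nat.unpair_pair, ← ht]
  simp only [Encodable.encodek, Option.getD_some]
  rw [e, if_pos ⟨h2, h3⟩]
  simp

theorem mem_meet {f g : Problem} {q1 q2 w : ℕ → ℕ} (h1 : (f.sol q1).Nonempty)
    (h2 : (g.sol q2).Nonempty) : w ∈ (meet f g).sol (pair q1 q2) ↔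
      ((∃ z ∈ f.sol q1, w = tag 0 z) ∨ ∃ z ∈ g.sol q2, w = tag 1 z) := by
  show ((f.sol (left (pair q1 q2))).Nonempty ∧ (g.sol (right (pair q1 q2))).Nonempty ∧
      ((∃ z ∈ f.sol (left (pair q1 q2)), w = tag 0 z) ∨
        ∃ z ∈ g.sol (right (pair q1 q2)), w = tag 1 z)) ↔ _
  rw [left_pair, right_pair]
  exact ⟨fun h => h.2.2, fun h => ⟨h1, h2, h⟩⟩

theorem P_zero {k : ℕ} {y : ℕ → ℕ} {i : ℕ} (h : i < k) : P k y i = 0 := by
  unfold P pair
  split_ifs
  · exact wz_lt (by omega)
  · exact wz_lt (by omega)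

theorem half {f g h' : Problem} {Φ Ψ A B : List ℕ → List ℕ} (hΦ : IsMachine Φ)
    (hΨ : IsMachine Ψ) (hA : IsMachine A) (hB : IsMachine B)
    (r1 : Red Φ Ψ (meet (tot (uni f)) (tot (uni g))) (tot h')) (r2 : Red A B h' (meet f g))
    {r0 v0 : ℕ → ℕ} (hv0 : Maps Ψ (pair (fun _ => 0) r0) v0) (h0 : v0 0 = 0) : WLe f g := by
  obtain ⟨k, hk⟩ := hv0.2 1
  -- the machines and their codes
  have mTB : IsMachine (fun σ => thM (Ψ (pr (PM k (ev σ))
      (B (pr (Φ (PM k (ev σ))) (1 :: od σ)))))) := by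
    refine isMachine_thM.comp' (hΨ.comp' (((isMachine_PM k).comp' isMachine_ev).pr
      (hB.comp' ((hΦ.comp' ((isMachine_PM k).comp' isMachine_ev)).pr
        (isMachine_cons 1 isMachine_od)))))
  have mAM : IsMachine (fun σ => od (A (Φ (PM k σ)))) :=
    isMachine_od.comp' (hA.comp' (hΦ.comp' (isMachine_PM k)))
  have mSR := isMachine_SR hΨ k
  have mSE : IsMachine (fun σ => SR Ψ k (ev σ)) := mSR.comp' isMachine_ev
  obtain ⟨e1, he1⟩ := exists_code (isMachine_dp 2).comp
  obtain ⟨e2, he2⟩ := exists_code (isMachine_consM mSE isMachine_od).comp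
  obtain ⟨e3, he3⟩ := exists_code mAM.comp
  obtain ⟨e4, he4⟩ := exists_code mTB.comp
  set c1 := Nat.pair e1 e2 with hc1
  set c2 := Nat.pair e3 e4 with hc2
  have mY : IsMachine (fun σ => c1 :: c2 :: σ) := isMachine_cons _ (isMachine_cons _ isMachine_id)
  have mYp : IsMachine (fun σ => pr (c1 :: c2 :: ev σ) (od σ)) :=
    (isMachine_cons _ (isMachine_cons _ isMachine_ev)).pr isMachine_od
  refine ⟨fun σ => od (A (Φ (PM k (c1 :: c2 :: σ)))),
    fun σ => dpH 2 (thM (Ψ (pr (PM k (ev (pr (c1 :: c2 :: ev σ) (od σ))))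
      (B (pr (Φ (PM k (ev (pr (c1 :: c2 :: ev σ) (od σ)))))
        (1 :: od (pr (c1 :: c2 :: ev σ) (od σ)))))))), mAM.comp' mY,
    (isMachine_dpH 2).comp' (mTB.comp' mYp), fun x hx => ?_⟩
  set y : ℕ → ℕ := tag c1 (tag c2 x) with hy
  have hyM : Maps (fun σ => c1 :: c2 :: σ) x y := maps_cons _ (maps_cons _ (maps_id x))
  have hP := maps_PM k y
  set q1 := wz k (tag (c1 + 1) y) with hq1
  set q2 := wz k (tag (c2 + 1) y) with hq2
  have hPp : P k y = pair q1 q2 := rfl
  have hne1 := tot_nonempty (uni f) q1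
  have hne2 := tot_nonempty (uni g) q2
  have hKne : ((meet (tot (uni f)) (tot (uni g))).sol (P k y)).Nonempty := by
    obtain ⟨w, hw⟩ := id hne1
    exact ⟨tag 0 w, (mem_meet hne1 hne2).2 (Or.inl ⟨w, hw, rfl⟩)⟩
  obtain ⟨q, hq, -, hr⟩ := r1 (P k y) hKne
  -- the first instance when the search is successful
  have hfst : ∀ n, 0 < (SR Ψ k (init y n)).length → ∀ w, w ∈ (tot (uni f)).sol q1 →
      ∃ z ∈ f.sol x, w = tag ((SR Ψ k (init y n)).getD 0 0) z := by
    intro n hn w hw
    have hxm : Maps (U c1.unpair.1) y x := by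
      rw [hc1, Nat.unpair_pair]
      refine he1 _ _ ?_
      have := maps_dp 2 y
      have e : sh 2 y = x := by funext i; simp [sh, hy, tag]
      rwa [e] at this
    have hzm : ∀ z, Maps (U c1.unpair.2) (pair y z)
        (tag ((SR Ψ k (init y n)).getD 0 0) z) := by
      intro z
      rw [hc1, Nat.unpair_pair]
      refine he2 _ _ ?_
      have hev : ev (init (pair y z) (2 * n)) = init y n := by
        rw [ev_init]; congr 1; omega
      refine maps_consM mSE isMachine_od (m := 2 * n) ?_ ?_ (maps_od y z)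
      · rw [hev]; exact hn
      · rw [hev]
    have hsol := uni_sol (f := f) (k := k) hxm (fun z _ => ⟨_, hzm z⟩)
    have hne : ((uni f).sol q1).Nonempty := by
      obtain ⟨z, hz⟩ := hx
      exact ⟨_, (hsol _).2 ⟨z, hz, hzm z⟩⟩
    obtain ⟨z, hz, hz'⟩ := (hsol w).1 (hw hne)
    exact ⟨z, hz, Maps.unique hz' (hzm z)⟩
  -- the query is valid
  have hval : (h'.sol q).Nonempty := by
    by_contra hcon
    have huniv : ∀ r, r ∈ (tot h').sol q := fun r h => absurd h hcon
    obtain ⟨v, hv, hv'⟩ := hr r0 (huniv r0)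
    have hag : init (pair (P k y) r0) k = init (pair (fun _ => 0) r0) k := by
      unfold init
      apply List.map_congr_left
      intro i hi
      have hi' := List.mem_range.1 hi
      unfold pair
      split_ifs
      · exact P_zero (by omega)
      · rfl
    have hv00 : v 0 = 0 := by
      have h1 := hv'.1 k
      rw [hag] at h1
      have h2 := hv0.1 k
      have h3 := init_getD v _ 0 0 (show 0 < (Ψ (init (pair (fun _ => 0) r0) k)).length by omega)
      have h4 := init_getD v0 _ 0 0 (show 0 < (Ψ (init (pair (fun _ => 0) r0) k)).length by omega)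
      rw [← h1] at h3
      rw [← h2] at h4
      rw [← h3, h4, h0]
    obtain ⟨n, hn⟩ := SR_complete hΨ hv' hv00
    obtain ⟨t, ht, hSR⟩ := SR_found hn
    obtain ⟨r, hrr⟩ := good_spec ht
    obtain ⟨v2, hv2, hv2'⟩ := hr r (huniv r)
    obtain ⟨h5, h6⟩ := hrr v2 hv2'
    rcases (mem_meet hne1 hne2).1 hv2 with ⟨w, hw, rfl⟩ | ⟨w, hw, rfl⟩
    · obtain ⟨z, -, rfl⟩ := hfst n hn w hw
      have e1 : ∀ d, tag 0 (tag d z) 1 = d := fun d => by simp [tag]
      rw [e1, hSR] at h6
      omega
    · simp [tag] at h5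
  obtain ⟨a, ha, hane, hB'⟩ := r2 q hval
  obtain ⟨hfa, hga⟩ : (f.sol (left a)).Nonempty ∧ (g.sol (right a)).Nonempty := by
    obtain ⟨w, h1, h2, -⟩ := hane
    exact ⟨h1, h2⟩
  -- answers from `g`
  have hans : ∀ z ∈ g.sol (right a), ∃ r v, Maps B (pair q (tag 1 z)) r ∧
      Maps Ψ (pair (P k y) r) v ∧ v ∈ (meet (tot (uni f)) (tot (uni g))).sol (P k y) := by
    intro z hz
    obtain ⟨r, hr', hr''⟩ := hB' (tag 1 z) ⟨hfa, hga, Or.inr ⟨z, hz, rfl⟩⟩
    obtain ⟨v, hv, hv'⟩ := hr r (fun _ => hr')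
    exact ⟨r, v, hr'', hv', hv⟩
  have hTB : ∀ z r v, Maps B (pair q (tag 1 z)) r → Maps Ψ (pair (P k y) r) v →
      Maps (fun σ => thM (Ψ (pr (PM k (ev σ)) (B (pr (Φ (PM k (ev σ))) (1 :: od σ))))))
        (pair y z) (th v) := by
    intro z r v h1 h2
    have m1 : IsMachine (fun σ => PM k (ev σ)) := (isMachine_PM k).comp' isMachine_ev
    have m2 : Maps (fun σ => PM k (ev σ)) (pair y z) (P k y) :=
      Maps.comp (isMachine_PM k) (maps_ev y z) hP
    refine Maps.comp isMachine_thM ?_ (maps_thM v)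
    refine Maps.comp hΨ ?_ h2
    refine Maps.pr m1 (hB.comp' ((hΦ.comp' m1).pr (isMachine_cons 1 isMachine_od))) m2 ?_
    refine Maps.comp hB ?_ h1
    exact Maps.pr (hΦ.comp' m1) (isMachine_cons 1 isMachine_od) (Maps.comp hΦ m2 hq)
      (maps_cons 1 (maps_od y z))
  have hxm2 : Maps (U c2.unpair.1) y (right a) := by
    rw [hc2, Nat.unpair_pair]
    refine he3 _ _ ?_
    refine Maps.comp isMachine_od (Maps.comp hA (Maps.comp hΦ hP hq) ha) ?_
    have := maps_od (left a) (right a)
    rwa [pair_left_right] at this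
  have hzm2 : ∀ z ∈ g.sol (right a), ∃ w', Maps (U c2.unpair.2) (pair y z) w' := by
    intro z hz
    obtain ⟨r, v, h1, h2, -⟩ := hans z hz
    refine ⟨th v, ?_⟩
    rw [hc2, Nat.unpair_pair]
    exact he4 _ _ (hTB z r v h1 h2)
  have hsol2 := uni_sol (f := g) (k := k) hxm2 hzm2
  have hmem2 : ∀ u ∈ (uni g).sol q2, ∃ r v, Maps Ψ (pair (P k y) r) v ∧
      v ∈ (meet (tot (uni f)) (tot (uni g))).sol (P k y) ∧ u = th v := by
    intro u hu
    obtain ⟨z, hz, hzu⟩ := (hsol2 u).1 hu
    obtain ⟨r, v, h1, h2, h3⟩ := hans z hz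
    refine ⟨r, v, h2, h3, Maps.unique hzu ?_⟩
    rw [hc2, Nat.unpair_pair]
    exact he4 _ _ (hTB z r v h1 h2)
  have hne2' : ((uni g).sol q2).Nonempty := by
    obtain ⟨z, hz⟩ := hga
    obtain ⟨w, hw⟩ := hzm2 z hz
    exact ⟨w, (hsol2 w).2 ⟨z, hz, hw⟩⟩
  -- the chain
  have hchain : ∀ n u, u ∈ (uni g).sol q2 → u 0 = n → sh (n + 1) u ∈ (tot (uni f)).sol q1 ∧
      ∃ r v, Maps Ψ (pair (P k y) r) v ∧ v 0 = 0 := by
    intro n
    induction n with
    | zero =>
      intro u hu hu0
      obtain ⟨r, v, h1, h2, rfl⟩ := hmem2 u hu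
      rcases (mem_meet hne1 hne2).1 h2 with ⟨w, hw, rfl⟩ | ⟨w, hw, rfl⟩
      · refine ⟨?_, r, _, h1, by simp [tag]⟩
        have e : sh (0 + 1) (th (tag 0 w)) = w := by
          funext i; simp [sh, th, tag]
        rw [e]; exact hw
      · exfalso
        simp [th, tag] at hu0
    | succ n ih =>
      intro u hu hu0
      obtain ⟨r, v, h1, h2, rfl⟩ := hmem2 u hu
      rcases (mem_meet hne1 hne2).1 h2 with ⟨w, hw, rfl⟩ | ⟨w, hw, rfl⟩
      · exfalso
        simp [th, tag] at hu0
      · have hw' : w ∈ (uni g).sol q2 := hw hne2'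
        have hw0 : w 0 = n := by
          simpa [th, tag] using hu0
        obtain ⟨h3, h4⟩ := ih w hw' hw0
        refine ⟨?_, h4⟩
        have e : sh (n + 1 + 1) (th (tag 1 w)) = sh (n + 1) w := by
          funext i
          simp only [sh, th, tag]
          rw [if_neg (by omega), if_neg (by omega)]
          congr 1; omega
        rw [e]; exact h3
  -- the search is successful
  obtain ⟨n, hn⟩ : ∃ n, 0 < (SR Ψ k (init y n)).length := by
    obtain ⟨u, hu⟩ := id hne2'
    obtain ⟨-, r, v, h1, h2⟩ := hchain (u 0) u hu rfl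
    exact SR_complete hΨ h1 h2
  -- conclusion
  refine ⟨right a, ?_, hga, fun z hz => ?_⟩
  · refine Maps.comp isMachine_od (Maps.comp hA (Maps.comp hΦ
      (Maps.comp (isMachine_PM k) hyM hP) hq) ha) ?_
    have := maps_od (left a) (right a)
    rwa [pair_left_right] at this
  · obtain ⟨r, v, h1, h2, h3⟩ := hans z hz
    have hu : th v ∈ (uni g).sol q2 := by
      refine (hsol2 _).2 ⟨z, hz, ?_⟩
      rw [hc2, Nat.unpair_pair]
      exact he4 _ _ (hTB z r v h1 h2)
    obtain ⟨h4, -⟩ := hchain _ _ hu rfl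
    obtain ⟨z', hz', hz''⟩ := hfst n hn _ h4
    refine ⟨z', hz', ?_⟩
    have e : sh (th v 0 + 2) (th v) = z' := by
      funext i
      have := congrFun hz'' (1 + i)
      simp only [sh, tag] at this ⊢
      rw [if_neg (by omega)] at this
      rw [show th v 0 + 2 + i = th v 0 + 1 + (1 + i) by omega, this]
      congr 1; omega
    have h5 := maps_dpH 2 (th v)
    rw [e] at h5
    have h6 : Maps (fun σ => pr (c1 :: c2 :: ev σ) (od σ)) (pair x z) (pair y z) :=
      Maps.pr (isMachine_cons _ (isMachine_cons _ isMachine_ev)) isMachine_od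
        (maps_cons _ (maps_cons _ (maps_ev x z))) (maps_od x z)
    have h7 := Maps.comp mTB h6 (hTB z r v h1 h2)
    exact Maps.comp (isMachine_dpH 2) h7 h5

end Pool.Agent.V11243.WUniv
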