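import Pool.Agent.V11243.WMach

/-! Problems: meet, totalization, the universal representative, the totalizing jump. -/

namespace Pool.Agent.V11243.WUniv

open Pool.Agent.H190R3.Wei

theorem maps_of_eq {φ ψ : List ℕ → List ℕ} (hψ : IsMachine ψ) {x y z : ℕ → ℕ} {L : ℕ → ℕ} (k : ℕ)
    (h : ∀ m, φ (init x m) = if k ≤ m then ψ (init y (L m)) else [])
    (hL : ∀ n, ∃ m, k ≤ m ∧ n ≤ L m) (hM : Maps ψ y z) : Maps φ x z := by
  refine ⟨fun m => ?_, fun n => ?_⟩
  · rw [h m]
    split_ifs with hk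
    · exact hM.1 _
    · rfl
  · obtain ⟨m0, hm0⟩ := hM.2 n
    obtain ⟨m, hkm, hm⟩ := hL m0
    refine ⟨m, ?_⟩
    rw [h m, if_pos hkm]
    exact hm0.trans (hψ.mono _ _ (init_prefix_iff_le hm)).length_le

theorem sh_wz (k c : ℕ) (y : ℕ → ℕ) : sh (k + 1) (wz k (tag (c + 1) y)) = y := by
  induction k with
  | zero => funext n; simp [sh, wz, tag]
  | succ k ih =>
    funext n
    have := congrFun ih n
    unfold sh at this ⊢
    show tag 0 (wz k (tag (c + 1) y)) (k + 1 + 1 + n) = y n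
    unfold tag at this ⊢
    rw [if_neg (by omega), show k + 1 + 1 + n - 1 = k + 1 + n by omega]
    exact this

theorem wz_at (k c : ℕ) (y : ℕ → ℕ) : wz k (tag (c + 1) y) k = c + 1 := by
  induction k with
  | zero => simp [wz, tag]
  | succ k ih =>
    show tag 0 (wz k (tag (c + 1) y)) (k + 1) = c + 1
    simp [tag, ih]

theorem lz_zeros {k c : ℕ} {y : ℕ → ℕ} {m : ℕ} (hm : m ≤ k) :
    ¬ lz (init (wz k (tag (c + 1) y)) m) < m := by
  intro h
  have h1 : lz (init (wz k (tag (c + 1) y)) m) < (init (wz k (tag (c + 1) y)) m).length := by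
    simpa using h
  unfold lz at h1
  obtain ⟨a, ha, hp⟩ := List.findIdx_lt_length.1 h1
  unfold init at ha
  obtain ⟨i, hi, rfl⟩ := List.mem_map.1 ha
  rw [wz_lt (lt_of_lt_of_le (List.mem_range.1 hi) hm)] at hp
  simp at hp

/-- run the first component of the code on the input -/
def callF (σ : List ℕ) : List ℕ :=
  if lz σ < σ.length then U ((σ.getD (lz σ) 0 - 1).unpair.1) (dp (lz σ + 1) σ) else []

/-- run the second component of the code on the pair of the input and the answer -/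
def callB (σ : List ℕ) : List ℕ :=
  if lz (ev σ) < (ev σ).length then
    U (((ev σ).getD (lz (ev σ)) 0 - 1).unpair.2) (pr (dp (lz (ev σ) + 1) (ev σ)) (od σ)) else []

theorem primrec_ev : Primrec ev := by
  refine Primrec.list_map (Primrec.list_range.comp ?_) ?_
  · exact Primrec.nat_div.comp (Primrec.succ.comp Primrec.list_length) (Primrec.const 2)
  · exact (Primrec.list_getD 0).comp Primrec.fst
      (Primrec.nat_mul.comp (Primrec.const 2) Primrec.snd)

theorem primrec_od : Primrec od := by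
  refine Primrec.list_map (Primrec.list_range.comp ?_) ?_
  · exact Primrec.nat_div.comp Primrec.list_length (Primrec.const 2)
  · exact (Primrec.list_getD 0).comp Primrec.fst
      (Primrec.succ.comp (Primrec.nat_mul.comp (Primrec.const 2) Primrec.snd))

theorem primrec_hc : Primrec (fun σ : List ℕ => (σ.getD (lz σ) 0 - 1).unpair) :=
  Primrec.unpair.comp (Primrec.nat_sub.comp
    ((Primrec.list_getD 0).comp Primrec.id primrec_lz) (Primrec.const 1))

theorem primrec_bd : Primrec (fun σ : List ℕ => dp (lz σ + 1) σ) :=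
  primrec_dp.comp (Primrec.succ.comp primrec_lz) Primrec.id

theorem isMachine_callF : IsMachine callF := by
  refine ⟨Primrec.to_comp ?_, fun a b h => ?_⟩
  · refine Primrec.ite ?_ ?_ (Primrec.const _)
    · exact Primrec.nat_lt.comp primrec_lz Primrec.list_length
    · exact primrec_U.comp (Primrec.fst.comp primrec_hc) primrec_bd
  · unfold callF
    by_cases h1 : lz a < a.length
    · have h2 := lz_eq_of_prefix h h1
      have h3 : lz b < b.length := by rw [h2]; exact h1.trans_le h.length_le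
      rw [if_pos h1, if_pos h3, h2, ← getD_of_isPrefix h _ 0 h1]
      exact (isMachine_U _).mono _ _ (dp_mono _ h)
    · rw [if_neg h1]; exact List.nil_prefix

theorem isMachine_callB : IsMachine callB := by
  refine ⟨Primrec.to_comp ?_, fun a b h => ?_⟩
  · refine Primrec.ite ?_ ?_ (Primrec.const _)
    · exact Primrec.nat_lt.comp (primrec_lz.comp primrec_ev) (Primrec.list_length.comp primrec_ev)
    · exact primrec_U.comp (Primrec.snd.comp (primrec_hc.comp primrec_ev))
        (primrec_pr.comp (primrec_bd.comp primrec_ev) primrec_od)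
  · unfold callB
    have he := isMachine_ev.mono _ _ h
    by_cases h1 : lz (ev a) < (ev a).length
    · have h2 := lz_eq_of_prefix he h1
      have h3 : lz (ev b) < (ev b).length := by rw [h2]; exact h1.trans_le he.length_le
      rw [if_pos h1, if_pos h3, h2, ← getD_of_isPrefix he _ 0 h1]
      exact (isMachine_U _).mono _ _ (pr_mono (dp_mono _ he) (isMachine_od.mono _ _ h))
    · rw [if_neg h1]; exact List.nil_prefix

theorem maps_callF {k c : ℕ} {y x : ℕ → ℕ} (h : Maps (U c.unpair.1) y x) :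
    Maps callF (wz k (tag (c + 1) y)) x := by
  refine maps_of_eq (isMachine_U _) (k + 1) (L := fun m => m - (k + 1)) ?_ ?_ h
  · intro m
    unfold callF
    rw [length_init]
    by_cases hm : k + 1 ≤ m
    · rw [if_pos hm, lz_wz hm, if_pos (show k < m from hm), init_getD _ _ _ _ hm, wz_at,
        dp_init, sh_wz]
      rfl
    · rw [if_neg hm, if_neg (lz_zeros (by omega))]
  · intro n; exact ⟨n + (k + 1), by omega, by omega⟩

theorem ev_init (x z : ℕ → ℕ) (m : ℕ) : ev (init (pair x z) m) = init x ((m + 1) / 2) := by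
  have := (maps_ev x z).1 m
  rw [this]; congr 1; simp [ev]

theorem od_init (x z : ℕ → ℕ) (m : ℕ) : od (init (pair x z) m) = init z (m / 2) := by
  have := (maps_od x z).1 m
  rw [this]; congr 1; simp [od]

theorem maps_callB {k c : ℕ} {y z w : ℕ → ℕ} (h : Maps (U c.unpair.2) (pair y z) w) :
    Maps callB (pair (wz k (tag (c + 1) y)) z) w := by
  refine maps_of_eq (isMachine_U _) (2 * k + 1)
    (L := fun m => 2 * min ((m + 1) / 2 - (k + 1)) (m / 2)) ?_ ?_ h
  · intro m
    unfold callB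
    rw [ev_init, od_init, length_init]
    by_cases hm : 2 * k + 1 ≤ m
    · have hm' : k < (m + 1) / 2 := by omega
      rw [if_pos hm, lz_wz hm', if_pos hm', init_getD _ _ _ _ hm', wz_at, dp_init, sh_wz, pr_init]
      rfl
    · rw [if_neg hm, if_neg (lz_zeros (by omega))]
  · intro n; exact ⟨2 * (n + (k + 1)), by omega, by show n ≤ 2 * min _ _; omega⟩

/-- the first half of a point -/
def left (p : ℕ → ℕ) : ℕ → ℕ := fun n => p (2 * n)

/-- the second half of a point -/
def right (p : ℕ → ℕ) : ℕ → ℕ := fun n => p (2 * n + 1)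

theorem left_pair (x z : ℕ → ℕ) : left (pair x z) = x := by funext n; simp [left, pair]

theorem right_pair (x z : ℕ → ℕ) : right (pair x z) = z := by
  funext n
  unfold right pair
  rw [if_neg (by omega)]; congr 1; omega

theorem pair_left_right (p : ℕ → ℕ) : pair (left p) (right p) = p := by
  funext n
  unfold pair
  split_ifs with h
  · show p (2 * (n / 2)) = p n
    congr 1; omega
  · show p (2 * (n / 2) + 1) = p n
    congr 1; omega

/-- The meet: for a pair of instances, a solution of one of them, with a tag. -/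
def meet (f g : Problem) : Problem where
  sol p := {w | (f.sol (left p)).Nonempty ∧ (g.sol (right p)).Nonempty ∧
    ((∃ z ∈ f.sol (left p), w = tag 0 z) ∨ ∃ z ∈ g.sol (right p), w = tag 1 z)}

/-- The totalization: outside the domain every point is a solution. -/
def tot (g : Problem) : Problem where
  sol x := {w | (g.sol x).Nonempty → w ∈ g.sol x}

/-- `F` is a totalizing jump of `f`: it is equivalent to the totalization of a problem equivalent
to `f`, and the totalization of every problem equivalent to `f` is reducible to it. -/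
def IsTJ (f F : Problem) : Prop :=
  (∃ g, WLe g f ∧ WLe f g ∧ WLe (tot g) F ∧ WLe F (tot g)) ∧
    ∀ g, WLe g f → WLe f g → WLe (tot g) F

theorem tot_nonempty (g : Problem) (x : ℕ → ℕ) : ((tot g).sol x).Nonempty := by
  by_cases h : (g.sol x).Nonempty
  · obtain ⟨w, hw⟩ := h
    exact ⟨w, fun _ => hw⟩
  · exact ⟨x, fun h' => absurd h' h⟩

/-- the universal representative of the degree of `f` -/
def uni (f : Problem) : Problem where
  sol q := {w | ∃ k c y, q = wz k (tag (c + 1) y) ∧ ∃ x, Maps (U c.unpair.1) y x ∧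
    (∀ z ∈ f.sol x, ∃ w', Maps (U c.unpair.2) (pair y z) w') ∧
    ∃ z ∈ f.sol x, Maps (U c.unpair.2) (pair y z) w}

theorem uni_sol {f : Problem} {k c : ℕ} {y x : ℕ → ℕ} (hx : Maps (U c.unpair.1) y x)
    (hz : ∀ z ∈ f.sol x, ∃ w', Maps (U c.unpair.2) (pair y z) w') (w : ℕ → ℕ) :
    w ∈ (uni f).sol (wz k (tag (c + 1) y)) ↔
      ∃ z ∈ f.sol x, Maps (U c.unpair.2) (pair y z) w := by
  constructor
  · rintro ⟨k', c', y', hq, x', hx', -, z, hz', hw⟩
    obtain ⟨-, rfl, rfl⟩ := wz_inj hq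
    obtain rfl := Maps.unique hx hx'
    exact ⟨z, hz', hw⟩
  · rintro ⟨z, hz', hw⟩
    exact ⟨k, c, y, rfl, x, hx, hz, z, hz', hw⟩

theorem uni_le (f : Problem) : WLe (uni f) f := by
  refine ⟨callF, callB, isMachine_callF, isMachine_callB, ?_⟩
  rintro q ⟨w, k, c, y, rfl, x, hx, hz, z, hz', hw⟩
  refine ⟨x, maps_callF hx, ⟨z, hz'⟩, fun z1 hz1 => ?_⟩
  obtain ⟨w1, hw1⟩ := hz z1 hz1
  exact ⟨w1, (uni_sol hx hz w1).2 ⟨z1, hz1, hw1⟩, maps_callB hw1⟩

/-- every reduction to `f` is an instance of `uni f` -/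
theorem uni_inst {g f : Problem} (h : WLe g f) : ∃ c, ∀ k x, (g.sol x).Nonempty →
    ((uni f).sol (wz k (tag (c + 1) x))).Nonempty ∧
    ∀ w ∈ (uni f).sol (wz k (tag (c + 1) x)), w ∈ g.sol x := by
  obtain ⟨φ, ψ, hφ, hψ, hr⟩ := h
  obtain ⟨e1, he1⟩ := exists_code hφ.comp
  obtain ⟨e2, he2⟩ := exists_code hψ.comp
  refine ⟨Nat.pair e1 e2, fun k x hx => ?_⟩
  obtain ⟨y, hy, hfy, hr'⟩ := hr x hx
  have h1 : Maps (U (Nat.pair e1 e2).unpair.1) x y := by
    rw [Nat.unpair_pair]; exact he1 _ _ hy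
  have h2 : ∀ z ∈ f.sol y, ∃ w' ∈ g.sol x, Maps (U (Nat.pair e1 e2).unpair.2) (pair x z) w' := by
    intro z hz
    obtain ⟨w, hw, hw'⟩ := hr' z hz
    refine ⟨w, hw, ?_⟩
    rw [Nat.unpair_pair]; exact he2 _ _ hw'
  have h3 := uni_sol (f := f) (k := k) h1 (fun z hz => let ⟨w, _, hw⟩ := h2 z hz; ⟨w, hw⟩)
  refine ⟨?_, fun w hw => ?_⟩
  · obtain ⟨z, hz⟩ := hfy
    obtain ⟨w, -, hw⟩ := h2 z hz
    exact ⟨w, (h3 w).2 ⟨z, hz, hw⟩⟩
  · obtain ⟨z, hz, hw'⟩ := (h3 w).1 hw
    obtain ⟨w1, hw1, hw2⟩ := h2 z hz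
    rw [Maps.unique hw' hw2]; exact hw1

theorem le_uni (f : Problem) : WLe f (uni f) := by
  obtain ⟨c, hc⟩ := uni_inst (WLe.refl f)
  refine ⟨fun σ => (c + 1) :: σ, od, isMachine_cons _ isMachine_id, isMachine_od, fun x hx => ?_⟩
  obtain ⟨h1, h2⟩ := hc 0 x hx
  exact ⟨tag (c + 1) x, maps_cons _ (maps_id x), h1, fun z hz => ⟨z, h2 z hz, maps_od x z⟩⟩

theorem tot_le_tot_uni {g f : Problem} (h : WLe g f) : WLe (tot g) (tot (uni f)) := by
  obtain ⟨c, hc⟩ := uni_inst h
  refine ⟨fun σ => (c + 1) :: σ, od, isMachine_cons _ isMachine_id, isMachine_od, fun x _ => ?_⟩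
  refine ⟨tag (c + 1) x, maps_cons _ (maps_id x), tot_nonempty _ _, fun z hz =>
    ⟨z, fun hx => ?_, maps_od x z⟩⟩
  obtain ⟨h1, h2⟩ := hc 0 x hx
  exact h2 z (hz h1)

theorem isTJ_uni (f : Problem) : IsTJ f (tot (uni f)) :=
  ⟨⟨uni f, uni_le f, le_uni f, WLe.refl _, WLe.refl _⟩, fun _ h _ => tot_le_tot_uni h⟩

theorem IsTJ.equiv {f F : Problem} (h : IsTJ f F) :
    WLe F (tot (uni f)) ∧ WLe (tot (uni f)) F := by
  obtain ⟨⟨g, h1, h2, h3, h4⟩, h5⟩ := h
  exact ⟨h4.trans (tot_le_tot_uni h1), h5 _ (uni_le f) (le_uni f)⟩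

/-- choose between two machines by the first letter of `γ` -/
def selM (γ α β : List ℕ → List ℕ) (σ : List ℕ) : List ℕ :=
  if (γ σ).length = 0 then [] else if (γ σ).getD 0 0 = 0 then α σ else β σ

theorem isMachine_selM {γ α β : List ℕ → List ℕ} (hγ : IsMachine γ) (hα : IsMachine α)
    (hβ : IsMachine β) : IsMachine (selM γ α β) := by
  refine ⟨?_, fun a b h => ?_⟩
  · have hc : Computable (fun σ : List ℕ => decide ((γ σ).length = 0)) :=
      (PrimrecPred.decide (Primrec.eq (α := ℕ)) |>.to_comp).comp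
        ((Primrec.list_length.to_comp.comp hγ.comp).pair (Computable.const 0))
    have h1 : Computable (fun σ : List ℕ => decide ((γ σ).getD 0 0 = 0)) :=
      (PrimrecPred.decide (Primrec.eq (α := ℕ)) |>.to_comp).comp
        ((((Primrec.list_getD 0).to_comp).comp hγ.comp (Computable.const 0)).pair
          (Computable.const 0))
    refine (Computable.cond hc (Computable.const ([] : List ℕ))
      (Computable.cond h1 hα.comp hβ.comp)).of_eq ?_
    intro σ
    unfold selM
    by_cases h : (γ σ).length = 0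
    · simp [h]
    · by_cases h' : (γ σ).getD 0 0 = 0 <;> simp [h, h']
  · have h1 := hγ.mono _ _ h
    unfold selM
    by_cases h2 : (γ a).length = 0
    · rw [if_pos h2]; exact List.nil_prefix
    · have h3 : (γ b).length ≠ 0 := by have := h1.length_le; omega
      rw [if_neg h2, if_neg h3, getD_of_isPrefix h1 0 0 (by omega)]
      split_ifs
      · exact hα.mono _ _ h
      · exact hβ.mono _ _ h

theorem maps_selM {γ α β : List ℕ → List ℕ} (hγ : IsMachine γ) (hα : IsMachine α)
    (hβ : IsMachine β) {x u y : ℕ → ℕ} (hu : Maps γ x u)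
    (h : if u 0 = 0 then Maps α x y else Maps β x y) : Maps (selM γ α β) x y := by
  have key : ∀ m, 0 < (γ (init x m)).length → (γ (init x m)).getD 0 0 = u 0 := by
    intro m hm
    rw [hu.1 m, init_getD _ _ _ _ hm]
  obtain ⟨m1, hm1⟩ := hu.2 1
  have hval : ∀ m, selM γ α β (init x m) = if (γ (init x m)).length = 0 then [] else
      if u 0 = 0 then α (init x m) else β (init x m) := by
    intro m
    unfold selM
    split_ifs with h1 h2 h3 h3
    · rfl
    · rfl
    · exact absurd ((key m (by omega)).symm.trans h2) h3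
    · exact absurd ((key m (by omega)).trans h3) h2
    · rfl
  have hlen : ∀ m, m1 ≤ m → (γ (init x m)).length ≠ 0 := fun m hm => by
    have := (hγ.mono _ _ (init_prefix_iff_le (x := x) hm)).length_le
    omega
  by_cases h0 : u 0 = 0
  · simp only [h0, if_true] at h hval
    refine ⟨fun m => ?_, fun n => ?_⟩
    · rw [hval m]; split_ifs
      · rfl
      · exact h.1 m
    · obtain ⟨m, hm⟩ := h.2 n
      refine ⟨max m m1, ?_⟩
      rw [hval, if_neg (hlen _ (le_max_right _ _))]
      exact hm.trans (hα.mono _ _ (init_prefix_iff_le (x := x) (le_max_left _ _))).length_le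
  · simp only [h0, if_false] at h hval
    refine ⟨fun m => ?_, fun n => ?_⟩
    · rw [hval m]; split_ifs
      · rfl
      · exact h.1 m
    · obtain ⟨m, hm⟩ := h.2 n
      refine ⟨max m m1, ?_⟩
      rw [hval, if_neg (hlen _ (le_max_right _ _))]
      exact hm.trans (hβ.mono _ _ (init_prefix_iff_le (x := x) (le_max_left _ _))).length_le

theorem sh_tag (b : ℕ) (y : ℕ → ℕ) : sh 1 (tag b y) = y := by
  funext n
  simp [sh, tag]

theorem maps_dp_tag (b : ℕ) (y : ℕ → ℕ) : Maps (dp 1) (tag b y) y := by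
  have := maps_dp 1 (tag b y)
  rwa [sh_tag] at this

theorem le_meet {h f g : Problem} (hf : WLe h f) (hg : WLe h g) : WLe h (meet f g) := by
  obtain ⟨φ1, ψ1, hφ1, hψ1, r1⟩ := hf
  obtain ⟨φ2, ψ2, hφ2, hψ2, r2⟩ := hg
  have ha : IsMachine (fun σ => pr (ev σ) (dp 1 (od σ))) :=
    isMachine_ev.pr ((isMachine_dp 1).comp' isMachine_od)
  refine ⟨fun σ => pr (φ1 σ) (φ2 σ), selM od (fun σ => ψ1 (pr (ev σ) (dp 1 (od σ))))
    (fun σ => ψ2 (pr (ev σ) (dp 1 (od σ)))), hφ1.pr hφ2,
    isMachine_selM isMachine_od (hψ1.comp' ha) (hψ2.comp' ha), fun x hx => ?_⟩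
  obtain ⟨y1, hy1, hf1, hr1⟩ := r1 x hx
  obtain ⟨y2, hy2, hf2, hr2⟩ := r2 x hx
  have hmem : ∀ w, w ∈ (meet f g).sol (pair y1 y2) ↔
      ((∃ z ∈ f.sol y1, w = tag 0 z) ∨ ∃ z ∈ g.sol y2, w = tag 1 z) := by
    intro w
    show ((f.sol (left (pair y1 y2))).Nonempty ∧ (g.sol (right (pair y1 y2))).Nonempty ∧
      ((∃ z ∈ f.sol (left (pair y1 y2)), w = tag 0 z) ∨
        ∃ z ∈ g.sol (right (pair y1 y2)), w = tag 1 z)) ↔ _
    rw [left_pair, right_pair]
    exact ⟨fun h => h.2.2, fun h => ⟨hf1, hf2, h⟩⟩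
  refine ⟨pair y1 y2, Maps.pr hφ1 hφ2 hy1 hy2, ?_, fun z hz => ?_⟩
  · obtain ⟨z, hz⟩ := hf1
    exact ⟨tag 0 z, (hmem _).2 (Or.inl ⟨z, hz, rfl⟩)⟩
  · have hin : ∀ b z, Maps (fun σ => pr (ev σ) (dp 1 (od σ))) (pair x (tag b z)) (pair x z) :=
      fun b z => Maps.pr isMachine_ev ((isMachine_dp 1).comp' isMachine_od) (maps_ev x _)
        (Maps.comp (isMachine_dp 1) (maps_od x _) (maps_dp_tag b z))
    rcases (hmem z).1 hz with ⟨z', hz', rfl⟩ | ⟨z', hz', rfl⟩
    · obtain ⟨w, hw, hw'⟩ := hr1 z' hz'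
      refine ⟨w, hw, maps_selM isMachine_od (hψ1.comp' ha) (hψ2.comp' ha) (maps_od x _) ?_⟩
      rw [if_pos (show tag 0 z' 0 = 0 from rfl)]
      exact Maps.comp hψ1 (hin 0 z') hw'
    · obtain ⟨w, hw, hw'⟩ := hr2 z' hz'
      refine ⟨w, hw, maps_selM isMachine_od (hψ1.comp' ha) (hψ2.comp' ha) (maps_od x _) ?_⟩
      rw [if_neg (show tag 1 z' 0 ≠ 0 by simp [tag])]
      exact Maps.comp hψ2 (hin 1 z') hw'

theorem meet_le_left (f g : Problem) : WLe (meet f g) f := by
  refine ⟨ev, fun σ => 0 :: od σ, isMachine_ev, isMachine_cons 0 isMachine_od, fun p hp => ?_⟩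
  obtain ⟨w, hf, hg, -⟩ := hp
  have h := maps_ev (left p) (right p)
  rw [pair_left_right] at h
  exact ⟨left p, h, hf, fun z hz => ⟨tag 0 z, ⟨hf, hg, Or.inl ⟨z, hz, rfl⟩⟩,
    maps_cons 0 (maps_od p z)⟩⟩

theorem meet_le_right (f g : Problem) : WLe (meet f g) g := by
  refine ⟨od, fun σ => 1 :: od σ, isMachine_od, isMachine_cons 1 isMachine_od, fun p hp => ?_⟩
  obtain ⟨w, hf, hg, -⟩ := hp
  have h := maps_od (left p) (right p)
  rw [pair_left_right] at h
  exact ⟨right p, h, hg, fun z hz => ⟨tag 1 z, ⟨hf, hg, Or.inr ⟨z, hz, rfl⟩⟩,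
    maps_cons 1 (maps_od p z)⟩⟩

theorem meet_mono {f f' g g' : Problem} (h : WLe f f') (h' : WLe g g') :
    WLe (meet f g) (meet f' g') :=
  le_meet ((meet_le_left f g).trans h) ((meet_le_right f g).trans h')

end Pool.Agent.V11243.WUniv
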