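import Pool.Agent.H190R3.WeiRed

/-! A universal machine for the computable functionals on Baire space, and some machines. -/

namespace Pool.Agent.V11243.WUniv

open Pool.Agent.H190R3.Wei

/-- the word of the first `n` letters -/
def tk (σ : List ℕ) (n : ℕ) : List ℕ := (List.range (min n σ.length)).map (fun i => σ.getD i 0)

theorem tk_init (x : ℕ → ℕ) {n m : ℕ} (h : n ≤ m) : tk (init x m) n = init x n := by
  unfold tk
  rw [length_init, Nat.min_eq_left h]
  unfold init
  apply List.map_congr_left
  intro i hi
  have := init_getD x m i 0 (lt_of_lt_of_le (List.mem_range.1 hi) h)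
  unfold init at this
  rw [this]

theorem tk_prefix {a b : List ℕ} (h : a <+: b) {n : ℕ} (hn : n ≤ a.length) : tk b n = tk a n := by
  unfold tk
  rw [Nat.min_eq_left hn, Nat.min_eq_left (hn.trans h.length_le)]
  apply List.map_congr_left
  intro i hi
  exact (getD_of_isPrefix h i 0 (lt_of_lt_of_le (List.mem_range.1 hi) hn)).symm

theorem primrec_tk : Primrec₂ tk := by
  refine Primrec.list_map (Primrec.list_range.comp ?_) ?_
  · exact Primrec.nat_min.comp Primrec.snd (Primrec.list_length.comp Primrec.fst)
  · exact (Primrec.list_getD 0).comp (Primrec.fst.comp Primrec.fst) Primrec.snd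

/-- iterate `h` along the initial words of `σ` -/
def run {S : Type} (h : List ℕ → ℕ → S → S) (s : S) (σ : List ℕ) : S :=
  Nat.rec s (fun t c => h (tk σ t) t c) σ.length

theorem run_aux {S : Type} (h : List ℕ → ℕ → S → S) (s : S) {a b : List ℕ} (hab : a <+: b) :
    ∀ n ≤ a.length, (Nat.rec s (fun t c => h (tk b t) t c) n : S) =
      Nat.rec s (fun t c => h (tk a t) t c) n := by
  intro n
  induction n with
  | zero => intro _; rfl
  | succ n ih =>
    intro hn
    show h (tk b n) n _ = h (tk a n) n _
    rw [ih (by omega), tk_prefix hab (by omega)]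

theorem run_mono {S : Type} {h : List ℕ → ℕ → S → S} {s : S} {R : S → S → Prop}
    (hr : ∀ s, R s s) (ht : ∀ a b c, R a b → R b c → R a c) (hh : ∀ τ t c, R c (h τ t c))
    {a b : List ℕ} (hab : a <+: b) : R (run h s a) (run h s b) := by
  have key : ∀ n, R (Nat.rec s (fun t c => h (tk b t) t c) a.length)
      (Nat.rec s (fun t c => h (tk b t) t c) (a.length + n)) := by
    intro n
    induction n with
    | zero => exact hr _
    | succ n ih => exact ht _ _ _ ih (hh _ _ _)
  obtain ⟨k, hk⟩ := Nat.exists_eq_add_of_le hab.length_le
  have := key k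
  unfold run
  rw [hk, ← run_aux h s hab _ le_rfl]
  exact this

/-- the candidate word of the code `c` at stage `t` -/
def cand (c : ℕ) (τ : List ℕ) (t : ℕ) : Option (List ℕ) :=
  ((Nat.Partrec.Code.evaln t.unpair.2 ((Encodable.decode (α := Nat.Partrec.Code) c).getD .zero)
    (Encodable.encode (tk τ t.unpair.1))).bind fun v => Encodable.decode (α := List ℕ) v)

/-- one step of the universal machine -/
def ustep (c : ℕ) (τ : List ℕ) (t : ℕ) (cur : List ℕ) : List ℕ :=
  if tk ((cand c τ t).getD []) cur.length = cur then (cand c τ t).getD [] else cur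

/-- the universal machine -/
def U (c : ℕ) (σ : List ℕ) : List ℕ := run (ustep c) [] σ

theorem prefix_of_tk {l cur : List ℕ} (h : tk l cur.length = cur) : cur <+: l := by
  have h1 : min cur.length l.length = cur.length := by
    have := congrArg List.length h
    simpa [tk] using this
  have hle : cur.length ≤ l.length := by omega
  have h2 : cur = l.take cur.length := by
    apply List.ext_getElem
    · simp [hle]
    · intro i h3 h4
      have h5 : (tk l cur.length)[i]? = cur[i]? := by rw [h]
      simp only [tk, h1] at h5
      rw [List.getElem?_map, List.getElem?_range h3] at h5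
      simp only [Option.map_some] at h5
      rw [List.getElem?_eq_getElem h3] at h5
      have h6 : l.getD i 0 = cur[i] := Option.some.inj h5
      rw [← h6, List.getElem_take]
      simp [List.getD, List.getElem?_eq_getElem (lt_of_lt_of_le h3 hle)]
  rw [h2]
  exact List.take_prefix _ _

theorem tk_of_prefix {l cur : List ℕ} (h : cur <+: l) : tk l cur.length = cur := by
  rw [tk_prefix h le_rfl]
  unfold tk
  rw [Nat.min_self]
  apply List.ext_getElem
  · simp
  · intro i h1 h2
    simp [List.getD, List.getElem?_eq_getElem h2]

theorem ustep_mono (c : ℕ) (τ : List ℕ) (t : ℕ) (cur : List ℕ) : cur <+: ustep c τ t cur := by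
  unfold ustep
  split_ifs with h
  · exact prefix_of_tk h
  · exact List.prefix_rfl

theorem primrec_cand : Primrec (fun q : ℕ × List ℕ × ℕ => cand q.1 q.2.1 q.2.2) := by
  unfold cand
  have ht : Primrec (fun q : ℕ × List ℕ × ℕ => q.2.2) := Primrec.snd.comp Primrec.snd
  have hτ : Primrec (fun q : ℕ × List ℕ × ℕ => q.2.1) := Primrec.fst.comp Primrec.snd
  have hc : Primrec (fun q : ℕ × List ℕ × ℕ =>
      (Encodable.decode (α := Nat.Partrec.Code) q.1).getD .zero) :=
    Primrec.option_getD.comp (Primrec.decode.comp Primrec.fst) (Primrec.const _)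
  have hw : Primrec (fun q : ℕ × List ℕ × ℕ => Encodable.encode (tk q.2.1 q.2.2.unpair.1)) :=
    Primrec.encode.comp (primrec_tk.comp hτ (Primrec.fst.comp (Primrec.unpair.comp ht)))
  have he := Nat.Partrec.Code.primrec_evaln.comp
    (((Primrec.snd.comp (Primrec.unpair.comp ht)).pair hc).pair hw)
  refine Primrec.option_bind he ?_
  exact Primrec.decode.comp Primrec.snd

theorem primrec_ustep : Primrec (fun q : ℕ × List ℕ × ℕ × List ℕ => ustep q.1 q.2.1 q.2.2.1 q.2.2.2) := by
  have hcand : Primrec (fun q : ℕ × List ℕ × ℕ × List ℕ => (cand q.1 q.2.1 q.2.2.1).getD []) :=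
    Primrec.option_getD.comp (primrec_cand.comp (Primrec.fst.pair
      ((Primrec.fst.comp Primrec.snd).pair (Primrec.fst.comp (Primrec.snd.comp Primrec.snd)))))
      (Primrec.const _)
  have hcur : Primrec (fun q : ℕ × List ℕ × ℕ × List ℕ => q.2.2.2) :=
    Primrec.snd.comp (Primrec.snd.comp Primrec.snd)
  refine Primrec.ite ?_ hcand hcur
  exact Primrec.eq.comp (primrec_tk.comp hcand (Primrec.list_length.comp hcur)) hcur

theorem primrec_U : Primrec₂ U := by
  have hh : Primrec₂ (fun (q : ℕ × List ℕ) (r : ℕ × List ℕ) =>
      ustep q.1 (tk q.2 r.1) r.1 r.2) := by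
    have := primrec_ustep.comp ((Primrec.fst.comp Primrec.fst).pair
      ((primrec_tk.comp (Primrec.snd.comp Primrec.fst)
      (Primrec.fst.comp Primrec.snd)).pair (Primrec.snd (α := ℕ × List ℕ) (β := ℕ × List ℕ))))
    exact this
  exact Primrec.nat_rec' (β := List ℕ) (f := fun q : ℕ × List ℕ => q.2.length)
    (g := fun _ => []) (Primrec.list_length.comp Primrec.snd) (Primrec.const _) hh

theorem isMachine_U (c : ℕ) : IsMachine (U c) :=
  ⟨(primrec_U.comp (Primrec.const c) Primrec.id).to_comp, fun _ _ h =>
    run_mono (R := fun a b => a <+: b) (fun _ => List.prefix_rfl)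
      (fun _ _ _ h1 h2 => h1.trans h2) (ustep_mono c) h⟩

theorem prefix_init_of_le {y : ℕ → ℕ} {a b : List ℕ} (ha : a = init y a.length)
    (hb : b = init y b.length) (h : a.length ≤ b.length) : a <+: b := by
  rw [ha, hb]; exact init_prefix_iff_le h

/-- every machine is simulated by the universal machine -/
theorem exists_code {φ : List ℕ → List ℕ} (hφ : Computable φ) :
    ∃ c, ∀ x y, Maps φ x y → Maps (U c) x y := by
  have hcomp : Computable (fun n : ℕ => Encodable.encode
      (φ ((Encodable.decode (α := List ℕ) n).getD []))) :=
    Computable.encode.comp (hφ.comp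
      (Computable.option_getD Computable.decode (Computable.const [])))
  obtain ⟨co, hco⟩ := Nat.Partrec.Code.exists_code.1 (Partrec.nat_iff.1 hcomp.partrec)
  refine ⟨Encodable.encode co, fun x y h => ?_⟩
  have hev : ∀ τ : List ℕ, Nat.Partrec.Code.eval co (Encodable.encode τ) =
      Part.some (Encodable.encode (φ τ)) := by
    intro τ
    rw [hco]
    simp
  -- every candidate is correct
  have hcand : ∀ m t l, t ≤ m → cand (Encodable.encode co) (init x m) t = some l →
      ∃ i, l = φ (init x i) := by
    intro m t l ht hl
    unfold cand at hl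
    rw [Option.bind_eq_some_iff] at hl
    obtain ⟨v, hv, hl⟩ := hl
    simp only [Encodable.encodek, Option.getD_some] at hv
    have h1 := Nat.Partrec.Code.evaln_sound hv
    rw [tk_init x ((Nat.unpair_left_le t).trans ht), hev] at h1
    have h2 := Part.mem_some_iff.1 h1
    rw [h2, Encodable.encodek] at hl
    exact ⟨_, (Option.some.inj hl).symm⟩
  have hinv : ∀ m n, n ≤ m → ∀ cur : List ℕ,
      cur = (Nat.rec [] (fun t c => ustep (Encodable.encode co) (tk (init x m) t) t c) n : List ℕ) →
      cur = init y cur.length := by
    intro m n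
    induction n with
    | zero => rintro - cur rfl; rfl
    | succ n ih =>
      rintro hn cur hcur
      have ih' := ih (by omega) _ rfl
      have hcur' : cur = ustep (Encodable.encode co) (tk (init x m) n) n
        (Nat.rec [] (fun t c => ustep (Encodable.encode co) (tk (init x m) t) t c) n :
        List ℕ) := hcur
      rw [hcur']
      revert ih'
      generalize (Nat.rec [] (fun t c => ustep (Encodable.encode co) (tk (init x m) t) t c) n :
        List ℕ) = c0
      intro ih'
      unfold ustep
      split_ifs with hif
      · rw [tk_init x (by omega)]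
        cases hc : cand (Encodable.encode co) (init x n) n with
        | none => rfl
        | some l =>
          obtain ⟨i, hi⟩ := hcand n n l le_rfl hc
          simp only [Option.getD_some]
          rw [hi]
          exact h.1 i
      · exact ih'
  refine ⟨fun m => ?_, fun n => ?_⟩
  · have := hinv m m le_rfl (U (Encodable.encode co) (init x m)) (by
      unfold U run; rw [length_init])
    exact this
  · obtain ⟨i, hi⟩ := h.2 n
    obtain ⟨k, hk⟩ := Nat.Partrec.Code.evaln_complete.1
      (show Encodable.encode (φ (init x i)) ∈ Nat.Partrec.Code.eval co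
        (Encodable.encode (init x i)) by rw [hev]; exact Part.mem_some _)
    set t := Nat.pair i k with ht
    refine ⟨t + 1, ?_⟩
    have hstep : U (Encodable.encode co) (init x (t + 1)) =
        ustep (Encodable.encode co) (init x t) t
          (Nat.rec [] (fun t' c => ustep (Encodable.encode co) (tk (init x (t+1)) t') t' c) t) := by
      unfold U run
      rw [length_init]
      show ustep _ (tk (init x (t+1)) t) t _ = _
      rw [tk_init x (Nat.le_succ t)]
    have hc : cand (Encodable.encode co) (init x t) t = some (φ (init x i)) := by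
      unfold cand
      rw [ht, Nat.unpair_pair]
      simp only [Encodable.encodek, Option.getD_some]
      rw [tk_init x (Nat.left_le_pair i k)]
      rw [show Nat.Partrec.Code.evaln k co (Encodable.encode (init x i)) =
        some (Encodable.encode (φ (init x i))) from hk]
      simp
    rw [hstep]
    have hpre := hinv (t + 1) t (Nat.le_succ t) _ rfl
    revert hpre
    generalize (Nat.rec [] (fun t' c => ustep (Encodable.encode co) (tk (init x (t+1)) t') t' c) t
      : List ℕ) = c0
    intro hpre
    unfold ustep
    rw [hc]
    simp only [Option.getD_some]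
    split_ifs with hif
    · exact hi
    · by_contra hcon
      push Not at hcon
      apply hif
      apply tk_of_prefix
      exact prefix_init_of_le hpre (h.1 i) (by omega)

end Pool.Agent.V11243.WUniv
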