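import Mathlib

/-!
A continuous real function on the plane whose preimages of short intervals have small Hausdorff
content.  Part 1: the tree of squares.
-/

namespace Pool.Agent.V11243.WildPlane

open Set Metric Topology

/-- A square (a ball of the sup metric of `ℝ × ℝ`): centre `c`, radius `r`; `w` is the size of the
values of the function on it. -/
structure Sq where
  c : ℝ × ℝ
  r : ℝ
  w : ℝ

noncomputable section

variable (N m : ℕ)

/-- radius of the small cells of `T` -/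
def un (T : Sq) : ℝ := T.r / (N * m)

/-- the point with integer coordinates `(a, b)` in `T` -/
def pt (T : Sq) (a b : ℤ) : ℝ × ℝ := (T.c.1 + un N m T * a, T.c.2 + un N m T * b)

/-- coordinate of the centre of block `i` -/
def bq (i : ℕ) : ℤ := (2 * i + 1) * m - N * m

/-- coordinate of the centre of cell `p` -/
def cq (p : ℕ) : ℤ := 2 * p + 1 - N * m

/-- centre of a block -/
def bc (T : Sq) (i : Fin N × Fin N) : ℝ × ℝ := pt N m T (bq N m i.1) (bq N m i.2)

/-- the inner square of a block -/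
def big (T : Sq) (i : Fin N × Fin N) : Sq :=
  ⟨bc N m T i, un N m T * (m - 8), T.w / N ^ 2⟩

/-- a small cell -/
def small (T : Sq) (p q : ℕ) : Sq := ⟨pt N m T (cq N m p) (cq N m q), un N m T, T.w / 2⟩

/-- positions of border cells in a block -/
def bd (j : Fin 8) : ℕ := if (j : ℕ) < 4 then j else m - 8 + j

open Classical in
/-- the children of a square -/
def children (T : Sq) : Finset Sq :=
  (Finset.univ.image (big N m T)) ∪
  ((Finset.univ.image (fun x : Fin N × Fin 8 × Fin (N * m) =>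
      small N m T (x.1 * m + bd m x.2.1) x.2.2)) ∪
  (Finset.univ.image (fun x : Fin N × Fin 8 × Fin (N * m) =>
      small N m T x.2.2 (x.1 * m + bd m x.2.1))))

/-- border -/
def Bor (p : ℕ) : Prop := p % m < 4 ∨ m - 4 ≤ p % m

variable {N m}

theorem bd_lt (hm : 9 ≤ m) (j : Fin 8) : bd m j < m := by
  unfold bd
  split_ifs <;> omega

theorem bor_bd (hm : 9 ≤ m) (i : ℕ) (j : Fin 8) : Bor m (i * m + bd m j) := by
  unfold Bor
  have h := bd_lt hm j
  rw [Nat.mul_add_mod', Nat.mod_eq_of_lt h]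
  unfold bd
  split_ifs <;> omega

theorem sep_block {i i' : ℕ} (h : i ≠ i') : (m : ℤ) + m ≤ |bq N m i - bq N m i'| := by
  unfold bq
  have h1 : ((2 * (i : ℤ) + 1) * m - N * m) - ((2 * i' + 1) * m - N * m) = 2 * ((i : ℤ) - i') * m := by
    ring
  rw [h1, abs_mul, abs_mul]
  have h2 : 1 ≤ |(i : ℤ) - i'| := by
    apply Int.one_le_abs
    omega
  have h3 : (0 : ℤ) ≤ m := by positivity
  rw [abs_of_nonneg h3, abs_two]
  nlinarith

theorem sep_cell {p p' : ℕ} (h : p ≠ p') : (1 : ℤ) + 1 ≤ |cq N m p - cq N m p'| := by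
  unfold cq
  have h1 : (2 * (p : ℤ) + 1 - N * m) - (2 * p' + 1 - N * m) = 2 * ((p : ℤ) - p') := by
    ring
  rw [h1, abs_mul]
  have h2 : 1 ≤ |(p : ℤ) - p'| := by
    apply Int.one_le_abs
    omega
  rw [abs_two]
  omega

theorem diff_eq (i p : ℕ) :
    cq N m p - bq N m i = 2 * (((p / m : ℕ) : ℤ) - i) * m + (2 * ((p % m : ℕ) : ℤ) + 1 - m) := by
  unfold bq cq
  have h := Nat.div_add_mod p m
  have h' : (m : ℤ) * ((p / m : ℕ) : ℤ) + ((p % m : ℕ) : ℤ) = p := by exact_mod_cast h
  rw [← h']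
  push_cast
  ring

theorem sep_mixed (hm : 9 ≤ m) {p i : ℕ} (h : Bor m p) :
    ((m : ℤ) - 8) + 1 ≤ |cq N m p - bq N m i| := by
  rw [diff_eq]
  have hlt : p % m < m := Nat.mod_lt _ (by omega)
  set j := p % m with hj
  set a := p / m with ha
  rcases lt_trichotomy a i with h1 | h1 | h1
  · rw [abs_of_neg]
    · have : (a : ℤ) + 1 ≤ i := by exact_mod_cast h1
      have hj' : (j : ℤ) + 1 ≤ m := by exact_mod_cast hlt
      nlinarith
    · have : (a : ℤ) + 1 ≤ i := by exact_mod_cast h1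
      have hj' : (j : ℤ) + 1 ≤ m := by exact_mod_cast hlt
      nlinarith
  · subst h1
    rw [sub_self, mul_zero, zero_mul, zero_add]
    rcases h with h | h
    · rw [abs_of_nonpos] <;> omega
    · rw [abs_of_nonneg] <;> omega
  · rw [abs_of_pos]
    · have : (i : ℤ) + 1 ≤ a := by exact_mod_cast h1
      have hj' : (0 : ℤ) ≤ j := by positivity
      nlinarith
    · have : (i : ℤ) + 1 ≤ a := by exact_mod_cast h1
      have hj' : (0 : ℤ) ≤ j := by positivity
      nlinarith

theorem cell_in_block (hm : 9 ≤ m) (p : ℕ) : |cq N m p - bq N m (p / m)| + 1 ≤ m := by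
  rw [diff_eq]
  have hlt : p % m < m := Nat.mod_lt _ (by omega)
  rw [sub_self, mul_zero, zero_mul, zero_add]
  rcases abs_cases (2 * ((p % m : ℕ) : ℤ) + 1 - m) with h | h <;> omega

theorem inner_cell (hm : 9 ≤ m) {p : ℕ} (h : ¬ Bor m p) :
    |cq N m p - bq N m (p / m)| + 1 ≤ (m : ℤ) - 8 := by
  rw [diff_eq]
  unfold Bor at h
  have hlt : p % m < m := Nat.mod_lt _ (by omega)
  rw [sub_self, mul_zero, zero_mul, zero_add]
  rcases abs_cases (2 * ((p % m : ℕ) : ℤ) + 1 - m) with h | h <;> omega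

theorem block_in {i : ℕ} (h : i < N) : |bq N m i| + m ≤ N * m := by
  unfold bq
  have h1 : (i : ℤ) + 1 ≤ N := by exact_mod_cast h
  have h2 : (0 : ℤ) ≤ m := by positivity
  have h3 : (0 : ℤ) ≤ i := by positivity
  have : |(2 * (i : ℤ) + 1) * m - N * m| ≤ N * m - m := by
    rw [abs_le]
    constructor <;> nlinarith
  linarith

theorem div_lt_N {p : ℕ} (h : p < N * m) : p / m < N := by
  rw [Nat.div_lt_iff_lt_mul]
  · exact h
  · rcases Nat.eq_zero_or_pos m with h0 | h0
    · subst h0; simp at h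
    · exact h0

/-- covering in one coordinate -/
theorem cover_one (hN : 1 ≤ N) (hm : 9 ≤ m) {t : ℝ} (ht : |t| ≤ N * m) :
    ∃ p : ℕ, p < N * m ∧ |t - (cq N m p : ℤ)| ≤ 1 := by
  have hNm : 0 < N * m := by positivity
  rw [abs_le] at ht
  have hx0 : 0 ≤ (t + N * m) / 2 := by linarith
  set k := ⌊(t + N * m) / 2⌋₊ with hk
  have h1 : (k : ℝ) ≤ (t + N * m) / 2 := Nat.floor_le hx0
  have h2 : (t + N * m) / 2 < k + 1 := Nat.lt_floor_add_one _
  rcases lt_or_ge k (N * m) with h | h
  · refine ⟨k, h, ?_⟩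
    unfold cq
    push_cast
    rw [abs_le]
    constructor <;> linarith
  · refine ⟨N * m - 1, by omega, ?_⟩
    unfold cq
    have h3 : ((N * m - 1 : ℕ) : ℝ) = N * m - 1 := by
      rw [Nat.cast_sub (by omega)]
      push_cast
      ring
    have h4 : (N * m : ℝ) ≤ k := by exact_mod_cast h
    have h5 : (((N * m - 1 : ℕ) : ℤ) : ℝ) = N * m - 1 := by
      rw [Int.cast_natCast, h3]
    push_cast [h5]
    rw [abs_le]
    constructor <;> linarith

theorem exists_bd (hm : 9 ≤ m) {p : ℕ} (hp : p < N * m) (h : Bor m p) :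
    ∃ (i : Fin N) (j : Fin 8), (i : ℕ) * m + bd m j = p := by
  have hlt : p % m < m := Nat.mod_lt _ (by omega)
  have hdm := Nat.div_add_mod p m
  rcases h with h | h
  · refine ⟨⟨p / m, div_lt_N hp⟩, ⟨p % m, by omega⟩, ?_⟩
    unfold bd
    simp only [h, if_true]
    rw [mul_comm]
    exact hdm
  · refine ⟨⟨p / m, div_lt_N hp⟩, ⟨p % m - (m - 8), by omega⟩, ?_⟩
    unfold bd
    simp only
    rw [if_neg (by omega), mul_comm]
    omega

theorem bdpos_lt (hm : 9 ≤ m) (i : Fin N) (j : Fin 8) : (i : ℕ) * m + bd m j < N * m := by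
  have h1 := bd_lt hm j
  have h2 : (i : ℕ) + 1 ≤ N := i.2
  nlinarith

theorem mem_children (hm : 9 ≤ m) {T T' : Sq} : T' ∈ children N m T ↔
    (∃ i, T' = big N m T i) ∨
    (∃ p q, p < N * m ∧ q < N * m ∧ (Bor m p ∨ Bor m q) ∧ T' = small N m T p q) := by
  classical
  unfold children
  simp only [Finset.mem_union, Finset.mem_image, Finset.mem_univ, true_and]
  constructor
  · rintro (⟨i, rfl⟩ | ⟨x, rfl⟩ | ⟨x, rfl⟩)
    · left; exact ⟨i, rfl⟩
    · right
      exact ⟨_, _, bdpos_lt hm _ _, x.2.2.2, Or.inl (bor_bd hm _ _), rfl⟩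
    · right
      exact ⟨_, _, x.2.2.2, bdpos_lt hm _ _, Or.inr (bor_bd hm _ _), rfl⟩
  · rintro (⟨i, rfl⟩ | ⟨p, q, hp, hq, h, rfl⟩)
    · left; exact ⟨i, rfl⟩
    · right
      rcases h with h | h
      · left
        obtain ⟨i, j, hij⟩ := exists_bd hm hp h
        refine ⟨⟨i, j, ⟨q, hq⟩⟩, ?_⟩
        simp only [hij]
      · right
        obtain ⟨i, j, hij⟩ := exists_bd hm hq h
        refine ⟨⟨i, j, ⟨p, hp⟩⟩, ?_⟩
        simp only [hij]

theorem un_pos (hN : 1 ≤ N) (hm : 9 ≤ m) {T : Sq} (hT : 0 < T.r) : 0 < un N m T := by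
  unfold un
  have : 0 < N * m := by positivity
  have : (0 : ℝ) < N * m := by exact_mod_cast this
  positivity

theorem un_mul (hN : 1 ≤ N) (hm : 9 ≤ m) (T : Sq) : un N m T * (N * m) = T.r := by
  unfold un
  have : 0 < N * m := by positivity
  have : (0 : ℝ) < N * m := by exact_mod_cast this
  field_simp

theorem dist_pt_le {T : Sq} (hu : 0 ≤ un N m T) {a b a' b' : ℤ} {k : ℝ}
    (h1 : ((|a - a'| : ℤ) : ℝ) ≤ k) (h2 : ((|b - b'| : ℤ) : ℝ) ≤ k) :
    dist (pt N m T a b) (pt N m T a' b') ≤ un N m T * k := by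
  rw [Prod.dist_eq]
  unfold pt
  simp only [Real.dist_eq]
  push_cast at h1 h2
  apply max_le
  · have : T.c.1 + un N m T * a - (T.c.1 + un N m T * a') = un N m T * (a - a') := by ring
    rw [this, abs_mul, abs_of_nonneg hu]
    exact mul_le_mul_of_nonneg_left h1 hu
  · have : T.c.2 + un N m T * b - (T.c.2 + un N m T * b') = un N m T * (b - b') := by ring
    rw [this, abs_mul, abs_of_nonneg hu]
    exact mul_le_mul_of_nonneg_left h2 hu

theorem le_dist_pt {T : Sq} (hu : 0 ≤ un N m T) {a b a' b' : ℤ} {k : ℝ}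
    (h : k ≤ ((|a - a'| : ℤ) : ℝ) ∨ k ≤ ((|b - b'| : ℤ) : ℝ)) :
    un N m T * k ≤ dist (pt N m T a b) (pt N m T a' b') := by
  rw [Prod.dist_eq]
  unfold pt
  simp only [Real.dist_eq]
  push_cast at h
  rcases h with h | h
  · apply le_max_of_le_left
    have : T.c.1 + un N m T * a - (T.c.1 + un N m T * a') = un N m T * (a - a') := by ring
    rw [this, abs_mul, abs_of_nonneg hu]
    exact mul_le_mul_of_nonneg_left h hu
  · apply le_max_of_le_right
    have : T.c.2 + un N m T * b - (T.c.2 + un N m T * b') = un N m T * (b - b') := by ring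
    rw [this, abs_mul, abs_of_nonneg hu]
    exact mul_le_mul_of_nonneg_left h hu

/-- distinct children have disjoint interiors -/
theorem children_disjoint (hN : 1 ≤ N) (hm : 9 ≤ m) {T : Sq} (hT : 0 < T.r) {T₁ T₂ : Sq}
    (h₁ : T₁ ∈ children N m T) (h₂ : T₂ ∈ children N m T) (hne : T₁ ≠ T₂) :
    Disjoint (ball T₁.c T₁.r) (ball T₂.c T₂.r) := by
  have hu := (un_pos hN hm hT).le
  have key : ∀ {i : Fin N × Fin N} {p q : ℕ}, (Bor m p ∨ Bor m q) →
      un N m T * (m - 8) + un N m T ≤ dist (bc N m T i) (pt N m T (cq N m p) (cq N m q)) := by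
    intro i p q h
    have : un N m T * (m - 8) + un N m T = un N m T * (m - 8 + 1) := by ring
    rw [this, dist_comm]
    apply le_dist_pt hu
    rcases h with h | h
    · left
      have := sep_mixed (N := N) hm (i := i.1) h
      exact_mod_cast this
    · right
      have := sep_mixed (N := N) hm (i := i.2) h
      exact_mod_cast this
  rcases (mem_children hm).1 h₁ with ⟨i, rfl⟩ | ⟨p, q, hp, hq, h, rfl⟩
  · rcases (mem_children hm).1 h₂ with ⟨i', rfl⟩ | ⟨p', q', hp', hq', h', rfl⟩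
    · apply ball_disjoint_ball
      show un N m T * (m - 8) + un N m T * (m - 8) ≤ dist (bc N m T i) (bc N m T i')
      have hii : i ≠ i' := fun h => hne (by rw [h])
      have h3 : un N m T * (m - 8) + un N m T * (m - 8) ≤ un N m T * (m + m) := by nlinarith
      refine h3.trans ?_
      apply le_dist_pt hu
      by_cases h4 : i.1 = i'.1
      · right
        have h5 : (i.2 : ℕ) ≠ i'.2 := fun h => hii (Prod.ext h4 (Fin.ext h))
        have := sep_block (N := N) (m := m) h5
        exact_mod_cast this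
      · left
        have h5 : (i.1 : ℕ) ≠ i'.1 := fun h => h4 (Fin.ext h)
        have := sep_block (N := N) (m := m) h5
        exact_mod_cast this
    · apply ball_disjoint_ball
      exact key h'
  · rcases (mem_children hm).1 h₂ with ⟨i', rfl⟩ | ⟨p', q', hp', hq', h', rfl⟩
    · apply ball_disjoint_ball
      rw [dist_comm, add_comm]
      exact key h
    · apply ball_disjoint_ball
      show un N m T + un N m T ≤ dist (pt N m T (cq N m p) (cq N m q)) (pt N m T (cq N m p') (cq N m q'))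
      have h3 : un N m T + un N m T = un N m T * (1 + 1) := by ring
      rw [h3]
      apply le_dist_pt hu
      by_cases h4 : p = p'
      · right
        have h5 : q ≠ q' := fun h => hne (by rw [h4, h])
        have := sep_cell (N := N) (m := m) h5
        exact_mod_cast this
      · left
        have := sep_cell (N := N) (m := m) h4
        exact_mod_cast this

/-- the open blocks are disjoint -/
theorem blocks_disjoint (hN : 1 ≤ N) (hm : 9 ≤ m) {T : Sq} (hT : 0 < T.r) {i i' : Fin N × Fin N}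
    (hii : i ≠ i') :
    Disjoint (ball (bc N m T i) (un N m T * m)) (ball (bc N m T i') (un N m T * m)) := by
  have hu := (un_pos hN hm hT).le
  apply ball_disjoint_ball
  rw [← mul_add]
  apply le_dist_pt hu
  by_cases h4 : i.1 = i'.1
  · right
    have h5 : (i.2 : ℕ) ≠ i'.2 := fun h => hii (Prod.ext h4 (Fin.ext h))
    have := sep_block (N := N) (m := m) h5
    exact_mod_cast this
  · left
    have h5 : (i.1 : ℕ) ≠ i'.1 := fun h => h4 (Fin.ext h)
    have := sep_block (N := N) (m := m) h5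
    exact_mod_cast this

theorem c_eq (T : Sq) : T.c = pt N m T 0 0 := by
  unfold pt
  simp

theorem block_subset (hN : 1 ≤ N) (hm : 9 ≤ m) {T : Sq} (hT : 0 < T.r) (i : Fin N × Fin N) :
    un N m T * m + dist (bc N m T i) T.c ≤ T.r := by
  have hu := (un_pos hN hm hT).le
  have h1 : dist (bc N m T i) T.c ≤ un N m T * (N * m - m) := by
    rw [c_eq (N := N) (m := m) T]
    apply dist_pt_le hu
    · have := block_in (m := m) i.1.2
      have : |bq N m i.1 - 0| ≤ (N : ℤ) * m - m := by rw [sub_zero]; linarith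
      exact_mod_cast this
    · have := block_in (m := m) i.2.2
      have : |bq N m i.2 - 0| ≤ (N : ℤ) * m - m := by rw [sub_zero]; linarith
      exact_mod_cast this
  have h2 := un_mul hN hm T
  nlinarith

theorem big_subset_block (hN : 1 ≤ N) (hm : 9 ≤ m) {T : Sq} (hT : 0 < T.r) (i : Fin N × Fin N) :
    closedBall (big N m T i).c (big N m T i).r ⊆ closedBall (bc N m T i) (un N m T * m) := by
  have hu := (un_pos hN hm hT).le
  apply closedBall_subset_closedBall
  show un N m T * (m - 8) ≤ un N m T * m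
  nlinarith

theorem small_subset_block (hN : 1 ≤ N) (hm : 9 ≤ m) {T : Sq} (hT : 0 < T.r) {p q : ℕ}
    (hp : p < N * m) (hq : q < N * m) :
    closedBall (small N m T p q).c (small N m T p q).r ⊆
      closedBall (bc N m T (⟨p / m, div_lt_N hp⟩, ⟨q / m, div_lt_N hq⟩)) (un N m T * m) := by
  have hu := (un_pos hN hm hT).le
  apply closedBall_subset_closedBall'
  show un N m T + dist (pt N m T (cq N m p) (cq N m q)) _ ≤ un N m T * m
  have h1 : dist (pt N m T (cq N m p) (cq N m q))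
      (bc N m T (⟨p / m, div_lt_N hp⟩, ⟨q / m, div_lt_N hq⟩)) ≤ un N m T * (m - 1) := by
    apply dist_pt_le hu
    · have := cell_in_block (N := N) hm p
      have : |cq N m p - bq N m (p / m)| ≤ (m : ℤ) - 1 := by linarith
      exact_mod_cast this
    · have := cell_in_block (N := N) hm q
      have : |cq N m q - bq N m (q / m)| ≤ (m : ℤ) - 1 := by linarith
      exact_mod_cast this
  nlinarith

/-- every child is contained in a closed block -/
theorem child_subset_block (hN : 1 ≤ N) (hm : 9 ≤ m) {T : Sq} (hT : 0 < T.r) {T' : Sq}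
    (h : T' ∈ children N m T) :
    ∃ i, closedBall T'.c T'.r ⊆ closedBall (bc N m T i) (un N m T * m) := by
  rcases (mem_children hm).1 h with ⟨i, rfl⟩ | ⟨p, q, hp, hq, _, rfl⟩
  · exact ⟨i, big_subset_block hN hm hT i⟩
  · exact ⟨_, small_subset_block hN hm hT hp hq⟩

theorem block_subset_closedBall (hN : 1 ≤ N) (hm : 9 ≤ m) {T : Sq} (hT : 0 < T.r)
    (i : Fin N × Fin N) :
    closedBall (bc N m T i) (un N m T * m) ⊆ closedBall T.c T.r :=
  closedBall_subset_closedBall' (block_subset hN hm hT i)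

theorem block_subset_ball (hN : 1 ≤ N) (hm : 9 ≤ m) {T : Sq} (hT : 0 < T.r)
    (i : Fin N × Fin N) :
    ball (bc N m T i) (un N m T * m) ⊆ ball T.c T.r :=
  ball_subset_ball' (block_subset hN hm hT i)

theorem child_subset (hN : 1 ≤ N) (hm : 9 ≤ m) {T : Sq} (hT : 0 < T.r) {T' : Sq}
    (h : T' ∈ children N m T) : closedBall T'.c T'.r ⊆ closedBall T.c T.r := by
  obtain ⟨i, hi⟩ := child_subset_block hN hm hT h
  exact hi.trans (block_subset_closedBall hN hm hT i)

theorem child_r_pos (hN : 1 ≤ N) (hm : 9 ≤ m) {T : Sq} (hT : 0 < T.r) {T' : Sq}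
    (h : T' ∈ children N m T) : 0 < T'.r := by
  have hu := un_pos hN hm hT
  rcases (mem_children hm).1 h with ⟨i, rfl⟩ | ⟨p, q, hp, hq, _, rfl⟩
  · show 0 < un N m T * (m - 8)
    have : (9 : ℝ) ≤ m := by exact_mod_cast hm
    apply mul_pos hu
    linarith
  · exact hu

theorem child_ball_subset (hN : 1 ≤ N) (hm : 9 ≤ m) {T : Sq} (hT : 0 < T.r) {T' : Sq}
    (h : T' ∈ children N m T) : ball T'.c T'.r ⊆ ball T.c T.r := by
  have h1 := child_subset hN hm hT h
  rw [← interior_closedBall _ (child_r_pos hN hm hT h).ne', ← interior_closedBall _ hT.ne']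
  exact interior_mono h1

/-- the children cover the square -/
theorem children_cover (hN : 1 ≤ N) (hm : 9 ≤ m) {T : Sq} (hT : 0 < T.r) {x : ℝ × ℝ}
    (hx : x ∈ closedBall T.c T.r) : ∃ T' ∈ children N m T, x ∈ closedBall T'.c T'.r := by
  have hu := un_pos hN hm hT
  have hum := un_mul hN hm T
  rw [mem_closedBall, Prod.dist_eq, max_le_iff, Real.dist_eq, Real.dist_eq] at hx
  have hco : ∀ {y c : ℝ}, |y - c| ≤ T.r → |(y - c) / un N m T| ≤ N * m := by
    intro y c h
    rw [abs_div, abs_of_pos hu, div_le_iff₀ hu]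
    linarith
  obtain ⟨p, hp, hp1⟩ := cover_one hN hm (hco hx.1)
  obtain ⟨q, hq, hq1⟩ := cover_one hN hm (hco hx.2)
  have hmul : ∀ {y c : ℝ} {a : ℤ} {k : ℝ}, |(y - c) / un N m T - a| ≤ k →
      |y - (c + un N m T * a)| ≤ un N m T * k := by
    intro y c a k h
    have : y - (c + un N m T * a) = un N m T * ((y - c) / un N m T - a) := by
      field_simp
      ring
    rw [this, abs_mul, abs_of_pos hu]
    exact mul_le_mul_of_nonneg_left h hu.le
  by_cases hb : Bor m p ∨ Bor m q
  · refine ⟨small N m T p q, (mem_children hm).2 (Or.inr ⟨p, q, hp, hq, hb, rfl⟩), ?_⟩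
    rw [mem_closedBall, Prod.dist_eq, max_le_iff, Real.dist_eq, Real.dist_eq]
    have h1 := hmul hp1
    have h2 := hmul hq1
    rw [mul_one] at h1 h2
    exact ⟨h1, h2⟩
  · push Not at hb
    refine ⟨big N m T (⟨p / m, div_lt_N hp⟩, ⟨q / m, div_lt_N hq⟩),
      (mem_children hm).2 (Or.inl ⟨_, rfl⟩), ?_⟩
    rw [mem_closedBall, Prod.dist_eq, max_le_iff, Real.dist_eq, Real.dist_eq]
    have h3 := inner_cell (N := N) hm hb.1
    have h4 := inner_cell (N := N) hm hb.2
    have h3' : |((cq N m p : ℤ) : ℝ) - ((bq N m (p / m) : ℤ) : ℝ)| + 1 ≤ (m : ℝ) - 8 := by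
      exact_mod_cast h3
    have h4' : |((cq N m q : ℤ) : ℝ) - ((bq N m (q / m) : ℤ) : ℝ)| + 1 ≤ (m : ℝ) - 8 := by
      exact_mod_cast h4
    constructor
    · apply hmul
      refine (abs_sub_le _ ((cq N m p : ℤ) : ℝ) _).trans ?_
      linarith
    · apply hmul
      refine (abs_sub_le _ ((cq N m q : ℤ) : ℝ) _).trans ?_
      linarith

variable (N m)

/-- the bump function of block `i` -/
def bump (T : Sq) (i : Fin N × Fin N) (x : ℝ × ℝ) : ℝ :=
  max 0 (min 1 ((un N m T * m - dist x (bc N m T i)) / (8 * un N m T)))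

/-- the relative value of block `i` -/
def val (i : Fin N × Fin N) : ℝ := ((i.1 : ℕ) * N + (i.2 : ℕ)) / N ^ 2

/-- the correction on the square `T` -/
def corr (T : Sq) (g : ℝ × ℝ → ℝ) (x : ℝ × ℝ) : ℝ :=
  ∑ i : Fin N × Fin N, bump N m T i x * (g T.c + val N i * T.w - g x)

open Classical in
/-- the squares of stage `n` -/
def S : ℕ → Finset Sq
  | 0 => {⟨(0, 0), 1, 1⟩}
  | n + 1 => (S n).biUnion (children N m)

/-- the `n`-th approximation -/
def F : ℕ → ℝ × ℝ → ℝ
  | 0 => fun _ => 0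
  | n + 1 => fun x => F n x + ∑ T ∈ S N m n, corr N m T (F n) x

variable {N m}

theorem bump_nonneg (T : Sq) (i : Fin N × Fin N) (x : ℝ × ℝ) : 0 ≤ bump N m T i x :=
  le_max_left _ _

theorem bump_le_one (T : Sq) (i : Fin N × Fin N) (x : ℝ × ℝ) : bump N m T i x ≤ 1 :=
  max_le zero_le_one (min_le_left _ _)

theorem bump_continuous (T : Sq) (i : Fin N × Fin N) : Continuous (bump N m T i) := by
  unfold bump
  fun_prop

theorem bump_eq_zero {T : Sq} (hu : 0 < un N m T) {i : Fin N × Fin N} {x : ℝ × ℝ}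
    (hx : x ∉ ball (bc N m T i) (un N m T * m)) : bump N m T i x = 0 := by
  unfold bump
  rw [mem_ball, not_lt] at hx
  apply max_eq_left
  apply min_le_of_right_le
  apply div_nonpos_of_nonpos_of_nonneg
  · linarith
  · positivity

theorem bump_eq_one {T : Sq} (hu : 0 < un N m T) {i : Fin N × Fin N} {x : ℝ × ℝ}
    (hx : x ∈ closedBall (bc N m T i) (un N m T * (m - 8))) : bump N m T i x = 1 := by
  unfold bump
  rw [mem_closedBall] at hx
  rw [min_eq_left, max_eq_right zero_le_one]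
  rw [le_div_iff₀ (by positivity)]
  linarith

theorem abs_clamp_sub (a b : ℝ) : |max 0 (min 1 a) - max 0 (min 1 b)| ≤ |a - b| := by
  refine (abs_max_sub_max_le_max _ _ _ _).trans ?_
  apply max_le
  · simp
  · refine (abs_min_sub_min_le_max _ _ _ _).trans ?_
    apply max_le
    · simp
    · exact le_rfl

theorem bump_lip {T : Sq} (hu : 0 < un N m T) (i : Fin N × Fin N) (x y : ℝ × ℝ) :
    |bump N m T i x - bump N m T i y| ≤ dist x y / (8 * un N m T) := by
  unfold bump
  refine (abs_clamp_sub _ _).trans ?_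
  rw [← sub_div, abs_div, abs_of_pos (show 0 < 8 * un N m T by positivity)]
  apply div_le_div_of_nonneg_right _ (by positivity)
  have : un N m T * m - dist x (bc N m T i) - (un N m T * m - dist y (bc N m T i)) =
      -(dist x (bc N m T i) - dist y (bc N m T i)) := by ring
  rw [this, abs_neg]
  exact abs_dist_sub_le x y _

theorem val_nonneg (i : Fin N × Fin N) : 0 ≤ val N i := by
  unfold val
  positivity

theorem val_lt_one (i : Fin N × Fin N) : val N i < 1 := by
  unfold val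
  have h1 : (i.1 : ℕ) + 1 ≤ N := i.1.2
  have h2 : (i.2 : ℕ) + 1 ≤ N := i.2.2
  have h1' : ((i.1 : ℕ) : ℝ) + 1 ≤ N := by exact_mod_cast h1
  have h2' : ((i.2 : ℕ) : ℝ) + 1 ≤ N := by exact_mod_cast h2
  have hN : (0 : ℝ) < N := by
    have : 0 < N := by omega
    exact_mod_cast this
  rw [div_lt_one (by positivity)]
  nlinarith

/-- `corr` vanishes outside the open square -/
theorem corr_eq_zero (hN : 1 ≤ N) (hm : 9 ≤ m) {T : Sq} (hT : 0 < T.r) (g : ℝ × ℝ → ℝ) {x : ℝ × ℝ}
    (hx : x ∉ ball T.c T.r) : corr N m T g x = 0 := by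
  unfold corr
  apply Finset.sum_eq_zero
  intro i _
  rw [bump_eq_zero (un_pos hN hm hT) (fun h => hx (block_subset_ball hN hm hT i h)), zero_mul]

/-- `corr` on a closed block -/
theorem corr_eq (hN : 1 ≤ N) (hm : 9 ≤ m) {T : Sq} (hT : 0 < T.r) (g : ℝ × ℝ → ℝ) {x : ℝ × ℝ}
    {i : Fin N × Fin N} (hx : x ∈ closedBall (bc N m T i) (un N m T * m)) :
    corr N m T g x = bump N m T i x * (g T.c + val N i * T.w - g x) := by
  unfold corr
  apply Finset.sum_eq_single i
  · intro j _ hji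
    have hu := un_pos hN hm hT
    rw [bump_eq_zero hu, zero_mul]
    intro hj
    have h1 := (blocks_disjoint hN hm hT hji).closure_right (isOpen_ball)
    rw [closure_ball] at h1
    · exact Set.disjoint_left.1 h1 hj hx
    · have : (9 : ℝ) ≤ m := by exact_mod_cast hm
      exact (mul_pos hu (by linarith)).ne'
  · intro h
    exact absurd (Finset.mem_univ i) h

theorem corr_continuous (T : Sq) {g : ℝ × ℝ → ℝ} (hg : Continuous g) :
    Continuous (corr N m T g) := by
  unfold corr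
  apply continuous_finsetSum
  intro i _
  exact (bump_continuous T i).mul (continuous_const.sub hg)

theorem F_continuous (n : ℕ) : Continuous (F N m n) := by
  induction n with
  | zero => exact continuous_const
  | succ n ih =>
    show Continuous (fun x => F N m n x + ∑ T ∈ S N m n, corr N m T (F N m n) x)
    apply ih.add
    apply continuous_finsetSum
    intro T _
    exact corr_continuous T ih

theorem mem_S_succ {n : ℕ} {T' : Sq} : T' ∈ S N m (n + 1) ↔ ∃ T ∈ S N m n, T' ∈ children N m T := by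
  classical
  show T' ∈ (S N m n).biUnion (children N m) ↔ _
  rw [Finset.mem_biUnion]

theorem S_r_pos (hN : 1 ≤ N) (hm : 9 ≤ m) {n : ℕ} {T : Sq} (hT : T ∈ S N m n) : 0 < T.r := by
  induction n generalizing T with
  | zero =>
    have : T = ⟨(0, 0), 1, 1⟩ := Finset.mem_singleton.1 hT
    rw [this]
    exact one_pos
  | succ n ih =>
    obtain ⟨P, hP, hTP⟩ := mem_S_succ.1 hT
    exact child_r_pos hN hm (ih hP) hTP

theorem child_w (hN : 2 ≤ N) (hm : 9 ≤ m) {T T' : Sq} (hw : 0 < T.w) (h : T' ∈ children N m T) :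
    0 < T'.w ∧ T'.w ≤ T.w / 2 := by
  rcases (mem_children hm).1 h with ⟨i, rfl⟩ | ⟨p, q, hp, hq, _, rfl⟩
  · show 0 < T.w / N ^ 2 ∧ T.w / N ^ 2 ≤ T.w / 2
    have h2 : (2 : ℝ) ≤ N := by exact_mod_cast hN
    constructor
    · positivity
    · apply div_le_div_of_nonneg_left hw.le (by norm_num)
      nlinarith
  · show 0 < T.w / 2 ∧ T.w / 2 ≤ T.w / 2
    exact ⟨by positivity, le_rfl⟩

theorem S_w (hN : 2 ≤ N) (hm : 9 ≤ m) {n : ℕ} {T : Sq} (hT : T ∈ S N m n) :
    0 < T.w ∧ T.w ≤ (1 / 2) ^ n := by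
  induction n generalizing T with
  | zero =>
    have : T = ⟨(0, 0), 1, 1⟩ := Finset.mem_singleton.1 hT
    rw [this]
    simp
  | succ n ih =>
    obtain ⟨P, hP, hTP⟩ := mem_S_succ.1 hT
    obtain ⟨h1, h2⟩ := ih hP
    obtain ⟨h3, h4⟩ := child_w hN hm h1 hTP
    refine ⟨h3, ?_⟩
    rw [pow_succ]
    linarith

theorem S_disjoint (hN : 1 ≤ N) (hm : 9 ≤ m) {n : ℕ} {T T' : Sq} (hT : T ∈ S N m n)
    (hT' : T' ∈ S N m n) (hne : T ≠ T') : Disjoint (ball T.c T.r) (ball T'.c T'.r) := by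
  induction n generalizing T T' with
  | zero =>
    have h1 : T = ⟨(0, 0), 1, 1⟩ := Finset.mem_singleton.1 hT
    have h2 : T' = ⟨(0, 0), 1, 1⟩ := Finset.mem_singleton.1 hT'
    exact absurd (h1.trans h2.symm) hne
  | succ n ih =>
    obtain ⟨P, hP, hTP⟩ := mem_S_succ.1 hT
    obtain ⟨P', hP', hTP'⟩ := mem_S_succ.1 hT'
    by_cases hPP : P = P'
    · subst hPP
      exact children_disjoint hN hm (S_r_pos hN hm hP) hTP hTP' hne
    · exact (ih hP hP' hPP).mono (child_ball_subset hN hm (S_r_pos hN hm hP) hTP)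
        (child_ball_subset hN hm (S_r_pos hN hm hP') hTP')

/-- on a closed square of stage `n` only its own correction acts -/
theorem F_succ_eq (hN : 1 ≤ N) (hm : 9 ≤ m) {n : ℕ} {T : Sq} (hT : T ∈ S N m n) {x : ℝ × ℝ}
    (hx : x ∈ closedBall T.c T.r) : F N m (n + 1) x = F N m n x + corr N m T (F N m n) x := by
  show F N m n x + ∑ T ∈ S N m n, corr N m T (F N m n) x = _
  congr 1
  apply Finset.sum_eq_single T
  · intro T' hT' hne
    apply corr_eq_zero hN hm (S_r_pos hN hm hT')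
    intro hx'
    have h1 := (S_disjoint hN hm hT' hT hne).closure_right isOpen_ball
    rw [closure_ball _ (S_r_pos hN hm hT).ne'] at h1
    exact Set.disjoint_left.1 h1 hx' hx
  · intro h
    exact absurd hT h

theorem F_succ_eq' (hN : 1 ≤ N) (hm : 9 ≤ m) {n : ℕ} {x : ℝ × ℝ}
    (hx : ∀ T ∈ S N m n, x ∉ ball T.c T.r) : F N m (n + 1) x = F N m n x := by
  show F N m n x + ∑ T ∈ S N m n, corr N m T (F N m n) x = _
  rw [Finset.sum_eq_zero, add_zero]
  intro T hT
  exact corr_eq_zero hN hm (S_r_pos hN hm hT) _ (hx T hT)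

/-- value on a closed block -/
theorem F_block (hN : 1 ≤ N) (hm : 9 ≤ m) {n : ℕ} {T : Sq} (hT : T ∈ S N m n) {x : ℝ × ℝ}
    {i : Fin N × Fin N} (hx : x ∈ closedBall (bc N m T i) (un N m T * m)) :
    F N m (n + 1) x = F N m n x +
      bump N m T i x * (F N m n T.c + val N i * T.w - F N m n x) := by
  have hr := S_r_pos hN hm hT
  rw [F_succ_eq hN hm hT (block_subset_closedBall hN hm hr i hx), corr_eq hN hm hr _ hx]

/-- the Lipschitz invariant -/
theorem F_lip (hN : 2 ≤ N) (hm : 9 ≤ m) {n : ℕ} {T : Sq} (hT : T ∈ S N m n) {x y : ℝ × ℝ}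
    (hx : x ∈ closedBall T.c T.r) (hy : y ∈ closedBall T.c T.r) :
    |F N m n x - F N m n y| ≤ T.w / T.r * dist x y := by
  have hN1 : 1 ≤ N := by omega
  induction n generalizing T x y with
  | zero =>
    have : T = ⟨(0, 0), 1, 1⟩ := Finset.mem_singleton.1 hT
    rw [this]
    show |(0 : ℝ) - 0| ≤ _
    simp
  | succ n ih =>
    obtain ⟨P, hP, hTP⟩ := mem_S_succ.1 hT
    have hr := S_r_pos hN1 hm hP
    have hu := un_pos hN1 hm hr
    obtain ⟨hw, _⟩ := S_w hN hm hP
    rcases (mem_children hm).1 hTP with ⟨i, rfl⟩ | ⟨p, q, hp, hq, _, rfl⟩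
    · have hc : ∀ z ∈ closedBall (big N m P i).c (big N m P i).r,
          F N m (n + 1) z = F N m n P.c + val N i * P.w := by
        intro z hz
        rw [F_block hN1 hm hP (big_subset_block hN1 hm hr i hz), bump_eq_one hu hz]
        ring
      rw [hc x hx, hc y hy, sub_self, abs_zero]
      have h1 := S_r_pos hN1 hm hT
      obtain ⟨h2, _⟩ := S_w hN hm hT
      positivity
    · set i : Fin N × Fin N := (⟨p / m, div_lt_N hp⟩, ⟨q / m, div_lt_N hq⟩) with hi
      have hxb := small_subset_block hN1 hm hr hp hq hx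
      have hyb := small_subset_block hN1 hm hr hp hq hy
      have hxP := block_subset_closedBall hN1 hm hr _ hxb
      have hyP := block_subset_closedBall hN1 hm hr _ hyb
      have hcP : P.c ∈ closedBall P.c P.r := mem_closedBall_self hr.le
      rw [F_block hN1 hm hP hxb, F_block hN1 hm hP hyb]
      set a := F N m n P.c + val N i * P.w with ha
      have h1 := ih hP hxP hyP
      have h2 := ih hP hcP hyP
      have h3 : |a - F N m n y| ≤ 2 * P.w := by
        have h4 : |val N i * P.w| ≤ P.w := by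
          rw [abs_of_nonneg (mul_nonneg (val_nonneg i) hw.le)]
          have := (val_lt_one i).le
          nlinarith
        have h5 : P.w / P.r * dist P.c y ≤ P.w := by
          rw [mem_closedBall, dist_comm] at hyP
          rw [div_mul_eq_mul_div, div_le_iff₀ hr]
          exact mul_le_mul_of_nonneg_left hyP hw.le
        have : a - F N m n y = (F N m n P.c - F N m n y) + val N i * P.w := by
          rw [ha]; ring
        rw [this]
        refine (abs_add_le _ _).trans ?_
        linarith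
      have h6 : F N m n x + bump N m P i x * (a - F N m n x) -
          (F N m n y + bump N m P i y * (a - F N m n y)) =
          (1 - bump N m P i x) * (F N m n x - F N m n y) +
            (bump N m P i x - bump N m P i y) * (a - F N m n y) := by ring
      rw [h6]
      refine (abs_add_le _ _).trans ?_
      rw [abs_mul, abs_mul]
      have h7 : |1 - bump N m P i x| ≤ 1 := by
        have := bump_nonneg (m := m) P i x
        have := bump_le_one (m := m) P i x
        rw [abs_le]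
        constructor <;> linarith
      have h8 := bump_lip hu i x y
      have hd : 0 ≤ dist x y := dist_nonneg
      have h9 : |1 - bump N m P i x| * |F N m n x - F N m n y| ≤ P.w / P.r * dist x y := by
        refine (mul_le_mul h7 h1 (abs_nonneg _) zero_le_one).trans ?_
        rw [one_mul]
      have h10 : |bump N m P i x - bump N m P i y| * |a - F N m n y| ≤
          dist x y / (8 * un N m P) * (2 * P.w) :=
        mul_le_mul h8 h3 (abs_nonneg _) (by positivity)
      refine (add_le_add h9 h10).trans ?_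
      show P.w / P.r * dist x y + dist x y / (8 * un N m P) * (2 * P.w) ≤
        P.w / 2 / un N m P * dist x y
      have h11 : 4 * un N m P ≤ P.r := by
        have h12 := un_mul hN1 hm P
        have h13 : (4 : ℝ) ≤ N * m := by
          have : 4 ≤ N * m := by nlinarith
          exact_mod_cast this
        nlinarith
      have h14 : P.w / P.r ≤ P.w / (4 * un N m P) :=
        div_le_div_of_nonneg_left hw.le (by positivity) h11
      have h15 : P.w / P.r * dist x y ≤ P.w / (4 * un N m P) * dist x y :=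
        mul_le_mul_of_nonneg_right h14 hd
      refine (add_le_add h15 le_rfl).trans (le_of_eq ?_)
      field_simp
      ring

theorem a_bound (hN : 2 ≤ N) (hm : 9 ≤ m) {n : ℕ} {T : Sq} (hT : T ∈ S N m n) {y : ℝ × ℝ}
    (hy : y ∈ closedBall T.c T.r) (i : Fin N × Fin N) :
    |F N m n T.c + val N i * T.w - F N m n y| ≤ 2 * T.w := by
  have hr := S_r_pos (by omega) hm hT
  obtain ⟨hw, _⟩ := S_w hN hm hT
  have h2 := F_lip hN hm hT (mem_closedBall_self hr.le) hy
  have h4 : |val N i * T.w| ≤ T.w := by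
    rw [abs_of_nonneg (mul_nonneg (val_nonneg i) hw.le)]
    have := (val_lt_one i).le
    nlinarith
  have h5 : T.w / T.r * dist T.c y ≤ T.w := by
    rw [mem_closedBall, dist_comm] at hy
    rw [div_mul_eq_mul_div, div_le_iff₀ hr]
    exact mul_le_mul_of_nonneg_left hy hw.le
  have : F N m n T.c + val N i * T.w - F N m n y =
      (F N m n T.c - F N m n y) + val N i * T.w := by ring
  rw [this]
  refine (abs_add_le _ _).trans ?_
  linarith

theorem step_bound (hN : 2 ≤ N) (hm : 9 ≤ m) {n : ℕ} {T : Sq} (hT : T ∈ S N m n) {x : ℝ × ℝ}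
    (hx : x ∈ closedBall T.c T.r) : |F N m (n + 1) x - F N m n x| ≤ 2 * T.w := by
  have hN1 : 1 ≤ N := by omega
  have hr := S_r_pos hN1 hm hT
  obtain ⟨T', hT', hxT'⟩ := children_cover hN1 hm hr hx
  obtain ⟨i, hi⟩ := child_subset_block hN1 hm hr hT'
  rw [F_block hN1 hm hT (hi hxT'), add_sub_cancel_left, abs_mul]
  have h1 := a_bound hN hm hT hx i
  have h2 : |bump N m T i x| ≤ 1 := by
    rw [abs_of_nonneg (bump_nonneg T i x)]
    exact bump_le_one T i x
  calc _ ≤ 1 * (2 * T.w) := mul_le_mul h2 h1 (abs_nonneg _) zero_le_one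
    _ = 2 * T.w := one_mul _

theorem step_bound' (hN : 2 ≤ N) (hm : 9 ≤ m) (n : ℕ) (x : ℝ × ℝ) :
    dist (F N m n x) (F N m (n + 1) x) ≤ 2 * (1 / 2) ^ n := by
  rw [dist_comm, Real.dist_eq]
  by_cases h : ∃ T ∈ S N m n, x ∈ ball T.c T.r
  · obtain ⟨T, hT, hx⟩ := h
    refine (step_bound hN hm hT (ball_subset_closedBall hx)).trans ?_
    have := (S_w hN hm hT).2
    linarith
  · push Not at h
    rw [F_succ_eq' (by omega) hm h, sub_self, abs_zero]
    positivity

theorem tail_bound (hN : 2 ≤ N) (hm : 9 ≤ m) (k : ℕ) {n : ℕ} {T : Sq} (hT : T ∈ S N m n)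
    {x : ℝ × ℝ} (hx : x ∈ closedBall T.c T.r) : |F N m (n + k) x - F N m n x| ≤ 4 * T.w := by
  have hN1 : 1 ≤ N := by omega
  induction k generalizing n T with
  | zero =>
    rw [Nat.add_zero, sub_self, abs_zero]
    have := (S_w hN hm hT).1
    positivity
  | succ k ih =>
    have hr := S_r_pos hN1 hm hT
    obtain ⟨T', hT', hxT'⟩ := children_cover hN1 hm hr hx
    have h1 := ih (mem_S_succ.2 ⟨T, hT, hT'⟩) hxT'
    have h2 := step_bound hN hm hT hx
    have h3 := (child_w hN hm (S_w hN hm hT).1 hT').2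
    have h4 : n + 1 + k = n + (k + 1) := by ring
    rw [h4] at h1
    have : F N m (n + (k + 1)) x - F N m n x =
        (F N m (n + (k + 1)) x - F N m (n + 1) x) + (F N m (n + 1) x - F N m n x) := by ring
    rw [this]
    refine (abs_add_le _ _).trans ?_
    linarith

open Filter

variable (N m)

/-- the limit function -/
def f (x : ℝ × ℝ) : ℝ := limUnder Filter.atTop (fun n => F N m n x)

variable {N m}

theorem tendsto_f (hN : 2 ≤ N) (hm : 9 ≤ m) (x : ℝ × ℝ) :
    Tendsto (fun n => F N m n x) atTop (𝓝 (f N m x)) := by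
  have : CauchySeq (fun n => F N m n x) :=
    cauchySeq_of_le_geometric (1 / 2) 2 (by norm_num) (fun n => step_bound' hN hm n x)
  exact this.tendsto_limUnder

theorem f_continuous (hN : 2 ≤ N) (hm : 9 ≤ m) : Continuous (f N m) := by
  have h1 : TendstoUniformly (fun n => F N m n) (f N m) atTop := by
    rw [Metric.tendstoUniformly_iff]
    intro ε hε
    have h2 : Tendsto (fun n : ℕ => 2 * (1 / 2 : ℝ) ^ n / (1 - 1 / 2)) atTop (𝓝 (2 * 0 / (1 - 1 / 2))) := by
      apply Tendsto.div_const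
      apply Tendsto.const_mul
      exact tendsto_pow_atTop_nhds_zero_of_lt_one (by norm_num) (by norm_num)
    rw [mul_zero, zero_div] at h2
    filter_upwards [(tendsto_order.1 h2).2 ε hε] with n hn x
    rw [dist_comm]
    exact (dist_le_of_le_geometric_of_tendsto (1 / 2) 2 (by norm_num)
      (fun n => step_bound' hN hm n x) (tendsto_f hN hm x) n).trans_lt hn
  exact h1.continuous (Frequently.of_forall fun n => F_continuous n)

theorem f_bound (hN : 2 ≤ N) (hm : 9 ≤ m) {n : ℕ} {T : Sq} (hT : T ∈ S N m n)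
    {x : ℝ × ℝ} (hx : x ∈ closedBall T.c T.r) : |f N m x - F N m n x| ≤ 4 * T.w := by
  have h1 : Tendsto (fun k => |F N m (n + k) x - F N m n x|) atTop
      (𝓝 |f N m x - F N m n x|) := by
    apply Tendsto.abs
    apply Tendsto.sub_const
    have h2 := (tendsto_f hN hm x).comp (tendsto_add_atTop_nat n)
    refine h2.congr ?_
    intro k
    simp only [Function.comp, add_comm]
  exact le_of_tendsto' h1 (fun k => tail_bound hN hm k hT hx)

/-- the blocks whose value is near `z` -/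
def Good (T : Sq) (a z : ℝ) : Finset (Fin N × Fin N) :=
  Finset.univ.filter fun i => |a + val N i * T.w - z| ≤ 5 * (T.w / N ^ 2)

theorem card_Good (hN : 2 ≤ N) {T : Sq} (hw : 0 < T.w) (a z : ℝ) :
    (Good (N := N) T a z).card ≤ 11 := by
  classical
  set t : ℝ := (z - a) * N ^ 2 / T.w with ht
  have hN0 : (0 : ℝ) < N := by
    have : 0 < N := by omega
    exact_mod_cast this
  have h1 : (Good (N := N) T a z).card ≤ (Finset.Icc ⌈t - 5⌉ ⌊t + 5⌋).card := by
    apply Finset.card_le_card_of_injOn (fun i => (((i.1 : ℕ) * N + (i.2 : ℕ) : ℕ) : ℤ))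
    · intro i hi
      have hi' : |a + val N i * T.w - z| ≤ 5 * (T.w / N ^ 2) := (Finset.mem_filter.1 hi).2
      have h2 : |((((i.1 : ℕ) * N + (i.2 : ℕ) : ℕ) : ℤ) : ℝ) - t| ≤ 5 := by
        have h3 : ((((i.1 : ℕ) * N + (i.2 : ℕ) : ℕ) : ℤ) : ℝ) - t =
            (a + val N i * T.w - z) * (N ^ 2 / T.w) := by
          rw [ht]
          unfold val
          push_cast
          field_simp
          ring
        rw [h3, abs_mul, abs_of_pos (show 0 < (N : ℝ) ^ 2 / T.w by positivity)]
        calc _ ≤ 5 * (T.w / N ^ 2) * (N ^ 2 / T.w) :=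
              mul_le_mul_of_nonneg_right hi' (by positivity)
          _ = 5 := by field_simp
      rw [abs_le] at h2
      simp only [Finset.coe_Icc, Set.mem_Icc]
      constructor
      · rw [Int.ceil_le]
        linarith
      · rw [Int.le_floor]
        linarith
    · intro i _ j _ hij
      have hij' : (i.1 : ℕ) * N + (i.2 : ℕ) = (j.1 : ℕ) * N + (j.2 : ℕ) := Int.natCast_inj.1 hij
      have hi2 := i.2.2
      have hj2 := j.2.2
      have h4 : (i.1 : ℕ) = j.1 := by
        have h5 : ((i.1 : ℕ) * N + (i.2 : ℕ)) / N = ((j.1 : ℕ) * N + (j.2 : ℕ)) / N := by rw [hij']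
        rw [mul_comm, Nat.mul_add_div (by omega), Nat.div_eq_of_lt hi2,
          mul_comm (j.1 : ℕ), Nat.mul_add_div (by omega), Nat.div_eq_of_lt hj2] at h5
        simpa using h5
      have h6 : (i.2 : ℕ) = j.2 := by
        rw [h4] at hij'
        omega
      exact Prod.ext (Fin.ext h4) (Fin.ext h6)
  refine h1.trans ?_
  rw [Int.card_Icc]
  have h2 : (⌊t + 5⌋ : ℝ) ≤ t + 5 := Int.floor_le _
  have h3 : t - 5 ≤ (⌈t - 5⌉ : ℝ) := Int.le_ceil _
  have h4 : (⌊t + 5⌋ : ℝ) - ⌈t - 5⌉ ≤ 10 := by linarith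
  have h5 : ⌊t + 5⌋ - ⌈t - 5⌉ ≤ 10 := by exact_mod_cast h4
  omega

open MeasureTheory
open scoped ENNReal NNReal

/-- the `d`-dimensional Hausdorff content -/
def cont (d : ℝ) (X : Type*) [EMetricSpace X] : OuterMeasure X :=
  OuterMeasure.ofFunction (fun s => ⨆ _ : s.Nonempty, ediam s ^ d) (by simp)

theorem cont_le_ediam (d : ℝ) {X : Type*} [EMetricSpace X] (s : Set X) :
    cont d X s ≤ ediam s ^ d := by
  refine (OuterMeasure.ofFunction_le s).trans ?_
  exact iSup_le fun _ => le_rfl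

theorem cont_le_of_subset {d : ℝ} (hd : 0 ≤ d) {X : Type*} [MetricSpace X] {s : Set X} {c : X}
    {r : ℝ} (hr : 0 < r) (h : s ⊆ closedBall c r) :
    cont d X s ≤ ENNReal.ofReal ((2 * r) ^ d) := by
  refine (cont_le_ediam d s).trans ?_
  rw [← ENNReal.ofReal_rpow_of_pos (by positivity)]
  apply ENNReal.rpow_le_rpow _ hd
  apply ediam_le
  intro x hx y hy
  rw [edist_dist]
  apply ENNReal.ofReal_le_ofReal
  have h1 := mem_closedBall.1 (h hx)
  have h2 := mem_closedBall.1 (h hy)
  rw [dist_comm] at h2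
  have := dist_triangle x c y
  linarith

theorem content_le (hN : 2 ≤ N) (hm : 9 ≤ m) {d σ : ℝ} (hd : 0 < d) (hσ : 0 < σ)
    (hC : 11 * (((N : ℝ) ^ 2) ^ σ * (1 / N) ^ d) + 16 * N ^ 2 * m * ((1 / (N * m)) ^ d * 2 ^ σ) ≤ 1)
    (k : ℕ) : ∀ {n : ℕ} {T : Sq}, T ∈ S N m n → ∀ (z ρ : ℝ), 0 < ρ → T.w ≤ 2 ^ k * ρ →
    cont d (ℝ × ℝ) (closedBall T.c T.r ∩ {x | |f N m x - z| ≤ ρ}) ≤
      ENNReal.ofReal (2 ^ d * ((N : ℝ) ^ 2) ^ σ * (T.r ^ d * (ρ / T.w) ^ σ)) := by
  classical
  have hN1 : 1 ≤ N := by omega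
  have hN0 : (0 : ℝ) < N := by
    have : 0 < N := by omega
    exact_mod_cast this
  have hN2 : (2 : ℝ) ≤ N := by exact_mod_cast hN
  have hm9 : (9 : ℝ) ≤ m := by exact_mod_cast hm
  -- the trivial bound
  have base : ∀ {n : ℕ} {T : Sq}, T ∈ S N m n → ∀ (z ρ : ℝ), 0 < ρ → T.w / N ^ 2 ≤ ρ →
      cont d (ℝ × ℝ) (closedBall T.c T.r ∩ {x | |f N m x - z| ≤ ρ}) ≤
      ENNReal.ofReal (2 ^ d * ((N : ℝ) ^ 2) ^ σ * (T.r ^ d * (ρ / T.w) ^ σ)) := by
    intro n T hT z ρ hρ h
    have hr := S_r_pos hN1 hm hT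
    have hw := (S_w hN hm hT).1
    refine (cont_le_of_subset hd.le hr inter_subset_left).trans ?_
    apply ENNReal.ofReal_le_ofReal
    rw [Real.mul_rpow (by norm_num) hr.le]
    have h1 : 1 ≤ ((N : ℝ) ^ 2) ^ σ * (ρ / T.w) ^ σ := by
      rw [← Real.mul_rpow (by positivity) (by positivity)]
      apply Real.one_le_rpow _ hσ.le
      rw [div_le_iff₀ (by positivity)] at h
      rw [← mul_div_assoc, le_div_iff₀ hw]
      linarith
    have h2 : (0 : ℝ) ≤ 2 ^ d * T.r ^ d := by positivity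
    calc (2 : ℝ) ^ d * T.r ^ d = 2 ^ d * T.r ^ d * 1 := (mul_one _).symm
      _ ≤ 2 ^ d * T.r ^ d * (((N : ℝ) ^ 2) ^ σ * (ρ / T.w) ^ σ) :=
          mul_le_mul_of_nonneg_left h1 h2
      _ = _ := by ring
  induction k with
  | zero =>
    intro n T hT z ρ hρ h
    apply base hT z ρ hρ
    have hw := (S_w hN hm hT).1
    rw [pow_zero, one_mul] at h
    refine le_trans ?_ h
    apply div_le_self hw.le
    nlinarith
  | succ k ih =>
    intro n T hT z ρ hρ h
    by_cases hb : T.w / N ^ 2 ≤ ρ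
    · exact base hT z ρ hρ hb
    push Not at hb
    have hr := S_r_pos hN1 hm hT
    have hw := (S_w hN hm hT).1
    have hu := un_pos hN1 hm hr
    have hun : un N m T = T.r * (1 / (N * m)) := by
      unfold un
      rw [mul_one_div]
    set J : Set (ℝ × ℝ) := {x | |f N m x - z| ≤ ρ} with hJ
    have hsub : closedBall T.c T.r ∩ J ⊆
        (⋃ i ∈ Good (N := N) T (F N m n T.c) z,
          closedBall (big N m T i).c (big N m T i).r ∩ J) ∪
        ((⋃ x ∈ (Finset.univ : Finset (Fin N × Fin 8 × Fin (N * m))),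
          closedBall (small N m T (x.1 * m + bd m x.2.1) x.2.2).c
            (small N m T (x.1 * m + bd m x.2.1) x.2.2).r ∩ J) ∪
        (⋃ x ∈ (Finset.univ : Finset (Fin N × Fin 8 × Fin (N * m))),
          closedBall (small N m T x.2.2 (x.1 * m + bd m x.2.1)).c
            (small N m T x.2.2 (x.1 * m + bd m x.2.1)).r ∩ J)) := by
      rintro x ⟨hx, hxJ⟩
      obtain ⟨T', hT', hxT'⟩ := children_cover hN1 hm hr hx
      have hT'2 := hT'
      unfold children at hT'2
      simp only [Finset.mem_union, Finset.mem_image, Finset.mem_univ, true_and] at hT'2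
      rcases hT'2 with ⟨i, rfl⟩ | ⟨y, rfl⟩ | ⟨y, rfl⟩
      · left
        refine mem_iUnion₂.2 ⟨i, ?_, hxT', hxJ⟩
        unfold Good
        rw [Finset.mem_filter]
        refine ⟨Finset.mem_univ _, ?_⟩
        have h1 := f_bound hN hm (mem_S_succ.2 ⟨T, hT, hT'⟩) hxT'
        have h2 : F N m (n + 1) x = F N m n T.c + val N i * T.w := by
          rw [F_block hN1 hm hT (big_subset_block hN1 hm hr i hxT'), bump_eq_one hu hxT']
          ring
        rw [h2] at h1
        have h3 : |f N m x - (F N m n T.c + val N i * T.w)| ≤ 4 * (T.w / N ^ 2) := h1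
        have h4 : |f N m x - z| ≤ ρ := hxJ
        have h5 : F N m n T.c + val N i * T.w - z =
            (f N m x - z) - (f N m x - (F N m n T.c + val N i * T.w)) := by ring
        rw [h5]
        refine (abs_sub _ _).trans ?_
        linarith
      · right; left
        exact mem_iUnion₂.2 ⟨y, Finset.mem_univ _, hxT', hxJ⟩
      · right; right
        exact mem_iUnion₂.2 ⟨y, Finset.mem_univ _, hxT', hxJ⟩
    set B : ℝ := 2 ^ d * ((N : ℝ) ^ 2) ^ σ with hB
    have hB0 : 0 ≤ B := by positivity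
    set Q : ℝ := T.r ^ d * (ρ / T.w) ^ σ with hQ
    have hQ0 : 0 ≤ Q := by positivity
    -- big squares
    have hbig : ∀ i, cont d (ℝ × ℝ) (closedBall (big N m T i).c (big N m T i).r ∩ J) ≤
        ENNReal.ofReal (((N : ℝ) ^ 2) ^ σ * (1 / N) ^ d * (B * Q)) := by
      intro i
      have hmem : big N m T i ∈ S N m (n + 1) :=
        mem_S_succ.2 ⟨T, hT, (mem_children hm).2 (Or.inl ⟨i, rfl⟩)⟩
      refine (ih hmem z ρ hρ ?_).trans ?_
      · show T.w / N ^ 2 ≤ 2 ^ k * ρ
        rw [div_le_iff₀ (by positivity)]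
        have : (2 : ℝ) ≤ N ^ 2 := by nlinarith
        have h3 : (0 : ℝ) ≤ 2 ^ k * ρ := by positivity
        rw [pow_succ] at h
        nlinarith
      · apply ENNReal.ofReal_le_ofReal
        show B * ((un N m T * (m - 8)) ^ d * (ρ / (T.w / N ^ 2)) ^ σ) ≤ _
        have h1 : (un N m T * (m - 8)) ^ d ≤ (T.r * (1 / N)) ^ d := by
          apply Real.rpow_le_rpow _ _ hd.le
          · apply mul_nonneg hu.le; linarith
          · rw [hun, mul_assoc]
            apply mul_le_mul_of_nonneg_left _ hr.le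
            rw [one_div_mul_eq_div, div_le_div_iff₀ (by positivity) hN0]
            nlinarith
        have h2 : (ρ / (T.w / N ^ 2)) ^ σ = ((N : ℝ) ^ 2) ^ σ * (ρ / T.w) ^ σ := by
          rw [← Real.mul_rpow (by positivity) (by positivity)]
          congr 1
          field_simp
        rw [h2]
        have h3 : (T.r * (1 / N)) ^ d = T.r ^ d * (1 / N) ^ d :=
          Real.mul_rpow hr.le (by positivity)
        rw [h3] at h1
        calc B * ((un N m T * (m - 8)) ^ d * (((N : ℝ) ^ 2) ^ σ * (ρ / T.w) ^ σ))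
            ≤ B * ((T.r ^ d * (1 / N) ^ d) * (((N : ℝ) ^ 2) ^ σ * (ρ / T.w) ^ σ)) := by
              apply mul_le_mul_of_nonneg_left _ hB0
              exact mul_le_mul_of_nonneg_right h1 (by positivity)
          _ = _ := by rw [hQ]; ring
    -- small squares
    have hsmall : ∀ p q : ℕ, small N m T p q ∈ S N m (n + 1) →
        cont d (ℝ × ℝ) (closedBall (small N m T p q).c (small N m T p q).r ∩ J) ≤
        ENNReal.ofReal ((1 / (N * m)) ^ d * 2 ^ σ * (B * Q)) := by
      intro p q hmem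
      refine (ih hmem z ρ hρ ?_).trans ?_
      · show T.w / 2 ≤ 2 ^ k * ρ
        rw [pow_succ] at h
        linarith
      · apply ENNReal.ofReal_le_ofReal
        show B * ((un N m T) ^ d * (ρ / (T.w / 2)) ^ σ) ≤ _
        have h2 : (ρ / (T.w / 2)) ^ σ = 2 ^ σ * (ρ / T.w) ^ σ := by
          rw [← Real.mul_rpow (by positivity) (by positivity)]
          congr 1
          field_simp
        rw [h2, hun, Real.mul_rpow hr.le (by positivity), hQ]
        apply le_of_eq
        ring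
    refine (measure_mono hsub).trans ?_
    refine (measure_union_le _ _).trans ?_
    refine (add_le_add le_rfl (measure_union_le _ _)).trans ?_
    have h1 : cont d (ℝ × ℝ) (⋃ i ∈ Good (N := N) T (F N m n T.c) z,
          closedBall (big N m T i).c (big N m T i).r ∩ J) ≤
        ENNReal.ofReal (11 * (((N : ℝ) ^ 2) ^ σ * (1 / N) ^ d * (B * Q))) := by
      refine (measure_biUnion_finset_le _ _).trans ?_
      refine (Finset.sum_le_sum fun i _ => hbig i).trans ?_
      rw [Finset.sum_const, nsmul_eq_mul, ENNReal.ofReal_mul (by norm_num : (0 : ℝ) ≤ 11)]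
      gcongr
      have := card_Good hN hw (F N m n T.c) z
      rw [ENNReal.ofReal_ofNat]
      exact_mod_cast this
    have hcard : (Finset.univ : Finset (Fin N × Fin 8 × Fin (N * m))).card = 8 * N ^ 2 * m := by
      rw [Finset.card_univ]
      simp only [Fintype.card_prod, Fintype.card_fin]
      ring
    have h2 : cont d (ℝ × ℝ) (⋃ x ∈ (Finset.univ : Finset (Fin N × Fin 8 × Fin (N * m))),
          closedBall (small N m T (x.1 * m + bd m x.2.1) x.2.2).c
            (small N m T (x.1 * m + bd m x.2.1) x.2.2).r ∩ J) ≤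
        ENNReal.ofReal ((8 * N ^ 2 * m : ℕ) * ((1 / (N * m)) ^ d * 2 ^ σ * (B * Q))) := by
      refine (measure_biUnion_finset_le _ _).trans ?_
      refine (Finset.sum_le_sum fun x _ => hsmall _ _ ?_).trans ?_
      · refine mem_S_succ.2 ⟨T, hT, (mem_children hm).2 (Or.inr ⟨_, _, bdpos_lt hm _ _,
          x.2.2.2, Or.inl (bor_bd hm _ _), rfl⟩)⟩
      rw [Finset.sum_const, nsmul_eq_mul, hcard,
        ENNReal.ofReal_mul (show (0 : ℝ) ≤ ((8 * N ^ 2 * m : ℕ) : ℝ) by positivity),
        ENNReal.ofReal_natCast]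
    have h3 : cont d (ℝ × ℝ) (⋃ x ∈ (Finset.univ : Finset (Fin N × Fin 8 × Fin (N * m))),
          closedBall (small N m T x.2.2 (x.1 * m + bd m x.2.1)).c
            (small N m T x.2.2 (x.1 * m + bd m x.2.1)).r ∩ J) ≤
        ENNReal.ofReal ((8 * N ^ 2 * m : ℕ) * ((1 / (N * m)) ^ d * 2 ^ σ * (B * Q))) := by
      refine (measure_biUnion_finset_le _ _).trans ?_
      refine (Finset.sum_le_sum fun x _ => hsmall _ _ ?_).trans ?_
      · refine mem_S_succ.2 ⟨T, hT, (mem_children hm).2 (Or.inr ⟨_, _, x.2.2.2, bdpos_lt hm _ _,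
          Or.inr (bor_bd hm _ _), rfl⟩)⟩
      rw [Finset.sum_const, nsmul_eq_mul, hcard,
        ENNReal.ofReal_mul (show (0 : ℝ) ≤ ((8 * N ^ 2 * m : ℕ) : ℝ) by positivity),
        ENNReal.ofReal_natCast]
    refine (add_le_add h1 (add_le_add h2 h3)).trans ?_
    rw [← ENNReal.ofReal_add (by positivity) (by positivity),
      ← ENNReal.ofReal_add (by positivity) (by positivity)]
    apply ENNReal.ofReal_le_ofReal
    push_cast
    calc _ = (11 * (((N : ℝ) ^ 2) ^ σ * (1 / N) ^ d) +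
          16 * N ^ 2 * m * ((1 / (N * m)) ^ d * 2 ^ σ)) * (B * Q) := by ring
      _ ≤ 1 * (B * Q) := mul_le_mul_of_nonneg_right hC (by positivity)
      _ = B * Q := one_mul _


theorem iSup_ediam_eq {d : ℝ} (hd : 0 < d) {X : Type*} [EMetricSpace X] (s : Set X) :
    (⨆ _ : s.Nonempty, ediam s ^ d) = ediam s ^ d := by
  rcases s.eq_empty_or_nonempty with h | h
  · subst h
    simp [hd]
  · exact iSup_pos h

/-- content zero implies Hausdorff measure zero -/
theorem hausdorff_zero_of_cont {d : ℝ} (hd : 0 < d) {X : Type*} [MetricSpace X]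
    [MeasurableSpace X] [BorelSpace X] {s : Set X} (h : cont d X s = 0) : μH[d] s = 0 := by
  -- covers
  have hcov : ∀ n : ℕ, ∃ t : ℕ → Set X, s ⊆ ⋃ i, t i ∧
      ∑' i, ediam (t i) ^ d < (1 / 2 : ℝ≥0∞) ^ n := by
    intro n
    have h1 : cont d X s < (1 / 2 : ℝ≥0∞) ^ n := by
      rw [h]
      exact ENNReal.pow_pos (by simp) n
    unfold cont at h1
    rw [OuterMeasure.ofFunction_apply] at h1
    simp only [iInf_lt_iff] at h1
    obtain ⟨t, ht, hlt⟩ := h1
    refine ⟨t, ht, ?_⟩
    simpa only [iSup_ediam_eq hd] using hlt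
  choose t ht hlt using hcov
  have hdiam : ∀ n i, ediam (t n i) ≤ ((1 / 2 : ℝ≥0∞) ^ n) ^ d⁻¹ := by
    intro n i
    rw [ENNReal.le_rpow_inv_iff hd]
    exact (ENNReal.le_tsum i).trans (hlt n).le
  have hpow : Tendsto (fun n : ℕ => (1 / 2 : ℝ≥0∞) ^ n) atTop (𝓝 0) := by
    apply ENNReal.tendsto_pow_atTop_nhds_zero_of_lt_one
    rw [one_div]
    exact ENNReal.inv_lt_one.2 (by norm_num)
  have hr : Tendsto (fun n : ℕ => ((1 / 2 : ℝ≥0∞) ^ n) ^ d⁻¹) atTop (𝓝 0) := by
    have h2 := (ENNReal.continuous_rpow_const (y := d⁻¹)).tendsto 0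
    rw [ENNReal.zero_rpow_of_pos (by positivity)] at h2
    exact h2.comp hpow
  have h3 := Measure.hausdorffMeasure_le_liminf_tsum (ι := fun _ : ℕ => ℕ) d s (l := atTop)
    (fun n : ℕ => ((1 / 2 : ℝ≥0∞) ^ n) ^ d⁻¹) hr t
    (Eventually.of_forall fun n i => hdiam n i) (Eventually.of_forall ht)
  have h4 : Tendsto (fun n => ∑' i, ediam (t n i) ^ d) atTop (𝓝 0) :=
    tendsto_of_tendsto_of_tendsto_of_le_of_le tendsto_const_nhds hpow (fun _ => zero_le)
      (fun n => (hlt n).le)
  rw [h4.liminf_eq] at h3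
  exact le_antisymm h3 zero_le

/-- Hausdorff measure zero implies content zero -/
theorem cont_zero_of_hausdorff {d : ℝ} {X : Type*} [MetricSpace X]
    [MeasurableSpace X] [BorelSpace X] {s : Set X} (h : μH[d] s = 0) : cont d X s = 0 := by
  have h1 : cont d X s ≤ μH[d] s := by
    rw [Measure.hausdorffMeasure_apply]
    refine le_trans ?_ (le_iSup₂ (f := fun (r : ℝ≥0∞) (_ : 0 < r) =>
        ⨅ (t : ℕ → Set X) (_ : s ⊆ ⋃ n, t n) (_ : ∀ n, ediam (t n) ≤ r),
          ∑' n, ⨆ _ : (t n).Nonempty, ediam (t n) ^ d) 1 one_pos)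
    unfold cont
    rw [OuterMeasure.ofFunction_apply]
    refine le_iInf fun t => le_iInf fun ht => le_iInf fun _ => ?_
    exact iInf₂_le t ht
  rw [h] at h1
  exact le_antisymm h1 zero_le

/-- the content inequality for arbitrary sets of values -/
theorem cont_preimage (hN : 2 ≤ N) (hm : 9 ≤ m) {d σ : ℝ} (hd : 0 < d) (hσ : 0 < σ)
    (hC : 11 * (((N : ℝ) ^ 2) ^ σ * (1 / N) ^ d) + 16 * N ^ 2 * m * ((1 / (N * m)) ^ d * 2 ^ σ) ≤ 1)
    {Z : Set ℝ} (hZ : cont σ ℝ Z = 0) :
    cont d (ℝ × ℝ) (closedBall (0, 0) 1 ∩ f N m ⁻¹' Z) = 0 := by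
  set A : ℝ := 2 ^ d * ((N : ℝ) ^ 2) ^ σ with hA
  have hN0 : (0 : ℝ) < N := by
    have : 0 < N := by omega
    exact_mod_cast this
  have hA0 : 0 < A := by positivity
  -- one set
  have hone : ∀ (t : Set ℝ) (δ : ℝ), 0 < δ → ediam t ≤ ENNReal.ofReal δ →
      cont d (ℝ × ℝ) (closedBall (0, 0) 1 ∩ f N m ⁻¹' t) ≤ ENNReal.ofReal (A * δ ^ σ) := by
    intro t δ hδ ht
    rcases t.eq_empty_or_nonempty with h | ⟨z, hz⟩
    · subst h
      simp
    · have hmem : (⟨(0, 0), 1, 1⟩ : Sq) ∈ S N m 0 := Finset.mem_singleton_self _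
      obtain ⟨k, hk⟩ : ∃ k : ℕ, (1 : ℝ) ≤ 2 ^ k * δ := by
        obtain ⟨k, hk⟩ := pow_unbounded_of_one_lt (1 / δ) (show (1 : ℝ) < 2 by norm_num)
        refine ⟨k, ?_⟩
        rw [div_lt_iff₀ hδ] at hk
        exact hk.le
      have h1 := content_le hN hm hd hσ hC k hmem z δ hδ hk
      simp only [Real.one_rpow, one_mul, div_one] at h1
      refine (measure_mono ?_).trans h1
      rintro x ⟨hx1, hx2⟩
      refine ⟨hx1, ?_⟩
      have hx3 : f N m x ∈ t := hx2
      have h2 := (edist_le_ediam_of_mem hx3 hz).trans ht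
      rw [edist_dist, ENNReal.ofReal_le_ofReal_iff hδ.le] at h2
      exact h2
  -- covers
  apply le_antisymm _ zero_le
  apply ENNReal.le_of_forall_pos_le_add
  intro ε hε _
  rw [zero_add]
  set ε1 : ℝ := ε / (2 * A) with hε1
  have hε0 : (0 : ℝ) < ε := hε
  have hε1pos : 0 < ε1 := by positivity
  have h1 : cont σ ℝ Z < ENNReal.ofReal ε1 := by
    rw [hZ]
    exact ENNReal.ofReal_pos.2 hε1pos
  unfold cont at h1
  rw [OuterMeasure.ofFunction_apply] at h1
  simp only [iInf_lt_iff] at h1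
  obtain ⟨t, ht, hlt⟩ := h1
  simp only [iSup_ediam_eq hσ] at hlt
  obtain ⟨e, he, hesum⟩ := ENNReal.exists_pos_sum_of_countable
    (ENNReal.ofReal_pos.2 hε1pos).ne' ℕ
  have hfin : ∀ n, ediam (t n) ≠ ⊤ := by
    intro n hn
    have h2 : ediam (t n) ^ σ ≤ ∑' i, ediam (t i) ^ σ := ENNReal.le_tsum n
    rw [hn, ENNReal.top_rpow_of_pos hσ, top_le_iff] at h2
    rw [h2] at hlt
    exact not_top_lt hlt
  let δ : ℕ → ℝ := fun n => max (ediam (t n)).toReal ((e n : ℝ) ^ σ⁻¹)
  have hδ0 : ∀ n, 0 < δ n := by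
    intro n
    apply lt_max_of_lt_right
    exact Real.rpow_pos_of_pos (he n) _
  have hδ1 : ∀ n, ediam (t n) ≤ ENNReal.ofReal (δ n) := by
    intro n
    rw [← ENNReal.ofReal_toReal (hfin n)]
    exact ENNReal.ofReal_le_ofReal (le_max_left _ _)
  have hδ2 : ∀ n, ENNReal.ofReal (δ n ^ σ) ≤ ediam (t n) ^ σ + e n := by
    intro n
    rcases le_total ((e n : ℝ) ^ σ⁻¹) (ediam (t n)).toReal with h | h
    · have h2 : δ n = (ediam (t n)).toReal := max_eq_left h
      rw [h2, ENNReal.toReal_rpow, ENNReal.ofReal_toReal]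
      · exact le_self_add
      · exact ENNReal.rpow_ne_top_of_nonneg hσ.le (hfin n)
    · have h2 : δ n = (e n : ℝ) ^ σ⁻¹ := max_eq_right h
      rw [h2, ← Real.rpow_mul (by positivity), inv_mul_cancel₀ hσ.ne', Real.rpow_one,
        ENNReal.ofReal_coe_nnreal]
      exact le_add_self
  calc cont d (ℝ × ℝ) (closedBall (0, 0) 1 ∩ f N m ⁻¹' Z)
      ≤ cont d (ℝ × ℝ) (⋃ n, closedBall (0, 0) 1 ∩ f N m ⁻¹' (t n)) := by
        apply measure_mono
        rintro x ⟨hx1, hx2⟩
        obtain ⟨n, hn⟩ := mem_iUnion.1 (ht hx2)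
        exact mem_iUnion.2 ⟨n, hx1, hn⟩
    _ ≤ ∑' n, cont d (ℝ × ℝ) (closedBall (0, 0) 1 ∩ f N m ⁻¹' (t n)) := measure_iUnion_le _
    _ ≤ ∑' n, ENNReal.ofReal A * (ediam (t n) ^ σ + e n) := by
        apply ENNReal.tsum_le_tsum
        intro n
        refine (hone (t n) (δ n) (hδ0 n) (hδ1 n)).trans ?_
        rw [ENNReal.ofReal_mul hA0.le]
        exact mul_le_mul_right (hδ2 n) _
    _ = ENNReal.ofReal A * (∑' n, ediam (t n) ^ σ + ∑' n, (e n : ℝ≥0∞)) := by
        rw [ENNReal.tsum_mul_left, ENNReal.tsum_add]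
    _ ≤ ENNReal.ofReal A * (ENNReal.ofReal ε1 + ENNReal.ofReal ε1) :=
        mul_le_mul_right (add_le_add hlt.le hesum.le) _
    _ = ε := by
        rw [← ENNReal.ofReal_add hε1pos.le hε1pos.le, ← ENNReal.ofReal_mul hA0.le]
        have : A * (ε1 + ε1) = ε := by
          rw [hε1]
          field_simp
          ring
        rw [this, ENNReal.ofReal_coe_nnreal]


/-- the limit function vanishes outside the open square -/
theorem f_eq_zero (hN : 2 ≤ N) (hm : 9 ≤ m) {x : ℝ × ℝ} (hx : x ∉ ball ((0, 0) : ℝ × ℝ) 1) :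
    f N m x = 0 := by
  have hN1 : 1 ≤ N := by omega
  have hS : ∀ n, ∀ T ∈ S N m n, ball T.c T.r ⊆ ball ((0, 0) : ℝ × ℝ) 1 := by
    intro n
    induction n with
    | zero =>
      intro T hT
      have : T = ⟨(0, 0), 1, 1⟩ := Finset.mem_singleton.1 hT
      rw [this]
    | succ n ih =>
      intro T hT
      obtain ⟨P, hP, hTP⟩ := mem_S_succ.1 hT
      exact (child_ball_subset hN1 hm (S_r_pos hN1 hm hP) hTP).trans (ih P hP)
  have hF : ∀ n, F N m n x = 0 := by
    intro n
    induction n with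
    | zero => rfl
    | succ n ih =>
      rw [F_succ_eq' hN1 hm, ih]
      intro T hT hx'
      exact hx (hS n T hT hx')
  have h1 := tendsto_f hN hm x
  simp only [hF] at h1
  exact tendsto_nhds_unique h1 tendsto_const_nhds

/-- choice of the parameters -/
theorem exists_params {d σ : ℝ} (hd : 1 < d) (h : 2 * σ < d) : ∃ N m : ℕ, 2 ≤ N ∧ 9 ≤ m ∧
    11 * (((N : ℝ) ^ 2) ^ σ * (1 / N) ^ d) + 16 * N ^ 2 * m * ((1 / (N * m)) ^ d * 2 ^ σ) ≤ 1 := by
  have h1 : Tendsto (fun N : ℕ => 11 * (((N : ℝ) ^ 2) ^ σ * (1 / N) ^ d)) atTop (𝓝 0) := by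
    have h2 : Tendsto (fun N : ℕ => 11 * (N : ℝ) ^ (-(d - 2 * σ))) atTop (𝓝 (11 * 0)) := by
      apply Tendsto.const_mul
      exact (tendsto_rpow_neg_atTop (by linarith)).comp tendsto_natCast_atTop_atTop
    rw [mul_zero] at h2
    refine h2.congr' ?_
    filter_upwards [eventually_gt_atTop 0] with N hN
    have hN0 : (0 : ℝ) < N := by exact_mod_cast hN
    rw [← Real.rpow_natCast (N : ℝ) 2, ← Real.rpow_mul hN0.le, one_div, Real.inv_rpow hN0.le,
      ← Real.rpow_neg hN0.le, ← Real.rpow_add hN0]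
    congr 2
    push_cast
    ring
  obtain ⟨N, hN⟩ := ((tendsto_order.1 h1).2 (1 / 2) (by norm_num)).and
    (eventually_ge_atTop 2) |>.exists
  have hN0 : (0 : ℝ) < N := by
    have : 0 < N := by omega
    exact_mod_cast this
  have h3 : Tendsto (fun m : ℕ => 16 * (N : ℝ) ^ 2 * m * ((1 / (N * m)) ^ d * 2 ^ σ)) atTop
      (𝓝 0) := by
    have h4 : Tendsto (fun m : ℕ => (16 * (N : ℝ) ^ 2 * ((1 / N) ^ d * 2 ^ σ)) *
        (m : ℝ) ^ (-(d - 1))) atTop (𝓝 ((16 * (N : ℝ) ^ 2 * ((1 / N) ^ d * 2 ^ σ)) * 0)) := by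
      apply Tendsto.const_mul
      exact (tendsto_rpow_neg_atTop (by linarith)).comp tendsto_natCast_atTop_atTop
    rw [mul_zero] at h4
    refine h4.congr' ?_
    filter_upwards [eventually_gt_atTop 0] with m hm
    have hm0 : (0 : ℝ) < m := by exact_mod_cast hm
    have h5 : (1 / ((N : ℝ) * m)) ^ d = (1 / N) ^ d * (1 / m) ^ d := by
      rw [← Real.mul_rpow (by positivity) (by positivity)]
      congr 1
      field_simp
    have h6 : (m : ℝ) ^ (-(d - 1)) = m * (1 / m) ^ d := by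
      rw [one_div, Real.inv_rpow hm0.le, ← Real.rpow_neg hm0.le]
      nth_rewrite 2 [← Real.rpow_one (m : ℝ)]
      rw [← Real.rpow_add hm0]
      congr 1
      ring
    rw [h5, h6]
    ring
  obtain ⟨m, hm⟩ := ((tendsto_order.1 h3).2 (1 / 2) (by norm_num)).and
    (eventually_ge_atTop 9) |>.exists
  exact ⟨N, m, hN.2, hm.2, by linarith [hN.1, hm.1]⟩

/-- the translates -/
def sh (v : ℤ × ℤ) : ℝ × ℝ := (2 * v.1, 2 * v.2)

theorem sh_dist {v w : ℤ × ℤ} (h : v ≠ w) : 2 ≤ dist (sh v) (sh w) := by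
  unfold sh
  rw [Prod.dist_eq, Real.dist_eq, Real.dist_eq]
  simp only
  by_cases h1 : v.1 = w.1
  · have h2 : v.2 ≠ w.2 := fun h2 => h (Prod.ext h1 h2)
    apply le_max_of_le_right
    have h3 : (1 : ℤ) ≤ |v.2 - w.2| := Int.one_le_abs (sub_ne_zero.2 h2)
    have h4 : (1 : ℝ) ≤ |(v.2 : ℝ) - w.2| := by exact_mod_cast h3
    rw [← mul_sub, abs_mul, abs_two]
    linarith
  · apply le_max_of_le_left
    have h3 : (1 : ℤ) ≤ |v.1 - w.1| := Int.one_le_abs (sub_ne_zero.2 h1)
    have h4 : (1 : ℝ) ≤ |(v.1 : ℝ) - w.1| := by exact_mod_cast h3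
    rw [← mul_sub, abs_mul, abs_two]
    linarith

theorem sh_cover (x : ℝ × ℝ) : ∃ v, x ∈ closedBall (sh v) 1 := by
  refine ⟨(⌊(x.1 + 1) / 2⌋, ⌊(x.2 + 1) / 2⌋), ?_⟩
  unfold sh
  rw [mem_closedBall, Prod.dist_eq, Real.dist_eq, Real.dist_eq]
  have h1 := Int.floor_le ((x.1 + 1) / 2)
  have h2 := Int.lt_floor_add_one ((x.1 + 1) / 2)
  have h3 := Int.floor_le ((x.2 + 1) / 2)
  have h4 := Int.lt_floor_add_one ((x.2 + 1) / 2)
  apply max_le
  · rw [abs_le]
    constructor <;> simp only <;> linarith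
  · rw [abs_le]
    constructor <;> simp only <;> linarith

/-- the function on the whole plane -/
theorem exists_plane {d σ : ℝ} (hd : 1 < d) (hσ : 0 < σ) (h : 2 * σ < d) :
    ∃ g : ℝ × ℝ → ℝ, Continuous g ∧ ∀ E : Set (ℝ × ℝ), dimH (g '' E) < ENNReal.ofReal σ →
      dimH E ≤ ENNReal.ofReal d := by
  obtain ⟨N, m, hN, hm, hC⟩ := exists_params hd h
  have hd0 : 0 < d := by linarith
  let φ : ℤ × ℤ → ℝ × ℝ → ℝ := fun v x => f N m (x - sh v)
  have hφ : ∀ v x, x ∉ ball (sh v) 1 → φ v x = 0 := by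
    intro v x hx
    apply f_eq_zero hN hm
    intro h'
    apply hx
    rw [mem_ball] at h' ⊢
    rw [show ((0, 0) : ℝ × ℝ) = 0 from rfl, dist_zero_right] at h'
    rwa [dist_eq_norm]
  have hφc : ∀ v, Continuous (φ v) := fun v =>
    (f_continuous hN hm).comp (continuous_id.sub continuous_const)
  have hlf : LocallyFinite fun v => Function.support (φ v) := by
    intro x
    refine ⟨ball x 1, ball_mem_nhds x one_pos, ?_⟩
    have hsub : {v : ℤ × ℤ | (Function.support (φ v) ∩ ball x 1).Nonempty} ⊆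
        (Finset.Icc ⌈(x.1 - 2) / 2⌉ ⌊(x.1 + 2) / 2⌋ ×ˢ
          Finset.Icc ⌈(x.2 - 2) / 2⌉ ⌊(x.2 + 2) / 2⌋ : Finset (ℤ × ℤ)) := by
      rintro v ⟨y, hy1, hy2⟩
      have hy3 : y ∈ ball (sh v) 1 := by
        by_contra h'
        exact hy1 (hφ v y h')
      rw [mem_ball] at hy2 hy3
      have h1 : dist (sh v) x ≤ 2 := by
        have := dist_triangle (sh v) y x
        rw [dist_comm (sh v) y] at this
        linarith
      rw [Prod.dist_eq, max_le_iff, Real.dist_eq, Real.dist_eq, abs_le, abs_le] at h1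
      obtain ⟨⟨h2, h3⟩, h4, h5⟩ := h1
      unfold sh at h2 h3 h4 h5
      simp only at h2 h3 h4 h5
      simp only [Finset.coe_product, Finset.coe_Icc, Set.mem_prod, Set.mem_Icc, Int.ceil_le,
        Int.le_floor]
      refine ⟨⟨?_, ?_⟩, ?_, ?_⟩ <;> linarith
    exact (Finset.finite_toSet _).subset hsub
  refine ⟨fun x => ∑ᶠ v, φ v x, continuous_finsum hφc hlf, ?_⟩
  intro E hE
  have hval : ∀ v x, x ∈ closedBall (sh v) 1 → (∑ᶠ w, φ w x) = f N m (x - sh v) := by
    intro v x hx
    rw [finsum_eq_single _ v]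
    intro w hw
    apply hφ
    intro hx'
    rw [mem_closedBall, dist_comm] at hx
    rw [mem_ball] at hx'
    have h1 := sh_dist (Ne.symm hw)
    have h2 := dist_triangle (sh v) x (sh w)
    linarith
  -- pieces
  have hpiece : ∀ v, dimH (E ∩ closedBall (sh v) 1) ≤ ENNReal.ofReal d := by
    intro v
    set E' : Set (ℝ × ℝ) := (fun x => x - sh v) '' (E ∩ closedBall (sh v) 1) with hE'
    have h1 : dimH E' = dimH (E ∩ closedBall (sh v) 1) :=
      (IsometryEquiv.subRight (sh v)).dimH_image _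
    rw [← h1]
    have h2 : f N m '' E' ⊆ (fun x => ∑ᶠ w, φ w x) '' E := by
      rintro _ ⟨_, ⟨x, ⟨hx1, hx2⟩, rfl⟩, rfl⟩
      exact ⟨x, hx1, hval v x hx2⟩
    have h3 : dimH (f N m '' E') < ((σ.toNNReal : ℝ≥0) : ℝ≥0∞) := (dimH_mono h2).trans_lt hE
    have h3' := hausdorffMeasure_of_dimH_lt h3
    rw [Real.coe_toNNReal σ hσ.le] at h3'
    have h4 := cont_zero_of_hausdorff h3'
    have h5 := cont_preimage hN hm hd0 hσ hC h4
    have h6 : cont d (ℝ × ℝ) E' = 0 := by
      refine le_antisymm ((measure_mono ?_).trans h5.le) zero_le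
      intro y hy
      refine ⟨?_, ⟨y, hy, rfl⟩⟩
      obtain ⟨x, ⟨_, hx2⟩, rfl⟩ := hy
      rw [mem_closedBall] at hx2 ⊢
      rw [show ((0, 0) : ℝ × ℝ) = 0 from rfl, dist_zero_right]
      rwa [dist_eq_norm] at hx2
    have h7 := hausdorff_zero_of_cont hd0 h6
    have h8 : dimH E' ≤ ((d.toNNReal : ℝ≥0) : ℝ≥0∞) := by
      apply dimH_le_of_hausdorffMeasure_ne_top
      rw [Real.coe_toNNReal d hd0.le, h7]
      exact ENNReal.zero_ne_top
    exact h8
  have hcov : E ⊆ ⋃ v, E ∩ closedBall (sh v) 1 := by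
    intro x hx
    obtain ⟨v, hv⟩ := sh_cover x
    exact mem_iUnion.2 ⟨v, hx, hv⟩
  refine (dimH_mono hcov).trans ?_
  rw [dimH_iUnion]
  exact iSup_le hpiece

end

end Pool.Agent.V11243.WildPlane
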